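import Pool.Agent.CZT.ADefs
import Pool.Agent.CPZ.FxL
import Pool.Agent.CPZ.TRb

/-!
# CZT/A1: first properties of `AS`

`comm`, `σ3`, `τ3`: comparison on the generators.  `ind1`: the 82 elements of `g1` generate `R`, whose transcendence degree
is at least 82, so they are algebraically independent.
-/

set_option autoImplicit false

namespace CZT

open IntermediateField

universe u v

variable {F : Type u} {R : Type v} [Field F] [Field R] [Algebra F R]

namespace AS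

variable (A : AS F R)

private theorem A1_aut (φ ψ : R ≃ₐ[F] R) (h1 : ∀ i j, φ (A.u i j) = ψ (A.u i j)) (h2 : φ A.th = ψ A.th)
    (h3 : φ A.et = ψ A.et) (h4 : ∀ k, φ (A.t k) = ψ (A.t k)) (a : R) : φ a = ψ a := by
  have h := CPZ.aut_ext _ A.gen φ ψ (by
    rintro r ((⟨p, rfl⟩ | hr) | ⟨k, rfl⟩)
    · exact h1 p.1 p.2
    · rcases hr with rfl | hr
      · exact h2
      · rw [Set.mem_singleton_iff] at hr
        rw [hr]
        exact h3
    · exact h4 k)
  rw [h]

theorem comm (a : R) : A.σ (A.τ a) = A.τ (A.σ a) := by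
  refine A.A1_aut (A.τ.trans A.σ) (A.σ.trans A.τ) ?_ ?_ ?_ ?_ a
  · intro i j
    simp only [AlgEquiv.trans_apply]
    rw [A.τu, A.σu, A.σu, A.τu]
  · simp only [AlgEquiv.trans_apply]
    rw [A.τth, A.σth, map_add, A.τth, map_one]
  · simp only [AlgEquiv.trans_apply]
    rw [A.τet, A.σet, map_add, A.σet, A.τet, map_one]
  · intro k
    simp only [AlgEquiv.trans_apply]
    rw [A.τt, A.σt, A.τt]

private theorem A1_z3 : ∀ j : ZMod 3, j + 1 + 1 + 1 = j := by
  decide

private theorem A1_r3 [CharP R 3] (a : R) : a + 1 + 1 + 1 = a := by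
  have h3 : (3 : R) = 0 := CharP.ofNat_eq_zero R 3
  linear_combination h3

theorem σ3 [CharP R 3] (a : R) : A.σ (A.σ (A.σ a)) = a := by
  refine A.A1_aut ((A.σ.trans A.σ).trans A.σ) AlgEquiv.refl ?_ ?_ ?_ ?_ a
  · intro i j
    simp only [AlgEquiv.trans_apply, AlgEquiv.coe_refl, id_eq]
    rw [A.σu, A.σu, A.σu, A1_z3]
  · simp only [AlgEquiv.trans_apply, AlgEquiv.coe_refl, id_eq]
    rw [A.σth, map_add, map_add, A.σth, map_add, A.σth, map_one, map_one, A1_r3]
  · simp only [AlgEquiv.trans_apply, AlgEquiv.coe_refl, id_eq]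
    rw [A.σet, A.σet, A.σet]
  · intro k
    simp only [AlgEquiv.trans_apply, AlgEquiv.coe_refl, id_eq]
    rw [A.σt, A.σt, A.σt]

theorem τ3 [CharP R 3] (a : R) : A.τ (A.τ (A.τ a)) = a := by
  refine A.A1_aut ((A.τ.trans A.τ).trans A.τ) AlgEquiv.refl ?_ ?_ ?_ ?_ a
  · intro i j
    simp only [AlgEquiv.trans_apply, AlgEquiv.coe_refl, id_eq]
    rw [A.τu, A.τu, A.τu, A1_z3]
  · simp only [AlgEquiv.trans_apply, AlgEquiv.coe_refl, id_eq]
    rw [A.τth, A.τth, A.τth]
  · simp only [AlgEquiv.trans_apply, AlgEquiv.coe_refl, id_eq]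
    rw [A.τet, map_add, map_add, A.τet, map_add, A.τet, map_one, map_one, A1_r3]
  · intro k
    simp only [AlgEquiv.trans_apply, AlgEquiv.coe_refl, id_eq]
    rw [A.τt, A.τt, A.τt]

theorem σw (j : ZMod 3) : A.σ (A.w j) = A.w (j + 1) := by
  unfold w
  rw [map_prod]
  exact Finset.prod_congr rfl fun i _ => A.σu i j

theorem τw (j : ZMod 3) : A.τ (A.w j) = A.w j := by
  unfold w
  rw [map_prod, ← Equiv.prod_comp (Equiv.addRight (1 : ZMod 3)) fun i => A.u i j]
  exact Finset.prod_congr rfl fun i _ => A.τu i j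

private theorem A1_prod3 (f : ZMod 3 → R) : ∏ i, f i = f 0 * f 1 * f 2 :=
  Fin.prod_univ_three (f : Fin 3 → R)

theorem prod_w : A.w 0 * A.w 1 * A.w 2 = 1 := by
  rw [← A1_prod3 A.w]
  unfold w
  rw [Finset.prod_comm]
  exact A.hu

theorem u_ne (i j : ZMod 3) : A.u i j ≠ 0 := by
  intro h
  have h1 := A.hu
  rw [Finset.prod_eq_zero (Finset.mem_univ i) (Finset.prod_eq_zero (Finset.mem_univ j) h)] at h1
  exact zero_ne_one h1

theorem w_ne (j : ZMod 3) : A.w j ≠ 0 := by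
  unfold w
  exact Finset.prod_ne_zero_iff.2 fun i _ => A.u_ne i j

theorem w_eq (j : ZMod 3) : A.w j = A.u 0 j * A.u 1 j * A.u 2 j := by
  unfold w
  exact A1_prod3 fun i => A.u i j

/-- the first family of generators -/
noncomputable def g1 : Idx → R :=
  Sum.elim ![A.w 0, A.w 1] (Sum.elim (fun p => A.u ((p.1 : ℕ) + 1) p.2) (Sum.elim ![A.th, A.et] A.t))

theorem card_Idx : Fintype.card Idx = 82 := by
  rw [Fintype.card_sum, Fintype.card_sum, Fintype.card_sum, Fintype.card_prod, Fintype.card_fin, Fintype.card_fin,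
    ZMod.card]

private theorem A1_mem (x : Idx) : A.g1 x ∈ adjoin F (Set.range A.g1) := subset_adjoin F _ ⟨x, rfl⟩

private theorem A1_top : adjoin F (Set.range A.g1) = ⊤ := by
  have hw0 : A.w 0 ∈ adjoin F (Set.range A.g1) := A.A1_mem (Sum.inl 0)
  have hw1 : A.w 1 ∈ adjoin F (Set.range A.g1) := A.A1_mem (Sum.inl 1)
  have hw2 : A.w 2 ∈ adjoin F (Set.range A.g1) := by
    have h1 : A.w 2 = (A.w 0 * A.w 1)⁻¹ :=
      eq_inv_of_mul_eq_one_right A.prod_w
    rw [h1]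
    exact inv_mem (mul_mem hw0 hw1)
  have hw : ∀ j, A.w j ∈ adjoin F (Set.range A.g1) := by
    intro j
    have hj : j = 0 ∨ j = 1 ∨ j = 2 := by
      revert j
      decide
    rcases hj with rfl | rfl | rfl
    · exact hw0
    · exact hw1
    · exact hw2
  have hu1 : ∀ j, A.u 1 j ∈ adjoin F (Set.range A.g1) := by
    intro j
    have h1 := A.A1_mem (Sum.inr (Sum.inl (0, j)))
    have h2 : A.g1 (Sum.inr (Sum.inl (0, j))) = A.u 1 j := by
      show A.u ((((0 : Fin 2) : ℕ) : ZMod 3) + 1) j = A.u 1 j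
      congr 1
    rwa [h2] at h1
  have hu2 : ∀ j, A.u 2 j ∈ adjoin F (Set.range A.g1) := by
    intro j
    have h1 := A.A1_mem (Sum.inr (Sum.inl (1, j)))
    have h2 : A.g1 (Sum.inr (Sum.inl (1, j))) = A.u 2 j := by
      show A.u ((((1 : Fin 2) : ℕ) : ZMod 3) + 1) j = A.u 2 j
      congr 1
    rwa [h2] at h1
  have hu0 : ∀ j, A.u 0 j ∈ adjoin F (Set.range A.g1) := by
    intro j
    have h1 : A.u 0 j = A.w j * (A.u 1 j * A.u 2 j)⁻¹ := by
      rw [A.w_eq, mul_assoc (A.u 0 j), mul_inv_cancel_right₀ (mul_ne_zero (A.u_ne 1 j) (A.u_ne 2 j))]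
    rw [h1]
    exact mul_mem (hw j) (inv_mem (mul_mem (hu1 j) (hu2 j)))
  have hu : ∀ i j, A.u i j ∈ adjoin F (Set.range A.g1) := by
    intro i j
    have hi : i = 0 ∨ i = 1 ∨ i = 2 := by
      revert i
      decide
    rcases hi with rfl | rfl | rfl
    · exact hu0 j
    · exact hu1 j
    · exact hu2 j
  rw [eq_top_iff, ← A.gen, adjoin_le_iff]
  rintro r ((⟨p, rfl⟩ | hr) | ⟨k, rfl⟩)
  · exact hu p.1 p.2
  · rcases hr with rfl | hr
    · exact A.A1_mem (Sum.inr (Sum.inr (Sum.inl 0)))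
    · rw [Set.mem_singleton_iff] at hr
      rw [hr]
      exact A.A1_mem (Sum.inr (Sum.inr (Sum.inl 1)))
  · exact A.A1_mem (Sum.inr (Sum.inr (Sum.inr k)))

theorem ind1 : AlgebraicIndependent F A.g1 := by
  refine CPZ.ind_of_gens A.g1 A.A1_top ?_
  rw [card_Idx]
  exact A.trd

theorem notMem0 : A.w 0 ∉ adjoin F {A.w 1} := by
  intro h
  refine CPZ.notMem_adjoin A.g1 A.ind1 (Sum.inl 0) (adjoin.mono F _ _ ?_ h)
  rintro r hr
  rw [Set.mem_singleton_iff] at hr
  rw [hr]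
  exact ⟨Sum.inl 1, by simp, rfl⟩

theorem notMem1 : A.w 1 ∉ adjoin F {A.w 0} := by
  intro h
  refine CPZ.notMem_adjoin A.g1 A.ind1 (Sum.inl 1) (adjoin.mono F _ _ ?_ h)
  rintro r hr
  rw [Set.mem_singleton_iff] at hr
  rw [hr]
  exact ⟨Sum.inl 0, by simp, rfl⟩

end AS

end CZT
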