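import Pool.Agent.CZT.A1

/-!
# CZT/A10: existence of `z, x, y`

Write `a, b, c` for `u 0 0, u 1 0, u 2 0` (`τ a = b`, `τ b = c`, `τ c = a`).  `det_ne`: with `w = a b c` and `D = a b ^ 2 + b c ^ 2 + c a ^ 2`
one has `b ^ 2 c D = w b ^ 3 + b ^ 3 c ^ 3 + w ^ 2`, so `D = 0` would make `b` algebraic over `F(w, c)`.  The solution of the linear
system is `x = - (a b + b c + c a) / D`, `y = (a + b + c) / D`, `z = et - x a - y a b`.
-/

set_option autoImplicit false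

namespace CZT

open IntermediateField

universe u v

variable {F : Type u} {R : Type v} [Field F] [Field R] [Algebra F R]

private theorem A10_alg (K : IntermediateField F R) {b p q : R} (hp : p ∈ K) (hq : q ∈ K) (hp0 : p ≠ 0)
    (h : b ^ 3 * p = q) : IsAlgebraic K b := by
  have h1 : b ^ 3 = q / p := by rw [eq_div_iff hp0, h]
  have h2 : b ^ 3 ∈ K := by
    rw [h1]
    exact K.div_mem hq hp
  have h3 : IsAlgebraic K (b ^ 3) := isAlgebraic_algebraMap (⟨b ^ 3, h2⟩ : K)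
  exact h3.of_pow (by norm_num)

private theorem A10_b (A : AS F R) : A.g1 (Sum.inr (Sum.inl ((0 : Fin 2), (0 : ZMod 3)))) = A.u 1 0 := by
  show A.u (((0 : Fin 2) : ℕ) + 1) 0 = A.u 1 0
  have h : ((((0 : Fin 2) : ℕ) : ZMod 3) + 1) = 1 := by decide
  rw [h]

private theorem A10_c (A : AS F R) : A.g1 (Sum.inr (Sum.inl ((1 : Fin 2), (0 : ZMod 3)))) = A.u 2 0 := by
  show A.u (((1 : Fin 2) : ℕ) + 1) 0 = A.u 2 0
  have h : ((((1 : Fin 2) : ℕ) : ZMod 3) + 1) = 2 := by decide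
  rw [h]

theorem AS.det_ne (A : AS F R) [CharP R 3] :
    A.u 0 0 * A.u 1 0 ^ 2 + A.u 1 0 * A.u 2 0 ^ 2 + A.u 2 0 * A.u 0 0 ^ 2 ≠ 0 := by
  intro h
  have hw := A.w_eq 0
  have hw0 := A.w_ne 0
  have htr := CPZ.trans_adjoin A.g1 A.ind1 (Sum.inr (Sum.inl ((0 : Fin 2), (0 : ZMod 3))))
  rw [A10_b] at htr
  have hwm : A.w 0 ∈ adjoin F (A.g1 '' {Sum.inr (Sum.inl ((0 : Fin 2), (0 : ZMod 3)))}ᶜ) := by
    refine subset_adjoin _ _ ⟨Sum.inl 0, ?_, rfl⟩
    intro h1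
    exact absurd h1 (by simp)
  have hcm : A.u 2 0 ∈ adjoin F (A.g1 '' {Sum.inr (Sum.inl ((0 : Fin 2), (0 : ZMod 3)))}ᶜ) := by
    refine subset_adjoin _ _ ⟨Sum.inr (Sum.inl ((1 : Fin 2), (0 : ZMod 3))), ?_, A10_c A⟩
    intro h1
    exact absurd h1 (by simp)
  have hkey : A.u 1 0 ^ 3 * (A.w 0 + A.u 2 0 ^ 3) = -(A.w 0 ^ 2) := by
    rw [hw]
    linear_combination A.u 1 0 ^ 2 * A.u 2 0 * h
  have hne : A.w 0 + A.u 2 0 ^ 3 ≠ 0 := by
    intro h0
    rw [h0, mul_zero] at hkey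
    have h1 : A.w 0 ^ 2 = 0 := by linear_combination hkey
    exact hw0 (pow_eq_zero_iff two_ne_zero |>.1 h1)
  exact htr (A10_alg _ (add_mem hwm (pow_mem hcm 3)) (neg_mem (pow_mem hwm 2)) hne hkey)

theorem exists_zxy (A : AS F R) [CharP R 3] : Nonempty (ZXY A) := by
  have hD := A.det_ne
  have h3 : (3 : R) = 0 := by
    have h := CharP.cast_eq_zero R 3
    exact_mod_cast h
  have ta : A.τ (A.u 0 0) = A.u 1 0 := by
    rw [A.τu]
    rfl
  have tb : A.τ (A.u 1 0) = A.u 2 0 := by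
    rw [A.τu]
    rfl
  have tc : A.τ (A.u 2 0) = A.u 0 0 := by
    rw [A.τu]
    rfl
  set a := A.u 0 0
  set b := A.u 1 0
  set c := A.u 2 0
  have tD : A.τ (a * b ^ 2 + b * c ^ 2 + c * a ^ 2) = a * b ^ 2 + b * c ^ 2 + c * a ^ 2 := by
    simp only [map_add, map_mul, map_pow, ta, tb, tc]
    ring
  have tx : A.τ (-(a * b + b * c + c * a) / (a * b ^ 2 + b * c ^ 2 + c * a ^ 2)) =
      -(a * b + b * c + c * a) / (a * b ^ 2 + b * c ^ 2 + c * a ^ 2) := by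
    rw [map_div₀, tD]
    congr 1
    simp only [map_neg, map_add, map_mul, ta, tb, tc]
    ring
  have ty : A.τ ((a + b + c) / (a * b ^ 2 + b * c ^ 2 + c * a ^ 2)) =
      (a + b + c) / (a * b ^ 2 + b * c ^ 2 + c * a ^ 2) := by
    rw [map_div₀, tD]
    congr 1
    simp only [map_add, ta, tb, tc]
    ring
  have key : -(a * b + b * c + c * a) / (a * b ^ 2 + b * c ^ 2 + c * a ^ 2) * (b - a) +
      (a + b + c) / (a * b ^ 2 + b * c ^ 2 + c * a ^ 2) * (b * (c - a)) = 1 := by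
    rw [div_mul_eq_mul_div, div_mul_eq_mul_div, ← add_div, div_eq_one_iff_eq hD]
    linear_combination (-(a * b ^ 2)) * h3
  refine ⟨⟨A.et - -(a * b + b * c + c * a) / (a * b ^ 2 + b * c ^ 2 + c * a ^ 2) * a -
    (a + b + c) / (a * b ^ 2 + b * c ^ 2 + c * a ^ 2) * (a * b), _, _, ?_, tx, ty, ?_⟩⟩
  · rw [map_sub, map_sub, map_mul, map_mul, map_mul, tx, ty, ta, tb, A.τet]
    linear_combination (-1 : R) * key
  · show A.et = _ + _ * a + _ * (a * b)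
    ring

end CZT
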