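import Pool.Agent.CZT.A1

/-!
# CZT/A11: consequences of the equations for `z, x, y`

The equation `e1` and its images under `τ` (`e2`, `e3`), the relation `rel` obtained by elimination, and the formula for `u 0 0`.
-/

set_option autoImplicit false

namespace CZT

open IntermediateField

universe u v

variable {F : Type u} {R : Type v} [Field F] [Field R] [Algebra F R]

variable {A : AS F R} [CharP R 3] (V : ZXY A)

namespace ZXY

private theorem A11_τ1 : A.τ (A.u 0 0) = A.u 1 0 := by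
  rw [A.τu]
  rfl

private theorem A11_τ2 : A.τ (A.u 1 0) = A.u 2 0 := by
  rw [A.τu]
  rfl

private theorem A11_τ3 : A.τ (A.u 2 0) = A.u 0 0 := by
  rw [A.τu]
  rfl

private theorem A11_f1 : A.et + 1 = V.z + V.x * A.u 1 0 + V.y * (A.u 1 0 * A.u 2 0) := by
  have h := congrArg A.τ V.e1
  rw [A.τet, map_add, map_add, map_mul, map_mul, map_mul, V.τz, V.τx, V.τy, A11_τ1, A11_τ2] at h
  exact h

private theorem A11_f2 : A.et + 1 + 1 = V.z + V.x * A.u 2 0 + V.y * (A.u 2 0 * A.u 0 0) := by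
  have h := congrArg A.τ (A11_f1 V)
  rw [map_add, map_add, map_add, map_mul, map_mul, map_mul, map_one, A.τet, V.τz, V.τx, V.τy, A11_τ2, A11_τ3] at h
  exact h

theorem e2 : A.u 0 0 * A.et = (V.z - 1) * A.u 0 0 + V.x * (A.u 0 0 * A.u 1 0) + V.y * A.w 0 := by
  have h := A11_f1 V
  rw [A.w_eq]
  linear_combination A.u 0 0 * h

theorem e3 : A.u 0 0 * A.u 1 0 * A.et =
    (V.z - 2) * (A.u 0 0 * A.u 1 0) + V.x * A.w 0 + V.y * A.w 0 * A.u 0 0 := by
  have h := A11_f2 V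
  rw [A.w_eq]
  linear_combination A.u 0 0 * A.u 1 0 * h

theorem rel : A.et ^ 3 - A.et = V.z ^ 3 - V.z + V.x ^ 3 * A.w 0 + V.y ^ 3 * A.w 0 ^ 2 := by
  have h3 : (3 : R) = 0 := CharP.ofNat_eq_zero R 3
  have h1 := V.e1
  have h2 := e2 V
  have h4 := e3 V
  linear_combination ((V.z - A.et - 1) * (V.z - A.et - 2) - V.x * V.y * A.w 0) * h1 +
    (-V.x * (V.z - A.et - 2) + V.y ^ 2 * A.w 0) * h2 + (V.x ^ 2 - V.y * (V.z - A.et - 1)) * h4 +
    (-V.z * A.et * (V.z - A.et) - (V.z - A.et) ^ 2 + (V.z - A.et) - V.x * V.y * A.w 0 * (V.z - A.et - 1)) * h3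

theorem u_mul : A.u 0 0 * (V.x ^ 2 + V.y * (A.et - V.z + 1)) =
    V.x * (A.et - V.z) + V.y ^ 2 * A.w 0 := by
  have h1 := V.e1
  have h2 := e2 V
  linear_combination V.y * h2 - V.x * h1

theorem den_ne : V.x ^ 2 + V.y * (A.et - V.z + 1) ≠ 0 := by
  intro h
  have h1 := congrArg A.τ h
  rw [map_add, map_pow, map_mul, map_add, map_sub, map_one, map_zero, A.τet, V.τz, V.τx, V.τy] at h1
  have hy : V.y = 0 := by linear_combination h1 - h
  rw [hy] at h
  have hx : V.x = 0 := by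
    have h2 : V.x ^ 2 = 0 := by linear_combination h
    exact pow_eq_zero_iff (two_ne_zero) |>.1 h2
  have h1 := V.e1
  have h2 := A11_f1 V
  rw [hx, hy] at h1 h2
  have h5 : (1 : R) = 0 := by linear_combination h2 - h1
  exact one_ne_zero h5

theorem u_eq : A.u 0 0 = (V.x * (A.et - V.z) + V.y ^ 2 * A.w 0) / (V.x ^ 2 + V.y * (A.et - V.z + 1)) := by
  rw [eq_div_iff (den_ne V)]
  exact u_mul V

theorem q_mem : A.et ^ 3 - A.et ∈ A.Z := by
  change A.et ^ 3 - A.et ∈ CPZ.Fx {A.σ, A.τ}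
  rw [CPZ.mem_Fx]
  intro s hs
  rcases hs with rfl | hs
  · rw [map_sub, map_pow, A.σet]
  · rw [Set.mem_singleton_iff] at hs
    rw [hs, map_sub, map_pow, A.τet]
    have h3 : (3 : R) = 0 := CharP.ofNat_eq_zero R 3
    linear_combination (A.et ^ 2 + A.et) * h3

end ZXY

end CZT
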