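import Pool.Agent.CZT.A2

/-!
# CZT/A12: traces

The trace `tr f = f + σ f + σ² f` and the expansions of `f` in powers of `te - 1` and of `Te` with traces as coefficients.
-/

set_option autoImplicit false

namespace CZT

open IntermediateField

universe u v

variable {F : Type u} {R : Type v} [Field F] [Field R] [Algebra F R]

namespace AS

variable (A : AS F R) [CharP R 3]

private theorem A12_h3 : (3 : R) = 0 := CharP.ofNat_eq_zero R 3

omit [CharP R 3] in
private theorem A12_eq (f : R) : A.tr f = f + A.σ f + A.σ (A.σ f) := rfl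

theorem tr_add (f g : R) : A.tr (f + g) = A.tr f + A.tr g := by
  simp only [A12_eq, map_add]
  ring

theorem tr_sub (f g : R) : A.tr (f - g) = A.tr f - A.tr g := by
  simp only [A12_eq, map_sub]
  ring

theorem tr_mul {f : R} (hf : A.σ f = f) (g : R) : A.tr (f * g) = f * A.tr g := by
  simp only [A12_eq, map_mul, hf]
  ring

theorem tr_zero {f : R} (hf : A.σ f = f) : A.tr f = 0 := by
  have h3 : (3 : R) = 0 := A12_h3
  simp only [A12_eq, hf]
  linear_combination f * h3

theorem tr_pow3 (f : R) : A.tr (f ^ 3) = A.tr f ^ 3 := by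
  have h3 : (3 : R) = 0 := A12_h3
  simp only [A12_eq, map_pow]
  linear_combination (-(f + A.σ f) * (A.σ f + A.σ (A.σ f)) * (A.σ (A.σ f) + f)) * h3

theorem tr_mem {f : R} (hf : A.τ f = f) : A.tr f ∈ A.Z := by
  refine A.mem_Z.2 ⟨?_, ?_⟩
  · simp only [A12_eq, map_add, A.σ3]
    ring
  · simp only [A12_eq, map_add]
    rw [← A.comm (A.σ f), ← A.comm f, hf]

private theorem A12_σσTe : A.σ (A.σ A.Te) = A.Te + 2 := by
  rw [A.σTe, map_add, A.σTe, map_one]
  ring

private theorem A12_σt : A.σ (A.te - 1) = A.te - 1 + 1 := by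
  rw [map_sub, A.σte, map_one]
  ring

private theorem A12_σσt : A.σ (A.σ (A.te - 1)) = A.te - 1 + 2 := by
  rw [A12_σt, map_add, A12_σt, map_one]
  ring

theorem tr_Te : A.tr A.Te = 0 := by
  have h3 : (3 : R) = 0 := A12_h3
  rw [A12_eq, A12_σσTe, A.σTe]
  linear_combination (A.Te + 1) * h3

theorem tr_that : A.tr (A.te - 1) = 0 := by
  have h3 : (3 : R) = 0 := A12_h3
  rw [A12_eq, A12_σσt, A12_σt]
  linear_combination A.te * h3

theorem expand (f : R) : f = (-A.tr ((A.te - 1) ^ 2 * f) + A.tr f) + (-A.tr ((A.te - 1) * f)) * (A.te - 1) +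
    (-A.tr f) * (A.te - 1) ^ 2 := by
  have h3 : (3 : R) = 0 := A12_h3
  simp only [A12_eq, map_mul, map_pow, A12_σt, map_add, map_one]
  linear_combination ((A.te - 1) ^ 2 * f + ((A.te - 1) ^ 2 + (A.te - 1)) * A.σ f + A.te ^ 2 * A.σ (A.σ f)) * h3

theorem expandT (f : R) : f = (-A.tr (A.Te ^ 2 * f) + A.tr f) + (-A.tr (A.Te * f)) * A.Te +
    (-A.tr f) * A.Te ^ 2 := by
  have h3 : (3 : R) = 0 := A12_h3
  simp only [A12_eq, map_mul, map_pow, A.σTe, map_add, map_one]
  linear_combination (A.Te ^ 2 * f + (A.Te ^ 2 + A.Te) * A.σ f + (A.Te + 1) ^ 2 * A.σ (A.σ f)) * h3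

end AS

end CZT
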