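import Pool.Agent.CZT.A2
import Pool.Agent.CZT.A11
import Pool.Agent.CPZ.Rel

/-!
# CZT/A13: generation criterion (2e)

The automorphisms `σ`, `τ` generate a group of order nine. An intermediate field `L` of fixed elements which contains
the invariants and over which `te` generates `z, x, y` has `[R : L] ≤ 9`, as `R = L(te, et)`; so `L` is the fixed field.
-/

set_option autoImplicit false

namespace CZT

open IntermediateField

universe u v

variable {F : Type u} {R : Type v} [Field F] [Field R] [Algebra F R]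

/-! ### the group -/

private theorem A13_σp (A : AS F R) [CharP R 3] : A.σ ^ 3 = 1 := by
  ext a
  rw [pow_succ, pow_two, AlgEquiv.mul_apply, AlgEquiv.mul_apply, A.σ3]
  rfl

private theorem A13_τp (A : AS F R) [CharP R 3] : A.τ ^ 3 = 1 := by
  ext a
  rw [pow_succ, pow_two, AlgEquiv.mul_apply, AlgEquiv.mul_apply, A.τ3]
  rfl

private theorem A13_comm (A : AS F R) : Commute A.σ A.τ := by
  show A.σ * A.τ = A.τ * A.σ
  ext a
  exact A.comm a

/-- the group generated by `σ` and `τ` -/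
private def A13_G (A : AS F R) [CharP R 3] : Subgroup (R ≃ₐ[F] R) where
  carrier := {g | ∃ i k : ℕ, g = A.σ ^ i * A.τ ^ k}
  mul_mem' := by
    rintro _ _ ⟨i, k, rfl⟩ ⟨i', k', rfl⟩
    refine ⟨i + i', k + k', ?_⟩
    rw [pow_add, pow_add, mul_assoc, mul_assoc, ← mul_assoc (A.τ ^ k),
      (((A13_comm A).pow_pow i' k).eq).symm, mul_assoc]
  one_mem' := ⟨0, 0, by rw [pow_zero, pow_zero, one_mul]⟩
  inv_mem' := by
    rintro _ ⟨i, k, rfl⟩
    refine ⟨2 * i, 2 * k, ?_⟩
    rw [inv_eq_iff_mul_eq_one]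
    calc A.σ ^ i * A.τ ^ k * (A.σ ^ (2 * i) * A.τ ^ (2 * k))
        = A.σ ^ (i + 2 * i) * A.τ ^ (k + 2 * k) := by
          rw [pow_add, pow_add, mul_assoc, mul_assoc, ← mul_assoc (A.τ ^ k),
            (((A13_comm A).pow_pow (2 * i) k).eq).symm, mul_assoc]
      _ = 1 := by
          rw [show i + 2 * i = 3 * i by ring, show k + 2 * k = 3 * k by ring, pow_mul, pow_mul, A13_σp,
            A13_τp, one_pow, one_pow, one_mul]

private def A13_f (A : AS F R) [CharP R 3] (p : Fin 3 × Fin 3) : A13_G A :=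
  ⟨A.σ ^ (p.1 : ℕ) * A.τ ^ (p.2 : ℕ), ⟨_, _, rfl⟩⟩

private theorem A13_σte (A : AS F R) [CharP R 3] (i : ℕ) : (A.σ ^ i) A.te = A.te + i := by
  induction i with
  | zero => simp
  | succ i ih =>
    rw [pow_succ, AlgEquiv.mul_apply, A.σte, map_add, ih, map_one]
    push_cast
    ring

private theorem A13_τte (A : AS F R) [CharP R 3] (i : ℕ) : (A.τ ^ i) A.te = A.te := by
  induction i with
  | zero => simp
  | succ i ih => rw [pow_succ, AlgEquiv.mul_apply, A.τte, ih]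

private theorem A13_τet (A : AS F R) (i : ℕ) : (A.τ ^ i) A.et = A.et + i := by
  induction i with
  | zero => simp
  | succ i ih =>
    rw [pow_succ, AlgEquiv.mul_apply, A.τet, map_add, ih, map_one]
    push_cast
    ring

private theorem A13_σet (A : AS F R) (i : ℕ) : (A.σ ^ i) A.et = A.et := by
  induction i with
  | zero => simp
  | succ i ih => rw [pow_succ, AlgEquiv.mul_apply, A.σet, ih]

private theorem A13_cast [CharP R 3] {a b : Fin 3} (h : ((a : ℕ) : R) = ((b : ℕ) : R)) : a = b := by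
  have h1 := (CharP.natCast_eq_natCast R 3).1 h
  rw [Nat.ModEq, Nat.mod_eq_of_lt a.2, Nat.mod_eq_of_lt b.2] at h1
  exact Fin.ext h1

private theorem A13_bij (A : AS F R) [CharP R 3] : Function.Bijective (A13_f A) := by
  constructor
  · rintro ⟨a, b⟩ ⟨a', b'⟩ h
    have h0 : A.σ ^ (a : ℕ) * A.τ ^ (b : ℕ) = A.σ ^ (a' : ℕ) * A.τ ^ (b' : ℕ) := congrArg Subtype.val h
    have h1 := DFunLike.congr_fun h0 A.te
    have h2 := DFunLike.congr_fun h0 A.et
    rw [AlgEquiv.mul_apply, AlgEquiv.mul_apply, A13_τte, A13_τte, A13_σte, A13_σte] at h1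
    rw [AlgEquiv.mul_apply, AlgEquiv.mul_apply, A13_τet, A13_τet, map_add, map_add, A13_σet, A13_σet,
      map_natCast, map_natCast] at h2
    rw [A13_cast (add_left_cancel h1), A13_cast (add_left_cancel h2)]
  · rintro ⟨_, ⟨i, k, rfl⟩⟩
    refine ⟨(⟨i % 3, Nat.mod_lt _ (by norm_num)⟩, ⟨k % 3, Nat.mod_lt _ (by norm_num)⟩), ?_⟩
    apply Subtype.ext
    show A.σ ^ (i % 3) * A.τ ^ (k % 3) = A.σ ^ i * A.τ ^ k
    rw [← pow_eq_pow_mod i (A13_σp A), ← pow_eq_pow_mod k (A13_τp A)]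

private theorem A13_card (A : AS F R) [CharP R 3] : Nat.card (A13_G A) = 9 := by
  rw [← Nat.card_congr (Equiv.ofBijective _ (A13_bij A)), Nat.card_eq_fintype_card]
  simp

private theorem A13_cl (A : AS F R) [CharP R 3] : Subgroup.closure ({A.σ, A.τ} : Set (R ≃ₐ[F] R)) = A13_G A := by
  apply le_antisymm
  · rw [Subgroup.closure_le]
    rintro g (rfl | hg)
    · exact ⟨1, 0, by rw [pow_one, pow_zero, mul_one]⟩
    · rw [Set.mem_singleton_iff] at hg
      exact ⟨0, 1, by rw [pow_zero, pow_one, one_mul, hg]⟩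
  · rintro _ ⟨i, k, rfl⟩
    have h1 : A.σ ∈ Subgroup.closure ({A.σ, A.τ} : Set (R ≃ₐ[F] R)) :=
      Subgroup.subset_closure (Set.mem_insert _ _)
    have h2 : A.τ ∈ Subgroup.closure ({A.σ, A.τ} : Set (R ≃ₐ[F] R)) :=
      Subgroup.subset_closure (Set.mem_insert_of_mem _ (Set.mem_singleton _))
    exact Subgroup.mul_mem _ (Subgroup.pow_mem _ h1 i) (Subgroup.pow_mem _ h2 k)

private theorem A13_Z (A : AS F R) [CharP R 3] : A.Z = CPZ.Fx ((A13_G A : Subgroup (R ≃ₐ[F] R)) : Set (R ≃ₐ[F] R)) := by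
  rw [← A13_cl, CPZ.Fx_closure]
  rfl

variable {A : AS F R} [CharP R 3] (V : ZXY A)

theorem finrank_Z : Module.finrank A.Z R = 9 := by
  have hf : Finite (A13_G A) := Finite.of_surjective _ (A13_bij A).2
  rw [A13_Z A, CPZ.finrank_Fx, A13_card]

/-! ### degrees -/

omit [CharP R 3] in
private theorem A13_deg {K : Type*} [Field K] [Algebra K R] {a : R} {q : K} (h : a ^ 3 - a = algebraMap K R q) :
    IsIntegral K a ∧ Module.finrank K K⟮a⟯ ≤ 3 := by
  have hdeg : (Polynomial.X ^ 3 - Polynomial.X - Polynomial.C q : Polynomial K).natDegree = 3 := by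
    compute_degree!
  have hm : (Polynomial.X ^ 3 - Polynomial.X - Polynomial.C q : Polynomial K).Monic := by
    rw [Polynomial.Monic, Polynomial.leadingCoeff, hdeg]
    simp [Polynomial.coeff_X]
  have hr : Polynomial.aeval a (Polynomial.X ^ 3 - Polynomial.X - Polynomial.C q : Polynomial K) = 0 := by
    simp [h]
  have hi : IsIntegral K a := ⟨_, hm, by rw [← Polynomial.aeval_def]; exact hr⟩
  refine ⟨hi, ?_⟩
  rw [IntermediateField.adjoin.finrank hi, ← hdeg]
  exact Polynomial.natDegree_le_of_dvd (minpoly.dvd K a hr) hm.ne_zero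

theorem finrank_le {L : IntermediateField F R} (hL : L ≤ A.Z) (hc : A.c ∈ L) (hr : A.r ∈ L) (hv : A.v0 ∈ L)
    (ht : ∀ k, A.t k ∈ L) (hz : V.z ∈ adjoin F ((L : Set R) ∪ {A.te}))
    (hx : V.x ∈ adjoin F ((L : Set R) ∪ {A.te})) (hy : V.y ∈ adjoin F ((L : Set R) ∪ {A.te})) :
    Module.Finite L R ∧ Module.finrank L R ≤ 9 := by
  obtain ⟨hi1, hd1⟩ := A13_deg (K := L) (a := A.te) (q := ⟨A.c, hc⟩) rfl
  have hteL : A.te ∈ L⟮A.te⟯ := mem_adjoin_simple_self L A.te
  have hLL : ∀ l ∈ L, l ∈ L⟮A.te⟯ := fun l hl => (L⟮A.te⟯).algebraMap_mem ⟨l, hl⟩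
  have h1 : ∀ a ∈ adjoin F ((L : Set R) ∪ {A.te}), a ∈ L⟮A.te⟯ := by
    intro a ha
    induction ha using IntermediateField.adjoin_induction with
    | mem y hy =>
      rcases hy with hy | hy
      · exact hLL y hy
      · rw [Set.mem_singleton_iff.1 hy]
        exact hteL
    | algebraMap y => exact hLL _ (L.algebraMap_mem y)
    | add y y' _ _ hy hy' => exact add_mem hy hy'
    | inv y _ hy => exact inv_mem hy
    | mul y y' _ _ hy hy' => exact mul_mem hy hy'
  have hw : A.w 0 ∈ L⟮A.te⟯ := by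
    rw [A.w0_eq]
    exact div_mem (mul_mem (sub_mem (add_mem hteL (one_mem _)) (hLL _ hr)) hteL)
      (mul_mem (add_mem hteL (one_mem _)) (sub_mem hteL (hLL _ hr)))
  have hq : A.et ^ 3 - A.et ∈ L⟮A.te⟯ := by
    rw [V.rel]
    exact add_mem (add_mem (sub_mem (pow_mem (h1 _ hz) 3) (h1 _ hz)) (mul_mem (pow_mem (h1 _ hx) 3) hw))
      (mul_mem (pow_mem (h1 _ hy) 3) (pow_mem hw 2))
  obtain ⟨hi2, hd2⟩ := A13_deg (K := L⟮A.te⟯) (a := A.et) (q := ⟨A.et ^ 3 - A.et, hq⟩) rfl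
  have het2 : A.et ∈ (L⟮A.te⟯)⟮A.et⟯ := mem_adjoin_simple_self _ A.et
  have h12 : ∀ a ∈ L⟮A.te⟯, a ∈ (L⟮A.te⟯)⟮A.et⟯ := fun a ha => ((L⟮A.te⟯)⟮A.et⟯).algebraMap_mem ⟨a, ha⟩
  have hstab : ∀ g : R ≃ₐ[F] R, (∀ l ∈ L, g l = l) → g A.te ∈ (L⟮A.te⟯)⟮A.et⟯ → g A.et ∈ (L⟮A.te⟯)⟮A.et⟯ →
      ∀ a ∈ (L⟮A.te⟯)⟮A.et⟯, g a ∈ (L⟮A.te⟯)⟮A.et⟯ := by
    intro g hg hgt hge
    have hg1 : ∀ a ∈ L⟮A.te⟯, g a ∈ (L⟮A.te⟯)⟮A.et⟯ := by
      intro a ha
      induction ha using IntermediateField.adjoin_induction with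
      | mem y hy =>
        rw [Set.mem_singleton_iff.1 hy]
        exact hgt
      | algebraMap y =>
        show g (y : R) ∈ _
        rw [hg y y.2]
        exact h12 _ (hLL _ y.2)
      | add y y' _ _ hy hy' =>
        rw [map_add]
        exact add_mem hy hy'
      | inv y _ hy =>
        rw [map_inv₀]
        exact inv_mem hy
      | mul y y' _ _ hy hy' =>
        rw [map_mul]
        exact mul_mem hy hy'
    intro a ha
    induction ha using IntermediateField.adjoin_induction with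
    | mem y hy =>
      rw [Set.mem_singleton_iff.1 hy]
      exact hge
    | algebraMap y => exact hg1 y y.2
    | add y y' _ _ hy hy' =>
      rw [map_add]
      exact add_mem hy hy'
    | inv y _ hy =>
      rw [map_inv₀]
      exact inv_mem hy
    | mul y y' _ _ hy hy' =>
      rw [map_mul]
      exact mul_mem hy hy'
  have hte2 := h12 _ hteL
  have hσ := hstab A.σ (fun l hl => (A.mem_Z.1 (hL hl)).1) (by rw [A.σte]; exact add_mem hte2 (one_mem _))
    (by rw [A.σet]; exact het2)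
  have hτ := hstab A.τ (fun l hl => (A.mem_Z.1 (hL hl)).2) (by rw [A.τte]; exact hte2)
    (by rw [A.τet]; exact add_mem het2 (one_mem _))
  have hu0 : A.u 0 0 ∈ (L⟮A.te⟯)⟮A.et⟯ := by
    rw [V.u_eq]
    have hz2 := h12 _ (h1 _ hz)
    have hx2 := h12 _ (h1 _ hx)
    have hy2 := h12 _ (h1 _ hy)
    exact div_mem (add_mem (mul_mem hx2 (sub_mem het2 hz2)) (mul_mem (pow_mem hy2 2) (h12 _ hw)))
      (add_mem (pow_mem hx2 2) (mul_mem hy2 (add_mem (sub_mem het2 hz2) (one_mem _))))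
  have h3 : ∀ j : ZMod 3, j = 0 ∨ j = 0 + 1 ∨ j = 0 + 1 + 1 := by decide
  have hu1 : ∀ j, A.u 0 j ∈ (L⟮A.te⟯)⟮A.et⟯ := by
    intro j
    rcases h3 j with rfl | rfl | rfl
    · exact hu0
    · rw [← A.σu]
      exact hσ _ hu0
    · rw [← A.σu, ← A.σu]
      exact hσ _ (hσ _ hu0)
  have hu2 : ∀ i j, A.u i j ∈ (L⟮A.te⟯)⟮A.et⟯ := by
    intro i j
    rcases h3 i with rfl | rfl | rfl
    · exact hu1 j
    · rw [← A.τu]
      exact hτ _ (hu1 j)
    · rw [← A.τu, ← A.τu]
      exact hτ _ (hτ _ (hu1 j))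
  have hth : A.th ∈ (L⟮A.te⟯)⟮A.et⟯ := by
    have h4 : A.th = A.v0 + A.te := by
      unfold AS.v0
      ring
    rw [h4]
    exact add_mem (h12 _ (hLL _ hv)) hte2
  have htop : (L⟮A.te⟯)⟮A.et⟯ = ⊤ := by
    rw [eq_top_iff]
    intro a _
    have ha : a ∈ adjoin F (Set.range (fun p : ZMod 3 × ZMod 3 => A.u p.1 p.2) ∪ {A.th, A.et} ∪ Set.range A.t) := by
      rw [A.gen]
      exact IntermediateField.mem_top
    induction ha using IntermediateField.adjoin_induction with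
    | mem y hy =>
      rcases hy with (⟨p, rfl⟩ | hy) | ⟨k, rfl⟩
      · exact hu2 _ _
      · rcases hy with rfl | hy
        · exact hth
        · rw [Set.mem_singleton_iff.1 hy]
          exact het2
      · exact h12 _ (hLL _ (ht k))
    | algebraMap y => exact h12 _ (hLL _ (L.algebraMap_mem y))
    | add y y' _ _ hy hy' => exact add_mem (hy trivial) (hy' trivial)
    | inv y _ hy => exact inv_mem (hy trivial)
    | mul y y' _ _ hy hy' => exact mul_mem (hy trivial) (hy' trivial)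
  have hf1 : Module.Finite L L⟮A.te⟯ := IntermediateField.adjoin.finiteDimensional hi1
  have hf2 : Module.Finite L⟮A.te⟯ (L⟮A.te⟯)⟮A.et⟯ := IntermediateField.adjoin.finiteDimensional hi2
  have hfr : Module.finrank L⟮A.te⟯ R ≤ 3 := by
    rw [← IntermediateField.finrank_top', ← htop]
    exact hd2
  have hf3 : Module.Finite L⟮A.te⟯ R := by
    rw [htop] at hf2
    exact Module.Finite.equiv (IntermediateField.topEquiv (F := L⟮A.te⟯) (E := R)).toLinearEquiv
  refine ⟨Module.Finite.trans L⟮A.te⟯ R, ?_⟩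
  rw [← Module.finrank_mul_finrank L L⟮A.te⟯ R]
  exact Nat.mul_le_mul hd1 hfr

theorem gen_crit {L : IntermediateField F R} (hL : L ≤ A.Z) (hc : A.c ∈ L) (hr : A.r ∈ L) (hv : A.v0 ∈ L)
    (ht : ∀ k, A.t k ∈ L) (hz : V.z ∈ adjoin F ((L : Set R) ∪ {A.te}))
    (hx : V.x ∈ adjoin F ((L : Set R) ∪ {A.te})) (hy : V.y ∈ adjoin F ((L : Set R) ∪ {A.te})) : L = A.Z := by
  obtain ⟨h1, h2⟩ := finrank_le V hL hc hr hv ht hz hx hy
  have h3 : FiniteDimensional L R := h1
  refine IntermediateField.eq_of_le_of_finrank_le' hL ?_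
  rw [finrank_Z]
  exact h2

end CZT
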