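import Pool.Agent.CZT.A1

/-!
# CZT/A2: the element `theta`

PROOF PLAN.  Put `a = w 0`, `b = w 1`; all denominators are excluded by `notMem0`, `notMem1` (`F ⊆ adjoin`): `1 + a + a b = 0` would give `b = -(1 + a) / a ∈ F(a)`; `s2 = a (1 + b + a b) = 0` would give `a = -(1 + b) / b`
(`b ≠ -1`, otherwise `1 = 0`); `a ≠ 1`, `b ≠ 1`, `a b ≠ 1`.  `te = a (b - 1) / s1`, `te + 1 = (1 - a b) / s1` (characteristic 3), `te - 1 = (a - 1) / s1 * ..`: or apply `σ` (`te - 1 = σ (te + 1)`).  `σ`: `a ↦ b ↦ w 2 = 1 / (a b)`, `σ s1 = s1 / a`, so `σ te = te + 1` and `σ r = r`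
by `field_simp` and `ring` in characteristic 3 (tools: `linear_combination e * h3` with `h3 : (3 : R) = 0 := CharP.ofNat_eq_zero R 3`, or `ring_nf; reduce_mod_char!`).  `w0_eq` : the same, first
`w0_mul`.  `te ≠ r`: otherwise `w0_mul` gives `(te + 1 - r) te = 0`, `te ≠ 0`, `1 = 0`; `te + 1 ≠ r` as `w 0 ≠ 0`.
-/

set_option autoImplicit false

namespace CZT

open IntermediateField

universe u v

variable {F : Type u} {R : Type v} [Field F] [Field R] [Algebra F R]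

namespace AS

variable (A : AS F R) [CharP R 3]

omit [CharP R 3] in
private theorem A2_b_ne_one : A.w 1 ≠ 1 := fun h => A.notMem1 (by rw [h]; exact one_mem _)

omit [CharP R 3] in
private theorem A2_a_ne_one : A.w 0 ≠ 1 := fun h => A.notMem0 (by rw [h]; exact one_mem _)

omit [CharP R 3] in
private theorem A2_b1 : A.w 1 - 1 ≠ 0 := sub_ne_zero.2 (A2_b_ne_one A)

omit [CharP R 3] in
private theorem A2_a1 : A.w 0 - 1 ≠ 0 := sub_ne_zero.2 (A2_a_ne_one A)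

omit [CharP R 3] in
private theorem A2_ab1 : 1 - A.w 0 * A.w 1 ≠ 0 := by
  intro h
  apply A.notMem1
  have h1 : A.w 1 = (A.w 0)⁻¹ := by
    apply eq_inv_of_mul_eq_one_left
    linear_combination -h
  rw [h1]
  exact inv_mem (subset_adjoin F _ rfl)

omit [CharP R 3] in
private theorem A2_s1 : A.s1 ≠ 0 := by
  intro h
  apply A.notMem1
  have h1 : A.w 1 = -(1 + A.w 0) / A.w 0 := by
    rw [eq_div_iff (A.w_ne 0)]
    unfold s1 at h
    linear_combination h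
  have h2 : A.w 0 ∈ adjoin F {A.w 0} := subset_adjoin F _ rfl
  rw [h1]
  exact div_mem (neg_mem (add_mem (one_mem _) h2)) h2

omit [CharP R 3] in
private theorem A2_s2' : 1 + A.w 1 + A.w 0 * A.w 1 ≠ 0 := by
  intro h
  apply A.notMem0
  have h1 : A.w 0 = -(1 + A.w 1) / A.w 1 := by
    rw [eq_div_iff (A.w_ne 1)]
    linear_combination h
  have h2 : A.w 1 ∈ adjoin F {A.w 1} := subset_adjoin F _ rfl
  rw [h1]
  exact div_mem (neg_mem (add_mem (one_mem _) h2)) h2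

omit [CharP R 3] in
private theorem A2_s2_eq : A.s2 = A.w 0 * (1 + A.w 1 + A.w 0 * A.w 1) := by
  unfold s2
  ring

omit [CharP R 3] in
private theorem A2_s2 : A.s2 ≠ 0 := by
  rw [A2_s2_eq]
  exact mul_ne_zero (A.w_ne 0) (A2_s2' A)

private theorem A2_h3 : (3 : R) = 0 := CharP.ofNat_eq_zero R 3

omit [CharP R 3] in
private theorem A2_te : A.te = A.w 0 * (A.w 1 - 1) / A.s1 := by
  unfold te
  ring

private theorem A2_te1 : A.te + 1 = (1 - A.w 0 * A.w 1) / A.s1 := by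
  rw [A2_te, eq_div_iff (A2_s1 A), add_mul, div_mul_cancel₀ _ (A2_s1 A)]
  unfold s1
  linear_combination (A.w 0 * A.w 1) * (A2_h3 (R := R))

private theorem A2_te2 : A.te - 1 = (A.w 0 - 1) / A.s1 := by
  rw [A2_te, eq_div_iff (A2_s1 A), sub_mul, div_mul_cancel₀ _ (A2_s1 A)]
  unfold s1
  linear_combination (-A.w 0) * (A2_h3 (R := R))

private theorem A2_te_r : A.te - A.r = -(A.w 0 * (A.w 1 - 1)) / A.s2 := by
  have h1 := A2_s1 A
  have h2 := A2_s2 A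
  have h3 : (3 : R) = 0 := A2_h3
  unfold r te
  rw [div_sub_div _ _ h1 (mul_ne_zero h1 h2), div_eq_div_iff (mul_ne_zero h1 (mul_ne_zero h1 h2)) h2]
  have e1 : A.s2 + (A.w 0 - 1) * (1 - A.w 0 * A.w 1) = -A.s1 := by
    unfold s1 s2
    linear_combination (A.w 0 + A.w 0 * A.w 1) * h3
  linear_combination (A.s1 * A.s2 * (A.w 0 * A.w 1 - A.w 0)) * e1

private theorem A2_te1_r : A.te + 1 - A.r = -(A.w 0 * (1 - A.w 0 * A.w 1)) / A.s2 := by
  have h1 := A2_s1 A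
  have h2 := A2_s2 A
  have h3 : (3 : R) = 0 := A2_h3
  rw [A2_te1]
  unfold r
  rw [div_sub_div _ _ h1 (mul_ne_zero h1 h2), div_eq_div_iff (mul_ne_zero h1 (mul_ne_zero h1 h2)) h2]
  have e1 : A.s2 + (A.w 0 - 1) * (A.w 0 * A.w 1 - A.w 0) = -(A.w 0 * A.s1) := by
    unfold s1 s2
    linear_combination (A.w 0 + A.w 0 * A.w 0 * A.w 1) * h3
  linear_combination (A.s1 * A.s2 * (1 - A.w 0 * A.w 1)) * e1

theorem s1_ne : A.s1 ≠ 0 := A2_s1 A

theorem s2_ne : A.s2 ≠ 0 := A2_s2 A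

theorem te_ne : A.te ≠ 0 := by
  rw [A2_te]
  exact div_ne_zero (mul_ne_zero (A.w_ne 0) (A2_b1 A)) (A2_s1 A)

theorem te1_ne : A.te + 1 ≠ 0 := by
  rw [A2_te1]
  exact div_ne_zero (A2_ab1 A) (A2_s1 A)

theorem te2_ne : A.te - 1 ≠ 0 := by
  rw [A2_te2]
  exact div_ne_zero (A2_a1 A) (A2_s1 A)

theorem r_ne : A.r ≠ 0 := by
  unfold r
  refine div_ne_zero (neg_ne_zero.2 (mul_ne_zero (mul_ne_zero (A2_a1 A) ?_) (A2_ab1 A))) (mul_ne_zero (A2_s1 A) (A2_s2 A))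
  rw [show A.w 0 * A.w 1 - A.w 0 = A.w 0 * (A.w 1 - 1) by ring]
  exact mul_ne_zero (A.w_ne 0) (A2_b1 A)

omit [CharP R 3] in
private theorem A2_σ0 : A.σ (A.w 0) = A.w 1 := by
  rw [A.σw, zero_add]

omit [CharP R 3] in
private theorem A2_σ1 : A.σ (A.w 1) = A.w 2 := by
  rw [A.σw]
  rfl

omit [CharP R 3] in
private theorem A2_σs1 : A.σ A.s1 * A.w 0 = A.s1 := by
  unfold s1
  simp only [map_add, map_mul, map_one, A2_σ0, A2_σ1]
  linear_combination A.prod_w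

omit [CharP R 3] in
private theorem A2_σs2 : A.σ A.s2 * A.w 0 ^ 2 = A.s2 := by
  unfold s2
  simp only [map_add, map_mul, A2_σ0, A2_σ1]
  linear_combination (A.w 0 + A.w 0 * A.w 1) * A.prod_w

theorem σte : A.σ A.te = A.te + 1 := by
  have h1 := A2_s1 A
  have h2 := A.w_ne 0
  have h3 : A.σ A.s1 = A.s1 / A.w 0 := by rw [eq_div_iff h2, A2_σs1]
  rw [A2_te1]
  unfold te
  rw [map_div₀, h3, map_sub, map_mul, A2_σ0, A2_σ1, div_div_eq_mul_div]
  congr 1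
  linear_combination A.prod_w

theorem τte : A.τ A.te = A.te := by
  unfold te s1
  simp only [map_div₀, map_sub, map_mul, map_add, map_one, A.τw]

theorem σr : A.σ A.r = A.r := by
  have h1 := A2_s1 A
  have h2 := A2_s2 A
  have h4 := A.w_ne 0
  have e1 : A.σ A.s1 = A.s1 / A.w 0 := by rw [eq_div_iff h4, A2_σs1]
  have e2 : A.σ A.s2 = A.s2 / A.w 0 ^ 2 := by rw [eq_div_iff (pow_ne_zero 2 h4), A2_σs2]
  have e3 : A.w 2 = 1 / (A.w 0 * A.w 1) := by
    rw [eq_div_iff (mul_ne_zero h4 (A.w_ne 1))]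
    linear_combination A.prod_w
  have h5 := A.w_ne 1
  unfold r
  simp only [map_div₀, map_neg, map_mul, map_sub, map_one, e1, e2, A2_σ0, A2_σ1, e3]
  field_simp

theorem τr : A.τ A.r = A.r := by
  unfold r s1 s2
  simp only [map_div₀, map_neg, map_sub, map_mul, map_add, map_one, A.τw]

theorem w0_mul : A.w 0 * ((A.te + 1) * (A.te - A.r)) = (A.te + 1 - A.r) * A.te := by
  rw [A2_te_r, A2_te1_r, A2_te1, A2_te]
  ring

theorem te_r : A.te - A.r ≠ 0 := by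
  rw [A2_te_r]
  exact div_ne_zero (neg_ne_zero.2 (mul_ne_zero (A.w_ne 0) (A2_b1 A))) (A2_s2 A)

theorem te1_r : A.te + 1 - A.r ≠ 0 := by
  rw [A2_te1_r]
  exact div_ne_zero (neg_ne_zero.2 (mul_ne_zero (A.w_ne 0) (A2_ab1 A))) (A2_s2 A)

theorem w0_eq : A.w 0 = (A.te + 1 - A.r) * A.te / ((A.te + 1) * (A.te - A.r)) := by
  rw [eq_div_iff (mul_ne_zero A.te1_ne A.te_r)]
  exact A.w0_mul

theorem w1_eq : A.w 1 = (A.te + 2 - A.r) * (A.te + 1) / ((A.te + 2) * (A.te + 1 - A.r)) := by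
  have h1 := congrArg A.σ A.w0_eq
  rw [A2_σ0, map_div₀, map_mul, map_mul, map_sub, map_sub, map_add, map_one, A.σte, A.σr] at h1
  rw [h1, show A.te + 1 + 1 = A.te + 2 by ring]

theorem c_ne : A.c ≠ 0 := by
  unfold c
  rw [show A.te ^ 3 - A.te = A.te * (A.te + 1) * (A.te - 1) by ring]
  exact mul_ne_zero (mul_ne_zero A.te_ne A.te1_ne) A.te2_ne

theorem j_ne : A.j ≠ 0 := inv_ne_zero A.r_ne

theorem σc : A.σ A.c = A.c := by
  have h3 : (3 : R) = 0 := A2_h3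
  unfold c
  rw [map_sub, map_pow, A.σte]
  linear_combination (A.te ^ 2 + A.te) * h3

theorem τc : A.τ A.c = A.c := by
  unfold c
  rw [map_sub, map_pow, A.τte]

theorem σj : A.σ A.j = A.j := by
  unfold j
  rw [map_inv₀, A.σr]

theorem τj : A.τ A.j = A.j := by
  unfold j
  rw [map_inv₀, A.τr]

theorem σn : A.σ A.n = A.n := by
  unfold n
  simp only [map_sub, map_div₀, map_mul, map_pow, map_one, A.σj, A.σc]

theorem τn : A.τ A.n = A.n := by
  unfold n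
  simp only [map_sub, map_div₀, map_mul, map_pow, map_one, A.τj, A.τc]

theorem σv0 : A.σ A.v0 = A.v0 := by
  unfold v0
  rw [map_sub, A.σth, A.σte]
  ring

theorem τv0 : A.τ A.v0 = A.v0 := by
  unfold v0
  rw [map_sub, A.τth, A.τte]

theorem mem_Z {a : R} : a ∈ A.Z ↔ A.σ a = a ∧ A.τ a = a := by
  unfold Z
  rw [CPZ.mem_Fx]
  simp

theorem c_mem : A.c ∈ A.Z := A.mem_Z.2 ⟨A.σc, A.τc⟩

theorem j_mem : A.j ∈ A.Z := A.mem_Z.2 ⟨A.σj, A.τj⟩

theorem n_mem : A.n ∈ A.Z := A.mem_Z.2 ⟨A.σn, A.τn⟩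

theorem r_mem : A.r ∈ A.Z := A.mem_Z.2 ⟨A.σr, A.τr⟩

theorem v0_mem : A.v0 ∈ A.Z := A.mem_Z.2 ⟨A.σv0, A.τv0⟩

theorem t_mem (k : Fin 72) : A.t k ∈ A.Z := A.mem_Z.2 ⟨A.σt k, A.τt k⟩

theorem σTe : A.σ A.Te = A.Te + 1 := by
  have h3 : (3 : R) = 0 := A2_h3
  unfold Te
  rw [map_pow, map_sub, map_one, A.σte]
  linear_combination (A.te ^ 2 - A.te) * h3

theorem τTe : A.τ A.Te = A.Te := by
  unfold Te
  rw [map_pow, map_sub, map_one, A.τte]

theorem Te_eq : A.Te = A.te - 1 + A.c := by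
  have h3 : (3 : R) = 0 := A2_h3
  unfold Te c
  linear_combination (A.te - A.te ^ 2) * h3

theorem Te3 : A.Te ^ 3 = A.Te + A.c ^ 3 := by
  have h3 : (3 : R) = 0 := A2_h3
  have h1 : A.Te ^ 3 = (A.te - 1 + A.c) ^ 3 := by rw [A.Te_eq]
  rw [h1]
  unfold Te
  linear_combination ((A.te - 1) ^ 2 * A.c + (A.te - 1) * A.c ^ 2) * h3

end AS

end CZT
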