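import Pool.Agent.CZT.A2

/-!
# CZT/A3: the second family of generators

`gens2`: `adjoin F (range g2)` contains `w 0`, `w 1` (`w0_eq`, `w1_eq`), `w 2`, hence all `u 0 j = w j / (u 1 j * u 2 j)`, `th = v0 + te`.
`ind2`: `CPZ.ind_of_gens` (`AS.card_Idx`, `A.trd`).  `r_sq`: `r` is a member of an algebraically independent family, hence transcendental
over `F`, so it is not a root of `X ^ 2 - 1`.
-/

set_option autoImplicit false

namespace CZT

open IntermediateField

universe u v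

variable {F : Type u} {R : Type v} [Field F] [Field R] [Algebra F R]

namespace AS

variable (A : AS F R) [CharP R 3]

omit [CharP R 3] in
private theorem A3_mem (x : Idx) : A.g2 x ∈ adjoin F (Set.range A.g2) := subset_adjoin F _ ⟨x, rfl⟩

theorem gens2 : adjoin F (Set.range A.g2) = ⊤ := by
  have hte : A.te ∈ adjoin F (Set.range A.g2) := A.A3_mem (Sum.inl 0)
  have hr : A.r ∈ adjoin F (Set.range A.g2) := A.A3_mem (Sum.inl 1)
  have h1 : (1 : R) ∈ adjoin F (Set.range A.g2) := one_mem _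
  have h2 : (2 : R) ∈ adjoin F (Set.range A.g2) := by
    have h3 := add_mem h1 h1
    rwa [one_add_one_eq_two] at h3
  have hw0 : A.w 0 ∈ adjoin F (Set.range A.g2) := by
    rw [A.w0_eq]
    exact div_mem (mul_mem (sub_mem (add_mem hte h1) hr) hte) (mul_mem (add_mem hte h1) (sub_mem hte hr))
  have hw1 : A.w 1 ∈ adjoin F (Set.range A.g2) := by
    rw [A.w1_eq]
    exact div_mem (mul_mem (sub_mem (add_mem hte h2) hr) (add_mem hte h1))
      (mul_mem (add_mem hte h2) (sub_mem (add_mem hte h1) hr))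
  have hw2 : A.w 2 ∈ adjoin F (Set.range A.g2) := by
    have h1 : A.w 2 = (A.w 0 * A.w 1)⁻¹ :=
      eq_inv_of_mul_eq_one_right A.prod_w
    rw [h1]
    exact inv_mem (mul_mem hw0 hw1)
  have hw : ∀ j, A.w j ∈ adjoin F (Set.range A.g2) := by
    intro j
    have hj : j = 0 ∨ j = 1 ∨ j = 2 := by
      revert j
      decide
    rcases hj with rfl | rfl | rfl
    · exact hw0
    · exact hw1
    · exact hw2
  have hu1 : ∀ j, A.u 1 j ∈ adjoin F (Set.range A.g2) := by
    intro j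
    have h1 := A.A3_mem (Sum.inr (Sum.inl (0, j)))
    have h2 : A.g2 (Sum.inr (Sum.inl (0, j))) = A.u 1 j := by
      show A.u ((((0 : Fin 2) : ℕ) : ZMod 3) + 1) j = A.u 1 j
      congr 1
    rwa [h2] at h1
  have hu2 : ∀ j, A.u 2 j ∈ adjoin F (Set.range A.g2) := by
    intro j
    have h1 := A.A3_mem (Sum.inr (Sum.inl (1, j)))
    have h2 : A.g2 (Sum.inr (Sum.inl (1, j))) = A.u 2 j := by
      show A.u ((((1 : Fin 2) : ℕ) : ZMod 3) + 1) j = A.u 2 j
      congr 1
    rwa [h2] at h1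
  have hu0 : ∀ j, A.u 0 j ∈ adjoin F (Set.range A.g2) := by
    intro j
    have h1 : A.u 0 j = A.w j * (A.u 1 j * A.u 2 j)⁻¹ := by
      rw [A.w_eq, mul_assoc (A.u 0 j), mul_inv_cancel_right₀ (mul_ne_zero (A.u_ne 1 j) (A.u_ne 2 j))]
    rw [h1]
    exact mul_mem (hw j) (inv_mem (mul_mem (hu1 j) (hu2 j)))
  have hu : ∀ i j, A.u i j ∈ adjoin F (Set.range A.g2) := by
    intro i j
    have hi : i = 0 ∨ i = 1 ∨ i = 2 := by
      revert i
      decide
    rcases hi with rfl | rfl | rfl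
    · exact hu0 j
    · exact hu1 j
    · exact hu2 j
  rw [eq_top_iff, ← A.gen, adjoin_le_iff]
  rintro r ((⟨p, rfl⟩ | hr) | ⟨k, rfl⟩)
  · exact hu p.1 p.2
  · rcases hr with rfl | hr
    · have h3 : A.v0 ∈ adjoin F (Set.range A.g2) := A.A3_mem (Sum.inr (Sum.inr (Sum.inl 0)))
      have h4 := add_mem h3 hte
      have h5 : A.v0 + A.te = A.th := by
        unfold v0
        rw [sub_add_cancel]
      rwa [h5] at h4
    · rw [Set.mem_singleton_iff] at hr
      rw [hr]
      exact A.A3_mem (Sum.inr (Sum.inr (Sum.inl 1)))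
  · exact A.A3_mem (Sum.inr (Sum.inr (Sum.inr k)))

theorem ind2 : AlgebraicIndependent F A.g2 := by
  refine CPZ.ind_of_gens A.g2 A.gens2 ?_
  rw [card_Idx]
  exact A.trd

theorem r_sq : A.r ^ 2 ≠ 1 := by
  intro h
  have h1 : Transcendental F A.r := A.ind2.transcendental (Sum.inl 1)
  apply h1
  refine ⟨Polynomial.X ^ 2 - 1, ?_, ?_⟩
  · exact (Polynomial.monic_X_pow_sub_C (1 : F) two_ne_zero).ne_zero
  · rw [map_sub, map_pow, Polynomial.aeval_X, map_one, h, sub_self]

theorem j_sq : A.j ^ 2 - 1 ≠ 0 := by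
  intro h
  apply A.r_sq
  have h1 : A.j * A.r = 1 := inv_mul_cancel₀ A.r_ne
  have h2 : A.j ^ 2 = 1 := sub_eq_zero.1 h
  calc A.r ^ 2 = A.j ^ 2 * A.r ^ 2 := by rw [h2, one_mul]
    _ = (A.j * A.r) ^ 2 := by ring
    _ = 1 := by rw [h1, one_pow]

end AS

end CZT
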