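import Mathlib

/-!
# CZT/A4: derivations of a rational function field with given values (Mathlib only)

The homomorphism from the polynomial ring to the dual numbers over `R` which sends `X i` to `x i + d i ε` extends to `R`, the
fraction field of the polynomial ring; its second component is the derivation.
-/

set_option autoImplicit false

namespace CZT

open IntermediateField

universe u v

variable {F : Type u} {R : Type v} [Field F] [Field R] [Algebra F R]

/-- a derivation with prescribed values on a family of algebraically independent generators -/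
theorem exists_der {ι : Type} (x : ι → R) (hx : AlgebraicIndependent F x)
    (hg : adjoin F (Set.range x) = ⊤) (d : ι → R) : ∃ D : Derivation F R R, ∀ i, D (x i) = d i := by
  classical
  let _ : Algebra (MvPolynomial ι F) R := (MvPolynomial.aeval x : MvPolynomial ι F →ₐ[F] R).toRingHom.toAlgebra
  have hmap : ∀ p : MvPolynomial ι F, algebraMap (MvPolynomial ι F) R p = MvPolynomial.aeval x p := fun _ => rfl
  have hinj : Function.Injective (algebraMap (MvPolynomial ι F) R) := algebraicIndependent_iff_injective_aeval.1 hx
  have : FaithfulSMul (MvPolynomial ι F) R := (faithfulSMul_iff_algebraMap_injective _ _).2 hinj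
  have hfr : IsFractionRing (MvPolynomial ι F) R := by
    refine IsFractionRing.of_field _ _ fun z => ?_
    have hz : z ∈ adjoin F (Set.range x) := by rw [hg]; exact IntermediateField.mem_top
    obtain ⟨r, s, hrs⟩ := (mem_adjoin_range_iff F x z).1 hz
    exact ⟨r, s, by rw [hmap, hmap]; exact hrs⟩
  let φ : MvPolynomial ι F →ₐ[F] TrivSqZeroExt R R :=
    MvPolynomial.aeval fun i => TrivSqZeroExt.inl (x i) + TrivSqZeroExt.inr (d i)
  have hφ : ∀ p, (φ p).fst = MvPolynomial.aeval x p := by
    have h1 : (TrivSqZeroExt.fstHom F R R).comp φ = MvPolynomial.aeval x := by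
      ext i
      simp [φ]
    intro p
    exact DFunLike.congr_fun h1 p
  have hu : ∀ y : nonZeroDivisors (MvPolynomial ι F), IsUnit (φ.toRingHom y) := by
    intro y
    rw [TrivSqZeroExt.isUnit_iff_isUnit_fst]
    show IsUnit (φ y).fst
    rw [hφ, isUnit_iff_ne_zero, ← hmap, ne_eq, map_eq_zero_iff _ hinj]
    exact nonZeroDivisors.ne_zero y.2
  let ψ : R →+* TrivSqZeroExt R R := IsLocalization.lift (M := nonZeroDivisors (MvPolynomial ι F)) (S := R) hu
  have hψ : ∀ p, ψ (MvPolynomial.aeval x p) = φ p := by
    intro p
    rw [← hmap]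
    exact IsLocalization.lift_eq hu p
  have hfst : ∀ f, (ψ f).fst = f := by
    have h1 : ((TrivSqZeroExt.fstHom F R R).toRingHom.comp ψ) = RingHom.id R := by
      refine IsLocalization.ringHom_ext (nonZeroDivisors (MvPolynomial ι F)) ?_
      refine RingHom.ext fun p => ?_
      show (ψ (MvPolynomial.aeval x p)).fst = MvPolynomial.aeval x p
      rw [hψ, hφ]
    intro f
    exact DFunLike.congr_fun h1 f
  have hc : ∀ c : F, ψ (algebraMap F R c) = TrivSqZeroExt.inl (algebraMap F R c) := by
    intro c
    have h1 : algebraMap F R c = MvPolynomial.aeval x (MvPolynomial.C c) := (MvPolynomial.aeval_C x c).symm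
    rw [h1, hψ, ← MvPolynomial.algebraMap_eq, AlgHom.commutes, AlgHom.commutes]
    rfl
  have hmul : ∀ f g, (ψ (f * g)).snd = f * (ψ g).snd + g * (ψ f).snd := by
    intro f g
    rw [map_mul, TrivSqZeroExt.snd_mul, hfst, hfst]
    simp only [smul_eq_mul, MulOpposite.smul_eq_mul_unop, MulOpposite.unop_op]
    ring
  refine ⟨Derivation.mk' { toFun := fun f => (ψ f).snd, map_add' := ?_, map_smul' := ?_ } ?_, ?_⟩
  · intro f g
    rw [map_add, TrivSqZeroExt.snd_add]
  · intro c f
    rw [Algebra.smul_def, hmul, hc, TrivSqZeroExt.snd_inl, mul_zero, add_zero, RingHom.id_apply, Algebra.smul_def]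
  · intro f g
    show (ψ (f * g)).snd = f • (ψ g).snd + g • (ψ f).snd
    rw [hmul]
    rfl
  · intro i
    show (ψ (x i)).snd = d i
    have h1 : ψ (x i) = φ (MvPolynomial.X i) := by
      rw [← hψ, MvPolynomial.aeval_X]
    rw [h1]
    simp [φ]

end CZT
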