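import Pool.Agent.CZT.A3
import Pool.Agent.CZT.A4

/-!
# CZT/A5: existence of `P`, `Q`, `E`

`exists_der` for the family `A.g2` of algebraically independent generators (`ind2`, `gens2`), with values supported at the first two
indices.
-/

set_option autoImplicit false

namespace CZT

open IntermediateField

universe u v

variable {F : Type u} {R : Type v} [Field F] [Field R] [Algebra F R]

private theorem A5_der (A : AS F R) [CharP R 3] (a b : R) :
    ∃ D : Derivation F R R, D A.te = a ∧ D A.r = b := by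
  obtain ⟨D, hD⟩ := exists_der A.g2 A.ind2 A.gens2 (Sum.elim ![a, b] (fun _ => 0))
  exact ⟨D, hD (Sum.inl 0), hD (Sum.inl 1)⟩

theorem exists_PQ (A : AS F R) [CharP R 3] : Nonempty (PQ A) := by
  obtain ⟨P, hP1, hP2⟩ := A5_der A (A.c * A.j) (A.r ^ 2 - 1)
  obtain ⟨Q, hQ1, hQ2⟩ := A5_der A (-(A.c + A.c ^ 2 * A.j)) (-(A.c * A.r ^ 2))
  obtain ⟨E, hE1, hE2⟩ := A5_der A (-1) 0
  exact ⟨⟨P, Q, E, hP1, hP2, hQ1, hQ2, hE1, hE2⟩⟩

end CZT
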