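import Pool.Agent.CZT.A3

/-!
# CZT/A6: values of the derivations
-/

set_option autoImplicit false

namespace CZT

open IntermediateField

universe u v

variable {F : Type u} {R : Type v} [Field F] [Field R] [Algebra F R]

private theorem A6_three [CharP R 3] : (3 : R) = 0 := by
  have h := CharP.cast_eq_zero R 3
  exact_mod_cast h

theorem der_cube [CharP R 3] (D : Derivation F R R) (f : R) : D (f ^ 3) = 0 := by
  have h3 : (3 : R) = 0 := A6_three
  rw [D.leibniz_pow]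
  simp only [nsmul_eq_mul, smul_eq_mul]
  push_cast
  rw [h3]
  ring

private theorem A6_inv (D : Derivation F R R) {f : R} (hf : f ≠ 0) : D f⁻¹ = -(D f) / f ^ 2 := by
  have h1 : D (f * f⁻¹) = 0 := by
    rw [mul_inv_cancel₀ hf]
    exact D.map_one_eq_zero
  rw [D.leibniz] at h1
  simp only [smul_eq_mul] at h1
  have h2 : f * D f⁻¹ = -(f⁻¹ * D f) := by linear_combination h1
  have h3 : D f⁻¹ = -(f⁻¹ * D f) / f := by
    rw [← h2]
    field_simp
  rw [h3]
  field_simp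

private theorem A6_sq (D : Derivation F R R) (f : R) : D (f ^ 2 - 1) = 2 * f * D f := by
  rw [map_sub, D.leibniz_pow, D.map_one_eq_zero]
  simp only [nsmul_eq_mul, smul_eq_mul]
  push_cast
  ring

variable {A : AS F R} [CharP R 3]

private theorem A6_N : (A.n + 1) * (A.j ^ 2 - 1) = A.j ^ 3 * A.c := by
  have h1 : A.j ^ 2 - 1 ≠ 0 := A.j_sq
  unfold AS.n
  rw [sub_add_cancel]
  exact div_mul_cancel₀ _ h1

theorem AS.c_eq : A.c = (A.j ^ 2 - 1) * (A.n + 1) / A.j ^ 3 := by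
  have h0 : A.j ^ 3 ≠ 0 := pow_ne_zero 3 A.j_ne
  rw [eq_div_iff h0]
  linear_combination -(A6_N (A := A))

theorem AS.n1_ne : A.n + 1 ≠ 0 := by
  intro h
  have h1 := A6_N (A := A)
  rw [h, zero_mul] at h1
  exact mul_ne_zero (pow_ne_zero 3 A.j_ne) A.c_ne h1.symm

private theorem A6_der_c (D : Derivation F R R) : D A.c = -(D A.te) := by
  unfold AS.c
  rw [map_sub, der_cube, zero_sub]

private theorem A6_der_N (D : Derivation F R R) :
    D A.n * (A.j ^ 2 - 1) + (A.n + 1) * (2 * A.j * D A.j) = A.j ^ 3 * D A.c := by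
  have h := congrArg D (A6_N (A := A))
  rw [D.leibniz, D.leibniz, A6_sq, der_cube, map_add, D.map_one_eq_zero] at h
  simp only [smul_eq_mul] at h
  linear_combination h

namespace PQ

variable (D : PQ A)

theorem Pj : D.P A.j = A.j ^ 2 - 1 := by
  have h0 : A.r ≠ 0 := A.r_ne
  have h := A6_inv D.P h0
  unfold AS.j
  rw [h, D.Pr]
  field_simp
  ring

theorem Pc : D.P A.c = -(A.c * A.j) := by
  rw [A6_der_c, D.Pte]

theorem Qj : D.Q A.j = A.c := by
  have h0 : A.r ≠ 0 := A.r_ne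
  have h := A6_inv D.Q h0
  unfold AS.j
  rw [h, D.Qr]
  field_simp

theorem Qc : D.Q A.c = A.c + A.c ^ 2 * A.j := by
  rw [A6_der_c, D.Qte, neg_neg]

theorem Ej : D.E A.j = 0 := by
  have h0 : A.r ≠ 0 := A.r_ne
  have h := A6_inv D.E h0
  unfold AS.j
  rw [h, D.Er]
  simp

theorem Ec : D.E A.c = 1 := by
  rw [A6_der_c, D.Ete, neg_neg]

theorem En : D.E A.n = A.j ^ 3 / (A.j ^ 2 - 1) := by
  have h1 : A.j ^ 2 - 1 ≠ 0 := A.j_sq
  have h := A6_der_N (A := A) D.E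
  rw [D.Ej, D.Ec] at h
  rw [eq_div_iff h1]
  linear_combination h

theorem Pn : D.P A.n = 0 := by
  have h3 : (3 : R) = 0 := A6_three
  have h1 : A.j ^ 2 - 1 ≠ 0 := A.j_sq
  have h := A6_der_N (A := A) D.P
  rw [D.Pj, D.Pc] at h
  have h2 : D.P A.n * (A.j ^ 2 - 1) = 0 := by
    linear_combination h + A.j * (A6_N (A := A)) - A.j * (A.n + 1) * (A.j ^ 2 - 1) * h3
  rcases mul_eq_zero.1 h2 with h4 | h4
  · exact h4
  · exact absurd h4 h1

theorem Qn : D.Q A.n = A.n ^ 2 - 1 := by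
  have h3 : (3 : R) = 0 := A6_three
  have h1 : A.j ^ 2 - 1 ≠ 0 := A.j_sq
  have h := A6_der_N (A := A) D.Q
  rw [D.Qj, D.Qc] at h
  have hN := A6_N (A := A)
  have h2 : (D.Q A.n - (A.n ^ 2 - 1)) * (A.j ^ 2 - 1) = 0 := by
    linear_combination h - (A.n + 1 + 1 + A.j * A.c) * hN +
      ((A.n + 1) * (A.j ^ 2 - 1) - (A.n + 1) * A.j * A.c) * h3
  rcases mul_eq_zero.1 h2 with h4 | h4
  · exact sub_eq_zero.1 h4
  · exact absurd h4 h1

theorem n2_ne : A.n - 1 ≠ 0 := by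
  intro h
  have h3 : (3 : R) = 0 := A6_three
  have h0 : A.r ≠ 0 := A.r_ne
  have h2 : A.n = 1 := sub_eq_zero.1 h
  have hN := A6_N (A := A)
  rw [h2] at hN
  have hj : A.j * A.r = 1 := by
    unfold AS.j
    exact inv_mul_cancel₀ h0
  have h4 : 2 * (A.r - A.r ^ 3) = A.c := by
    have h5 : (1 + 1) * (A.j ^ 2 - 1) * A.r ^ 3 = A.j ^ 3 * A.c * A.r ^ 3 := by rw [hN]
    have h6 : (1 + 1) * (A.j ^ 2 - 1) * A.r ^ 3 = 2 * ((A.j * A.r) ^ 2 * A.r - A.r ^ 3) := by ring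
    have h7 : A.j ^ 3 * A.c * A.r ^ 3 = (A.j * A.r) ^ 3 * A.c := by ring
    rw [h6, h7, hj] at h5
    linear_combination h5
  unfold AS.c at h4
  have h8 : (A.te - A.r) * (A.te + 1 - A.r) * (A.te + 1 + 1 - A.r) = 0 := by
    linear_combination -h4 + (-A.te ^ 2 * A.r + A.te * A.r ^ 2 + A.te ^ 2 + A.r ^ 2 - 2 * A.te * A.r +
      A.te - A.r + A.r - A.r ^ 3) * h3
  have h9 : A.te + 1 + 1 - A.r ≠ 0 := by
    intro h10
    have h11 : A.σ (A.te + 1 - A.r) = A.te + 1 + 1 - A.r := by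
      rw [map_sub, map_add, map_one, A.σte, A.σr]
    rw [h10] at h11
    exact A.te1_r ((map_eq_zero A.σ).1 h11)
  exact mul_ne_zero (mul_ne_zero A.te_r A.te1_r) h9 h8

theorem PTe : D.P A.Te = 0 := by
  unfold AS.Te
  exact der_cube D.P _

theorem QTe : D.Q A.Te = 0 := by
  unfold AS.Te
  exact der_cube D.Q _

end PQ

end CZT
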