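import Pool.Agent.CZT.A6

/-!
# CZT/A6w: the logarithmic derivatives of `w 0`

`w = w 0` satisfies `w * ((te + 1) * (te - r)) = (te + 1 - r) * te` (`w0_mul`).  Apply the derivation, multiply by nonzero factors, and
substitute `c = te ^ 3 - te`, `j = r⁻¹`: the claims become polynomial identities in `te`, `r` modulo 3.
-/

set_option autoImplicit false

namespace CZT

open IntermediateField

universe u v

variable {F : Type u} {R : Type v} [Field F] [Field R] [Algebra F R]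

variable {A : AS F R} [CharP R 3]

private theorem A6w_der (D : Derivation F R R) :
    D (A.w 0) * ((A.te + 1) * (A.te - A.r)) + A.w 0 * (D A.te * (A.te - A.r) + (A.te + 1) * (D A.te - D A.r)) =
      (D A.te - D A.r) * A.te + (A.te + 1 - A.r) * D A.te := by
  have h := congrArg D A.w0_mul
  rw [D.leibniz, D.leibniz, D.leibniz, map_add, map_sub, map_sub, map_add, D.map_one_eq_zero] at h
  simp only [smul_eq_mul] at h
  linear_combination h

private theorem A6w_ne : A.r * ((A.te + 1) * (A.te - A.r)) ^ 2 ≠ 0 :=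
  mul_ne_zero A.r_ne (pow_ne_zero 2 (mul_ne_zero A.te1_ne A.te_r))

private theorem A6w_hj : A.j * A.r = 1 := by
  unfold AS.j
  exact inv_mul_cancel₀ A.r_ne

namespace PQ

variable (D : PQ A)

theorem Pw : D.P (A.w 0) = A.w 0 := by
  have h3 : (3 : R) = 0 := CharP.ofNat_eq_zero R 3
  have h := A6w_der (A := A) D.P
  rw [D.Pr] at h
  have hw := A.w0_mul
  have hT : D.P A.te * A.r = A.te ^ 3 - A.te := by
    rw [D.Pte]
    have := A6w_hj (A := A)
    unfold AS.c
    linear_combination (A.te ^ 3 - A.te) * this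
  have key : (D.P (A.w 0) - A.w 0) * (A.r * ((A.te + 1) * (A.te - A.r)) ^ 2) = 0 := by
    linear_combination (A.r * ((A.te + 1) * (A.te - A.r))) * h -
      A.r * ((D.P A.te * (A.te - A.r) + (A.te + 1) * (D.P A.te - (A.r ^ 2 - 1))) + (A.te + 1) * (A.te - A.r)) * hw +
      (2 * A.te + 1 - A.r) * ((A.te + 1) * (A.te - A.r) - (A.te + 1 - A.r) * A.te) * hT +
      (-A.te ^ 4 * A.r + A.te ^ 3 * A.r ^ 2 - A.te ^ 3 * A.r + A.te ^ 2 * A.r ^ 2) * h3
  rcases mul_eq_zero.1 key with h4 | h4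
  · exact sub_eq_zero.1 h4
  · exact absurd h4 A6w_ne

theorem Qw : D.Q (A.w 0) = -(A.Te * A.w 0) := by
  have h3 : (3 : R) = 0 := CharP.ofNat_eq_zero R 3
  have h := A6w_der (A := A) D.Q
  rw [D.Qr] at h
  have hw := A.w0_mul
  have hT : D.Q A.te * A.r = -((A.te ^ 3 - A.te) * A.r + (A.te ^ 3 - A.te) ^ 2) := by
    rw [D.Qte]
    have := A6w_hj (A := A)
    unfold AS.c
    linear_combination -(A.te ^ 3 - A.te) ^ 2 * this
  have hc : A.c = A.te ^ 3 - A.te := rfl
  rw [hc] at h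
  have key : (D.Q (A.w 0) + A.Te * A.w 0) * (A.r * ((A.te + 1) * (A.te - A.r)) ^ 2) = 0 := by
    unfold AS.Te
    linear_combination (A.r * ((A.te + 1) * (A.te - A.r))) * h -
      A.r * ((D.Q A.te * (A.te - A.r) + (A.te + 1) * (D.Q A.te - -((A.te ^ 3 - A.te) * A.r ^ 2))) -
        (A.te - 1) ^ 3 * ((A.te + 1) * (A.te - A.r))) * hw +
      (2 * A.te + 1 - A.r) * ((A.te + 1) * (A.te - A.r) - (A.te + 1 - A.r) * A.te) * hT +
      (A.te ^ 7 * A.r - A.te ^ 6 * A.r ^ 2 + A.te ^ 5 * A.r ^ 2 - 2 * A.te ^ 5 * A.r - A.te ^ 4 * A.r ^ 3 +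
        2 * A.te ^ 4 * A.r ^ 2 - A.te ^ 3 * A.r ^ 2 + A.te ^ 3 * A.r + A.te ^ 2 * A.r ^ 3 - A.te ^ 2 * A.r ^ 2) * h3
  rcases mul_eq_zero.1 key with h4 | h4
  · linear_combination h4
  · exact absurd h4 A6w_ne

end PQ

end CZT
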