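import Pool.Agent.CZT.A6

/-!
# CZT/A7: p-independence

`pindep_of`: the relation is `G 0 + G 1 p + G 2 p ^ 2 = 0` with constants `G a` of `D₁`, so all `G a` vanish (apply `D₁` twice), and the same for `q`.
`PQ.pindep`: `D₁ = (j ^ 2 - 1)⁻¹ • P`, `D₂ = ((j ^ 2 - 1) / j ^ 3) • E`.  `cube_mem`, `mem_BZ`: comparison of coefficients.
-/

set_option autoImplicit false

namespace CZT

open IntermediateField

universe u v

variable {F : Type u} {R : Type v} [Field F] [Field R] [Algebra F R]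

variable [CharP R 3]

omit [CharP R 3] in
private theorem A7_one (h2 : (2 : R) ≠ 0) {q : R} (D : Derivation F R R) (h1 : D q = 1) (g0 g1 g2 : R) (e0 : D g0 = 0)
    (e1 : D g1 = 0) (e2 : D g2 = 0) (h : g0 + g1 * q + g2 * q ^ 2 = 0) : g0 = 0 ∧ g1 = 0 ∧ g2 = 0 := by
  have k1 : g1 + 2 * (g2 * q) = 0 := by
    have := congrArg D h
    rw [map_zero, map_add, map_add, Derivation.leibniz, Derivation.leibniz, Derivation.leibniz_pow, e0, e1, e2, h1] at this
    simp only [smul_eq_mul, nsmul_eq_mul] at this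
    norm_num at this
    linear_combination this
  have k2 : 2 * g2 = 0 := by
    have := congrArg D k1
    have e3 : D (2 : R) = 0 := by
      have := D.map_natCast 2
      exact_mod_cast this
    rw [map_zero, map_add, Derivation.leibniz, Derivation.leibniz, e1, e2, e3, h1] at this
    simp only [smul_eq_mul] at this
    linear_combination this
  have k3 : g2 = 0 := (mul_eq_zero.1 k2).resolve_left h2
  have k4 : g1 = 0 := by
    rw [k3] at k1
    linear_combination k1
  have k5 : g0 = 0 := by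
    rw [k3, k4] at h
    linear_combination h
  exact ⟨k5, k4, k3⟩

private theorem A7_two : (2 : R) ≠ 0 := by
  intro h
  have h3 : (3 : R) = 0 := by exact_mod_cast CharP.cast_eq_zero R 3
  exact one_ne_zero (α := R) (by linear_combination h3 - h)

private theorem A7_sub (x y : R) : (x - y) ^ 3 = x ^ 3 - y ^ 3 := by
  have h3 : (3 : R) = 0 := by exact_mod_cast CharP.cast_eq_zero R 3
  linear_combination (-(x ^ 2 * y) + x * y ^ 2) * h3

theorem pindep_of {p q : R} (D₁ D₂ : Derivation F R R) (h11 : D₁ p = 1) (h12 : D₁ q = 0)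
    (h21 : D₂ p = 0) (h22 : D₂ q = 1) (f : Fin 3 → Fin 3 → R)
    (h : ∑ a : Fin 3, ∑ b : Fin 3, f a b ^ 3 * p ^ (a : ℕ) * q ^ (b : ℕ) = 0) : ∀ a b, f a b = 0 := by
  have h2 : (2 : R) ≠ 0 := A7_two
  have c1 : ∀ a, D₁ (f a 0 ^ 3 + f a 1 ^ 3 * q + f a 2 ^ 3 * q ^ 2) = 0 := by
    intro a
    rw [map_add, map_add, Derivation.leibniz, Derivation.leibniz, Derivation.leibniz_pow D₁ q, der_cube, der_cube, der_cube,
      h12]
    simp
  have k := A7_one h2 D₁ h11 _ _ _ (c1 0) (c1 1) (c1 2) (by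
    simp only [Fin.sum_univ_three, Fin.val_zero, Fin.val_one, Fin.val_two, pow_zero, pow_one] at h
    linear_combination h)
  have key : ∀ a, f a 0 ^ 3 + f a 1 ^ 3 * q + f a 2 ^ 3 * q ^ 2 = 0 := by
    intro a
    fin_cases a
    · exact k.1
    · exact k.2.1
    · exact k.2.2
  intro a b
  have m := A7_one h2 D₂ h22 _ _ _ (der_cube D₂ (f a 0)) (der_cube D₂ (f a 1)) (der_cube D₂ (f a 2)) (key a)
  have m0 := pow_eq_zero_iff (three_ne_zero) |>.1 m.1
  have m1 := pow_eq_zero_iff (three_ne_zero) |>.1 m.2.1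
  have m2 := pow_eq_zero_iff (three_ne_zero) |>.1 m.2.2
  fin_cases b
  · exact m0
  · exact m1
  · exact m2

variable {A : AS F R}

namespace PQ

variable (D : PQ A)

include D

theorem pindep (f : Fin 3 → Fin 3 → R)
    (h : ∑ a : Fin 3, ∑ b : Fin 3, f a b ^ 3 * A.j ^ (a : ℕ) * A.n ^ (b : ℕ) = 0) : ∀ a b, f a b = 0 := by
  have hj : A.j ^ 2 - 1 ≠ 0 := A.j_sq
  have hj0 : A.j ≠ 0 := A.j_ne
  refine pindep_of ((A.j ^ 2 - 1)⁻¹ • D.P) (((A.j ^ 2 - 1) / A.j ^ 3) • D.E) ?_ ?_ ?_ ?_ f h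
  · rw [Derivation.smul_apply, D.Pj, smul_eq_mul, inv_mul_cancel₀ hj]
  · rw [Derivation.smul_apply, D.Pn, smul_zero]
  · rw [Derivation.smul_apply, D.Ej, smul_zero]
  · rw [Derivation.smul_apply, D.En, smul_eq_mul]
    field_simp

theorem cube_mem {L : IntermediateField F R} (hj : A.j ∈ L) (hn : A.n ∈ L) {f : R}
    (h : f ^ 3 ∈ Bf L A.j A.n) : f ∈ L := by
  obtain ⟨l, hl, he⟩ := (mem_Bf hj hn).1 h
  have k := D.pindep (fun a b => if a = 0 ∧ b = 0 then l 0 0 - f else l a b) (by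
    simp only [Fin.sum_univ_three, Fin.val_zero, Fin.val_one, Fin.val_two, pow_zero, pow_one, mul_one] at he ⊢
    simp only [Fin.isValue, true_and, one_ne_zero, and_false, if_false, if_true, false_and, and_self,
      (by decide : (2 : Fin 3) ≠ 0)]
    rw [A7_sub, he]
    ring) 0 0
  rw [if_pos ⟨rfl, rfl⟩, sub_eq_zero] at k
  rw [← k]
  exact hl 0 0

theorem mem_BZ {f : R} (hf : f ∈ Bf (⊤ : IntermediateField F R) A.j A.n) (hZ : f ∈ A.Z) :
    f ∈ Bf A.Z A.j A.n := by
  obtain ⟨l, -, he⟩ := (mem_Bf (L := (⊤ : IntermediateField F R)) IntermediateField.mem_top IntermediateField.mem_top).1 hf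
  have key : ∀ s : R ≃ₐ[F] R, s f = f → s A.j = A.j → s A.n = A.n → ∀ a b, s (l a b) = l a b := by
    intro s h1 h2 h3 a b
    have k := D.pindep (fun a b => s (l a b) - l a b) (by
      have h4 : s f - f = 0 := by rw [h1, sub_self]
      rw [he, map_sum, ← Finset.sum_sub_distrib] at h4
      rw [← h4]
      refine Finset.sum_congr rfl fun a _ => ?_
      rw [map_sum, ← Finset.sum_sub_distrib]
      refine Finset.sum_congr rfl fun b _ => ?_
      rw [map_mul, map_mul, map_pow, map_pow, map_pow, h2, h3, A7_sub]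
      ring) a b
    exact sub_eq_zero.1 k
  obtain ⟨hσ, hτ⟩ := A.mem_Z.1 hZ
  refine (mem_Bf A.j_mem A.n_mem).2 ⟨l, fun a b => A.mem_Z.2 ⟨?_, ?_⟩, he⟩
  · exact key A.σ hσ A.σj A.σn a b
  · exact key A.τ hτ A.τj A.τn a b

end PQ

end CZT
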