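import Pool.Agent.CZT.A6

/-!
# CZT/A8: elements of `L³(j, n)`

The field `Bf L j n` contains `c`, and `te`, `w 0`, `Te` if `te ∈ L`; it is stable under the derivations `P`, `Q`, and `Bf ⊤ j n` is stable under
`σ`, `τ`.
-/

set_option autoImplicit false

namespace CZT

open IntermediateField

universe u v

variable {F : Type u} {R : Type v} [Field F] [Field R] [Algebra F R]

/-- an automorphism which fixes `p`, `q` -/
private theorem A8_aut {p q : R} (s : R ≃ₐ[F] R) (hp : s p = p) (hq : s q = q) {f : R}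
    (hf : f ∈ Bf (⊤ : IntermediateField F R) p q) : s f ∈ Bf (⊤ : IntermediateField F R) p q := by
  have h : Bf (⊤ : IntermediateField F R) p q ≤ (Bf (⊤ : IntermediateField F R) p q).comap (s : R →+* R) := by
    refine Subfield.closure_le.2 ?_
    rintro f (⟨l, -, rfl⟩ | rfl | hf)
    · show s (l ^ 3) ∈ Bf (⊤ : IntermediateField F R) p q
      rw [map_pow]
      exact cube_mem_Bf _ p q (IntermediateField.mem_top)
    · show s f ∈ Bf (⊤ : IntermediateField F R) f q
      rw [hp]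
      exact p_mem_Bf _ f q
    · rw [Set.mem_singleton_iff] at hf
      rw [hf]
      show s q ∈ Bf (⊤ : IntermediateField F R) p q
      rw [hq]
      exact q_mem_Bf _ p q
  exact h hf

variable {A : AS F R} [CharP R 3]

/-- a derivation with `D p, D q ∈ Bf L p q` -/
private theorem A8_der {L : IntermediateField F R} {p q : R} (D : Derivation F R R) (hp : D p ∈ Bf L p q)
    (hq : D q ∈ Bf L p q) {f : R} (hf : f ∈ Bf L p q) : D f ∈ Bf L p q := by
  have h : ∀ f (_ : f ∈ Bf L p q), f ∈ Bf L p q ∧ D f ∈ Bf L p q := by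
    intro f hf
    refine Subfield.closure_induction (p := fun f _ => f ∈ Bf L p q ∧ D f ∈ Bf L p q) ?_ ?_ ?_ ?_ ?_ ?_ hf
    · rintro f (⟨l, hl, rfl⟩ | rfl | hf)
      · refine ⟨cube_mem_Bf L p q hl, ?_⟩
        show D (l ^ 3) ∈ Bf L p q
        rw [der_cube D l]
        exact zero_mem _
      · exact ⟨p_mem_Bf L _ q, hp⟩
      · rw [Set.mem_singleton_iff] at hf
        rw [hf]
        exact ⟨q_mem_Bf L p q, hq⟩
    · exact ⟨one_mem _, by rw [D.map_one_eq_zero]; exact zero_mem _⟩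
    · rintro a b - - ⟨ha, ha'⟩ ⟨hb, hb'⟩
      exact ⟨add_mem ha hb, by rw [map_add]; exact add_mem ha' hb'⟩
    · rintro a - ⟨ha, ha'⟩
      exact ⟨neg_mem ha, by rw [map_neg]; exact neg_mem ha'⟩
    · rintro a - ⟨ha, ha'⟩
      refine ⟨inv_mem ha, ?_⟩
      rw [D.leibniz_inv, smul_eq_mul]
      exact mul_mem (neg_mem (pow_mem (inv_mem ha) 2)) ha'
    · rintro a b - - ⟨ha, ha'⟩ ⟨hb, hb'⟩
      refine ⟨mul_mem ha hb, ?_⟩
      rw [D.leibniz, smul_eq_mul, smul_eq_mul]
      exact add_mem (mul_mem ha hb') (mul_mem hb ha')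
  exact (h f hf).2

namespace AS

theorem c_mem_Bf (L : IntermediateField F R) : A.c ∈ Bf L A.j A.n := by
  rw [AS.c_eq]
  have hj := p_mem_Bf L A.j A.n
  have hn := q_mem_Bf L A.j A.n
  exact div_mem (mul_mem (sub_mem (pow_mem hj 2) (one_mem _)) (add_mem hn (one_mem _))) (pow_mem hj 3)

theorem te_mem_Bf {L : IntermediateField F R} (h : A.te ∈ L) : A.te ∈ Bf L A.j A.n := by
  have h1 : A.te = A.te ^ 3 - A.c := by rw [AS.c]; ring
  have h2 := sub_mem (cube_mem_Bf L A.j A.n h) (c_mem_Bf (A := A) L)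
  rw [← h1] at h2
  exact h2

theorem w0_mem_Bf {L : IntermediateField F R} (h : A.te ∈ L) : A.w 0 ∈ Bf L A.j A.n := by
  have ht := te_mem_Bf h
  have hr : A.r ∈ Bf L A.j A.n := by
    have h1 := inv_mem (p_mem_Bf L A.j A.n)
    rw [AS.j, inv_inv] at h1
    rw [AS.j]
    exact h1
  have h1 := one_mem (Bf L A.j A.n)
  rw [A.w0_eq]
  exact div_mem (mul_mem (sub_mem (add_mem ht h1) hr) ht) (mul_mem (add_mem ht h1) (sub_mem ht hr))

theorem Te_mem_Bf {L : IntermediateField F R} (h : A.te ∈ L) : A.Te ∈ Bf L A.j A.n := by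
  exact cube_mem_Bf L A.j A.n (sub_mem h (one_mem L))

theorem σ_mem_Bf {f : R} (hf : f ∈ Bf (⊤ : IntermediateField F R) A.j A.n) :
    A.σ f ∈ Bf (⊤ : IntermediateField F R) A.j A.n := by
  exact A8_aut A.σ A.σj A.σn hf

theorem τ_mem_Bf {f : R} (hf : f ∈ Bf (⊤ : IntermediateField F R) A.j A.n) :
    A.τ f ∈ Bf (⊤ : IntermediateField F R) A.j A.n := by
  exact A8_aut A.τ A.τj A.τn hf

end AS

namespace PQ

variable (D : PQ A)

theorem P_mem {L : IntermediateField F R} {f : R} (hf : f ∈ Bf L A.j A.n) : D.P f ∈ Bf L A.j A.n := by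
  refine A8_der D.P ?_ ?_ hf
  · rw [D.Pj]
    exact sub_mem (pow_mem (p_mem_Bf L A.j A.n) 2) (one_mem _)
  · rw [D.Pn]
    exact zero_mem _

theorem Q_mem {L : IntermediateField F R} {f : R} (hf : f ∈ Bf L A.j A.n) : D.Q f ∈ Bf L A.j A.n := by
  refine A8_der D.Q ?_ ?_ hf
  · rw [D.Qj]
    exact AS.c_mem_Bf L
  · rw [D.Qn]
    exact sub_mem (pow_mem (q_mem_Bf L A.j A.n) 2) (one_mem _)

end PQ

end CZT
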