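import Pool.Agent.CZT.A8

/-!
# CZT/A9: operator identities on `R³(j, n)`

`A9_ext`: an additive map `φ` with `φ (a b) = φ a * s b + s a * φ b`, `s` a homomorphism, which vanishes at `p` and `q`, vanishes on `R³(p, q)`
(characteristic 3).  It is applied to the differences of the two sides of the identities.
-/

set_option autoImplicit false

namespace CZT

open IntermediateField

universe u v

variable {F : Type u} {R : Type v} [Field F] [Field R] [Algebra F R]

private theorem A9_three [CharP R 3] : (3 : R) = 0 := CharP.ofNat_eq_zero R 3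

private theorem A9_ext [CharP R 3] (s : R →+* R) (φ : R → R) (hadd : ∀ a b, φ (a + b) = φ a + φ b)
    (hmul : ∀ a b, φ (a * b) = φ a * s b + s a * φ b) {p q : R} (hp : φ p = 0) (hq : φ q = 0) {f : R}
    (hf : f ∈ Bf (⊤ : IntermediateField F R) p q) : φ f = 0 := by
  have h3 : (3 : R) = 0 := A9_three
  have h0 : φ 0 = 0 := by
    have h := hadd 0 0
    rw [add_zero] at h
    linear_combination -h
  have h1 : φ 1 = 0 := by
    have h := hmul 1 1
    rw [mul_one, map_one] at h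
    linear_combination -h
  refine Subfield.closure_induction (p := fun f _ => φ f = 0) ?_ ?_ ?_ ?_ ?_ ?_ hf
  · rintro f (⟨l, -, rfl⟩ | rfl | hf)
    · show φ (l ^ 3) = 0
      have h := hmul (l * l) l
      rw [hmul l l, map_mul] at h
      rw [pow_three', h]
      linear_combination (φ l * s l * s l) * h3
    · exact hp
    · rw [Set.mem_singleton_iff] at hf
      rw [hf]
      exact hq
  · exact h1
  · rintro a b - - ha hb
    rw [hadd, ha, hb, add_zero]
  · rintro a - ha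
    have h := hadd a (-a)
    rw [add_neg_cancel, h0, ha] at h
    linear_combination -h
  · rintro a - ha
    by_cases haz : a = 0
    · rw [haz, inv_zero]
      exact h0
    · have h := hmul a a⁻¹
      rw [mul_inv_cancel₀ haz, h1, ha, zero_mul, zero_add] at h
      rcases mul_eq_zero.1 h.symm with h4 | h4
      · exact absurd ((map_eq_zero s).1 h4) haz
      · exact h4
  · rintro a b - - ha hb
    rw [hmul, ha, hb, zero_mul, mul_zero, add_zero]

private theorem A9_mul (D : Derivation F R R) (a b : R) : D (a * b) = a * D b + b * D a := by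
  rw [D.leibniz, smul_eq_mul, smul_eq_mul]

private theorem A9_sq (D : Derivation F R R) (a : R) : D (a ^ 2 - 1) = 2 * a * D a := by
  rw [map_sub, D.map_one_eq_zero, pow_two, A9_mul]
  ring

private theorem A9_two (D : Derivation F R R) (a : R) : D (2 * a) = 2 * D a := by
  rw [two_mul, map_add, two_mul]

/-- the third power of a derivation satisfies the Leibniz rule -/
private theorem A9_cub [CharP R 3] (D : Derivation F R R) (a b : R) :
    D (D (D (a * b))) = D (D (D a)) * b + a * D (D (D b)) := by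
  have h3 : (3 : R) = 0 := A9_three
  rw [A9_mul, map_add, A9_mul, A9_mul, map_add, map_add, map_add, A9_mul, A9_mul, A9_mul, A9_mul]
  linear_combination (D a * D (D b) + D (D a) * D b) * h3

private theorem A9_com (D : Derivation F R R) (σ : R ≃ₐ[F] R) {p q : R} [CharP R 3]
    (hp : D (σ p) = σ (D p)) (hq : D (σ q) = σ (D q)) {f : R}
    (hf : f ∈ Bf (⊤ : IntermediateField F R) p q) : D (σ f) = σ (D f) := by
  have h := A9_ext (F := F) (σ : R →+* R) (fun f => D (σ f) - σ (D f)) (fun a b => ?_) (fun a b => ?_)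
    (sub_eq_zero.2 hp) (sub_eq_zero.2 hq) hf
  · exact sub_eq_zero.1 h
  · simp only [map_add]
    ring
  · show D (σ (a * b)) - σ (D (a * b)) = (D (σ a) - σ (D a)) * σ b + σ a * (D (σ b) - σ (D b))
    rw [map_mul, A9_mul, A9_mul, map_add, map_mul, map_mul]
    ring

variable {A : AS F R} [CharP R 3]

namespace PQ

variable (D : PQ A)

theorem P3 {f : R} (hf : f ∈ Bf (⊤ : IntermediateField F R) A.j A.n) : D.P (D.P (D.P f)) = D.P f := by
  have h3 : (3 : R) = 0 := A9_three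
  have h := A9_ext (F := F) (RingHom.id R) (fun f => D.P (D.P (D.P f)) - D.P f) (fun a b => ?_) (fun a b => ?_)
    (p := A.j) (q := A.n) ?_ ?_ hf
  · exact sub_eq_zero.1 h
  · simp only [map_add]
    ring
  · show D.P (D.P (D.P (a * b))) - D.P (a * b) = (D.P (D.P (D.P a)) - D.P a) * b + a * (D.P (D.P (D.P b)) - D.P b)
    rw [A9_cub, A9_mul]
    ring
  · show D.P (D.P (D.P A.j)) - D.P A.j = 0
    rw [D.Pj, A9_sq, D.Pj, A9_mul, A9_two, A9_sq, D.Pj]
    linear_combination (2 * A.j ^ 4 - 3 * A.j ^ 2 + 1) * h3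
  · show D.P (D.P (D.P A.n)) - D.P A.n = 0
    rw [D.Pn, map_zero, map_zero, sub_zero]

theorem Q3 {f : R} (hf : f ∈ Bf (⊤ : IntermediateField F R) A.j A.n) :
    D.Q (D.Q (D.Q f)) = D.Q f - A.c ^ 3 * D.P f := by
  have h3 : (3 : R) = 0 := A9_three
  have h := A9_ext (F := F) (RingHom.id R) (fun f => D.Q (D.Q (D.Q f)) - (D.Q f - A.c ^ 3 * D.P f)) (fun a b => ?_)
    (fun a b => ?_) (p := A.j) (q := A.n) ?_ ?_ hf
  · exact sub_eq_zero.1 h
  · simp only [map_add]
    ring
  · show D.Q (D.Q (D.Q (a * b))) - (D.Q (a * b) - A.c ^ 3 * D.P (a * b)) =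
      (D.Q (D.Q (D.Q a)) - (D.Q a - A.c ^ 3 * D.P a)) * b + a * (D.Q (D.Q (D.Q b)) - (D.Q b - A.c ^ 3 * D.P b))
    rw [A9_cub, A9_mul, A9_mul]
    ring
  · show D.Q (D.Q (D.Q A.j)) - (D.Q A.j - A.c ^ 3 * D.P A.j) = 0
    rw [D.Qj, D.Qc, map_add, A9_mul, pow_two, A9_mul, D.Qc, D.Qj, D.Pj]
    linear_combination (A.c ^ 2 * A.j + A.c ^ 3 * A.j ^ 2) * h3
  · show D.Q (D.Q (D.Q A.n)) - (D.Q A.n - A.c ^ 3 * D.P A.n) = 0
    rw [D.Qn, A9_sq, D.Qn, A9_mul, A9_two, A9_sq, D.Qn, D.Pn]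
    linear_combination (2 * A.n ^ 4 - 3 * A.n ^ 2 + 1) * h3

theorem PQc {f : R} (hf : f ∈ Bf (⊤ : IntermediateField F R) A.j A.n) : D.P (D.Q f) = D.Q (D.P f) := by
  have h3 : (3 : R) = 0 := A9_three
  have h := A9_ext (F := F) (RingHom.id R) (fun f => D.P (D.Q f) - D.Q (D.P f)) (fun a b => ?_)
    (fun a b => ?_) (p := A.j) (q := A.n) ?_ ?_ hf
  · exact sub_eq_zero.1 h
  · simp only [map_add]
    ring
  · show D.P (D.Q (a * b)) - D.Q (D.P (a * b)) = (D.P (D.Q a) - D.Q (D.P a)) * b + a * (D.P (D.Q b) - D.Q (D.P b))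
    rw [A9_mul, A9_mul, map_add, map_add, A9_mul, A9_mul, A9_mul, A9_mul]
    ring
  · show D.P (D.Q A.j) - D.Q (D.P A.j) = 0
    rw [D.Qj, D.Pc, D.Pj, A9_sq, D.Qj]
    linear_combination (-(A.c * A.j)) * h3
  · show D.P (D.Q A.n) - D.Q (D.P A.n) = 0
    rw [D.Qn, D.Pn, A9_sq, D.Pn, map_zero, mul_zero, sub_zero]

theorem Pσ {f : R} (hf : f ∈ Bf (⊤ : IntermediateField F R) A.j A.n) : D.P (A.σ f) = A.σ (D.P f) := by
  refine A9_com D.P A.σ ?_ ?_ hf
  · rw [A.σj, D.Pj, map_sub, map_pow, map_one, A.σj]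
  · rw [A.σn, D.Pn, map_zero]

theorem Qσ {f : R} (hf : f ∈ Bf (⊤ : IntermediateField F R) A.j A.n) : D.Q (A.σ f) = A.σ (D.Q f) := by
  refine A9_com D.Q A.σ ?_ ?_ hf
  · rw [A.σj, D.Qj, A.σc]
  · rw [A.σn, D.Qn, map_sub, map_pow, map_one, A.σn]

theorem Pτ {f : R} (hf : f ∈ Bf (⊤ : IntermediateField F R) A.j A.n) : D.P (A.τ f) = A.τ (D.P f) := by
  refine A9_com D.P A.τ ?_ ?_ hf
  · rw [A.τj, D.Pj, map_sub, map_pow, map_one, A.τj]
  · rw [A.τn, D.Pn, map_zero]

theorem Qτ {f : R} (hf : f ∈ Bf (⊤ : IntermediateField F R) A.j A.n) : D.Q (A.τ f) = A.τ (D.Q f) := by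
  refine A9_com D.Q A.τ ?_ ?_ hf
  · rw [A.τj, D.Qj, A.τc]
  · rw [A.τn, D.Qn, map_sub, map_pow, map_one, A.τn]

end PQ

end CZT
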