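import Mathlib

/-!
# CZT/Bf: the fields `L³(p, q)` and `L³(p)` in characteristic 3

PROOF PLAN.  `Bf L p q` is the subfield generated by the cubes of `L` and `p, q`, `Cf L p` the subfield generated by the cubes of `L` and
`p`.  In characteristic 3, if `p, q ∈ L`: the set of the sums `∑ l_ab ^ 3 p ^ a q ^ b` (`a, b < 3`) contains the generators, `-1`, is closed under addition
(`add_pow_char`: `(l + l') ^ 3 = l ^ 3 + l' ^ 3`), multiplication (`p ^ 3`, `q ^ 3` are cubes of elements of `L`) and inverses (`f⁻¹ = f ^ 2 / f ^ 3`,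
`f ^ 3 = (∑ l_ab ^ 3 p ^ a q ^ b) ^ 3` is the cube of the element `f` of `L`).  `Subfield.closure_induction`.
-/

set_option autoImplicit false

namespace CZT

open IntermediateField

universe u v

variable {F : Type u} {R : Type v} [Field F] [Field R] [Algebra F R]

/-- the subfield generated by the cubes of elements of `L` and `p, q` -/
def Bf (L : IntermediateField F R) (p q : R) : Subfield R :=
  Subfield.closure ((fun l : R => l ^ 3) '' (L : Set R) ∪ {p, q})

/-- the subfield generated by the cubes of elements of `L` and `p` -/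
def Cf (L : IntermediateField F R) (p : R) : Subfield R :=
  Subfield.closure ((fun l : R => l ^ 3) '' (L : Set R) ∪ {p})

theorem cube_mem_Bf (L : IntermediateField F R) (p q : R) {l : R} (hl : l ∈ L) : l ^ 3 ∈ Bf L p q :=
  Subfield.subset_closure (Or.inl ⟨l, hl, rfl⟩)

theorem cube_mem_Cf (L : IntermediateField F R) (p : R) {l : R} (hl : l ∈ L) : l ^ 3 ∈ Cf L p :=
  Subfield.subset_closure (Or.inl ⟨l, hl, rfl⟩)

theorem p_mem_Bf (L : IntermediateField F R) (p q : R) : p ∈ Bf L p q :=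
  Subfield.subset_closure (Or.inr (Or.inl rfl))

theorem q_mem_Bf (L : IntermediateField F R) (p q : R) : q ∈ Bf L p q :=
  Subfield.subset_closure (Or.inr (Or.inr rfl))

theorem p_mem_Cf (L : IntermediateField F R) (p : R) : p ∈ Cf L p :=
  Subfield.subset_closure (Or.inr rfl)

theorem Cf_le_Bf (L : IntermediateField F R) (p q : R) : Cf L p ≤ Bf L p q :=
  Subfield.closure_mono (Set.union_subset_union_right _ (Set.singleton_subset_iff.2 (Or.inl rfl)))

theorem Bf_mono {L L' : IntermediateField F R} (h : L ≤ L') (p q : R) : Bf L p q ≤ Bf L' p q :=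
  Subfield.closure_mono (Set.union_subset_union_left _ (Set.image_mono h))

theorem Cf_mono {L L' : IntermediateField F R} (h : L ≤ L') (p : R) : Cf L p ≤ Cf L' p :=
  Subfield.closure_mono (Set.union_subset_union_left _ (Set.image_mono h))

theorem Bf_le {L : IntermediateField F R} {p q : R} (hp : p ∈ L) (hq : q ∈ L) {f : R} (hf : f ∈ Bf L p q) :
    f ∈ L := by
  have h : Bf L p q ≤ L.toSubfield := by
    refine Subfield.closure_le.2 ?_
    rintro f (⟨l, hl, rfl⟩ | rfl | hf)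
    · exact pow_mem (S := L) hl 3
    · exact hp
    · rw [Set.mem_singleton_iff] at hf
      rw [hf]
      exact hq
  exact h hf

theorem Cf_le {L : IntermediateField F R} {p : R} (hp : p ∈ L) {f : R} (hf : f ∈ Cf L p) : f ∈ L :=
  Bf_le hp hp (Cf_le_Bf L p p hf)

/-- the same field for other generators -/
theorem Bf_congr {L : IntermediateField F R} {p q p' q' : R} (h1 : p' ∈ Bf L p q) (h2 : q' ∈ Bf L p q)
    (h3 : p ∈ Bf L p' q') (h4 : q ∈ Bf L p' q') : Bf L p q = Bf L p' q' := by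
  apply le_antisymm
  · refine Subfield.closure_le.2 ?_
    rintro f (⟨l, hl, rfl⟩ | rfl | hf)
    · exact cube_mem_Bf L p' q' hl
    · exact h3
    · rw [Set.mem_singleton_iff] at hf
      rw [hf]
      exact h4
  · refine Subfield.closure_le.2 ?_
    rintro f (⟨l, hl, rfl⟩ | rfl | hf)
    · exact cube_mem_Bf L p q hl
    · exact h1
    · rw [Set.mem_singleton_iff] at hf
      rw [hf]
      exact h2

variable [CharP R 3]

omit [CharP R 3] in
private theorem Bf_mulform {A : Subfield R} {q : R} (hq : q ^ 3 ∈ A) {x y : R}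
    (hx : ∃ a ∈ A, ∃ b ∈ A, ∃ c ∈ A, x = a + b * q + c * q ^ 2)
    (hy : ∃ a ∈ A, ∃ b ∈ A, ∃ c ∈ A, y = a + b * q + c * q ^ 2) :
    ∃ a ∈ A, ∃ b ∈ A, ∃ c ∈ A, x * y = a + b * q + c * q ^ 2 := by
  obtain ⟨a, ha, b, hb, c, hc, rfl⟩ := hx
  obtain ⟨a', ha', b', hb', c', hc', rfl⟩ := hy
  refine ⟨a * a' + (b * c' + c * b') * q ^ 3, ?_, a * b' + b * a' + c * c' * q ^ 3, ?_,
    a * c' + b * b' + c * a', ?_, by ring⟩
  · exact A.add_mem (A.mul_mem ha ha') (A.mul_mem (A.add_mem (A.mul_mem hb hc') (A.mul_mem hc hb')) hq)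
  · exact A.add_mem (A.add_mem (A.mul_mem ha hb') (A.mul_mem hb ha')) (A.mul_mem (A.mul_mem hc hc') hq)
  · exact A.add_mem (A.add_mem (A.mul_mem ha hc') (A.mul_mem hb hb')) (A.mul_mem hc ha')

private theorem Bf_adj {A : Subfield R} {q : R} (hq : q ^ 3 ∈ A) {f : R}
    (hf : f ∈ Subfield.closure ((A : Set R) ∪ {q})) :
    ∃ a ∈ A, ∃ b ∈ A, ∃ c ∈ A, f = a + b * q + c * q ^ 2 := by
  have h3 : (3 : R) = 0 := CharP.ofNat_eq_zero R 3
  induction hf using Subfield.closure_induction with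
  | mem x hx =>
    rcases hx with hx | hx
    · exact ⟨x, hx, 0, A.zero_mem, 0, A.zero_mem, by ring⟩
    · rw [Set.mem_singleton_iff] at hx
      exact ⟨0, A.zero_mem, 1, A.one_mem, 0, A.zero_mem, by rw [hx]; ring⟩
  | one => exact ⟨1, A.one_mem, 0, A.zero_mem, 0, A.zero_mem, by ring⟩
  | add x y _ _ hx hy =>
    obtain ⟨a, ha, b, hb, c, hc, rfl⟩ := hx
    obtain ⟨a', ha', b', hb', c', hc', rfl⟩ := hy
    exact ⟨a + a', A.add_mem ha ha', b + b', A.add_mem hb hb', c + c', A.add_mem hc hc', by ring⟩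
  | neg x _ hx =>
    obtain ⟨a, ha, b, hb, c, hc, rfl⟩ := hx
    exact ⟨-a, A.neg_mem ha, -b, A.neg_mem hb, -c, A.neg_mem hc, by ring⟩
  | inv x _ hx =>
    by_cases h0 : x = 0
    · exact ⟨0, A.zero_mem, 0, A.zero_mem, 0, A.zero_mem, by rw [h0]; simp⟩
    have hx3 : x ^ 3 ∈ A := by
      obtain ⟨a, ha, b, hb, c, hc, rfl⟩ := hx
      have e : (a + b * q + c * q ^ 2) ^ 3 = a ^ 3 + b ^ 3 * q ^ 3 + c ^ 3 * (q ^ 3) ^ 2 := by
        linear_combination (a ^ 2 * (b * q) + a * (b * q) ^ 2 + a ^ 2 * (c * q ^ 2) + a * (c * q ^ 2) ^ 2 +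
          (b * q) ^ 2 * (c * q ^ 2) + (b * q) * (c * q ^ 2) ^ 2 + 2 * a * (b * q) * (c * q ^ 2)) * h3
      rw [e]
      exact A.add_mem (A.add_mem (A.pow_mem ha 3) (A.mul_mem (A.pow_mem hb 3) hq))
        (A.mul_mem (A.pow_mem hc 3) (A.pow_mem hq 2))
    obtain ⟨a, ha, b, hb, c, hc, he⟩ := Bf_mulform hq hx hx
    refine ⟨a * (x ^ 3)⁻¹, A.mul_mem ha (A.inv_mem hx3), b * (x ^ 3)⁻¹, A.mul_mem hb (A.inv_mem hx3),
      c * (x ^ 3)⁻¹, A.mul_mem hc (A.inv_mem hx3), ?_⟩
    have e2 : x⁻¹ = (x * x) * (x ^ 3)⁻¹ := by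
      field_simp
    rw [e2, he]
    ring
  | mul x y _ _ hx hy => exact Bf_mulform hq hx hy

/-- the subfield of the cubes -/
private def Bf_cub (L : IntermediateField F R) : Subfield R := L.toSubfield.map (frobenius R 3)

private theorem Bf_mem_cub {L : IntermediateField F R} {f : R} : f ∈ Bf_cub L ↔ ∃ l ∈ L, l ^ 3 = f := Iff.rfl

private theorem Bf_closC (L : IntermediateField F R) (p : R) {f : R} (hf : f ∈ Cf L p) :
    f ∈ Subfield.closure ((Bf_cub L : Set R) ∪ {p}) := by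
  refine Subfield.closure_mono ?_ hf
  refine Set.union_subset_union_left _ ?_
  rintro _ ⟨l, hl, rfl⟩
  exact ⟨l, hl, rfl⟩

private theorem Bf_closB (L : IntermediateField F R) (p q : R) {f : R} (hf : f ∈ Bf L p q) :
    f ∈ Subfield.closure ((Cf L p : Set R) ∪ {q}) := by
  have h : Bf L p q ≤ Subfield.closure ((Cf L p : Set R) ∪ {q}) := by
    refine Subfield.closure_le.2 ?_
    rintro f (⟨l, hl, rfl⟩ | rfl | hf)
    · exact Subfield.subset_closure (Or.inl (cube_mem_Cf L p hl))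
    · exact Subfield.subset_closure (Or.inl (p_mem_Cf L f))
    · exact Subfield.subset_closure (Or.inr hf)
  exact h hf

theorem mem_Bf {L : IntermediateField F R} {p q : R} (hp : p ∈ L) (hq : q ∈ L) {f : R} :
    f ∈ Bf L p q ↔ ∃ l : Fin 3 → Fin 3 → R, (∀ a b, l a b ∈ L) ∧
      f = ∑ a : Fin 3, ∑ b : Fin 3, l a b ^ 3 * p ^ (a : ℕ) * q ^ (b : ℕ) := by
  constructor
  · intro h
    have key : ∀ g ∈ Cf L p, ∃ l : Fin 3 → R, (∀ a, l a ∈ L) ∧ g = ∑ a : Fin 3, l a ^ 3 * p ^ (a : ℕ) := by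
      intro g hg
      obtain ⟨a, ⟨l, hl, rfl⟩, b, ⟨m, hm, rfl⟩, c, ⟨n, hn, rfl⟩, he⟩ :=
        Bf_adj (A := Bf_cub L) ⟨p, hp, rfl⟩ (Bf_closC L p hg)
      refine ⟨![l, m, n], ?_, ?_⟩
      · intro a
        fin_cases a
        · exact hl
        · exact hm
        · exact hn
      · rw [he, Fin.sum_univ_three]
        simp [frobenius_def]
    obtain ⟨a, ha, b, hb, c, hc, he⟩ := Bf_adj (A := Cf L p) (cube_mem_Cf L p hq) (Bf_closB L p q h)
    obtain ⟨l, hl, hl'⟩ := key a ha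
    obtain ⟨m, hm, hm'⟩ := key b hb
    obtain ⟨n, hn, hn'⟩ := key c hc
    refine ⟨fun i => ![l i, m i, n i], ?_, ?_⟩
    · intro i j
      fin_cases j
      · exact hl i
      · exact hm i
      · exact hn i
    · rw [he, hl', hm', hn']
      simp only [Fin.sum_univ_three]
      simp
      ring
  · rintro ⟨l, hl, rfl⟩
    refine (Bf L p q).sum_mem fun a _ => (Bf L p q).sum_mem fun b _ => ?_
    exact (Bf L p q).mul_mem ((Bf L p q).mul_mem (cube_mem_Bf L p q (hl a b))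
      ((Bf L p q).pow_mem (p_mem_Bf L p q) _)) ((Bf L p q).pow_mem (q_mem_Bf L p q) _)

theorem mem_Cf {L : IntermediateField F R} {p : R} (hp : p ∈ L) {f : R} :
    f ∈ Cf L p ↔ ∃ l : Fin 3 → R, (∀ a, l a ∈ L) ∧ f = ∑ a : Fin 3, l a ^ 3 * p ^ (a : ℕ) := by
  constructor
  · intro hg
    obtain ⟨a, ⟨l, hl, rfl⟩, b, ⟨m, hm, rfl⟩, c, ⟨n, hn, rfl⟩, he⟩ :=
      Bf_adj (A := Bf_cub L) ⟨p, hp, rfl⟩ (Bf_closC L p hg)
    refine ⟨![l, m, n], ?_, ?_⟩
    · intro a
      fin_cases a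
      · exact hl
      · exact hm
      · exact hn
    · rw [he, Fin.sum_univ_three]
      simp [frobenius_def]
  · rintro ⟨l, hl, rfl⟩
    exact (Cf L p).sum_mem fun a _ => (Cf L p).mul_mem (cube_mem_Cf L p (hl a))
      ((Cf L p).pow_mem (p_mem_Cf L p) _)

end CZT
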