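import Pool.Agent.CZT.Defs
import Pool.Agent.CZT.Bf

/-!
# CZT/ADefs: the explicit elements of `R` (paper proof: /team-store/czt_proof.md, PARTS 0-4)

`w j = ∏ i, u i j`; `te` is the element `theta` of the text, `te - 1` is `theta hat`, `Te = (te - 1) ^ 3` is `Theta`; `r`, `j = 1 / r`,
`c = te ^ 3 - te`, `n = j ^ 3 c / (j ^ 2 - 1) - 1`, `v0 = th - te`, `Z` = the fixed field of `σ, τ`.
-/

set_option autoImplicit false

namespace CZT

open IntermediateField

universe u v

variable {F : Type u} {R : Type v} [Field F] [Field R] [Algebra F R]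

namespace AS

variable (A : AS F R)

/-- `w_j` -/
def w (j : ZMod 3) : R := ∏ i, A.u i j

noncomputable def s1 : R := 1 + A.w 0 + A.w 0 * A.w 1

noncomputable def s2 : R := A.w 0 + A.w 0 * A.w 1 + A.w 0 * (A.w 0 * A.w 1)

/-- `theta` -/
noncomputable def te : R := (A.w 0 * A.w 1 - A.w 0) / A.s1

noncomputable def r : R :=
  -((A.w 0 - 1) * (A.w 0 * A.w 1 - A.w 0) * (1 - A.w 0 * A.w 1)) / (A.s1 * A.s2)

noncomputable def c : R := A.te ^ 3 - A.te

noncomputable def j : R := A.r⁻¹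

noncomputable def n : R := A.j ^ 3 * A.c / (A.j ^ 2 - 1) - 1

/-- `Theta` -/
noncomputable def Te : R := (A.te - 1) ^ 3

noncomputable def v0 : R := A.th - A.te

/-- the fixed field of `σ` and `τ` -/
def Z : IntermediateField F R := CPZ.Fx {A.σ, A.τ}

/-- the trace of an element of `Fx {τ}` -/
def tr (f : R) : R := f + A.σ f + A.σ (A.σ f)

/-- the index set of the second family of generators -/
abbrev Idx : Type := Fin 2 ⊕ (Fin 2 × ZMod 3) ⊕ Fin 2 ⊕ Fin 72

/-- the elements `te, r`, `u 1 j, u 2 j`, `v0, et`, `t k` -/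
noncomputable def g2 : Idx → R :=
  Sum.elim ![A.te, A.r] (Sum.elim (fun p => A.u ((p.1 : ℕ) + 1) p.2) (Sum.elim ![A.v0, A.et] A.t))

end AS

/-- the derivations `P`, `Q` and `E` (the derivation with `E c = 1`, `E j = 0`) -/
structure PQ (A : AS F R) where
  P : Derivation F R R
  Q : Derivation F R R
  E : Derivation F R R
  Pte : P A.te = A.c * A.j
  Pr : P A.r = A.r ^ 2 - 1
  Qte : Q A.te = -(A.c + A.c ^ 2 * A.j)
  Qr : Q A.r = -(A.c * A.r ^ 2)
  Ete : E A.te = -1
  Er : E A.r = 0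

/-- the elements `z, x, y` of `Fx {τ}` with `et = z + x u_0 + y u_0 u_1` -/
structure ZXY (A : AS F R) where
  z : R
  x : R
  y : R
  τz : A.τ z = z
  τx : A.τ x = x
  τy : A.τ y = y
  e1 : A.et = z + x * A.u 0 0 + y * (A.u 0 0 * A.u 1 0)

end CZT
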