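import Pool.Agent.CZT.A6w
import Pool.Agent.CZT.A9
import Pool.Agent.CZT.A11
import Pool.Agent.CZT.A12

/-!
# CZT/B1: the element `Xi` and its traces (PART 3)

`Xi = et ^ 3 - et + z = z ^ 3 + x ^ 3 w + y ^ 3 w ^ 2`, an element of `R³(j, n)`; the derivations `P`, `Q` commute with the trace.
-/

set_option autoImplicit false

namespace CZT

open IntermediateField

universe u v

variable {F : Type u} {R : Type v} [Field F] [Field R] [Algebra F R]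

variable {A : AS F R} [CharP R 3] (D : PQ A) (V : ZXY A)

namespace ZXY

/-- the element `Xi` -/
noncomputable def Xi : R := A.et ^ 3 - A.et + V.z

/-- the traces `Xi_k` -/
noncomputable def X (k : ℕ) : R := A.tr (A.Te ^ k * V.Xi)

omit D in
private theorem B1_h3 (V : ZXY A) : (3 : R) = 0 := by
  have _ := V
  exact CharP.ofNat_eq_zero R 3

private theorem B1_Te_mem : A.Te ∈ Bf (⊤ : IntermediateField F R) A.j A.n :=
  AS.Te_mem_Bf trivial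

theorem Xi_eq : V.Xi = V.z ^ 3 + V.x ^ 3 * A.w 0 + V.y ^ 3 * A.w 0 ^ 2 := by
  rw [Xi, V.rel]
  ring

theorem Xi_mem : V.Xi ∈ Bf (⊤ : IntermediateField F R) A.j A.n := by
  rw [V.Xi_eq]
  have hw : A.w 0 ∈ Bf (⊤ : IntermediateField F R) A.j A.n := AS.w0_mem_Bf trivial
  exact add_mem (add_mem (cube_mem_Bf _ _ _ trivial) (mul_mem (cube_mem_Bf _ _ _ trivial) hw))
    (mul_mem (cube_mem_Bf _ _ _ trivial) (pow_mem hw 2))

theorem τXi : A.τ V.Xi = V.Xi := by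
  have h3 := B1_h3 V
  rw [Xi, map_add, map_sub, map_pow, A.τet, V.τz]
  linear_combination (A.et ^ 2 + A.et) * h3

theorem X_mem (k : ℕ) : V.X k ∈ Bf (⊤ : IntermediateField F R) A.j A.n := by
  have h : A.Te ^ k * V.Xi ∈ Bf (⊤ : IntermediateField F R) A.j A.n :=
    mul_mem (pow_mem B1_Te_mem k) V.Xi_mem
  rw [X, AS.tr]
  exact add_mem (add_mem h (AS.σ_mem_Bf h)) (AS.σ_mem_Bf (AS.σ_mem_Bf h))

theorem X_memZ (k : ℕ) : V.X k ∈ A.Z := by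
  refine A.tr_mem ?_
  rw [map_mul, map_pow, A.τTe, V.τXi]

private theorem B1_der (E : Derivation F R R) (z x y w : R) :
    E (z ^ 3 + x ^ 3 * w + y ^ 3 * w ^ 2) = x ^ 3 * E w + y ^ 3 * (2 * w * E w) := by
  have h1 : E (w ^ 2) = 2 * w * E w := by
    rw [pow_two, Derivation.leibniz, smul_eq_mul]
    ring
  rw [map_add, map_add, Derivation.leibniz E (x ^ 3) w, Derivation.leibniz E (y ^ 3) (w ^ 2), der_cube E z,
    der_cube E x, der_cube E y, h1]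
  simp only [smul_eq_mul]
  ring

theorem PXi : D.P V.Xi = V.x ^ 3 * A.w 0 - V.y ^ 3 * A.w 0 ^ 2 := by
  have h3 := B1_h3 V
  rw [V.Xi_eq, B1_der, D.Pw]
  linear_combination (V.y ^ 3 * A.w 0 ^ 2) * h3

theorem PPXi : D.P (D.P V.Xi) = V.x ^ 3 * A.w 0 + V.y ^ 3 * A.w 0 ^ 2 := by
  have h3 := B1_h3 V
  have h1 : V.x ^ 3 * A.w 0 - V.y ^ 3 * A.w 0 ^ 2 =
      0 ^ 3 + V.x ^ 3 * A.w 0 + (-V.y) ^ 3 * A.w 0 ^ 2 := by ring
  rw [V.PXi, h1, B1_der, D.Pw]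
  linear_combination -(V.y ^ 3 * A.w 0 ^ 2) * h3

theorem QXi : D.Q V.Xi = -(A.Te * D.P V.Xi) := by
  have h3 := B1_h3 V
  rw [V.PXi, V.Xi_eq, B1_der, D.Qw]
  linear_combination -(A.Te * V.y ^ 3 * A.w 0 ^ 2) * h3

/-! ### the derivations and the trace -/

private theorem B1_P_tr (D : PQ A) {f : R} (hf : f ∈ Bf (⊤ : IntermediateField F R) A.j A.n) :
    D.P (A.tr f) = A.tr (D.P f) := by
  rw [AS.tr, AS.tr, map_add, map_add, D.Pσ (AS.σ_mem_Bf hf), D.Pσ hf]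

private theorem B1_Q_tr (D : PQ A) {f : R} (hf : f ∈ Bf (⊤ : IntermediateField F R) A.j A.n) :
    D.Q (A.tr f) = A.tr (D.Q f) := by
  rw [AS.tr, AS.tr, map_add, map_add, D.Qσ (AS.σ_mem_Bf hf), D.Qσ hf]

private theorem B1_tr_neg (f : R) : A.tr (-f) = -A.tr f := by
  rw [AS.tr, AS.tr, map_neg, map_neg]
  ring

private theorem B1_P_Te (D : PQ A) (k : ℕ) (f : R) : D.P (A.Te ^ k * f) = A.Te ^ k * D.P f := by
  rw [Derivation.leibniz, Derivation.leibniz_pow, D.PTe]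
  simp only [smul_eq_mul, nsmul_eq_mul]
  ring

private theorem B1_Q_Te (D : PQ A) (k : ℕ) (f : R) : D.Q (A.Te ^ k * f) = A.Te ^ k * D.Q f := by
  rw [Derivation.leibniz, Derivation.leibniz_pow, D.QTe]
  simp only [smul_eq_mul, nsmul_eq_mul]
  ring

private theorem B1_QX (D : PQ A) (V : ZXY A) (k : ℕ) : D.Q (V.X k) = -D.P (V.X (k + 1)) := by
  have h1 : A.Te ^ k * V.Xi ∈ Bf (⊤ : IntermediateField F R) A.j A.n :=
    mul_mem (pow_mem B1_Te_mem k) V.Xi_mem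
  have h2 : A.Te ^ (k + 1) * V.Xi ∈ Bf (⊤ : IntermediateField F R) A.j A.n :=
    mul_mem (pow_mem B1_Te_mem (k + 1)) V.Xi_mem
  rw [X, X, B1_Q_tr D h1, B1_P_tr D h2, ← B1_tr_neg, B1_Q_Te, B1_P_Te, V.QXi D]
  congr 1
  ring

theorem QX0 : D.Q (V.X 0) = -D.P (V.X 1) := B1_QX D V 0

theorem QX1 : D.Q (V.X 1) = -D.P (V.X 2) := B1_QX D V 1

private theorem B1_σc3 : A.σ (A.c ^ 3) = A.c ^ 3 := by
  rw [map_pow, A.σc]

theorem QX2 : D.Q (V.X 2) = -D.P (V.X 1) - A.c ^ 3 * D.P (V.X 0) := by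
  have h1 : V.X 3 = V.X 1 + A.c ^ 3 * V.X 0 := by
    rw [X, X, X, ← A.tr_mul B1_σc3, ← A.tr_add, A.Te3]
    congr 1
    ring
  have h2 := B1_QX D V 2
  rw [show (2 + 1 : ℕ) = 3 from rfl, h1, map_add, Derivation.leibniz, der_cube] at h2
  rw [h2]
  simp only [smul_eq_mul]
  ring

/-- the element `q` -/
private theorem B1_q : ∃ q : R, A.σ q = q ∧ V.Xi = q + V.z := by
  refine ⟨A.et ^ 3 - A.et, ?_, rfl⟩
  exact ((A.mem_Z).1 (ZXY.q_mem (A := A))).1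

private theorem B1_rel (q : R) (hq : V.Xi = q + V.z) : V.Xi ^ 3 - q ^ 3 = V.Xi - D.P (D.P V.Xi) := by
  have h3 := B1_h3 V
  have h1 : V.z = V.Xi - q := by rw [hq]; ring
  have h2 := V.Xi_eq
  have h4 : D.P (D.P V.Xi) = V.Xi - V.z ^ 3 := by
    rw [V.PPXi D]
    linear_combination -h2
  rw [h4, h1]
  linear_combination (V.Xi ^ 2 * q - V.Xi * q ^ 2) * h3

private theorem B1_PP (k : ℕ) : A.tr (A.Te ^ k * D.P (D.P V.Xi)) = D.P (D.P (V.X k)) := by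
  have h1 : A.Te ^ k * V.Xi ∈ Bf (⊤ : IntermediateField F R) A.j A.n :=
    mul_mem (pow_mem B1_Te_mem k) V.Xi_mem
  rw [X, B1_P_tr D h1, B1_P_tr D (D.P_mem h1), B1_P_Te, B1_P_Te]

private theorem B1_X0 : V.X 0 = A.tr V.Xi := by
  rw [X, pow_zero, one_mul]

theorem cube0 : V.X 0 ^ 3 = V.X 0 - D.P (D.P (V.X 0)) := by
  obtain ⟨q, hq, hXi⟩ := B1_q V
  have h1 := congrArg A.tr (B1_rel D V q hXi)
  have hq3 : A.σ (q ^ 3) = q ^ 3 := by rw [map_pow, hq]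
  have h2 := B1_PP D V 0
  rw [pow_zero, one_mul] at h2
  rw [A.tr_sub, A.tr_sub, A.tr_pow3, A.tr_zero hq3, sub_zero, h2] at h1
  rw [B1_X0 V] at h1 ⊢
  exact h1

theorem cube1 : V.X 1 ^ 3 - A.c ^ 3 * V.X 0 ^ 3 = V.X 1 - D.P (D.P (V.X 1)) := by
  obtain ⟨q, hq, hXi⟩ := B1_q V
  have hq3 : A.σ (q ^ 3) = q ^ 3 := by rw [map_pow, hq]
  have h1 := congrArg (fun f => A.tr (A.Te ^ 1 * f)) (B1_rel D V q hXi)
  simp only [mul_sub] at h1
  rw [A.tr_sub, A.tr_sub, B1_PP D V 1] at h1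
  have h2 : A.tr (A.Te ^ 1 * q ^ 3) = 0 := by
    rw [mul_comm, A.tr_mul hq3, pow_one, A.tr_Te, mul_zero]
  have h4 : V.X 1 ^ 3 = A.tr (A.Te ^ 1 * V.Xi ^ 3) + A.c ^ 3 * V.X 0 ^ 3 := by
    rw [B1_X0 V, ← A.tr_pow3 V.Xi, X, ← A.tr_pow3, ← A.tr_mul B1_σc3, ← A.tr_add, mul_pow, pow_one, A.Te3]
    congr 1
    ring
  have h5 : A.tr (A.Te ^ 1 * V.Xi) = V.X 1 := rfl
  rw [h2, h5] at h1
  rw [h4, ← h1]
  ring

theorem X0_eq : V.X 0 = A.tr V.z := by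
  obtain ⟨q, hq, hXi⟩ := B1_q V
  rw [B1_X0 V, hXi, A.tr_add, A.tr_zero hq, zero_add]

theorem X1_eq : V.X 1 = A.tr ((A.te - 1) * V.z) + A.c * A.tr V.z := by
  obtain ⟨q, hq, hXi⟩ := B1_q V
  have h1 : V.X 1 = A.tr (q * A.Te) + A.tr (A.Te * V.z) := by
    rw [X, ← A.tr_add, hXi]
    congr 1
    ring
  rw [h1, A.tr_mul hq, A.tr_Te, mul_zero, zero_add, A.Te_eq, add_mul, A.tr_add, A.tr_mul A.σc]

end ZXY

end CZT
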