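import Mathlib

/-!
# CZT/B2: existence of `H`, abstract form (3d) (Mathlib only)

PROOF PLAN.  `p f = P f - a₀ f`, `q f = Q f + a₁ f` map `B` to itself.  On `B`: `p p p f = P P P f - (a₀ ^ 3 + P P a₀) f = p f` (characteristic 3: `(P + a) ^ 3 = P ^ 3 + a ^ 3 + P ^ 2 a`, expand; `h0`), `q q q f = Q Q Q f + (a₁ ^ 3 + Q Q a₁) f = q f - k p f` (`hQ3`, `h1`), `p (q f) = q (p f)` (`hPQ`, `h01`).
Kernel of `p`: start with `f = 1`.  If `p f = 0` take it.  Otherwise `g = p f ≠ 0`, `p (p g) = g`, `g' = g + p g` satisfies `p g' = g'`; if `g' ≠ 0` take `g' / χ` (`p (g' / χ) = (p g') / χ - g' / χ = 0`), otherwise `p g = - g` and `χ g` is in the kernel.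
Then on the kernel of `p` (stable under `q`): `q q q f = q f`, the same argument with `om` (`P om = 0`, `Q om = - om`): if `q g' = g'` take `om g'`, if `q g = - g` take `g / om`.  The result `H` has `P H = a₀ H`, `Q H = - a₁ H`.
-/

set_option autoImplicit false

namespace CZT

open IntermediateField

universe u v

variable {F : Type u} {R : Type v} [Field F] [Field R] [Algebra F R]

private theorem B2_mul (P : Derivation F R R) (a f : R) : P (a * f) = a * P f + f * P a := by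
  rw [Derivation.leibniz, smul_eq_mul, smul_eq_mul]

private theorem B2_inv (P : Derivation F R R) (a : R) : P a⁻¹ = -(a⁻¹ ^ 2 * P a) := by
  rw [Derivation.leibniz_inv, smul_eq_mul, neg_mul]

theorem exists_H [CharP R 3] (B : Subfield R) (P Q : Derivation F R R) (hP : ∀ f ∈ B, P f ∈ B)
    (hQ : ∀ f ∈ B, Q f ∈ B) (k : R) (hP3 : ∀ f ∈ B, P (P (P f)) = P f)
    (hQ3 : ∀ f ∈ B, Q (Q (Q f)) = Q f - k * P f) (hPQ : ∀ f ∈ B, P (Q f) = Q (P f))
    {a₀ a₁ : R} (ha₀ : a₀ ∈ B) (ha₁ : a₁ ∈ B) (h0 : a₀ ^ 3 = a₀ - P (P a₀))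
    (h1 : a₁ ^ 3 + Q (Q a₁) = a₁ + k * a₀) (h01 : P a₁ = -Q a₀) {χ om : R} (hχ : χ ∈ B) (hom : om ∈ B)
    (hχ0 : χ ≠ 0) (hPχ : P χ = χ) (hom0 : om ≠ 0) (hPom : P om = 0) (hQom : Q om = -om) :
    ∃ H ∈ B, H ≠ 0 ∧ P H = a₀ * H ∧ Q H = -(a₁ * H) := by
  have h3 : (3 : R) = 0 := CharP.ofNat_eq_zero R 3
  -- the operators
  obtain ⟨p, hp⟩ : ∃ p : R → R, ∀ f, p f = P f - a₀ * f := ⟨_, fun f => rfl⟩
  obtain ⟨q, hq⟩ : ∃ q : R → R, ∀ f, q f = Q f + a₁ * f := ⟨_, fun f => rfl⟩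
  have hpB : ∀ f ∈ B, p f ∈ B := fun f hf => by
    rw [hp]
    exact B.sub_mem (hP f hf) (B.mul_mem ha₀ hf)
  have hqB : ∀ f ∈ B, q f ∈ B := fun f hf => by
    rw [hq]
    exact B.add_mem (hQ f hf) (B.mul_mem ha₁ hf)
  have hp3 : ∀ f ∈ B, p (p (p f)) = p f := fun f hf => by
    have e := hP3 f hf
    simp only [hp, map_sub, map_add, B2_mul]
    linear_combination e - f * h0 + (-a₀ * P (P f) - P a₀ * P f + a₀ ^ 2 * P f + a₀ * P a₀ * f) * h3
  have hq3 : ∀ f ∈ B, q (q (q f)) = q f - k * p f := fun f hf => by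
    have e := hQ3 f hf
    simp only [hp, hq, map_add, map_sub, B2_mul]
    linear_combination e + f * h1 + (a₁ * Q (Q f) + Q a₁ * Q f + a₁ ^ 2 * Q f + a₁ * Q a₁ * f) * h3
  have hpq : ∀ f ∈ B, p (q f) = q (p f) := fun f hf => by
    have e := hPQ f hf
    simp only [hp, hq, map_add, map_sub, B2_mul]
    linear_combination e + f * h01
  have hp_add : ∀ f g, p (f + g) = p f + p g := fun f g => by
    rw [hp, hp, hp, map_add]
    ring
  have hq_add : ∀ f g, q (f + g) = q f + q g := fun f g => by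
    rw [hq, hq, hq, map_add]
    ring
  have hp_mul : ∀ f g, p (f * g) = f * p g + P f * g := fun f g => by
    rw [hp, hp, B2_mul]
    ring
  have hq_mul : ∀ f g, q (f * g) = f * q g + Q f * g := fun f g => by
    rw [hq, hq, B2_mul]
    ring
  have hp0 : p 0 = 0 := by
    rw [hp, map_zero]
    ring
  have hq0 : q 0 = 0 := by
    rw [hq, map_zero]
    ring
  -- the kernel of `p`
  have k1 : ∃ f ∈ B, f ≠ 0 ∧ p f = 0 := by
    by_cases c1 : p 1 = 0
    · exact ⟨1, B.one_mem, one_ne_zero, c1⟩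
    set g := p 1 with hg
    have hgB : g ∈ B := hpB 1 B.one_mem
    have hgg : p (p g) = g := hp3 1 B.one_mem
    by_cases c2 : g + p g = 0
    · refine ⟨χ * g, B.mul_mem hχ hgB, mul_ne_zero hχ0 c1, ?_⟩
      rw [hp_mul, hPχ]
      linear_combination χ * c2
    · refine ⟨χ⁻¹ * (g + p g), B.mul_mem (B.inv_mem hχ) (B.add_mem hgB (hpB g hgB)),
        mul_ne_zero (inv_ne_zero hχ0) c2, ?_⟩
      have e1 : χ⁻¹ * χ = 1 := inv_mul_cancel₀ hχ0
      rw [hp_mul, B2_inv, hPχ, hp_add, hgg]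
      linear_combination (-(χ⁻¹ * (g + p g))) * e1
  obtain ⟨f, hfB, hf0, hpf⟩ := k1
  have k2 : ∃ H ∈ B, H ≠ 0 ∧ p H = 0 ∧ q H = 0 := by
    by_cases c1 : q f = 0
    · exact ⟨f, hfB, hf0, hpf, c1⟩
    set g := q f with hg
    have hgB : g ∈ B := hqB f hfB
    have hpg : p g = 0 := by rw [hg, hpq f hfB, hpf, hq0]
    have hpqg : p (q g) = 0 := by rw [hpq g hgB, hpg, hq0]
    have hgg : q (q g) = g := by
      rw [hg, hq3 f hfB, hpf, mul_zero, sub_zero]
    by_cases c2 : g + q g = 0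
    · refine ⟨om⁻¹ * g, B.mul_mem (B.inv_mem hom) hgB, mul_ne_zero (inv_ne_zero hom0) c1, ?_, ?_⟩
      · rw [hp_mul, B2_inv, hPom, hpg]
        ring
      · have e1 : om⁻¹ * om = 1 := inv_mul_cancel₀ hom0
        rw [hq_mul, B2_inv, hQom]
        linear_combination om⁻¹ * c2 + om⁻¹ * g * e1
    · refine ⟨om * (g + q g), B.mul_mem hom (B.add_mem hgB (hqB g hgB)), mul_ne_zero hom0 c2, ?_, ?_⟩
      · rw [hp_mul, hPom, hp_add, hpg, hpqg]
        ring
      · rw [hq_mul, hQom, hq_add, hgg]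
        ring
  obtain ⟨H, hHB, hH0, h4, h5⟩ := k2
  refine ⟨H, hHB, hH0, ?_, ?_⟩
  · rw [hp] at h4
    exact sub_eq_zero.1 h4
  · rw [hq] at h5
    exact eq_neg_of_add_eq_zero_left h5

end CZT
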