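import Pool.Agent.CZT.A7
import Pool.Agent.CZT.B1
import Pool.Agent.CZT.B2

/-!
# CZT/B3: existence of `H` (3d), (3e)

`exists_HA`: `exists_H` for the field `Bf A.Z j n`, with `χ = (j + 1) / (j - 1)` and `om = (n - 1) / (n + 1)`.
`cube_y0`: `Q H / H = - X 1`, and `y0 - P P y0 = (c X 0 - X 1) ^ 3`.
-/

set_option autoImplicit false

namespace CZT

open IntermediateField

universe u v

variable {F : Type u} {R : Type v} [Field F] [Field R] [Algebra F R]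

variable {A : AS F R} [CharP R 3] (D : PQ A) (V : ZXY A)

omit [CharP R 3] in
private theorem B3_top (f : R) (hf : f ∈ Bf A.Z A.j A.n) : f ∈ Bf (⊤ : IntermediateField F R) A.j A.n :=
  Bf_mono le_top A.j A.n hf

private theorem B3_h1 : V.X 1 ^ 3 + D.Q (D.Q (V.X 1)) = V.X 1 + A.c ^ 3 * V.X 0 := by
  have h1 : D.Q (D.Q (V.X 1)) = D.P (D.P (V.X 1)) + A.c ^ 3 * D.P (D.P (V.X 0)) := by
    rw [V.QX1 D, map_neg, ← D.PQc (V.X_mem 2), V.QX2 D, map_sub, map_neg, Derivation.leibniz, der_cube,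
      smul_zero, add_zero, smul_eq_mul]
    ring
  have h2 := V.cube1 D
  have h3 := V.cube0 D
  rw [h1]
  linear_combination h2 + A.c ^ 3 * h3

omit [CharP R 3] in
private theorem B3_div (G : Derivation F R R) {a b : R} (hb : b ≠ 0) : G (a / b) = (G a * b - a * G b) / b ^ 2 := by
  rw [Derivation.leibniz_div, smul_eq_mul, smul_eq_mul, smul_eq_mul]
  field_simp

theorem exists_HA : ∃ H ∈ Bf A.Z A.j A.n, H ≠ 0 ∧ D.P H = V.X 0 * H ∧ D.Q H = -(V.X 1 * H) := by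
  have h3 : (3 : R) = 0 := CharP.ofNat_eq_zero R 3
  have hj := A.j_sq
  have hj1 : A.j + 1 ≠ 0 := fun h => hj (by linear_combination (A.j - 1) * h)
  have hj2 : A.j - 1 ≠ 0 := fun h => hj (by linear_combination (A.j + 1) * h)
  have hn1 : A.n + 1 ≠ 0 := AS.n1_ne
  have hn2 : A.n - 1 ≠ 0 := by first | exact PQ.n2_ne | exact D.n2_ne
  have hjm : A.j ∈ Bf A.Z A.j A.n := p_mem_Bf _ _ _
  have hnm : A.n ∈ Bf A.Z A.j A.n := q_mem_Bf _ _ _
  have h1m : (1 : R) ∈ Bf A.Z A.j A.n := one_mem _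
  refine exists_H (Bf A.Z A.j A.n) D.P D.Q (fun f hf => D.P_mem hf) (fun f hf => D.Q_mem hf) (A.c ^ 3)
    (fun f hf => D.P3 (B3_top f hf)) (fun f hf => D.Q3 (B3_top f hf)) (fun f hf => D.PQc (B3_top f hf))
    (D.mem_BZ (V.X_mem 0) (V.X_memZ 0)) (D.mem_BZ (V.X_mem 1) (V.X_memZ 1)) (V.cube0 D) (B3_h1 D V) ?_
    (χ := (A.j + 1) / (A.j - 1)) (om := (A.n - 1) / (A.n + 1)) ?_ ?_ ?_ ?_ ?_ ?_ ?_
  · rw [V.QX0 D, neg_neg]
  · exact div_mem (add_mem hjm h1m) (sub_mem hjm h1m)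
  · exact div_mem (sub_mem hnm h1m) (add_mem hnm h1m)
  · exact div_ne_zero hj1 hj2
  · rw [B3_div D.P hj2, map_add, map_sub, Derivation.map_one_eq_zero, D.Pj, add_zero, sub_zero,
      div_eq_div_iff (pow_ne_zero 2 hj2) hj2]
    linear_combination (-(A.j + 1) * (A.j - 1) ^ 2) * h3
  · exact div_ne_zero hn2 hn1
  · rw [B3_div D.P hn1, map_add, map_sub, Derivation.map_one_eq_zero, D.Pn, add_zero, sub_zero, zero_mul,
      mul_zero, sub_zero, zero_div]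
  · rw [B3_div D.Q hn1, map_add, map_sub, Derivation.map_one_eq_zero, D.Qn, add_zero, sub_zero, ← neg_div,
      div_eq_div_iff (pow_ne_zero 2 hn1) hn1]
    linear_combination ((A.n - 1) * (A.n + 1) ^ 2) * h3

theorem cube_y0 {H : R} (h0 : H ≠ 0) (hQ : D.Q H = -(V.X 1 * H)) :
    ∃ g ∈ A.Z, D.Q H / H - D.P (D.P (D.Q H / H)) = g ^ 3 := by
  have h3 : (3 : R) = 0 := CharP.ofNat_eq_zero R 3
  have h1 : D.Q H / H = -V.X 1 := by
    rw [hQ]
    field_simp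
  refine ⟨A.c * V.X 0 - V.X 1, sub_mem (mul_mem A.c_mem (V.X_memZ 0)) (V.X_memZ 1), ?_⟩
  have h2 := V.cube1 D
  rw [h1, map_neg, map_neg, sub_pow_char, mul_pow]
  linear_combination h2

end CZT
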