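import Pool.Agent.CZT.A7
import Pool.Agent.CZT.A13
import Pool.Agent.CZT.B1

/-!
# CZT/B4: the criterion (4)

`X 0 = P Y / Y`, `X 1 = - Q Y / Y` with `Y = g ^ 3 H`, so the traces of `z` are in `L` and `z ∈ L₁ = adjoin F (L ∪ {te})` by `expand`.
By `expandT` also `P Xi`, `P P Xi` are in `Bf L₁ j n`, hence `x ^ 3`, `y ^ 3`, and `x, y ∈ L₁` by `PQ.cube_mem`; then `gen_crit`.
-/

set_option autoImplicit false

namespace CZT

open IntermediateField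

universe u v

variable {F : Type u} {R : Type v} [Field F] [Field R] [Algebra F R]

variable {A : AS F R} [CharP R 3] (D : PQ A) (V : ZXY A)

theorem crit {H : R} (h0 : H ≠ 0) (hP : D.P H = V.X 0 * H) (hQ : D.Q H = -(V.X 1 * H))
    {L : IntermediateField F R} (hL : L ≤ A.Z) (hv : A.v0 ∈ L) (ht : ∀ k, A.t k ∈ L)
    (hz : A.tr ((A.te - 1) ^ 2 * V.z) ∈ L) (hj : A.j ∈ L) (hn : A.n ∈ L) {g : R} (hg : g ∈ A.Z) (hg0 : g ≠ 0)
    (h : g ^ 3 * H ∈ Bf L A.j A.n) : L = A.Z := by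
  have h3 : (3 : R) = 0 := CharP.ofNat_eq_zero R 3
  have hc3 : ∀ f : R, D.P (f ^ 3) = 0 ∧ D.Q (f ^ 3) = 0 := fun f => ⟨der_cube D.P f, der_cube D.Q f⟩
  have hY0 : g ^ 3 * H ≠ 0 := mul_ne_zero (pow_ne_zero 3 hg0) h0
  have hPY : D.P (g ^ 3 * H) = V.X 0 * (g ^ 3 * H) := by
    rw [Derivation.leibniz, (hc3 g).1, smul_zero, add_zero, hP, smul_eq_mul]
    ring
  have hQY : D.Q (g ^ 3 * H) = -(V.X 1 * (g ^ 3 * H)) := by
    rw [Derivation.leibniz, (hc3 g).2, smul_zero, add_zero, hQ, smul_eq_mul]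
    ring
  have hX0B : V.X 0 ∈ Bf L A.j A.n := by
    have h1 := div_mem (D.P_mem h) h
    rwa [hPY, mul_div_cancel_right₀ _ hY0] at h1
  have hX1B : V.X 1 ∈ Bf L A.j A.n := by
    have h1 := neg_mem (div_mem (D.Q_mem h) h)
    rwa [hQY, neg_div, neg_neg, mul_div_cancel_right₀ _ hY0] at h1
  have hX0 : V.X 0 ∈ L := Bf_le hj hn hX0B
  have hX1 : V.X 1 ∈ L := Bf_le hj hn hX1B
  have hc : A.c ∈ L := Bf_le hj hn (AS.c_mem_Bf L)
  have hr : A.r ∈ L := by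
    have h1 := inv_mem (S := IntermediateField F R) hj
    rwa [AS.j, inv_inv] at h1
  have htr0 : A.tr V.z ∈ L := by
    rw [← V.X0_eq]
    exact hX0
  have htr1 : A.tr ((A.te - 1) * V.z) ∈ L := by
    have h1 := sub_mem (S := IntermediateField F R) hX1 (mul_mem hc htr0)
    rwa [V.X1_eq, add_sub_cancel_right] at h1
  have hLL : L ≤ adjoin F ((L : Set R) ∪ {A.te}) := fun a ha => subset_adjoin F _ (Or.inl ha)
  have hte : A.te ∈ adjoin F ((L : Set R) ∪ {A.te}) := subset_adjoin F _ (Or.inr rfl)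
  have hte1 : A.te - 1 ∈ adjoin F ((L : Set R) ∪ {A.te}) := sub_mem hte (one_mem _)
  have hz1 : V.z ∈ adjoin F ((L : Set R) ∪ {A.te}) := by
    rw [A.expand V.z]
    exact add_mem (add_mem (add_mem (neg_mem (hLL hz)) (hLL htr0)) (mul_mem (neg_mem (hLL htr1)) hte1))
      (mul_mem (neg_mem (hLL htr0)) (pow_mem hte1 2))
  have hTe : A.Te ∈ Bf (adjoin F ((L : Set R) ∪ {A.te})) A.j A.n := AS.Te_mem_Bf hte
  have hPXi : D.P V.Xi = (D.Q (V.X 1) + D.P (V.X 0)) - D.P (V.X 1) * A.Te - D.P (V.X 0) * A.Te ^ 2 := by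
    have e0 : A.tr V.Xi = V.X 0 := by
      unfold ZXY.X
      rw [pow_zero, one_mul]
    have e1 : A.tr (A.Te * V.Xi) = V.X 1 := by
      unfold ZXY.X
      rw [pow_one]
    have e2 : A.tr (A.Te ^ 2 * V.Xi) = V.X 2 := rfl
    have hT2 : D.P (A.Te ^ 2) = 0 := by
      rw [Derivation.leibniz_pow, D.PTe, smul_zero, smul_zero]
    have e3 := congrArg D.P (A.expandT V.Xi)
    rw [e0, e1, e2, map_add, map_add, map_add, Derivation.leibniz, Derivation.leibniz, D.PTe, hT2, map_neg, map_neg,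
      map_neg, smul_zero, smul_zero, zero_add, zero_add, smul_eq_mul, smul_eq_mul] at e3
    rw [e3, V.QX1 D]
    ring
  have hB1 : ∀ f, f ∈ Bf L A.j A.n → f ∈ Bf (adjoin F ((L : Set R) ∪ {A.te})) A.j A.n :=
    fun f hf => Bf_mono hLL A.j A.n hf
  have hPB : D.P V.Xi ∈ Bf (adjoin F ((L : Set R) ∪ {A.te})) A.j A.n := by
    rw [hPXi]
    exact sub_mem (sub_mem (add_mem (hB1 _ (D.Q_mem hX1B)) (hB1 _ (D.P_mem hX0B)))
      (mul_mem (hB1 _ (D.P_mem hX1B)) hTe)) (mul_mem (hB1 _ (D.P_mem hX0B)) (pow_mem hTe 2))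
  have hPPB : D.P (D.P V.Xi) ∈ Bf (adjoin F ((L : Set R) ∪ {A.te})) A.j A.n := D.P_mem hPB
  have hw : A.w 0 ∈ Bf (adjoin F ((L : Set R) ∪ {A.te})) A.j A.n := AS.w0_mem_Bf hte
  have hw0 : A.w 0 ≠ 0 := A.w_ne 0
  have hx3 : V.x ^ 3 = -(D.P V.Xi + D.P (D.P V.Xi)) / A.w 0 := by
    rw [V.PPXi D, V.PXi D, eq_div_iff hw0]
    linear_combination (V.x ^ 3 * A.w 0) * h3
  have hy3 : V.y ^ 3 = (D.P V.Xi - D.P (D.P V.Xi)) / A.w 0 ^ 2 := by
    rw [V.PPXi D, V.PXi D, eq_div_iff (pow_ne_zero 2 hw0)]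
    linear_combination (V.y ^ 3 * A.w 0 ^ 2) * h3
  have hj1 : A.j ∈ adjoin F ((L : Set R) ∪ {A.te}) := hLL hj
  have hn1 : A.n ∈ adjoin F ((L : Set R) ∪ {A.te}) := hLL hn
  have hx1 : V.x ∈ adjoin F ((L : Set R) ∪ {A.te}) := by
    refine D.cube_mem hj1 hn1 ?_
    rw [hx3]
    exact div_mem (neg_mem (add_mem hPB hPPB)) hw
  have hy1 : V.y ∈ adjoin F ((L : Set R) ∪ {A.te}) := by
    refine D.cube_mem hj1 hn1 ?_
    rw [hy3]
    exact div_mem (sub_mem hPB hPPB) (pow_mem hw 2)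
  exact gen_crit V hL hc hr hv ht hz1 hx1 hy1

end CZT
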