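import Pool.Agent.CZT.A2
import Pool.Agent.CPZ.TRb
import Pool.Agent.CPZ.FxL

/-!
# CZT/B5: counting (4')

PROOF PLAN.  `alg_Z`: `R` is algebraic over `Z` (the group generated by `σ`, `τ` is finite; `CPZ.alg_of_group` in `CPZ/Rel.lean`, or directly: every `a ∈ R` is a root of the product of the `X - g a` over the nine automorphisms `g = σ ^ i τ ^ k`, with coefficients in `Z`).
`dim`: if every element of `Z` is algebraic over `E = F(v, T)`, then every element of `R` is algebraic over `E` (transitivity), so `82 ≤ trdeg F R ≤ 74 + #T` (`CPZ.trdeg_le_of_alg` for the family `v` and the elements of `T`, indexed by `Fin 74 ⊕ T`).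
-/

set_option autoImplicit false

namespace CZT

open IntermediateField

universe u v

variable {F : Type u} {R : Type v} [Field F] [Field R] [Algebra F R]

private theorem B5_finite (σ τ : R ≃ₐ[F] R) (hσ : σ ^ 3 = 1) (hτ : τ ^ 3 = 1) (hc : Commute σ τ) :
    Finite (Subgroup.closure ({σ, τ} : Set (R ≃ₐ[F] R))) := by
  have key : ∀ g ∈ Subgroup.closure ({σ, τ} : Set (R ≃ₐ[F] R)), ∃ i k : ℕ, g = σ ^ i * τ ^ k := by
    intro g hg
    induction hg using Subgroup.closure_induction with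
    | mem x hx =>
      rcases hx with rfl | hx
      · exact ⟨1, 0, by simp⟩
      · rw [Set.mem_singleton_iff] at hx
        subst hx
        exact ⟨0, 1, by simp⟩
    | one => exact ⟨0, 0, by simp⟩
    | mul x y _ _ hx hy =>
      obtain ⟨i, k, rfl⟩ := hx
      obtain ⟨i', k', rfl⟩ := hy
      refine ⟨i + i', k + k', ?_⟩
      have h1 : Commute (τ ^ k) (σ ^ i') := (hc.symm.pow_pow k i')
      calc σ ^ i * τ ^ k * (σ ^ i' * τ ^ k') = σ ^ i * (τ ^ k * σ ^ i') * τ ^ k' := by group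
        _ = σ ^ i * (σ ^ i' * τ ^ k) * τ ^ k' := by rw [h1.eq]
        _ = σ ^ (i + i') * τ ^ (k + k') := by rw [pow_add, pow_add]; group
    | inv x _ hx =>
      obtain ⟨i, k, rfl⟩ := hx
      have e1 : (σ ^ i)⁻¹ = σ ^ (2 * i) := by
        rw [inv_eq_iff_mul_eq_one, ← pow_add, show i + 2 * i = 3 * i by ring, pow_mul, hσ, one_pow]
      have e2 : (τ ^ k)⁻¹ = τ ^ (2 * k) := by
        rw [inv_eq_iff_mul_eq_one, ← pow_add, show k + 2 * k = 3 * k by ring, pow_mul, hτ, one_pow]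
      refine ⟨2 * i, 2 * k, ?_⟩
      rw [mul_inv_rev, e1, e2]
      exact (hc.symm.pow_pow _ _).eq
  have hmem : ∀ p : Fin 3 × Fin 3, σ ^ (p.1 : ℕ) * τ ^ (p.2 : ℕ) ∈ Subgroup.closure ({σ, τ} : Set (R ≃ₐ[F] R)) := by
    intro p
    refine mul_mem (pow_mem (Subgroup.subset_closure ?_) _) (pow_mem (Subgroup.subset_closure ?_) _)
    · exact Set.mem_insert _ _
    · exact Set.mem_insert_of_mem _ rfl
  refine Finite.of_surjective (fun p : Fin 3 × Fin 3 =>
    (⟨σ ^ (p.1 : ℕ) * τ ^ (p.2 : ℕ), hmem p⟩ : Subgroup.closure ({σ, τ} : Set (R ≃ₐ[F] R)))) ?_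
  rintro ⟨g, hg⟩
  obtain ⟨i, k, rfl⟩ := key g hg
  refine ⟨(⟨i % 3, Nat.mod_lt _ (by norm_num)⟩, ⟨k % 3, Nat.mod_lt _ (by norm_num)⟩), ?_⟩
  apply Subtype.ext
  show σ ^ (i % 3) * τ ^ (k % 3) = σ ^ i * τ ^ k
  rw [← pow_eq_pow_mod i hσ, ← pow_eq_pow_mod k hτ]

variable {A : AS F R} [CharP R 3]

theorem alg_Z (a : R) : IsAlgebraic A.Z a := by
  have hσ : A.σ ^ 3 = 1 := by
    ext x
    exact A.σ3 x
  have hτ : A.τ ^ 3 = 1 := by
    ext x
    exact A.τ3 x
  have hc : Commute A.σ A.τ := by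
    ext x
    exact A.comm x
  have hf := B5_finite A.σ A.τ hσ hτ hc
  have h1 := CPZ.finite_Fx (Subgroup.closure ({A.σ, A.τ} : Set (R ≃ₐ[F] R)))
  rw [CPZ.Fx_closure] at h1
  have h2 : Module.Finite A.Z R := h1
  exact IsAlgebraic.of_finite _ a

omit [CharP R 3] in
private theorem B5_trans (Z E : IntermediateField F R) (hZ : ∀ a : R, IsAlgebraic Z a)
    (hE : ∀ a ∈ Z, IsAlgebraic E a) (r : R) : IsAlgebraic E r := by
  let C : IntermediateField E R := algebraicClosure E R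
  have hC : ∀ a ∈ Z, a ∈ C := fun a ha => mem_algebraicClosure_iff.2 (hE a ha)
  let φ : Z →+* C :=
    { toFun := fun a => ⟨a.1, hC a.1 a.2⟩
      map_one' := rfl
      map_mul' := fun _ _ => rfl
      map_zero' := rfl
      map_add' := fun _ _ => rfl }
  obtain ⟨p, hp0, hp⟩ := hZ r
  have h1 : IsAlgebraic C r := by
    refine ⟨p.map φ, ?_, ?_⟩
    · rw [Ne, Polynomial.map_eq_zero_iff φ.injective]
      exact hp0
    · rw [Polynomial.aeval_def, Polynomial.eval₂_map]
      exact hp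
  exact h1.restrictScalars E

theorem dim (v : Fin 74 → R) (T : Finset R)
    (h : ∀ a ∈ A.Z, IsAlgebraic (adjoin F (Set.range v ∪ (T : Set R))) a) : 8 ≤ T.card := by
  have hr : Set.range (Sum.elim v (fun t : T => (t : R))) = Set.range v ∪ (T : Set R) := by
    rw [Set.Sum.elim_range]
    congr 1
    exact Subtype.range_coe
  have h1 : ∀ r : R, IsAlgebraic (adjoin F (Set.range (Sum.elim v (fun t : T => (t : R))))) r := by
    rw [hr]
    exact fun r => B5_trans A.Z _ alg_Z h r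
  have h2 := A.trd.trans (CPZ.trdeg_le_of_alg _ h1)
  have h3 : Fintype.card (Fin 74 ⊕ T) = 74 + T.card := by
    rw [Fintype.card_sum, Fintype.card_fin, Fintype.card_coe]
  rw [h3] at h2
  have h4 : 82 ≤ 74 + T.card := by exact_mod_cast h2
  omega

end CZT
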