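import Pool.Agent.CZT.CDefs
import Pool.Agent.CZT.B3
import Pool.Agent.CZT.B4
import Pool.Agent.CZT.B5
import Pool.Agent.CZT.A5
import Pool.Agent.CZT.A10

/-!
# CZT/C1: PARTS 0-4 give a context (assembly)
-/

set_option autoImplicit false

namespace CZT

open IntermediateField

universe u v

variable {F : Type u} {R : Type v} [Field F] [Field R] [Algebra F R]

/-- the 74 elements of `V` -/
noncomputable def vv (A : AS F R) (z : R) : Fin 74 → R :=
  Fin.cons (A.tr ((A.te - 1) ^ 2 * z)) (Fin.cons A.v0 A.t)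

theorem exists_ctx [CharP R 3] (A : AS F R) :
    ∃ (v : Fin 74 → R) (K : Ctx F R), K.Z = A.Z ∧ K.V = Set.range v := by
  obtain ⟨D⟩ := exists_PQ A
  obtain ⟨V⟩ := exists_zxy A
  obtain ⟨H, HB, H0, hP, hQ⟩ := exists_HA D V
  have hv0 : A.tr ((A.te - 1) ^ 2 * V.z) ∈ A.Z := by
    refine A.tr_mem ?_
    simp only [map_mul, map_pow, map_sub, map_one, AS.τte, V.τz]
  have hv : ∀ i, vv A V.z i ∈ A.Z := by
    intro i
    refine Fin.cases ?_ (fun i => Fin.cases ?_ (fun i => ?_) i) i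
    · exact hv0
    · exact A.v0_mem
    · exact A.t_mem i
  refine ⟨vv A V.z, {
    Z := A.Z
    P := D.P
    Q := D.Q
    j := A.j
    n := A.n
    H := H
    V := Set.range (vv A V.z)
    jZ := A.j_mem
    nZ := A.n_mem
    VZ := ?_
    j0 := A.j_ne
    j1 := ?_
    Pj := D.Pj
    Pn := D.Pn
    Qj := ?_
    Qn := D.Qn
    ind := D.pindep
    H0 := H0
    HB := HB
    cube := cube_y0 D V H0 hQ
    crit := ?_
    dim := fun T hT => dim _ T hT }, rfl, rfl⟩
  · rintro _ ⟨i, rfl⟩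
    exact hv i
  · exact fun h => A.j_sq (sub_eq_zero.2 h)
  · rw [D.Qj, AS.c_eq]
    ring
  · intro L hL hVL hj hn ⟨g, hg, hg0, h⟩
    exact crit D V H0 hP hQ hL (hVL ⟨1, rfl⟩) (fun k => hVL ⟨k.succ.succ, rfl⟩) (hVL ⟨0, rfl⟩) hj hn hg hg0 h

end CZT
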