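import Pool.Agent.CZT.Defs
import Pool.Agent.CPZ.HNin
import Pool.Agent.CPZ.DatL
import Pool.Agent.CPZ.TR

/-!
# CZT/D1: from `CPZ.Datum` to `AS` (PART 0)

PROOF PLAN.  `σ = D.σ`, `τ = D.τ`, `u = D.u`.  `f_k = ∑ j, (th + j) ^ k m_j`.  `S = m_0 + m_1 + m_2 ≠ 0` and `N = ∑ u i j ≠ 0` (algebraic independence: `CPZ` shows in `DatL.lean` that the generators of a datum without one `u` are algebraically independent; or: if `S = 0` then `R` is generated by fewer than `11 + s` elements, `CPZ.trdeg_le_of_alg`).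
`th = - (m_1 + 2 m_2) / S`: `σ th = - (m_2 + 2 m_0) / S = th + 1` (characteristic 3), `τ th = th`.  `f_0 = S`, `f_1 = th f_0 + (m_1 + 2 m_2) = 0`, `f_2 = th ^ 2 m_0 + (th + 1) ^ 2 m_1 + (th + 2) ^ 2 m_2`; both are fixed by `σ`, `τ`; the `m_j` are in `F(th, f_0, f_2)` (Vandermonde of `th, th + 1, th + 2`; explicitly Lagrange interpolation:
`m_0 = - (f_2 - (2 th + 3) f_1 + (th + 1)(th + 2) f_0)` etc. in characteristic 3: `m_j = - (f_2 + (th + j + 1)(th + j + 2) f_0)`, check).  `et = - (v_1 + 2 v_2) / (v_0 + v_1 + v_2) + f_0`, `v_i = ∑ j, u i j`: `σ et = et`, `τ et = et + 1`.  `t = (f_2, w_0, ..., w_70)` (`Fin.cons`).  `gen`: `f_0 = et - (..) ∈ F(u, et)`, `m_j ∈ F(th, f_0, f_2)`.  `trd`: `D.trd` with `11 + 71 = 82`.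
-/

set_option autoImplicit false

namespace CZT

open IntermediateField

universe u v

variable {F : Type u} {R : Type v} [Field F] [Field R] [Algebra F R]

private theorem D1_S_ne (D : CPZ.Datum F R 71) : D.m 0 + D.m 1 + D.m 2 ≠ 0 := by
  intro h
  refine CPZ.m_notMem D 2 ?_
  have h2 : D.m 2 = -(D.m 0 + D.m 1) := by linear_combination h
  have hm : ∀ i : ZMod 3, i ≠ 2 →
      D.m i ∈ adjoin F (Set.range (fun p : ZMod 3 × ZMod 3 => D.u p.1 p.2) ∪ D.m '' {2}ᶜ) := fun i hi =>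
    subset_adjoin F _ (Or.inr ⟨i, hi, rfl⟩)
  rw [h2]
  exact neg_mem (add_mem (hm 0 (by decide)) (hm 1 (by decide)))

private theorem D1_N_ne (D : CPZ.Datum F R 71) : ∑ i, ∑ j, D.u i j ≠ 0 := by
  intro h
  have hp : ∏ p : ZMod 3 × ZMod 3, D.u p.1 p.2 = 1 := by
    rw [Fintype.prod_prod_type]
    exact D.hu
  have hs : ∑ p : ZMod 3 × ZMod 3, D.u p.1 p.2 = 0 := by
    rw [Fintype.sum_prod_type]
    exact h
  rw [Fintype.prod_eq_mul_prod_subtype_ne _ ((0, 0) : ZMod 3 × ZMod 3)] at hp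
  rw [Fintype.sum_eq_add_sum_subtype_ne _ ((0, 0) : ZMod 3 × ZMod 3)] at hs
  have hi := CPZ.fam_ind D (0, 0)
  set P : MvPolynomial (CPZ.Idx 71 (0, 0)) F :=
    (∑ p : {p : ZMod 3 × ZMod 3 // p ≠ (0, 0)}, MvPolynomial.X (Sum.inl p)) *
      (∏ p : {p : ZMod 3 × ZMod 3 // p ≠ (0, 0)}, MvPolynomial.X (Sum.inl p)) + 1 with hP
  have hX : ∀ p : {p : ZMod 3 × ZMod 3 // p ≠ (0, 0)}, CPZ.fam D (0, 0) (Sum.inl p) = D.u p.1.1 p.1.2 :=
    fun _ => rfl
  have h0 : MvPolynomial.aeval (CPZ.fam D (0, 0)) P = 0 := by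
    rw [hP, map_add, map_mul, map_sum, map_prod, map_one]
    simp only [MvPolynomial.aeval_X, hX]
    linear_combination (∏ p : {p : ZMod 3 × ZMod 3 // p ≠ (0, 0)}, D.u p.1.1 p.1.2) * hs - hp
  have h1 : P = 0 := by
    have h2 := (injective_iff_map_eq_zero _).1 hi P h0
    exact h2
  have h2 := congrArg MvPolynomial.constantCoeff h1
  rw [hP, map_add, map_mul, map_sum, map_one, map_zero] at h2
  simp at h2

theorem exists_AS [CharP R 3] (D : CPZ.Datum F R 71) : ∃ A : AS F R, A.σ = D.σ ∧ A.τ = D.τ := by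
  have h3 : (3 : R) = 0 := CharP.ofNat_eq_zero R 3
  have hS := D1_S_ne D
  have hN := D1_N_ne D
  have e20 : (2 : ZMod 3) + 1 = 0 := by decide
  have e12 : (1 : ZMod 3) + 1 = 2 := by decide
  have e01 : (0 : ZMod 3) + 1 = 1 := by decide
  have σm0 : D.σ (D.m 0) = D.m 1 := by rw [D.σm, e01]
  have σm1 : D.σ (D.m 1) = D.m 2 := by rw [D.σm, e12]
  have σm2 : D.σ (D.m 2) = D.m 0 := by rw [D.σm, e20]
  -- the elements
  obtain ⟨S, hSd⟩ : ∃ S, S = D.m 0 + D.m 1 + D.m 2 := ⟨_, rfl⟩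
  obtain ⟨th, hth⟩ : ∃ th, th = -(D.m 1 + 2 * D.m 2) / S := ⟨_, rfl⟩
  obtain ⟨f2, hf2⟩ : ∃ f2, f2 = th ^ 2 * D.m 0 + (th + 1) ^ 2 * D.m 1 + (th + 2) ^ 2 * D.m 2 := ⟨_, rfl⟩
  obtain ⟨v, hv⟩ : ∃ v : ZMod 3 → R, ∀ i, v i = D.u i 0 + D.u i 1 + D.u i 2 := ⟨_, fun _ => rfl⟩
  obtain ⟨N, hNd⟩ : ∃ N, N = v 0 + v 1 + v 2 := ⟨_, rfl⟩
  obtain ⟨e, he⟩ : ∃ e, e = -(v 1 + 2 * v 2) / N := ⟨_, rfl⟩
  rw [← hSd] at hS
  have hsum3 : ∀ f : ZMod 3 → R, ∑ i, f i = f 0 + f 1 + f 2 := fun f => Fin.sum_univ_three f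
  have hN' : N ≠ 0 := by
    rw [hNd, hv, hv, hv]
    rw [hsum3, hsum3, hsum3, hsum3] at hN
    exact hN
  have σS : D.σ S = S := by
    rw [hSd, map_add, map_add, σm0, σm1, σm2]
    ring
  have τS : D.τ S = S := by
    rw [hSd, map_add, map_add, D.τm, D.τm, D.τm]
  have thS : th * S = -(D.m 1 + 2 * D.m 2) := by
    rw [hth]
    field_simp
  have σth : D.σ th = th + 1 := by
    have h1 : D.σ th * S = -(D.m 2 + 2 * D.m 0) := by
      have h2 := congrArg D.σ thS
      rwa [map_mul, σS, map_neg, map_add, map_mul, σm1, σm2, map_ofNat] at h2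
    have h2 : (D.σ th - (th + 1)) * S = 0 := by
      linear_combination h1 - thS - hSd - D.m 0 * h3
    rcases mul_eq_zero.1 h2 with h | h
    · exact sub_eq_zero.1 h
    · exact absurd h hS
  have τth : D.τ th = th := by
    rw [hth, map_div₀, τS, map_neg, map_add, map_mul, D.τm, D.τm, map_ofNat]
  have σf2 : D.σ f2 = f2 := by
    rw [hf2, map_add, map_add, map_mul, map_mul, map_mul, map_pow, map_pow, map_pow, map_add, map_add, map_one,
      map_ofNat, σth, σm0, σm1, σm2]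
    linear_combination (2 * th + 3) * D.m 0 * h3
  have τf2 : D.τ f2 = f2 := by
    rw [hf2, map_add, map_add, map_mul, map_mul, map_mul, map_pow, map_pow, map_pow, map_add, map_add, map_one,
      map_ofNat, τth, D.τm, D.τm, D.τm]
  have σv : ∀ i, D.σ (v i) = v i := by
    intro i
    rw [hv, map_add, map_add, D.σu, D.σu, D.σu, e01, e12, e20]
    ring
  have τv : ∀ i, D.τ (v i) = v (i + 1) := by
    intro i
    rw [hv, hv, map_add, map_add, D.τu, D.τu, D.τu]
  have σN : D.σ N = N := by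
    rw [hNd, map_add, map_add, σv, σv, σv]
  have τN : D.τ N = N := by
    rw [hNd, map_add, map_add, τv, τv, τv, e01, e12, e20]
    ring
  have eN : e * N = -(v 1 + 2 * v 2) := by
    rw [he]
    field_simp
  have σe : D.σ e = e := by
    rw [he, map_div₀, σN, map_neg, map_add, map_mul, σv, σv, map_ofNat]
  have τe : D.τ e = e + 1 := by
    have h1 : D.τ e * N = -(v 2 + 2 * v 0) := by
      have h2 := congrArg D.τ eN
      rwa [map_mul, τN, map_neg, map_add, map_mul, τv, τv, e12, e20, map_ofNat] at h2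
    have h2 : (D.τ e - (e + 1)) * N = 0 := by
      linear_combination h1 - eN - hNd - v 0 * h3
    rcases mul_eq_zero.1 h2 with h | h
    · exact sub_eq_zero.1 h
    · exact absurd h hN'
  let t : Fin 72 → R := Fin.cons f2 D.w
  have ht0 : t 0 = f2 := rfl
  have htk : ∀ k : Fin 71, t k.succ = D.w k := fun _ => rfl
  have hgen : adjoin F (Set.range (fun p : ZMod 3 × ZMod 3 => D.u p.1 p.2) ∪ {th, e + S} ∪ Set.range t) = ⊤ := by
    rw [eq_top_iff, ← D.gen, adjoin_le_iff]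
    set L := adjoin F (Set.range (fun p : ZMod 3 × ZMod 3 => D.u p.1 p.2) ∪ {th, e + S} ∪ Set.range t) with hL
    have mu : ∀ i j, D.u i j ∈ L := fun i j => subset_adjoin F _ (Or.inl (Or.inl ⟨(i, j), rfl⟩))
    have mth : th ∈ L := subset_adjoin F _ (Or.inl (Or.inr (Or.inl rfl)))
    have met : e + S ∈ L := subset_adjoin F _ (Or.inl (Or.inr (Or.inr rfl)))
    have mt : ∀ k, t k ∈ L := fun k => subset_adjoin F _ (Or.inr ⟨k, rfl⟩)
    have mv : ∀ i, v i ∈ L := fun i => by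
      rw [hv]
      exact add_mem (add_mem (mu _ _) (mu _ _)) (mu _ _)
    have m2 : (2 : R) ∈ L := by
      have := IntermediateField.natCast_mem L 2
      exact_mod_cast this
    have me : e ∈ L := by
      rw [he, hNd]
      exact div_mem (neg_mem (add_mem (mv 1) (mul_mem m2 (mv 2)))) (add_mem (add_mem (mv 0) (mv 1)) (mv 2))
    have mS : S ∈ L := by
      have := sub_mem met me
      rwa [add_sub_cancel_left] at this
    have mf2 : f2 ∈ L := mt 0
    have m1 : (1 : R) ∈ L := one_mem L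
    have k0 : D.m 0 = -(f2 + (th + 1) * (th + 2) * S) := by
      linear_combination hf2 + (2 - th ^ 2) * hSd + (2 * th + 3) * thS + D.m 0 * h3
    have k1 : D.m 1 = -(f2 + (th + 2) * th * S) := by
      linear_combination hf2 - th ^ 2 * hSd + (2 * th + 2) * thS
    have k2 : D.m 2 = -(f2 + th * (th + 1) * S) := by
      linear_combination hf2 - th ^ 2 * hSd + (2 * th + 1) * thS + D.m 2 * h3
    have mm : ∀ j, D.m j ∈ L := by
      intro j
      have hj : j = 0 ∨ j = 1 ∨ j = 2 := by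
        revert j
        decide
      rcases hj with rfl | rfl | rfl
      · rw [k0]
        exact neg_mem (add_mem mf2 (mul_mem (mul_mem (add_mem mth m1) (add_mem mth m2)) mS))
      · rw [k1]
        exact neg_mem (add_mem mf2 (mul_mem (mul_mem (add_mem mth m2) mth) mS))
      · rw [k2]
        exact neg_mem (add_mem mf2 (mul_mem (mul_mem mth (add_mem mth m1)) mS))
    rintro r ((⟨⟨i, j⟩, rfl⟩ | ⟨j, rfl⟩) | ⟨k, rfl⟩)
    · exact mu i j
    · exact mm j
    · exact mt k.succ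
  refine ⟨⟨D.σ, D.τ, D.u, th, e + S, t, D.hu, D.σu, D.τu, σth, τth, ?_, ?_, ?_, ?_, hgen, D.trd⟩, rfl, rfl⟩
  · rw [map_add, σe, σS]
  · rw [map_add, τe, τS]
    ring
  · intro k
    refine Fin.cases ?_ (fun k => ?_) k
    · exact σf2
    · exact D.σw k
  · intro k
    refine Fin.cases ?_ (fun k => ?_) k
    · exact τf2
    · exact D.τw k

end CZT
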