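import Pool.Agent.CZT.E5a

/-!
# CZT-E5: stage 5

`y = b/(a²-1)`, `(a2, b2, e2) = (a1, b1, e1)/(a²-1)`, `Dl = (a2³ j² + b2³ j + e2³)/j³`.
-/

namespace CZT

open IntermediateField

universe u v

variable {F : Type u} {R : Type v} [Field F] [Field R] [Algebra F R] [CharP R 3] (K : Ctx F R)

omit [CharP R 3] in
/-- logarithmic derivatives of a product and of a quotient -/
private theorem E5_log {D A : R} (hD : D ≠ 0) (hA : A ≠ 0) (la : R) :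
    D * ((1 - la) * (K.P (D * A) / (D * A)) - la * (K.P (D / A) / (D / A))) =
      (1 - 2 * la) * K.P D + D * (K.P A / A) := by
  have h1 : K.P (D * A) = D * K.P A + A * K.P D := by
    rw [Derivation.leibniz]
    simp only [smul_eq_mul]
  have h2 : K.P (D / A) = (A * K.P D - D * K.P A) / A ^ 2 := by
    have h3 : D = D / A * A := by field_simp
    have h4 : K.P D = D / A * K.P A + A * K.P (D / A) := by
      conv_lhs => rw [h3, Derivation.leibniz]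
      simp only [smul_eq_mul]
    rw [h4]
    field_simp
    ring
  rw [h1, h2]
  field_simp
  ring

/-- derivative of `Dl` -/
private theorem E5_PDl (x y z : R) :
    K.P ((x ^ 3 * K.j ^ 2 + y ^ 3 * K.j + z ^ 3) / K.j ^ 3) =
      (K.j ^ 2 - 1) * (2 * x ^ 3 / K.j ^ 2 + y ^ 3 / K.j ^ 3) := by
  have hj := K.j0
  have h1 : (x ^ 3 * K.j ^ 2 + y ^ 3 * K.j + z ^ 3) / K.j ^ 3 =
      (x / K.j) ^ 3 * K.j ^ 2 + (y / K.j) ^ 3 * K.j + (z / K.j) ^ 3 := by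
    field_simp
  have h2 : K.P (K.j ^ 2) = 2 * K.j * (K.j ^ 2 - 1) := by
    rw [pow_two, Derivation.leibniz, K.Pj]
    simp only [smul_eq_mul]
    ring
  rw [h1, map_add, map_add, D_cube_mul, D_cube_mul, D_cube, h2, K.Pj]
  field_simp
  ring

theorem exists_St5 (X : St4 K) : Nonempty (St5 K) := by
  obtain ⟨ha0, hasq⟩ := a_ne K X
  have hw : X.a ^ 2 - 1 ≠ 0 := sub_ne_zero.2 hasq
  have hj := K.j0
  have hj1 : K.j ^ 2 - 1 ≠ 0 := sub_ne_zero.2 K.j1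
  have h3 : (3 : R) = 0 := by exact_mod_cast CharP.cast_eq_zero R 3
  have hwZ : X.a ^ 2 - 1 ∈ K.Z := _root_.sub_mem (_root_.pow_mem X.ha 2) (OneMemClass.one_mem K.Z)
  have hN : (X.a1 / (X.a ^ 2 - 1)) ^ 3 * K.j ^ 2 + (X.b1 / (X.a ^ 2 - 1)) ^ 3 * K.j +
      (X.e1 / (X.a ^ 2 - 1)) ^ 3 = (X.a1 ^ 3 * K.j ^ 2 + X.b1 ^ 3 * K.j + X.e1 ^ 3) / (X.a ^ 2 - 1) ^ 3 := by
    field_simp
  have hDl0 : ((X.a1 / (X.a ^ 2 - 1)) ^ 3 * K.j ^ 2 + (X.b1 / (X.a ^ 2 - 1)) ^ 3 * K.j +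
      (X.e1 / (X.a ^ 2 - 1)) ^ 3) / K.j ^ 3 ≠ 0 := by
    rw [hN]
    exact div_ne_zero (div_ne_zero X.d0 (pow_ne_zero 3 hw)) (pow_ne_zero 3 hj)
  refine ⟨{ A := X.A
            la := X.la
            a := X.a
            y := X.b / (X.a ^ 2 - 1)
            a2 := X.a1 / (X.a ^ 2 - 1)
            b2 := X.b1 / (X.a ^ 2 - 1)
            e2 := X.e1 / (X.a ^ 2 - 1)
            Dl := ((X.a1 / (X.a ^ 2 - 1)) ^ 3 * K.j ^ 2 + (X.b1 / (X.a ^ 2 - 1)) ^ 3 * K.j +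
              (X.e1 / (X.a ^ 2 - 1)) ^ 3) / K.j ^ 3
            hA := X.hA
            hla := X.hla
            ha := X.ha
            hy := K.Z.div_mem X.hb hwZ
            ha2 := K.Z.div_mem X.ha1 hwZ
            hb2 := K.Z.div_mem X.hb1 hwZ
            he2 := K.Z.div_mem X.he1 hwZ
            A0 := X.A0
            Dl0 := hDl0
            hDl := by field_simp
            la0 := X.la0
            la1 := X.la1
            a0 := ha0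
            asq := hasq
            eqn := ?_
            crit := ?_ }⟩
  · rw [mul_assoc ((X.a ^ 3 - X.a) * K.j ^ 2 / (K.j ^ 2 - 1)), E5_log K hDl0 X.A0, E5_PDl]
    have h := X.eqn
    generalize hPA : K.P X.A / X.A = u at h ⊢
    have key : (X.b / (X.a ^ 2 - 1)) ^ 2 - 1 + (X.a ^ 3 - X.a) / K.j * (X.b / (X.a ^ 2 - 1)) ^ 3 +
        X.la * (1 - X.la) * ((X.b1 / (X.a ^ 2 - 1)) ^ 2 - X.a1 / (X.a ^ 2 - 1) * (X.e1 / (X.a ^ 2 - 1)) +
        (X.a ^ 3 - X.a) * K.j ^ 2 / (K.j ^ 2 - 1) *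
          ((1 - 2 * X.la) * ((K.j ^ 2 - 1) * (2 * (X.a1 / (X.a ^ 2 - 1)) ^ 3 / K.j ^ 2 +
            (X.b1 / (X.a ^ 2 - 1)) ^ 3 / K.j ^ 3)) +
            ((X.a1 / (X.a ^ 2 - 1)) ^ 3 * K.j ^ 2 + (X.b1 / (X.a ^ 2 - 1)) ^ 3 * K.j +
              (X.e1 / (X.a ^ 2 - 1)) ^ 3) / K.j ^ 3 * u)) =
        (X.b ^ 2 - (X.a ^ 2 - 1) ^ 2 + X.a * X.b ^ 3 / K.j + X.la * (1 - X.la) * (X.b1 ^ 2 - X.a1 * X.e1 -
          X.a * ((1 - 2 * X.la) * (X.a1 ^ 3 - X.b1 ^ 3 / K.j) -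
            (X.a1 ^ 3 * K.j ^ 2 + X.b1 ^ 3 * K.j + X.e1 ^ 3) / (K.j ^ 2 - 1) * u / K.j))) / (X.a ^ 2 - 1) ^ 2 +
        3 * (X.la * (1 - X.la) * X.a * (1 - 2 * X.la) * X.a1 ^ 3 / (X.a ^ 2 - 1) ^ 2) := by
      field_simp
      ring
    rw [key, h, h3]
    simp
  · intro L hL hV hjL hla haL hy ha2 hb2 he2 hg
    have hwL : X.a ^ 2 - 1 ∈ L := _root_.sub_mem (_root_.pow_mem haL 2) (OneMemClass.one_mem L)
    have hm : ∀ x : R, x / (X.a ^ 2 - 1) ∈ L → x ∈ L := by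
      intro x hx
      have h1 := L.mul_mem hx hwL
      rwa [div_mul_cancel₀ _ hw] at h1
    exact X.crit L hL hV hjL hla haL (hm _ hy) (hm _ ha2) (hm _ hb2) (hm _ he2) hg

end CZT
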