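import Pool.Agent.CZT.E6

/-!
# CZT-E7: stage 7

`sg = j s (1 - la)/B1`, `pi = - j s la/B2`, `B1 = i + d1³`, `B2 = i - (al - d2)³`, `i = j - ka³`.  The equation follows by multiplying the
equation of stage 6 out; conversely `s = (sg B1 - pi B2)/j`, `la = - pi B2/(j s)`.
-/

namespace CZT

open IntermediateField

universe u v

variable {F : Type u} {R : Type v} [Field F] [Field R] [Algebra F R] [CharP R 3] (K : Ctx F R)

private theorem E7_eqn {y a j la s i A2 B1 B2 N D1 D2 : R} (hj : j ≠ 0) (h1 : B1 ≠ 0) (h2 : B2 ≠ 0)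
    (h : y ^ 2 - 1 + (a ^ 3 - a) / j * y ^ 3 + la * (1 - la) * s ^ 2 * j ^ 2 *
      (N / (B1 * B2) - (a ^ 3 - a) * s * ((1 - la) * (A2 * D1 / (B1 ^ 2 * B2)) - la * (i * D2 / (B1 * B2 ^ 2)))) = 0) :
    (a ^ 3 - a) / j * y ^ 3 + y ^ 2 - 1 = j * s * (1 - la) / B1 * (-(j * s * la) / B2) * (N -
      (a ^ 3 - a) / j * (j * s * (1 - la) / B1 * A2 * D1 + -(j * s * la) / B2 * i * D2)) := by
  have h3 : j * s * (1 - la) / B1 * (-(j * s * la) / B2) * (N -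
      (a ^ 3 - a) / j * (j * s * (1 - la) / B1 * A2 * D1 + -(j * s * la) / B2 * i * D2)) =
      -(la * (1 - la) * s ^ 2 * j ^ 2 *
      (N / (B1 * B2) - (a ^ 3 - a) * s * ((1 - la) * (A2 * D1 / (B1 ^ 2 * B2)) - la * (i * D2 / (B1 * B2 ^ 2))))) := by
    field_simp
    ring
  rw [h3]
  linear_combination h

theorem exists_St7 (X : St6 K) : Nonempty (St7 K) := by
  have hj := K.j0
  have hjZ := K.jZ
  have h1la : 1 - X.la ≠ 0 := sub_ne_zero.2 (Ne.symm X.la1)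
  have hB1Z : ∀ L : IntermediateField F R, K.j ∈ L → X.ka ∈ L → X.d1 ∈ L → K.j - X.ka ^ 3 + X.d1 ^ 3 ∈ L :=
    fun L h1 h2 h3 => add_mem (sub_mem h1 (pow_mem h2 3)) (pow_mem h3 3)
  have hB2Z : ∀ L : IntermediateField F R, K.j ∈ L → X.ka ∈ L → X.al ∈ L → X.d2 ∈ L →
      K.j - X.ka ^ 3 - (X.al - X.d2) ^ 3 ∈ L :=
    fun L h1 h2 h3 h4 => sub_mem (sub_mem h1 (pow_mem h2 3)) (pow_mem (sub_mem h3 h4) 3)
  refine ⟨⟨X.a, X.y, X.ka, X.d1, X.al, X.d2, K.j * X.s * (1 - X.la) / (K.j - X.ka ^ 3 + X.d1 ^ 3),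
    -(K.j * X.s * X.la) / (K.j - X.ka ^ 3 - (X.al - X.d2) ^ 3), X.ha, X.hy, X.hka, X.hd1, X.hal, X.hd2, ?_, ?_, X.a0, X.asq, X.d10,
    X.d20, ?_, ?_, X.i0, X.A2, ?_, ?_⟩⟩
  · exact div_mem (mul_mem (mul_mem hjZ X.hs) (sub_mem (one_mem _) X.hla)) (hB1Z _ hjZ X.hka X.hd1)
  · exact div_mem (neg_mem (mul_mem (mul_mem hjZ X.hs) X.hla)) (hB2Z _ hjZ X.hka X.hal X.hd2)
  · exact div_ne_zero (mul_ne_zero (mul_ne_zero hj X.s0) h1la) X.B1
  · exact div_ne_zero (neg_ne_zero.2 (mul_ne_zero (mul_ne_zero hj X.s0) X.la0)) X.B2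
  · exact E7_eqn hj X.B1 X.B2 X.eqn
  · intro L hLZ hV hjL haL hyL hkaL hd1L halL hd2L hsgL hpiL
    have hs : X.s ∈ L := by
      have h1 : X.s = (K.j * X.s * (1 - X.la) / (K.j - X.ka ^ 3 + X.d1 ^ 3) * (K.j - X.ka ^ 3 + X.d1 ^ 3) -
          -(K.j * X.s * X.la) / (K.j - X.ka ^ 3 - (X.al - X.d2) ^ 3) * (K.j - X.ka ^ 3 - (X.al - X.d2) ^ 3)) / K.j := by
        rw [div_mul_cancel₀ _ X.B1, div_mul_cancel₀ _ X.B2]
        field_simp
        ring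
      rw [h1]
      exact div_mem (sub_mem (mul_mem hsgL (hB1Z L hjL hkaL hd1L)) (mul_mem hpiL (hB2Z L hjL hkaL halL hd2L))) hjL
    have hla : X.la ∈ L := by
      have h1 : X.la = -(-(K.j * X.s * X.la) / (K.j - X.ka ^ 3 - (X.al - X.d2) ^ 3) *
          (K.j - X.ka ^ 3 - (X.al - X.d2) ^ 3)) / (K.j * X.s) := by
        rw [div_mul_cancel₀ _ X.B2, neg_neg, eq_div_iff (mul_ne_zero hj X.s0)]
        ring
      rw [h1]
      exact div_mem (neg_mem (mul_mem hpiL (hB2Z L hjL hkaL halL hd2L))) (mul_mem hjL hs)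
    exact X.crit L hLZ hV hjL hla hs haL hyL hkaL hd1L halL hd2L

end CZT
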