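import Pool.Agent.CZT.E8a

/-!
# CZT-E8: the eight generators

Plan.  `φ = (a³ - a)/j`, `S = 1 - φ sg d1²`, `Rr = 1 - φ pi d2²`, `C = φ y³ + y² - 1`, `X = d2/(S d1)`, `i = j - ka³`.  `T = ![j, ka, a, y, d1, al, X, Rr]`, `L = GV K T ≤ Z`.
`key`: `(i - al³)(1 + X Rr) = X (C φ² d1³ X/(1 - Rr) * (S/(1 - S)) - al² d1 - al³ Rr)`: from `X.eqn`, which says
`i (d1 S + d2 Rr) = C/(sg pi) + al³ d1 S - al² d1 d2`, `1/(sg pi) = φ² d1² d2²/((1 - S)(1 - Rr))`, `d2 = S d1 X`, divide by `d1 S`.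
So `s' = S/(1 - S) ∈ L` (`C, φ, d1, X ≠ 0`), `S = s'/(1 + s') ∈ L` (`1 + s' = 1/(1-S)`), `d2 = S d1 X`, `sg = (1 - S)/(φ d1²)`, `pi = (1 - Rr)/(φ d2²)` are in `L`, and `X.crit` gives `L = Z`.
-/

namespace CZT

open IntermediateField

universe u v

variable {F : Type u} {R : Type v} [Field F] [Field R] [Algebra F R] [CharP R 3] (K : Ctx F R)

theorem key {i j al d1 d2 sg pi a y φ S Rr C X : R} (hj : j ≠ 0) (hφ : φ = (a ^ 3 - a) / j) (hφ0 : φ ≠ 0)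
    (hS : S = 1 - φ * sg * d1 ^ 2) (hR : Rr = 1 - φ * pi * d2 ^ 2) (hC : C = φ * y ^ 3 + y ^ 2 - 1)
    (hX : X = d2 / (S * d1)) (hd1 : d1 ≠ 0) (hd2 : d2 ≠ 0) (hsg : sg ≠ 0) (hpi : pi ≠ 0) (hS0 : S ≠ 0)
    (h : φ * y ^ 3 + y ^ 2 - 1 = sg * pi * (i * (d1 + d2) - al ^ 2 * d1 * (al - d2) -
      φ * (sg * (i - al ^ 3) * d1 ^ 3 + pi * i * d2 ^ 3))) :
    (i - al ^ 3) * (1 + X * Rr) = X * (C * φ ^ 2 * d1 ^ 3 * X / (1 - Rr) * (S / (1 - S)) - al ^ 2 * d1 - al ^ 3 * Rr) := by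
  have h1 : 1 - S = φ * sg * d1 ^ 2 := by rw [hS]; ring
  have h2 : 1 - Rr = φ * pi * d2 ^ 2 := by rw [hR]; ring
  have hS' : φ * sg * d1 ^ 2 = 1 - S := h1.symm
  have h1n : 1 - S ≠ 0 := by rw [h1]; exact mul_ne_zero (mul_ne_zero hφ0 hsg) (pow_ne_zero 2 hd1)
  have h2n : 1 - Rr ≠ 0 := by rw [h2]; exact mul_ne_zero (mul_ne_zero hφ0 hpi) (pow_ne_zero 2 hd2)
  have hXd : d2 = S * d1 * X := by rw [hX]; field_simp
  have hmain : C = sg * pi * (S * (i - al ^ 3) * d1 + al ^ 2 * d1 * d2 + i * d2 * Rr) := by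
    rw [hC, h, hS, hR]; ring
  have hinv : C * φ ^ 2 * d1 ^ 3 * X / (1 - Rr) * (S / (1 - S)) * d2 =
      S * (i - al ^ 3) * d1 + al ^ 2 * d1 * d2 + i * d2 * Rr := by
    have h3 : C * φ ^ 2 * d1 ^ 3 * X / (1 - Rr) * (S / (1 - S)) * d2 =
        C * φ ^ 2 * d1 ^ 2 * d2 * (S * d1 * X) / ((1 - Rr) * (1 - S)) := by
      field_simp
    rw [h3, ← hXd, h1, h2, hmain]
    field_simp
  have hprod : S * d1 ≠ 0 := mul_ne_zero hS0 hd1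
  apply mul_left_cancel₀ hprod
  have e1 : S * d1 * ((i - al ^ 3) * (1 + X * Rr)) = (i - al ^ 3) * (S * d1 + S * d1 * X * Rr) := by ring
  have e2 : S * d1 * (X * (C * φ ^ 2 * d1 ^ 3 * X / (1 - Rr) * (S / (1 - S)) - al ^ 2 * d1 - al ^ 3 * Rr)) =
      C * φ ^ 2 * d1 ^ 3 * X / (1 - Rr) * (S / (1 - S)) * (S * d1 * X) - (al ^ 2 * d1 + al ^ 3 * Rr) * (S * d1 * X) := by
    ring
  rw [e1, e2, ← hXd, hinv]
  ring

theorem eight (X : St7 K) : ∃ T : Fin 8 → R, (∀ i, T i ∈ K.Z) ∧ K.Z = adjoin F (K.V ∪ Set.range T) := by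
  obtain ⟨φ, hφ⟩ : ∃ φ, φ = (X.a ^ 3 - X.a) / K.j := ⟨_, rfl⟩
  obtain ⟨S, hS⟩ : ∃ S, S = 1 - φ * X.sg * X.d1 ^ 2 := ⟨_, rfl⟩
  obtain ⟨Rr, hR⟩ : ∃ Rr, Rr = 1 - φ * X.pi * X.d2 ^ 2 := ⟨_, rfl⟩
  obtain ⟨C, hC⟩ : ∃ C, C = φ * X.y ^ 3 + X.y ^ 2 - 1 := ⟨_, rfl⟩
  obtain ⟨W, hW⟩ : ∃ W, W = X.d2 / (S * X.d1) := ⟨_, rfl⟩
  have hj := K.j0
  have hφ0 : φ ≠ 0 := by
    rw [hφ]
    refine div_ne_zero ?_ hj
    have h1 : X.a ^ 3 - X.a = X.a * (X.a ^ 2 - 1) := by ring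
    rw [h1]
    exact mul_ne_zero X.a0 (sub_ne_zero.2 X.asq)
  have hS0 : S ≠ 0 := by rw [hS, hφ]; exact S_ne K X
  have hC0 : C ≠ 0 := by rw [hC, hφ]; exact C_ne K X
  have hW0 : W ≠ 0 := by rw [hW]; exact div_ne_zero X.d20 (mul_ne_zero hS0 X.d10)
  have h1 : 1 - S = φ * X.sg * X.d1 ^ 2 := by rw [hS]; ring
  have h2 : 1 - Rr = φ * X.pi * X.d2 ^ 2 := by rw [hR]; ring
  have h1n : 1 - S ≠ 0 := by
    rw [h1]; exact mul_ne_zero (mul_ne_zero hφ0 X.sg0) (pow_ne_zero 2 X.d10)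
  have h2n : 1 - Rr ≠ 0 := by
    rw [h2]; exact mul_ne_zero (mul_ne_zero hφ0 X.pi0) (pow_ne_zero 2 X.d20)
  have hk := key (i := K.j - X.ka ^ 3) (al := X.al) (y := X.y) hj hφ hφ0 hS hR hC hW X.d10 X.d20 X.sg0 X.pi0 hS0
    (by rw [hφ]; exact X.eqn)
  -- membership in `Z`
  have zj := K.jZ
  have za := X.ha
  have zφ : φ ∈ K.Z := by rw [hφ]; exact div_mem (sub_mem (pow_mem za 3) za) zj
  have zS : S ∈ K.Z := by
    rw [hS]; exact sub_mem (one_mem _) (mul_mem (mul_mem zφ X.hsg) (pow_mem X.hd1 2))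
  have zR : Rr ∈ K.Z := by
    rw [hR]; exact sub_mem (one_mem _) (mul_mem (mul_mem zφ X.hpi) (pow_mem X.hd2 2))
  have zW : W ∈ K.Z := by rw [hW]; exact div_mem X.hd2 (mul_mem zS X.hd1)
  let T : Fin 8 → R := ![K.j, X.ka, X.a, X.y, X.d1, X.al, W, Rr]
  have hT : ∀ i, T i ∈ K.Z := by
    intro i
    fin_cases i
    · exact zj
    · exact X.hka
    · exact za
    · exact X.hy
    · exact X.hd1
    · exact X.hal
    · exact zW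
    · exact zR
  refine ⟨T, hT, ?_⟩
  have hle : GV K T ≤ K.Z := GV_le K T hT
  have lj : K.j ∈ GV K T := GV_T K T 0
  have lka : X.ka ∈ GV K T := GV_T K T 1
  have la : X.a ∈ GV K T := GV_T K T 2
  have ly : X.y ∈ GV K T := GV_T K T 3
  have ld1 : X.d1 ∈ GV K T := GV_T K T 4
  have lal : X.al ∈ GV K T := GV_T K T 5
  have lW : W ∈ GV K T := GV_T K T 6
  have lR : Rr ∈ GV K T := GV_T K T 7
  have lφ : φ ∈ GV K T := by rw [hφ]; exact div_mem (sub_mem (pow_mem la 3) la) lj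
  have lC : C ∈ GV K T := by
    rw [hC]
    exact sub_mem (add_mem (mul_mem lφ (pow_mem ly 3)) (pow_mem ly 2)) (one_mem _)
  have li : K.j - X.ka ^ 3 ∈ GV K T := sub_mem lj (pow_mem lka 3)
  obtain ⟨s, hs⟩ : ∃ s, s = S / (1 - S) := ⟨_, rfl⟩
  rw [← hs] at hk
  have hsv : s = (((K.j - X.ka ^ 3) - X.al ^ 3) * (1 + W * Rr) / W + X.al ^ 2 * X.d1 + X.al ^ 3 * Rr) * (1 - Rr) /
      (C * φ ^ 2 * X.d1 ^ 3 * W) := by
    have hd1 := X.d10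
    rw [hk, mul_div_cancel_left₀ _ hW0]
    have e : C * φ ^ 2 * X.d1 ^ 3 * W / (1 - Rr) * s - X.al ^ 2 * X.d1 - X.al ^ 3 * Rr + X.al ^ 2 * X.d1 + X.al ^ 3 * Rr =
      C * φ ^ 2 * X.d1 ^ 3 * W / (1 - Rr) * s := by ring
    rw [e]
    field_simp
  have ls : s ∈ GV K T := by
    rw [hsv]
    refine div_mem (mul_mem (add_mem (add_mem (div_mem (mul_mem (sub_mem li (pow_mem lal 3))
      (add_mem (one_mem _) (mul_mem lW lR))) lW) (mul_mem (pow_mem lal 2) ld1)) (mul_mem (pow_mem lal 3) lR))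
      (sub_mem (one_mem _) lR)) ?_
    exact mul_mem (mul_mem (mul_mem lC (pow_mem lφ 2)) (pow_mem ld1 3)) lW
  have hSs : S = s / (1 + s) := by
    have e : 1 + s = 1 / (1 - S) := by rw [hs]; field_simp; ring
    rw [e, hs]
    field_simp
  have lS : S ∈ GV K T := by rw [hSs]; exact div_mem ls (add_mem (one_mem _) ls)
  have hd2 : X.d2 = S * X.d1 * W := by
    have hd1 := X.d10
    rw [hW]; field_simp
  have ld2 : X.d2 ∈ GV K T := by rw [hd2]; exact mul_mem (mul_mem lS ld1) lW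
  have hsg : X.sg = (1 - S) / (φ * X.d1 ^ 2) := by
    have hd1 := X.d10
    rw [h1]; field_simp
  have lsg : X.sg ∈ GV K T := by
    rw [hsg]; exact div_mem (sub_mem (one_mem _) lS) (mul_mem lφ (pow_mem ld1 2))
  have hpi : X.pi = (1 - Rr) / (φ * X.d2 ^ 2) := by
    have hd2' := X.d20
    rw [h2]; field_simp
  have lpi : X.pi ∈ GV K T := by
    rw [hpi]; exact div_mem (sub_mem (one_mem _) lR) (mul_mem lφ (pow_mem ld2 2))
  exact (X.crit (GV K T) hle (GV_V K T) lj la ly lka ld1 lal ld2 lsg lpi).symm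

end CZT
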