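import Pool.Agent.CZT.E4
import Pool.Agent.CZT.E5
import Pool.Agent.CZT.E7
import Pool.Agent.CZT.E8

/-!
# CZT-Efin: PART 5
-/

namespace CZT

open IntermediateField

universe u v

theorem part5 {F : Type u} {R : Type v} [Field F] [Field R] [Algebra F R] [CharP R 3] (K : Ctx F R) :
    ∃ T : Fin 8 → R, (∀ i, T i ∈ K.Z) ∧ K.Z = adjoin F (K.V ∪ Set.range T) := by
  obtain ⟨X1⟩ := exists_St1 K
  obtain ⟨X2⟩ := exists_St2 K X1
  obtain ⟨X3⟩ := exists_St3 K X2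
  obtain ⟨X4⟩ := exists_St4 K X3
  obtain ⟨X5⟩ := exists_St5 K X4
  obtain ⟨X6⟩ := exists_St6 K X5
  obtain ⟨X7⟩ := exists_St7 K X6
  exact eight K X7

end CZT
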