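import Pool.Agent.CPZ.Mod

/-!
# CZT/Tr: transport of the rationality of `ZH F` to every model
-/

set_option autoImplicit false

namespace CZT

open IntermediateField CPZ CPZ.St

universe u v

variable {F : Type u} {Ω : Type v} [Field F] [Field Ω] [Algebra F Ω]

theorem rat_map {R : Type u} [Field R] [Algebra F R] (ψ : R →ₐ[F] Ω) (K : IntermediateField F R) {n : ℕ}
    (h : CPZ.Rat F K n) : St.Rat F (K.map ψ) n := by
  obtain ⟨e⟩ := h
  exact ⟨(K.equivMap ψ).symm.trans e⟩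

theorem rat_model (h82 : CPZ.Rat F (ZH F) 82) (x : P9 → Ω) (y : P9 → P9 → Ω) (act : P9 → (Ω ≃ₐ[F] Ω))
    (h : IsModel F Ω x y act) : St.Rat F (FixIn (St.FM F x y) (Set.range act)) 82 := by
  obtain ⟨φ, hx, hy, hact⟩ := exists_iso x y act h
  let ψ : CPZ.FM F →ₐ[F] Ω := φ.toAlgHom.comp (CPZ.FM F).val
  have hψ : ∀ a : CPZ.FM F, ψ a = φ (a : KK F) := fun a => rfl
  have hM : ∀ r : Ω, r ∈ St.FM F x y ↔ ∃ a : CPZ.FM F, ψ a = r := by
    intro r
    rw [← map_FM φ x y hx hy]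
    constructor
    · rintro ⟨a, ha, rfl⟩
      exact ⟨⟨a, ha⟩, rfl⟩
    · rintro ⟨a, rfl⟩
      exact ⟨a, a.2, rfl⟩
  have hZ : (ZH F).map ψ = FixIn (St.FM F x y) (Set.range act) := by
    ext r
    constructor
    · rintro ⟨a, ha, rfl⟩
      refine ⟨(hM _).2 ⟨a, rfl⟩, ?_⟩
      rintro _ ⟨g, rfl⟩
      show act g (φ a) = φ a
      rw [← hact, ha g]
    · rintro ⟨h1, h2⟩
      obtain ⟨a, rfl⟩ := (hM r).1 h1
      refine ⟨a, fun g => ?_, rfl⟩
      have h3 := h2 (act g) ⟨g, rfl⟩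
      rw [hψ, ← hact] at h3
      exact φ.injective h3
  rw [← hZ]
  exact rat_map ψ (ZH F) h82

end CZT
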