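import Pool.Agent.CZT.C1
import Pool.Agent.CZT.D1
import Pool.Agent.CZT.Efin
import Pool.Agent.CZT.Tr

/-!
# CZT/C2: the final assembly
-/

set_option autoImplicit false

namespace CZT

open IntermediateField

universe u v

theorem rat_AS {F : Type u} {R : Type v} [Field F] [Field R] [Algebra F R] [CharP R 3] (A : AS F R) :
    CPZ.Rat F (CPZ.Fx {A.σ, A.τ}) 82 := by
  obtain ⟨v, K, hZ, hV⟩ := exists_ctx A
  obtain ⟨T, -, hT⟩ := part5 K
  refine CPZ.rat_of_gens (n := 82) _ (Fin.append v T : Fin (74 + 8) → R) ?_ (fun r => alg_Z r) A.trd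
  have h1 : Set.range (Fin.append v T) = Set.range v ∪ Set.range T := by
    ext r
    constructor
    · rintro ⟨i, rfl⟩
      refine Fin.addCases (fun i => ?_) (fun i => ?_) i
      · rw [Fin.append_left]
        exact Or.inl ⟨i, rfl⟩
      · rw [Fin.append_right]
        exact Or.inr ⟨i, rfl⟩
    · rintro (⟨i, rfl⟩ | ⟨i, rfl⟩)
      · exact ⟨Fin.castAdd _ i, Fin.append_left _ _ _⟩
      · exact ⟨Fin.natAdd _ i, Fin.append_right _ _ _⟩
  rw [h1, ← hV, ← hT, hZ]
  rfl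

theorem rat_ZH (F : Type u) [Field F] [CharP F 3] : CPZ.Rat F (CPZ.ZH F) 82 := by
  have : CharP (CPZ.FM F) 3 := charP_of_injective_algebraMap (algebraMap F (CPZ.FM F)).injective 3
  obtain ⟨D, hD, -⟩ := CPZ.con_datum F
  obtain ⟨A, h1, h2⟩ := exists_AS D
  rw [← hD, ← h1, ← h2]
  exact rat_AS A

open CPZ.St in
theorem main {F : Type u} {Ω : Type v} [Field F] [CharP F 3] [Field Ω] [Algebra F Ω] (x : P9 → Ω) (y : P9 → P9 → Ω)
    (act : P9 → (Ω ≃ₐ[F] Ω)) (h : IsModel F Ω x y act) : Rat F (FixIn (FM F x y) (Set.range act)) 82 :=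
  rat_model (rat_ZH F) x y act h

end CZT
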