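import Pool.Agent.CZT.Bf

/-!
# CZT/CDefs (MP_0e1fc4_al, characteristic 3): the abstract context of PART 5 and its seven stages

`Bf L j n` is the subfield generated by the cubes of `L` and `j, n`; `Cf L j` the subfield generated by the cubes of `L` and `j` (`CZT/Bf.lean`).
-/

set_option autoImplicit false

namespace CZT

open IntermediateField

universe u v

/-- the cube root (if it exists) -/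
noncomputable def cr {R : Type v} [Field R] (f : R) : R := by
  classical exact if h : ∃ g : R, g ^ 3 = f then h.choose else 0

/-- `p f` with `(p f) ^ 3 = f - P (P f)` -/
noncomputable def pp {F : Type u} {R : Type v} [Field F] [Field R] [Algebra F R] (P : Derivation F R R) (f : R) : R :=
  cr (f - P (P f))

/-- the context of PART 5 -/
structure Ctx (F : Type u) (R : Type v) [Field F] [Field R] [Algebra F R] where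
  Z : IntermediateField F R
  P : Derivation F R R
  Q : Derivation F R R
  j : R
  n : R
  H : R
  V : Set R
  jZ : j ∈ Z
  nZ : n ∈ Z
  VZ : V ⊆ (Z : Set R)
  j0 : j ≠ 0
  j1 : j ^ 2 ≠ 1
  Pj : P j = j ^ 2 - 1
  Pn : P n = 0
  Qj : Q j = (n + 1) / j ^ 3 * (j ^ 2 - 1)
  Qn : Q n = n ^ 2 - 1
  ind : ∀ f : Fin 3 → Fin 3 → R, ∑ a, ∑ b, f a b ^ 3 * j ^ (a : ℕ) * n ^ (b : ℕ) = 0 → ∀ a b, f a b = 0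
  H0 : H ≠ 0
  HB : H ∈ Bf Z j n
  cube : ∃ z ∈ Z, Q H / H - P (P (Q H / H)) = z ^ 3
  crit : ∀ L : IntermediateField F R, L ≤ Z → V ⊆ (L : Set R) → j ∈ L → n ∈ L →
    (∃ g ∈ Z, g ≠ 0 ∧ g ^ 3 * H ∈ Bf L j n) → L = Z
  dim : ∀ T : Finset R, (∀ r ∈ Z, IsAlgebraic (adjoin F (V ∪ (T : Set R))) r) → 8 ≤ T.card

section

variable {F : Type u} {R : Type v} [Field F] [Field R] [Algebra F R]

/-- `C_Z` -/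
abbrev Ctx.C (K : Ctx F R) : Subfield R := Cf K.Z K.j

/-- `p` -/
noncomputable abbrev Ctx.p (K : Ctx F R) (f : R) : R := pp K.P f

/-- stage 1: `H = A (n - S1)/(n - S2)` -/
structure St1 (K : Ctx F R) where
  A : R
  S1 : R
  S2 : R
  hA : A ∈ K.C
  hS1 : S1 ∈ K.C
  hS2 : S2 ∈ K.C
  A0 : A ≠ 0
  S12 : S1 ≠ S2
  n1 : K.n - S1 ≠ 0
  n2 : K.n - S2 ≠ 0
  hH : K.H = A * (K.n - S1) / (K.n - S2)

/-- stage 2: the two equations -/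
structure St2 (K : Ctx F R) extends St1 K where
  eqI : (K.p (S1 ^ 2) - 1) / (K.n - S1) = (K.p (S2 ^ 2) - 1) / (K.n - S2)
  eqII : K.P A / A / K.j + (S1 - K.p S1 - K.P S1 / K.j) / (K.n - S1) - (S2 - K.p S2 - K.P S2 / K.j) / (K.n - S2) = 0

/-- stage 3: the coordinates `la`, `M`, `d` -/
structure St3 (K : Ctx F R) where
  A : R
  la : R
  M : R
  d : R
  hA : A ∈ K.C
  hla : la ∈ K.Z
  hM : M ∈ K.C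
  hd : d ∈ K.C
  A0 : A ≠ 0
  d0 : d ≠ 0
  la0 : la ≠ 0
  la1 : la ≠ 1
  eqI : K.p (M ^ 2) + la * (1 - la) * K.p (d ^ 2) = 1
  eqII : M - K.p M - K.P M / K.j + la * (1 - la) * (1 - 2 * la) * (d - K.P d / K.j) -
    la * (1 - la) * d * (K.P A / A) / K.j = 0
  crit : ∀ L : IntermediateField F R, L ≤ K.Z → K.V ⊆ (L : Set R) → K.j ∈ L → la ∈ L → M ∈ Cf L K.j → d ∈ Cf L K.j →
    (∃ g ∈ K.Z, g ≠ 0 ∧ g ^ 3 * A ∈ Cf L K.j) → L = K.Z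

/-- stage 4: the coordinates of `M` and `d`, `e` eliminated -/
structure St4 (K : Ctx F R) where
  A : R
  la : R
  a : R
  b : R
  a1 : R
  b1 : R
  e1 : R
  hA : A ∈ K.C
  hla : la ∈ K.Z
  ha : a ∈ K.Z
  hb : b ∈ K.Z
  ha1 : a1 ∈ K.Z
  hb1 : b1 ∈ K.Z
  he1 : e1 ∈ K.Z
  A0 : A ≠ 0
  d0 : a1 ^ 3 * K.j ^ 2 + b1 ^ 3 * K.j + e1 ^ 3 ≠ 0
  la0 : la ≠ 0
  la1 : la ≠ 1
  eqn : b ^ 2 - (a ^ 2 - 1) ^ 2 + a * b ^ 3 / K.j + la * (1 - la) * (b1 ^ 2 - a1 * e1 -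
    a * ((1 - 2 * la) * (a1 ^ 3 - b1 ^ 3 / K.j) -
      (a1 ^ 3 * K.j ^ 2 + b1 ^ 3 * K.j + e1 ^ 3) / (K.j ^ 2 - 1) * (K.P A / A) / K.j)) = 0
  crit : ∀ L : IntermediateField F R, L ≤ K.Z → K.V ⊆ (L : Set R) → K.j ∈ L → la ∈ L → a ∈ L → b ∈ L → a1 ∈ L →
    b1 ∈ L → e1 ∈ L → (∃ g ∈ K.Z, g ≠ 0 ∧ g ^ 3 * A ∈ Cf L K.j) → L = K.Z

/-- stage 5: `y = b/(a²-1)`, `Dl` -/
structure St5 (K : Ctx F R) where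
  A : R
  la : R
  a : R
  y : R
  a2 : R
  b2 : R
  e2 : R
  Dl : R
  hA : A ∈ K.C
  hla : la ∈ K.Z
  ha : a ∈ K.Z
  hy : y ∈ K.Z
  ha2 : a2 ∈ K.Z
  hb2 : b2 ∈ K.Z
  he2 : e2 ∈ K.Z
  A0 : A ≠ 0
  Dl0 : Dl ≠ 0
  hDl : K.j ^ 3 * Dl = a2 ^ 3 * K.j ^ 2 + b2 ^ 3 * K.j + e2 ^ 3
  la0 : la ≠ 0
  la1 : la ≠ 1
  a0 : a ≠ 0
  asq : a ^ 2 ≠ 1
  eqn : y ^ 2 - 1 + (a ^ 3 - a) / K.j * y ^ 3 + la * (1 - la) * (b2 ^ 2 - a2 * e2 +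
    (a ^ 3 - a) * K.j ^ 2 / (K.j ^ 2 - 1) * Dl * ((1 - la) * (K.P (Dl * A) / (Dl * A)) -
      la * (K.P (Dl / A) / (Dl / A)))) = 0
  crit : ∀ L : IntermediateField F R, L ≤ K.Z → K.V ⊆ (L : Set R) → K.j ∈ L → la ∈ L → a ∈ L → y ∈ L → a2 ∈ L →
    b2 ∈ L → e2 ∈ L → (∃ g ∈ K.Z, g ≠ 0 ∧ g ^ 3 * A ∈ Cf L K.j) → L = K.Z

/-- stage 6: the Möbius coordinates.  `i = j - ka³`, `B1 = i + d1³`, `A2 = i - al³`, `B2 = i - (al - d2)³` -/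
structure St6 (K : Ctx F R) where
  la : R
  s : R
  a : R
  y : R
  ka : R
  d1 : R
  al : R
  d2 : R
  hla : la ∈ K.Z
  hs : s ∈ K.Z
  ha : a ∈ K.Z
  hy : y ∈ K.Z
  hka : ka ∈ K.Z
  hd1 : d1 ∈ K.Z
  hal : al ∈ K.Z
  hd2 : d2 ∈ K.Z
  la0 : la ≠ 0
  la1 : la ≠ 1
  s0 : s ≠ 0
  a0 : a ≠ 0
  asq : a ^ 2 ≠ 1
  d10 : d1 ≠ 0
  d20 : d2 ≠ 0
  i0 : K.j - ka ^ 3 ≠ 0
  B1 : K.j - ka ^ 3 + d1 ^ 3 ≠ 0
  A2 : K.j - ka ^ 3 - al ^ 3 ≠ 0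
  B2 : K.j - ka ^ 3 - (al - d2) ^ 3 ≠ 0
  eqn : y ^ 2 - 1 + (a ^ 3 - a) / K.j * y ^ 3 + la * (1 - la) * s ^ 2 * K.j ^ 2 *
    (((K.j - ka ^ 3) * (d1 + d2) - al ^ 2 * d1 * (al - d2)) /
        ((K.j - ka ^ 3 + d1 ^ 3) * (K.j - ka ^ 3 - (al - d2) ^ 3)) -
      (a ^ 3 - a) * s * ((1 - la) * ((K.j - ka ^ 3 - al ^ 3) * d1 ^ 3 /
          ((K.j - ka ^ 3 + d1 ^ 3) ^ 2 * (K.j - ka ^ 3 - (al - d2) ^ 3))) -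
        la * ((K.j - ka ^ 3) * d2 ^ 3 /
          ((K.j - ka ^ 3 + d1 ^ 3) * (K.j - ka ^ 3 - (al - d2) ^ 3) ^ 2)))) = 0
  crit : ∀ L : IntermediateField F R, L ≤ K.Z → K.V ⊆ (L : Set R) → K.j ∈ L → la ∈ L → s ∈ L → a ∈ L → y ∈ L →
    ka ∈ L → d1 ∈ L → al ∈ L → d2 ∈ L → L = K.Z

/-- stage 7: equation (E).  `i = j - ka³`, `A2 = i - al³` -/
structure St7 (K : Ctx F R) where
  a : R
  y : R
  ka : R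
  d1 : R
  al : R
  d2 : R
  sg : R
  pi : R
  ha : a ∈ K.Z
  hy : y ∈ K.Z
  hka : ka ∈ K.Z
  hd1 : d1 ∈ K.Z
  hal : al ∈ K.Z
  hd2 : d2 ∈ K.Z
  hsg : sg ∈ K.Z
  hpi : pi ∈ K.Z
  a0 : a ≠ 0
  asq : a ^ 2 ≠ 1
  d10 : d1 ≠ 0
  d20 : d2 ≠ 0
  sg0 : sg ≠ 0
  pi0 : pi ≠ 0
  i0 : K.j - ka ^ 3 ≠ 0
  A2 : K.j - ka ^ 3 - al ^ 3 ≠ 0
  eqn : (a ^ 3 - a) / K.j * y ^ 3 + y ^ 2 - 1 = sg * pi * ((K.j - ka ^ 3) * (d1 + d2) - al ^ 2 * d1 * (al - d2) -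
    (a ^ 3 - a) / K.j * (sg * (K.j - ka ^ 3 - al ^ 3) * d1 ^ 3 + pi * (K.j - ka ^ 3) * d2 ^ 3))
  crit : ∀ L : IntermediateField F R, L ≤ K.Z → K.V ⊆ (L : Set R) → K.j ∈ L → a ∈ L → y ∈ L → ka ∈ L → d1 ∈ L →
    al ∈ L → d2 ∈ L → sg ∈ L → pi ∈ L → L = K.Z

end

end CZT
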