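import Pool.Agent.CPZ.Defs

/-!
# CZT (MP_0e1fc4_al): the centre of the generic `C₃ × C₃`-crossed product in characteristic 3.  Definitions.

`AS F R`: a field `R` with two commuting automorphisms `σ`, `τ`, generated by nine elements `u i j` with product `1`, permuted, two
Artin-Schreier elements `th`, `et` and 72 invariant elements, of transcendence degree at least `82`.
(The structures for PART 5 are in `CZT/CDefs.lean`.)
-/

set_option autoImplicit false

namespace CZT

open IntermediateField

universe u v

/-- stage 0 -/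
structure AS (F : Type u) (R : Type v) [Field F] [Field R] [Algebra F R] where
  σ : R ≃ₐ[F] R
  τ : R ≃ₐ[F] R
  u : ZMod 3 → ZMod 3 → R
  th : R
  et : R
  t : Fin 72 → R
  hu : ∏ i, ∏ j, u i j = 1
  σu : ∀ i j, σ (u i j) = u i (j + 1)
  τu : ∀ i j, τ (u i j) = u (i + 1) j
  σth : σ th = th + 1
  τth : τ th = th
  σet : σ et = et
  τet : τ et = et + 1
  σt : ∀ k, σ (t k) = t k
  τt : ∀ k, τ (t k) = t k
  gen : adjoin F (Set.range (fun p : ZMod 3 × ZMod 3 => u p.1 p.2) ∪ {th, et} ∪ Set.range t) = ⊤
  trd : ((82 : ℕ) : Cardinal) ≤ Algebra.trdeg F R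

end CZT
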