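import Pool.Agent.CZT.E1b

/-!
# CZT-E1: stage 1

`S2 = h1/h2`, `A = h0 - S2 h1`, `S1 = -(n³ h2 - S2 h0)/A`: then `(n - S2) H = A (n - S1)`.  `S1 = S2` would give `H = A` and
`Z` would be generated by four elements over `V`.
-/

namespace CZT

open IntermediateField

universe u v

variable {F : Type u} {R : Type v} [Field F] [Field R] [Algebra F R] [CharP R 3] (K : Ctx F R)

theorem exists_St1 : Nonempty (St1 K) := by
  obtain ⟨h0, hh0, h1, hh1, h2, hh2, hH, h2ne⟩ := exists_h K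
  have hA0 := A_ne K hh0 hh1 hh2 hH h2ne
  have hS2 : h1 / h2 ∈ K.C := K.C.div_mem hh1 hh2
  have hA : h0 - h1 / h2 * h1 ∈ K.C := K.C.sub_mem hh0 (K.C.mul_mem hS2 hh1)
  have hn3 : K.n ^ 3 ∈ K.C := cube_mem_Cf K.Z K.j K.nZ
  have hS1 : -(K.n ^ 3 * h2 - h1 / h2 * h0) / (h0 - h1 / h2 * h1) ∈ K.C :=
    K.C.div_mem (K.C.neg_mem (K.C.sub_mem (K.C.mul_mem hn3 hh2) (K.C.mul_mem hS2 hh0))) hA
  have hn1 := n_not_mem K hS1
  have hn2 := n_not_mem K hS2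
  have key : K.H = (h0 - h1 / h2 * h1) * (K.n - -(K.n ^ 3 * h2 - h1 / h2 * h0) / (h0 - h1 / h2 * h1)) /
      (K.n - h1 / h2) := by
    have hR : (h0 - h1 / h2 * h1) * (K.n - -(K.n ^ 3 * h2 - h1 / h2 * h0) / (h0 - h1 / h2 * h1)) =
        (h0 - h1 / h2 * h1) * K.n + (K.n ^ 3 * h2 - h1 / h2 * h0) := by
      rw [mul_sub (h0 - h1 / h2 * h1), mul_div_cancel₀ _ hA0]
      ring
    rw [eq_div_iff hn2, hH, hR]
    field_simp
    ring
  have hne : -(K.n ^ 3 * h2 - h1 / h2 * h0) / (h0 - h1 / h2 * h1) ≠ h1 / h2 := by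
    intro he
    rw [he, mul_div_assoc, div_self hn2, mul_one] at key
    obtain ⟨t1, ht1, t2, ht2, g, hg, hg0, hL⟩ := norm2 K hA hA0
    have hT : ∀ i, (![K.j, K.n, t1, t2] : Fin 4 → R) i ∈ K.Z := by
      intro i
      fin_cases i
      · exact K.jZ
      · exact K.nZ
      · exact ht1
      · exact ht2
    refine count K (by norm_num) ![K.j, K.n, t1, t2] (K.crit _ (GV_le K _ hT) (GV_V K _) (GV_T K _ 0) (GV_T K _ 1)
      ⟨g, hg, hg0, ?_⟩)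
    rw [key]
    exact Cf_le_Bf _ _ _ (hL _ (GV_T K ![K.j, K.n, t1, t2] 2) (GV_T K ![K.j, K.n, t1, t2] 3))
  exact ⟨⟨_, _, _, hA, hS1, hS2, hA0, hne, hn1, hn2, key⟩⟩

end CZT
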