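import Pool.Agent.CZT.Eg

/-!
# CZT-E1a: `H = h0 + h1 n + h2 n²` with `h2 ≠ 0`

`exists_Bf` for `K.HB`.  `norm5`: write `h0 = x0³ + y0³ j + z0³ j²`, `h1 = ...`; one of the six coordinates is not `0`; `g` = its inverse,
`t` = the five other quotients.  If `h2 = 0`: the field `L` generated by `V`, `j`, `n` and `t 0, ..., t 4` (`m = 7`) satisfies the criterion `K.crit`
(the element `g ^ 3 * H = g³ h0 + g³ h1 n` is in `Bf L j n`), so `L = Z`, in contradiction to `count`.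
-/

namespace CZT

open IntermediateField

universe u v

variable {F : Type u} {R : Type v} [Field F] [Field R] [Algebra F R] [CharP R 3] (K : Ctx F R)

theorem norm5 {h0 h1 : R} (hh0 : h0 ∈ K.C) (hh1 : h1 ∈ K.C) (hne : h0 ≠ 0 ∨ h1 ≠ 0) :
    ∃ t : Fin 5 → R, (∀ i, t i ∈ K.Z) ∧ ∃ g ∈ K.Z, g ≠ 0 ∧ ∀ L : IntermediateField F R, (∀ i, t i ∈ L) →
      g ^ 3 * h0 ∈ Cf L K.j ∧ g ^ 3 * h1 ∈ Cf L K.j := by
  obtain ⟨x0, hx0, y0, hy0, z0, hz0, e0⟩ := exists_Cf K.jZ hh0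
  obtain ⟨x1, hx1, y1, hy1, z1, hz1, e1⟩ := exists_Cf K.jZ hh1
  have key : ∃ c : Fin 6 → R, (∀ i, c i ∈ K.Z) ∧ h0 = c 0 ^ 3 + c 1 ^ 3 * K.j + c 2 ^ 3 * K.j ^ 2 ∧
      h1 = c 3 ^ 3 + c 4 ^ 3 * K.j + c 5 ^ 3 * K.j ^ 2 := by
    refine ⟨![x0, y0, z0, x1, y1, z1], ?_, e0, e1⟩
    intro i
    fin_cases i
    · exact hx0
    · exact hy0
    · exact hz0
    · exact hx1
    · exact hy1
    · exact hz1
  obtain ⟨c, hc, e0, e1⟩ := key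
  have hex : ∃ i, c i ≠ 0 := by
    by_contra hcon
    push Not at hcon
    rcases hne with h | h
    · apply h
      rw [e0, hcon 0, hcon 1, hcon 2]
      ring
    · apply h
      rw [e1, hcon 3, hcon 4, hcon 5]
      ring
  obtain ⟨i, hi⟩ := hex
  refine ⟨fun k => (c i)⁻¹ * c (i.succAbove k), fun k => K.Z.mul_mem (K.Z.inv_mem (hc i)) (hc _), (c i)⁻¹,
    K.Z.inv_mem (hc i), inv_ne_zero hi, fun L hL => ?_⟩
  have hk : ∀ k : Fin 6, (c i)⁻¹ * c k ∈ L := by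
    intro k
    rcases Fin.eq_self_or_eq_succAbove i k with h | ⟨m, h⟩
    · rw [h, inv_mul_cancel₀ hi]
      exact L.one_mem
    · rw [h]
      exact hL m
  constructor
  · have e : (c i)⁻¹ ^ 3 * h0 = ((c i)⁻¹ * c 0) ^ 3 + ((c i)⁻¹ * c 1) ^ 3 * K.j + ((c i)⁻¹ * c 2) ^ 3 * K.j ^ 2 := by
      rw [e0]; ring
    rw [e]
    exact mk_Cf (hk 0) (hk 1) (hk 2)
  · have e : (c i)⁻¹ ^ 3 * h1 = ((c i)⁻¹ * c 3) ^ 3 + ((c i)⁻¹ * c 4) ^ 3 * K.j + ((c i)⁻¹ * c 5) ^ 3 * K.j ^ 2 := by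
      rw [e1]; ring
    rw [e]
    exact mk_Cf (hk 3) (hk 4) (hk 5)

theorem exists_h : ∃ h0 ∈ K.C, ∃ h1 ∈ K.C, ∃ h2 ∈ K.C, K.H = h0 + h1 * K.n + h2 * K.n ^ 2 ∧ h2 ≠ 0 := by
  obtain ⟨h0, hh0, h1, hh1, h2, hh2, e⟩ := exists_Bf K.jZ K.nZ K.HB
  refine ⟨h0, hh0, h1, hh1, h2, hh2, e, fun hz => ?_⟩
  have hne : h0 ≠ 0 ∨ h1 ≠ 0 := by
    by_contra hcon
    push Not at hcon
    apply K.H0
    rw [e, hcon.1, hcon.2, hz]
    ring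
  obtain ⟨t, ht, g, hg, g0, hL⟩ := norm5 K hh0 hh1 hne
  let T : Fin 7 → R := Fin.cons K.j (Fin.cons K.n t)
  have hT : ∀ i, T i ∈ K.Z := by
    intro i
    refine Fin.cases ?_ (fun i => ?_) i
    · exact K.jZ
    · refine Fin.cases ?_ (fun i => ?_) i
      · exact K.nZ
      · exact ht i
  have hj : K.j ∈ GV K T := GV_T K T 0
  have hn : K.n ∈ GV K T := GV_T K T 1
  have htL : ∀ i, t i ∈ GV K T := fun i => GV_T K T i.succ.succ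
  obtain ⟨m0, m1⟩ := hL (GV K T) htL
  refine count K (by norm_num : (7 : ℕ) < 8) T (K.crit (GV K T) (GV_le K T hT) (GV_V K T) hj hn ⟨g, hg, g0, ?_⟩)
  have e2 : g ^ 3 * K.H = g ^ 3 * h0 + g ^ 3 * h1 * K.n + 0 * K.n ^ 2 := by
    rw [e, hz]; ring
  rw [e2]
  exact mk_Bf m0 m1 (Cf (GV K T) K.j).zero_mem

end CZT
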