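import Pool.Agent.CZT.E1a

/-!
# CZT-E1b: `A = h0 - (h1/h2) h1 ≠ 0`

`coords3`: the coordinates of an element of `C_Z`. `A_ne`: otherwise `(n - S) H = κ` with `S = h1/h2` and `κ = n³ h2 - S h0` in
`C_Z`, and `j, n`, the coordinates of `S` and two parameters of `κ` generate `Z` over `V`: a contradiction to `count`.
-/

namespace CZT

open IntermediateField

universe u v

variable {F : Type u} {R : Type v} [Field F] [Field R] [Algebra F R] [CharP R 3] (K : Ctx F R)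

theorem coords3 {f : R} (hf : f ∈ K.C) : ∃ x ∈ K.Z, ∃ y ∈ K.Z, ∃ z ∈ K.Z,
    ∀ L : IntermediateField F R, x ∈ L → y ∈ L → z ∈ L → f ∈ Cf L K.j := by
  obtain ⟨x, hx, y, hy, z, hz, rfl⟩ := exists_Cf K.jZ hf
  exact ⟨x, hx, y, hy, z, hz, fun L h1 h2 h3 => mk_Cf h1 h2 h3⟩

theorem A_ne {h0 h1 h2 : R} (hh0 : h0 ∈ K.C) (hh1 : h1 ∈ K.C) (hh2 : h2 ∈ K.C)
    (hH : K.H = h0 + h1 * K.n + h2 * K.n ^ 2) (h2ne : h2 ≠ 0) : h0 - h1 / h2 * h1 ≠ 0 := by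
  intro hA
  have hS : h1 / h2 ∈ K.C := div_mem hh1 hh2
  have hnS : K.n - h1 / h2 ≠ 0 := n_not_mem K hS
  have hk : K.n ^ 3 * h2 - h1 / h2 * h0 ∈ K.C :=
    sub_mem (mul_mem (cube_mem_Cf K.Z K.j K.nZ) hh2) (mul_mem hS hh0)
  have hSh : h1 / h2 * h2 = h1 := div_mul_cancel₀ h1 h2ne
  have hprod : (K.n - h1 / h2) * K.H = K.n ^ 3 * h2 - h1 / h2 * h0 := by
    rw [hH]
    linear_combination K.n * hA - K.n ^ 2 * hSh
  have hk0 : K.n ^ 3 * h2 - h1 / h2 * h0 ≠ 0 := by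
    rw [← hprod]
    exact mul_ne_zero hnS K.H0
  obtain ⟨x, hx, y, hy, z, hz, hxyz⟩ := coords3 K hS
  obtain ⟨t1, ht1, t2, ht2, g, hg, hg0, hgL⟩ := norm2 K hk hk0
  have hT : ∀ i, (![K.j, K.n, x, y, z, t1, t2] : Fin 7 → R) i ∈ K.Z := by
    intro i
    fin_cases i
    · exact K.jZ
    · exact K.nZ
    · exact hx
    · exact hy
    · exact hz
    · exact ht1
    · exact ht2
  have m := GV_T K (![K.j, K.n, x, y, z, t1, t2] : Fin 7 → R)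
  refine count K (m := 7) (by norm_num) _ (K.crit _ (GV_le K _ hT) (GV_V K _) (m 0) (m 1) ⟨g, hg, hg0, ?_⟩)
  have hS' : h1 / h2 ∈ Cf (GV K (![K.j, K.n, x, y, z, t1, t2] : Fin 7 → R)) K.j := hxyz _ (m 2) (m 3) (m 4)
  have hk' : g ^ 3 * (K.n ^ 3 * h2 - h1 / h2 * h0) ∈ Cf (GV K (![K.j, K.n, x, y, z, t1, t2] : Fin 7 → R)) K.j :=
    hgL _ (m 5) (m 6)
  have e : g ^ 3 * K.H = g ^ 3 * (K.n ^ 3 * h2 - h1 / h2 * h0) / (K.n - h1 / h2) := by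
    rw [eq_div_iff hnS, ← hprod]
    ring
  rw [e]
  exact div_mem (Cf_le_Bf _ _ _ hk') (sub_mem (q_mem_Bf _ _ _) (Cf_le_Bf _ _ _ hS'))

end CZT
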