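import Pool.Agent.CZT.E2b

/-!
# CZT-E2: stage 2

`p_coef` applied to the coefficients in `log_frac` with `K.cube`.  `p (f/(n³ - S³)) = p f/(n - S)`, because `n³ - S³ = (n - S)³` is the
cube of `n - S ∈ Z` (`p_cube_mul` with `g = 1/(n - S)`); `p (PA/A/j³) = (PA/A)/j` (`p_log`); then `p_GG`, `p_GGS`.
-/

namespace CZT

open IntermediateField

universe u v

variable {F : Type u} {R : Type v} [Field F] [Field R] [Algebra F R] [CharP R 3] (K : Ctx F R)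

private theorem E2_cube (x y : R) : x ^ 3 - y ^ 3 = (x - y) ^ 3 := by
  have h3 : (3 : R) = 0 := by exact_mod_cast CharP.cast_eq_zero R 3
  linear_combination (x ^ 2 * y - x * y ^ 2) * h3

private theorem E2_div {f S : R} (hf : f ∈ K.C) : K.p (f / (K.n ^ 3 - S ^ 3)) = K.p f / (K.n - S) := by
  have h : f / (K.n ^ 3 - S ^ 3) = (1 / (K.n - S)) ^ 3 * f := by
    rw [E2_cube, div_pow, one_pow]
    ring
  rw [h, p_cube_mul K _ hf]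
  ring

private theorem E2_j {f : R} (hf : f ∈ K.C) : K.p (f / K.j ^ 3) = K.p f / K.j := by
  have h : f / K.j ^ 3 = (1 / K.j) ^ 3 * f := by
    rw [div_pow, one_pow]
    ring
  rw [h, p_cube_mul K _ hf]
  ring

theorem exists_St2 (X : St1 K) : Nonempty (St2 K) := by
  have hj : K.j ^ 3 ∈ K.C := cube_mem_Cf K.Z K.j K.jZ
  have hn : K.n ^ 3 ∈ K.C := cube_mem_Cf K.Z K.j K.nZ
  have hLA : K.P X.A / X.A ∈ K.C := K.C.div_mem (P_mem_Cf K X.hA) X.hA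
  have hLA' : K.P X.A / X.A / K.j ^ 3 ∈ K.C := K.C.div_mem hLA hj
  have hG1 : GG K X.S1 ∈ K.C := GG_mem K X.hS1
  have hG2 : GG K X.S2 ∈ K.C := GG_mem K X.hS2
  have hd1 : K.n ^ 3 - X.S1 ^ 3 ∈ K.C := K.C.sub_mem hn (K.C.pow_mem X.hS1 3)
  have hd2 : K.n ^ 3 - X.S2 ^ 3 ∈ K.C := K.C.sub_mem hn (K.C.pow_mem X.hS2 3)
  have hGS1 : GG K X.S1 * X.S1 ∈ K.C := K.C.mul_mem hG1 X.hS1
  have hGS2 : GG K X.S2 * X.S2 ∈ K.C := K.C.mul_mem hG2 X.hS2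
  have hf0 : X.S1 - X.S2 - (K.P X.S1 - K.P X.S2) / K.j ^ 3 + K.P X.A / X.A / K.j ^ 3
      + GG K X.S1 * X.S1 ^ 2 / (K.n ^ 3 - X.S1 ^ 3) - GG K X.S2 * X.S2 ^ 2 / (K.n ^ 3 - X.S2 ^ 3) ∈ K.C :=
    K.C.sub_mem (K.C.add_mem (K.C.add_mem (K.C.sub_mem (K.C.sub_mem X.hS1 X.hS2)
      (K.C.div_mem (K.C.sub_mem (P_mem_Cf K X.hS1) (P_mem_Cf K X.hS2)) hj)) hLA')
      (K.C.div_mem (K.C.mul_mem hG1 (K.C.pow_mem X.hS1 2)) hd1))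
      (K.C.div_mem (K.C.mul_mem hG2 (K.C.pow_mem X.hS2 2)) hd2)
  have ha1 : GG K X.S1 * X.S1 / (K.n ^ 3 - X.S1 ^ 3) ∈ K.C := K.C.div_mem hGS1 hd1
  have ha2 : GG K X.S2 * X.S2 / (K.n ^ 3 - X.S2 ^ 3) ∈ K.C := K.C.div_mem hGS2 hd2
  have hb1 : GG K X.S1 / (K.n ^ 3 - X.S1 ^ 3) ∈ K.C := K.C.div_mem hG1 hd1
  have hb2 : GG K X.S2 / (K.n ^ 3 - X.S2 ^ 3) ∈ K.C := K.C.div_mem hG2 hd2
  obtain ⟨z, hz, hzz⟩ := K.cube
  rw [log_frac K X] at hzz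
  obtain ⟨h1, h2⟩ := p_coef K hf0 (K.C.sub_mem (K.C.add_mem hLA' ha1) ha2) (K.C.sub_mem hb1 hb2) hz hzz
  rw [p_sub K hb1 hb2, E2_div K hG1, E2_div K hG2, p_GG K X.hS1, p_GG K X.hS2] at h2
  rw [p_sub K (K.C.add_mem hLA' ha1) ha2, p_add K hLA' ha1, E2_j K hLA, p_log K X.hA X.A0, E2_div K hGS1,
    E2_div K hGS2, p_GGS K X.hS1, p_GGS K X.hS2] at h1
  exact ⟨{ toSt1 := X, eqI := sub_eq_zero.1 h2, eqII := h1 }⟩

end CZT
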