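import Pool.Agent.CZT.E1

/-!
# CZT-E2a: the logarithmic derivative of `H`

Plan.  `log_frac`: `Q` of `A (n - S1)/(n - S2)`: `QH/H = QA/A + (Qn - QS1)/(n - S1) - (Qn - QS2)/(n - S2)` (Leibniz rule for products and quotients), and on `C_Z` `Q = ((n+1)/j³) P` (`Q_eq`), `Q n = n² - 1`.
With `G(S) = (S² - 1) - (S + 1) P S / j³` one has `(n² - 1 - ((n+1)/j³) P S)/(n - S) = n + S - P S / j³ + G(S)/(n - S)`
(since `(n² - 1)/(n - S) = n + S + (S² - 1)/(n - S)` and `(n + 1)/(n - S) = 1 + (S + 1)/(n - S)`), and `1/(n - S) = (n² + n S + S²)/(n³ - S³)`.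
-/

namespace CZT

open IntermediateField

universe u v

variable {F : Type u} {R : Type v} [Field F] [Field R] [Algebra F R] [CharP R 3] (K : Ctx F R)

/-- `G(S)` -/
noncomputable def GG (S : R) : R := (S ^ 2 - 1) - (S + 1) * K.P S / K.j ^ 3

private theorem E2a_one {S : R} (hS : S ∈ K.C) (hn : K.n - S ≠ 0) : K.Q (K.n - S) / (K.n - S) =
    K.n + S - K.P S / K.j ^ 3 + GG K S * S ^ 2 / (K.n ^ 3 - S ^ 3) + GG K S * S / (K.n ^ 3 - S ^ 3) * K.n +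
      GG K S / (K.n ^ 3 - S ^ 3) * K.n ^ 2 := by
  have h3 : (3 : R) = 0 := CharP.ofNat_eq_zero R 3
  have hj := K.j0
  have h1 : K.n ^ 2 + K.n * S + S ^ 2 ≠ 0 := by
    have h2 : K.n ^ 2 + K.n * S + S ^ 2 = (K.n - S) ^ 2 := by linear_combination (K.n * S) * h3
    rw [h2]
    exact pow_ne_zero 2 hn
  have h4 : K.n ^ 3 - S ^ 3 = (K.n - S) * (K.n ^ 2 + K.n * S + S ^ 2) := by ring
  have h5 : K.n + S - K.P S / K.j ^ 3 + GG K S * S ^ 2 / (K.n ^ 3 - S ^ 3) + GG K S * S / (K.n ^ 3 - S ^ 3) * K.n +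
      GG K S / (K.n ^ 3 - S ^ 3) * K.n ^ 2 = K.n + S - K.P S / K.j ^ 3 + GG K S / (K.n - S) := by
    have h6 : GG K S / (K.n - S) = GG K S * S ^ 2 / (K.n ^ 3 - S ^ 3) + GG K S * S / (K.n ^ 3 - S ^ 3) * K.n +
        GG K S / (K.n ^ 3 - S ^ 3) * K.n ^ 2 := by
      rw [← mul_div_mul_right (GG K S) (K.n - S) h1, ← h4]
      ring
    rw [h6]
    ring
  rw [h5, map_sub, K.Qn, Q_eq K K.jZ hS]
  unfold GG
  field_simp
  ring

omit [CharP R 3] in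
private theorem E2a_log {D : Derivation F R R} {a b c : R} (ha : a ≠ 0) (hb : b ≠ 0) (hc : c ≠ 0) :
    D (a * b / c) / (a * b / c) = D a / a + D b / b - D c / c := by
  rw [Derivation.leibniz_div, Derivation.leibniz, smul_eq_mul, smul_eq_mul, smul_eq_mul, smul_eq_mul, smul_eq_mul]
  field_simp
  ring

/-- the coefficients of `1, n, n²` in `QH/H` -/
theorem log_frac (X : St1 K) : K.Q K.H / K.H =
    (X.S1 - X.S2 - (K.P X.S1 - K.P X.S2) / K.j ^ 3 + K.P X.A / X.A / K.j ^ 3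
      + GG K X.S1 * X.S1 ^ 2 / (K.n ^ 3 - X.S1 ^ 3) - GG K X.S2 * X.S2 ^ 2 / (K.n ^ 3 - X.S2 ^ 3))
    + (K.P X.A / X.A / K.j ^ 3 + GG K X.S1 * X.S1 / (K.n ^ 3 - X.S1 ^ 3)
      - GG K X.S2 * X.S2 / (K.n ^ 3 - X.S2 ^ 3)) * K.n
    + (GG K X.S1 / (K.n ^ 3 - X.S1 ^ 3) - GG K X.S2 / (K.n ^ 3 - X.S2 ^ 3)) * K.n ^ 2 := by
  rw [X.hH, E2a_log X.A0 X.n1 X.n2, E2a_one K X.hS1 X.n1, E2a_one K X.hS2 X.n2, Q_eq K K.jZ X.hA]
  ring

end CZT
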