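import Pool.Agent.CZT.E2a

/-!
# CZT-E2b: `p` of the coefficients
-/

namespace CZT

open IntermediateField

universe u v

variable {F : Type u} {R : Type v} [Field F] [Field R] [Algebra F R] [CharP R 3] (K : Ctx F R)

private theorem e2b_P (f0 f1 f2 : R) :
    K.P (f0 + f1 * K.n + f2 * K.n ^ 2) = K.P f0 + K.P f1 * K.n + K.P f2 * K.n ^ 2 := by
  simp only [map_add, Derivation.leibniz, Derivation.leibniz_pow, K.Pn, smul_eq_mul, mul_zero, smul_zero, zero_add]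
  ring

private theorem e2b_mul {f g : R} (hf : f ∈ K.C) (hg : g ∈ K.C) : f * g ∈ K.C := K.C.mul_mem hf hg

private theorem e2b_j : (1 / K.j) ^ 3 ∈ K.C := by
  rw [one_div]
  exact K.C.pow_mem (K.C.inv_mem (p_mem_Cf K.Z K.j)) 3

private theorem e2b_c {f : R} (hf : f ∈ K.C) : (K.p f) ^ 3 ∈ K.C :=
  cube_mem_Cf K.Z K.j (p_mem K le_rfl K.jZ hf)

theorem p_coef {f0 f1 f2 z : R} (h0 : f0 ∈ K.C) (h1 : f1 ∈ K.C) (h2 : f2 ∈ K.C) (hz : z ∈ K.Z)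
    (h : (f0 + f1 * K.n + f2 * K.n ^ 2) - K.P (K.P (f0 + f1 * K.n + f2 * K.n ^ 2)) = z ^ 3) :
    K.p f1 = 0 ∧ K.p f2 = 0 := by
  rw [e2b_P, e2b_P] at h
  have s0 := p_spec K h0
  have s1 := p_spec K h1
  have s2 := p_spec K h2
  have e : ((K.p f0) ^ 3 - z ^ 3) + (K.p f1) ^ 3 * K.n + (K.p f2) ^ 3 * K.n ^ 2 = 0 := by
    rw [s0, s1, s2, ← h]
    ring
  obtain ⟨_, e1, e2⟩ := ind_n K (K.C.sub_mem (e2b_c K h0) (cube_mem_Cf K.Z K.j hz)) (e2b_c K h1) (e2b_c K h2) e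
  exact ⟨pow_eq_zero_iff (three_ne_zero) |>.1 e1, pow_eq_zero_iff (three_ne_zero) |>.1 e2⟩

theorem GG_mem {S : R} (hS : S ∈ K.C) : GG K S ∈ K.C := by
  have hP := P_mem_Cf K hS
  have hj : K.j ∈ K.C := p_mem_Cf K.Z K.j
  exact K.C.sub_mem (K.C.sub_mem (K.C.pow_mem hS 2) K.C.one_mem)
    (K.C.div_mem (K.C.mul_mem (K.C.add_mem hS K.C.one_mem) hP) (K.C.pow_mem hj 3))

theorem p_GG {S : R} (hS : S ∈ K.C) : K.p (GG K S) = K.p (S ^ 2) - 1 := by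
  have hP := P_mem_Cf K hS
  have e : GG K S = (S ^ 2 - 1) - ((1 / K.j) ^ 3 * (S * K.P S) + (1 / K.j) ^ 3 * K.P S) := by
    unfold GG
    have := K.j0
    field_simp
  have m1 : S ^ 2 ∈ K.C := K.C.pow_mem hS 2
  have m2 : S * K.P S ∈ K.C := e2b_mul K hS hP
  have m3 : (1 / K.j) ^ 3 * (S * K.P S) ∈ K.C := e2b_mul K (e2b_j K) m2
  have m4 : (1 / K.j) ^ 3 * K.P S ∈ K.C := e2b_mul K (e2b_j K) hP
  rw [e, p_sub K (K.C.sub_mem m1 K.C.one_mem) (K.C.add_mem m3 m4), p_sub K m1 K.C.one_mem, p_add K m3 m4,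
    p_cube_mul K _ m2, p_cube_mul K _ hP, p_mul_P K hS, p_P K hS, p_one]
  ring

theorem p_GGS {S : R} (hS : S ∈ K.C) : K.p (GG K S * S) = S - K.p S - K.P S / K.j := by
  have hP := P_mem_Cf K hS
  have e : GG K S * S = (S ^ 3 - S) - ((1 / K.j) ^ 3 * (S ^ 2 * K.P S) + (1 / K.j) ^ 3 * (S * K.P S)) := by
    unfold GG
    have := K.j0
    field_simp
  have m1 : S ^ 3 ∈ K.C := K.C.pow_mem hS 3
  have m2 : S * K.P S ∈ K.C := e2b_mul K hS hP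
  have m5 : S ^ 2 * K.P S ∈ K.C := e2b_mul K (K.C.pow_mem hS 2) hP
  have m3 : (1 / K.j) ^ 3 * (S * K.P S) ∈ K.C := e2b_mul K (e2b_j K) m2
  have m4 : (1 / K.j) ^ 3 * (S ^ 2 * K.P S) ∈ K.C := e2b_mul K (e2b_j K) m5
  rw [e, p_sub K (K.C.sub_mem m1 hS) (K.C.add_mem m4 m3), p_sub K m1 hS, p_add K m4 m3,
    p_cube_mul K _ m2, p_cube_mul K _ m5, p_mul_P K hS, p_sq_P K hS, p_cube]
  ring

end CZT
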