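import Pool.Agent.CZT.E2

/-!
# CZT-E3: stage 3

`la = (n - S2)/(S1 - S2)`, `d = S1 - S2`, `M = la³ S1 + (1 - la)³ S2`.  So `n - S2 = la d`, `n - S1 = (la - 1) d`, `S1 = M + (1 - la)³ d`,
`S2 = M - la³ d` (characteristic 3: `la³ + (1-la)³ = 1`), and the two equations of stage 2 are expanded with `p_add`, `p_cube_mul`.
-/

namespace CZT

open IntermediateField

universe u v

variable {F : Type u} {R : Type v} [Field F] [Field R] [Algebra F R] [CharP R 3] (K : Ctx F R)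

omit [CharP R 3] in
private theorem E3_three [CharP R 3] : (3 : R) = 0 := by
  have h := CharP.cast_eq_zero R 3
  exact_mod_cast h

omit [CharP R 3] in
private theorem E3_cube [CharP R 3] (x : R) : (1 - x) ^ 3 = 1 - x ^ 3 := by
  linear_combination (-x + x ^ 2) * E3_three (R := R)

private theorem E3_la (X : St2 K) {la d : R} (hla : la = (K.n - X.S2) / (X.S1 - X.S2)) (hd : d = X.S1 - X.S2) :
    d ≠ 0 ∧ K.n - X.S2 = la * d ∧ K.n - X.S1 = -((1 - la) * d) := by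
  have h1 : X.S1 - X.S2 ≠ 0 := sub_ne_zero.2 X.S12
  have h2 : la * d = K.n - X.S2 := by
    rw [hla, hd, div_mul_cancel₀ _ h1]
  refine ⟨by rw [hd]; exact h1, h2.symm, ?_⟩
  have h3 : -((1 - la) * d) = la * d - d := by ring
  rw [h3, h2, hd]
  ring

private theorem E3_S1 (X : St2 K) {la d M : R} (hd : d = X.S1 - X.S2)
    (hM : M = la ^ 3 * X.S1 + (1 - la) ^ 3 * X.S2) : X.S1 = M + (1 - la) ^ 3 * d := by
  rw [hM, hd, E3_cube]
  ring

private theorem E3_S2 (X : St2 K) {la d M : R} (hd : d = X.S1 - X.S2)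
    (hM : M = la ^ 3 * X.S1 + (1 - la) ^ 3 * X.S2) : X.S2 = M - la ^ 3 * d := by
  rw [hM, hd, E3_cube]
  ring

private theorem E3_M (X : St2 K) {la M : R} (hM : M = la ^ 3 * X.S1 + (1 - la) ^ 3 * X.S2) (hlZ : la ∈ K.Z) :
    M ∈ K.C := by
  rw [hM]
  exact K.C.add_mem (K.C.mul_mem (cube_mem_Cf _ _ hlZ) X.hS1)
    (K.C.mul_mem (cube_mem_Cf _ _ (sub_mem (one_mem _) hlZ)) X.hS2)

private theorem E3_d (X : St2 K) {d : R} (hd : d = X.S1 - X.S2) : d ∈ K.C := by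
  rw [hd]
  exact K.C.sub_mem X.hS1 X.hS2

theorem St3_eqI (X : St2 K) {la d M : R} (hla : la = (K.n - X.S2) / (X.S1 - X.S2)) (hd : d = X.S1 - X.S2)
    (hM : M = la ^ 3 * X.S1 + (1 - la) ^ 3 * X.S2) (hlZ : la ∈ K.Z) :
    K.p (M ^ 2) + la * (1 - la) * K.p (d ^ 2) = 1 := by
  obtain ⟨hd0, hn2, hn1⟩ := E3_la K X hla hd
  have hMC := E3_M K X hM hlZ
  have hdC := E3_d K X hd
  have hS1 := E3_S1 K X hd hM
  have hS2 := E3_S2 K X hd hM
  have hcl : la ^ 3 ∈ K.C := cube_mem_Cf _ _ hlZ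
  have hcl' : (1 - la) ^ 3 ∈ K.C := cube_mem_Cf _ _ (sub_mem (one_mem _) hlZ)
  have h2C : 2 * M * d ∈ K.C := K.C.mul_mem (K.C.mul_mem (ofNat_mem K.C 2) hMC) hdC
  have p1 : K.p (X.S1 ^ 2) = K.p (M ^ 2) + (1 - la) * K.p (2 * M * d) + (1 - la) ^ 2 * K.p (d ^ 2) := by
    have e : X.S1 ^ 2 = M ^ 2 + (1 - la) ^ 3 * (2 * M * d) + ((1 - la) ^ 2) ^ 3 * d ^ 2 := by
      rw [hS1]
      ring
    rw [e, p_add K (K.C.add_mem (K.C.pow_mem hMC 2) (K.C.mul_mem hcl' h2C))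
      (K.C.mul_mem (cube_mem_Cf _ _ (pow_mem (sub_mem (one_mem _) hlZ) 2)) (K.C.pow_mem hdC 2)),
      p_add K (K.C.pow_mem hMC 2) (K.C.mul_mem hcl' h2C), p_cube_mul K _ h2C, p_cube_mul K _ (K.C.pow_mem hdC 2)]
  have p2 : K.p (X.S2 ^ 2) = K.p (M ^ 2) - la * K.p (2 * M * d) + la ^ 2 * K.p (d ^ 2) := by
    have e : X.S2 ^ 2 = M ^ 2 - la ^ 3 * (2 * M * d) + (la ^ 2) ^ 3 * d ^ 2 := by
      rw [hS2]
      ring
    rw [e, p_add K (K.C.sub_mem (K.C.pow_mem hMC 2) (K.C.mul_mem hcl h2C))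
      (K.C.mul_mem (cube_mem_Cf _ _ (pow_mem hlZ 2)) (K.C.pow_mem hdC 2)),
      p_sub K (K.C.pow_mem hMC 2) (K.C.mul_mem hcl h2C), p_cube_mul K _ h2C, p_cube_mul K _ (K.C.pow_mem hdC 2)]
  have hI := X.eqI
  rw [div_eq_div_iff X.n1 X.n2, hn2, hn1] at hI
  have hI2 : d * (la * (K.p (X.S1 ^ 2) - 1) + (1 - la) * (K.p (X.S2 ^ 2) - 1)) = 0 := by
    linear_combination hI
  have hI3 := (mul_eq_zero.1 hI2).resolve_left hd0
  rw [p1, p2] at hI3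
  linear_combination hI3

theorem St3_eqII (X : St2 K) {la d M : R} (hla : la = (K.n - X.S2) / (X.S1 - X.S2)) (hd : d = X.S1 - X.S2)
    (hM : M = la ^ 3 * X.S1 + (1 - la) ^ 3 * X.S2) (hlZ : la ∈ K.Z) :
    M - K.p M - K.P M / K.j + la * (1 - la) * (1 - 2 * la) * (d - K.P d / K.j) -
      la * (1 - la) * d * (K.P X.A / X.A) / K.j = 0 := by
  obtain ⟨hd0, hn2, hn1⟩ := E3_la K X hla hd
  have hMC := E3_M K X hM hlZ
  have hdC := E3_d K X hd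
  have hS1 := E3_S1 K X hd hM
  have hS2 := E3_S2 K X hd hM
  have hcl : la ^ 3 ∈ K.C := cube_mem_Cf _ _ hlZ
  have hcl' : (1 - la) ^ 3 ∈ K.C := cube_mem_Cf _ _ (sub_mem (one_mem _) hlZ)
  have p1 : K.p X.S1 = K.p M + (1 - la) * K.p d := by
    rw [hS1, p_add K hMC (K.C.mul_mem hcl' hdC), p_cube_mul K _ hdC]
  have p2 : K.p X.S2 = K.p M - la * K.p d := by
    rw [hS2, p_sub K hMC (K.C.mul_mem hcl hdC), p_cube_mul K _ hdC]
  have P1 : K.P X.S1 = K.P M + (1 - la) ^ 3 * K.P d := by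
    rw [hS1, map_add, D_cube_mul]
  have P2 : K.P X.S2 = K.P M - la ^ 3 * K.P d := by
    rw [hS2, map_sub, D_cube_mul]
  have hII := X.eqII
  have n1 := X.n1
  have n2 := X.n2
  rw [hn1] at n1
  rw [hn2] at n2
  have hl0 : la ≠ 0 := left_ne_zero_of_mul n2
  have hl1 : 1 - la ≠ 0 := left_ne_zero_of_mul (neg_ne_zero.1 n1)
  rw [hn1, hn2] at hII
  have e1 : (X.S1 - K.p X.S1 - K.P X.S1 / K.j) / -((1 - la) * d) * (la * (1 - la) * d) =
      -(la * (X.S1 - K.p X.S1 - K.P X.S1 / K.j)) := by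
    rw [div_mul_eq_mul_div, div_eq_iff n1]
    ring
  have e2 : (X.S2 - K.p X.S2 - K.P X.S2 / K.j) / (la * d) * (la * (1 - la) * d) =
      (1 - la) * (X.S2 - K.p X.S2 - K.P X.S2 / K.j) := by
    rw [div_mul_eq_mul_div, div_eq_iff n2]
    ring
  have h4 : la * (X.S1 - K.p X.S1 - K.P X.S1 / K.j) + (1 - la) * (X.S2 - K.p X.S2 - K.P X.S2 / K.j) -
      la * (1 - la) * d * (K.P X.A / X.A) / K.j = 0 := by
    linear_combination (-(la * (1 - la) * d)) * hII + e1 - e2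
  rw [p1, p2, P1, P2] at h4
  have h5 : la * X.S1 + (1 - la) * X.S2 = M + la * (1 - la) * (1 - 2 * la) * d := by
    rw [hS1, hS2]
    ring
  linear_combination h4 - h5

theorem exists_St3 (X : St2 K) : Nonempty (St3 K) := by
  have hd0 : X.S1 - X.S2 ≠ 0 := sub_ne_zero.2 X.S12
  have hCZ : ∀ {f : R}, f ∈ K.C → f ∈ K.Z := fun hf => Cf_le K.jZ hf
  have hlZ : (K.n - X.S2) / (X.S1 - X.S2) ∈ K.Z :=
    div_mem (sub_mem K.nZ (hCZ X.hS2)) (sub_mem (hCZ X.hS1) (hCZ X.hS2))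
  set la : R := (K.n - X.S2) / (X.S1 - X.S2) with hla
  set d : R := X.S1 - X.S2 with hd
  set M : R := la ^ 3 * X.S1 + (1 - la) ^ 3 * X.S2 with hM
  obtain ⟨_, hn2, hn1⟩ := E3_la K X hla hd
  have n1 := X.n1
  have n2 := X.n2
  rw [hn1] at n1
  rw [hn2] at n2
  have hl0 : la ≠ 0 := left_ne_zero_of_mul n2
  have hl1 : 1 - la ≠ 0 := left_ne_zero_of_mul (neg_ne_zero.1 n1)
  refine ⟨{
    A := X.A
    la := la
    M := M
    d := d
    hA := X.hA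
    hla := hlZ
    hM := E3_M K X hM hlZ
    hd := E3_d K X hd
    A0 := X.A0
    d0 := hd0
    la0 := hl0
    la1 := fun h => hl1 (by rw [h, sub_self])
    eqI := St3_eqI K X hla hd hM hlZ
    eqII := St3_eqII K X hla hd hM hlZ
    crit := ?_ }⟩
  intro L hLZ hV hj hlL hML hdL hg
  have hS1 : X.S1 ∈ Cf L K.j := by
    rw [E3_S1 K X hd hM]
    exact (Cf L K.j).add_mem hML ((Cf L K.j).mul_mem (cube_mem_Cf _ _ (sub_mem (one_mem _) hlL)) hdL)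
  have hS2 : X.S2 ∈ Cf L K.j := by
    rw [E3_S2 K X hd hM]
    exact (Cf L K.j).sub_mem hML ((Cf L K.j).mul_mem (cube_mem_Cf _ _ hlL) hdL)
  have hnL : K.n ∈ L := by
    have e : K.n = X.S2 + la * d := by rw [← hn2]; ring
    rw [e]
    exact add_mem (Cf_le hj hS2) (mul_mem hlL (Cf_le hj hdL))
  refine K.crit L hLZ hV hj hnL ?_
  obtain ⟨g, hgZ, hg0, hgA⟩ := hg
  refine ⟨g, hgZ, hg0, ?_⟩
  have e : g ^ 3 * K.H = g ^ 3 * X.A * (K.n - X.S1) / (K.n - X.S2) := by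
    rw [X.hH]
    ring
  rw [e]
  exact (Bf L K.j K.n).div_mem ((Bf L K.j K.n).mul_mem (Cf_le_Bf _ _ _ hgA)
    ((Bf L K.j K.n).sub_mem (q_mem_Bf _ _ _) (Cf_le_Bf _ _ _ hS1)))
    ((Bf L K.j K.n).sub_mem (q_mem_Bf _ _ _) (Cf_le_Bf _ _ _ hS2))

end CZT
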