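import Pool.Agent.CZT.Ee

/-!
# CZT-E4a: the coordinates of an element of `C_Z` divided by `j² - 1`

Let `(j² - 1) f = a³ j² + b³ j + e³`.  Then `P f = j f - a³ j + b³`, so `f - P f/j = a³ - b³/j`, `f - P² f = e³ - a³` and
`f² - P² (f²) = b⁶ - a³ e³`; hence `p f = e - a` and `p (f²) = b² - a e`.
-/

namespace CZT

open IntermediateField

universe u v

variable {F : Type u} {R : Type v} [Field F] [Field R] [Algebra F R] [CharP R 3] (K : Ctx F R)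

private theorem E4a_j (K : Ctx F R) : K.P (K.j ^ 2 - 1) = K.j - K.j ^ 3 := by
  have h3 : (3 : R) = 0 := CharP.ofNat_eq_zero R 3
  have e2 : K.P (K.j ^ 2) = K.j - K.j ^ 3 := by
    rw [K.P.leibniz_pow, K.Pj]
    simp only [smul_eq_mul, nsmul_eq_mul]
    push_cast
    linear_combination (K.j ^ 3 - K.j) * h3
  rw [map_sub, e2, K.P.map_one_eq_zero, sub_zero]

private theorem E4a_P {a b e f : R} (h : (K.j ^ 2 - 1) * f = a ^ 3 * K.j ^ 2 + b ^ 3 * K.j + e ^ 3) :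
    K.P f = K.j * f - a ^ 3 * K.j + b ^ 3 := by
  have hj : K.j ^ 2 - 1 ≠ 0 := sub_ne_zero.2 K.j1
  have e1 := E4a_j K
  have e2 : K.P (K.j ^ 2) = K.j - K.j ^ 3 := by
    have h2 : K.P (K.j ^ 2 - 1) = K.P (K.j ^ 2) := by
      rw [map_sub, K.P.map_one_eq_zero, sub_zero]
    rw [← h2, e1]
  have h1 := congrArg K.P h
  rw [K.P.leibniz, e1] at h1
  simp only [map_add, D_cube, D_cube_mul, K.Pj, e2, add_zero, smul_eq_mul] at h1
  apply mul_left_cancel₀ hj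
  linear_combination h1

private theorem E4a_PP {a b e f : R} (h : (K.j ^ 2 - 1) * f = a ^ 3 * K.j ^ 2 + b ^ 3 * K.j + e ^ 3) :
    K.P (K.P f) = f - e ^ 3 + a ^ 3 := by
  have h3 : (3 : R) = 0 := CharP.ofNat_eq_zero R 3
  have h1 := E4a_P K h
  have h2 : K.P (K.P f) = f * (K.j ^ 2 - 1) + K.j * K.P f - a ^ 3 * (K.j ^ 2 - 1) := by
    conv_lhs => rw [h1]
    rw [map_add, map_sub, D_cube, K.P.leibniz, D_cube_mul, K.Pj]
    simp only [smul_eq_mul]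
    ring
  rw [h2, h1]
  linear_combination -h + (K.j ^ 2 * f - f - a ^ 3 * K.j ^ 2) * h3

/-- existence of the coordinates -/
theorem exists_abe {L : IntermediateField F R} (hj : K.j ∈ L) {f : R} (hf : f ∈ Cf L K.j) :
    ∃ a ∈ L, ∃ b ∈ L, ∃ e ∈ L, (K.j ^ 2 - 1) * f = a ^ 3 * K.j ^ 2 + b ^ 3 * K.j + e ^ 3 := by
  have h1 : (K.j ^ 2 - 1) * f ∈ Cf L K.j :=
    mul_mem (sub_mem (pow_mem (p_mem_Cf L K.j) 2) (one_mem _)) hf
  obtain ⟨x, hx, y, hy, z, hz, h⟩ := exists_Cf hj h1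
  refine ⟨z, hz, y, hy, x, hx, ?_⟩
  rw [h]
  ring

theorem abe_mem {L : IntermediateField F R} {a b e f : R} (ha : a ∈ L) (hb : b ∈ L) (he : e ∈ L)
    (h : (K.j ^ 2 - 1) * f = a ^ 3 * K.j ^ 2 + b ^ 3 * K.j + e ^ 3) : f ∈ Cf L K.j := by
  have hj : K.j ^ 2 - 1 ≠ 0 := sub_ne_zero.2 K.j1
  have h1 : f = (e ^ 3 + b ^ 3 * K.j + a ^ 3 * K.j ^ 2) / (K.j ^ 2 - 1) := by
    rw [eq_div_iff hj]
    linear_combination h
  rw [h1]
  exact div_mem (mk_Cf he hb ha) (sub_mem (pow_mem (p_mem_Cf L K.j) 2) (one_mem _))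

theorem abe_p {a b e f : R} (h : (K.j ^ 2 - 1) * f = a ^ 3 * K.j ^ 2 + b ^ 3 * K.j + e ^ 3) : K.p f = e - a := by
  have h3 : (3 : R) = 0 := CharP.ofNat_eq_zero R 3
  have h1 : f - K.P (K.P f) = (e - a) ^ 3 := by
    rw [E4a_PP K h]
    linear_combination (e ^ 2 * a - e * a ^ 2) * h3
  show cr _ = _
  rw [h1, cr_cube]

theorem abe_P {a b e f : R} (h : (K.j ^ 2 - 1) * f = a ^ 3 * K.j ^ 2 + b ^ 3 * K.j + e ^ 3) :
    f - K.P f / K.j = a ^ 3 - b ^ 3 / K.j := by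
  have hj := K.j0
  rw [E4a_P K h]
  field_simp
  ring

theorem abe_sq {a b e f : R} (h : (K.j ^ 2 - 1) * f = a ^ 3 * K.j ^ 2 + b ^ 3 * K.j + e ^ 3) :
    K.p (f ^ 2) = b ^ 2 - a * e := by
  have h3 : (3 : R) = 0 := CharP.ofNat_eq_zero R 3
  have h0 := E4a_P K h
  have h2 := E4a_PP K h
  have e1 : K.P (f ^ 2) = 2 * f * K.P f := by
    rw [K.P.leibniz_pow]
    simp only [smul_eq_mul, nsmul_eq_mul]
    push_cast
    ring
  have e2 : K.P (K.P (f ^ 2)) = 2 * f * K.P (K.P f) + 2 * K.P f ^ 2 := by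
    have e3 : 2 * f * K.P f = (f + f) * K.P f := by ring
    rw [e1, e3, K.P.leibniz, map_add]
    simp only [smul_eq_mul]
    ring
  have h1 : f ^ 2 - K.P (K.P (f ^ 2)) = (b ^ 2 - a * e) ^ 3 := by
    rw [e2, h2, h0]
    linear_combination (f - a ^ 3) * h + (f * e ^ 3 - f * a ^ 3 + 2 * f * a ^ 3 * K.j ^ 2 - f * K.j * b ^ 3 -
      f ^ 2 * K.j ^ 2 + e * a * b ^ 4 - e ^ 2 * a ^ 2 * b ^ 2 + a ^ 3 * K.j * b ^ 3 - a ^ 6 * K.j ^ 2 - b ^ 6) * h3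
  show cr _ = _
  rw [h1, cr_cube]

end CZT
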