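import Pool.Agent.CZT.E3
import Pool.Agent.CZT.E4a

/-!
# CZT-E4: stage 4

Coordinates `(a, b, e)` of `M` and `(a1, b1, e1)` of `d` (`exists_abe`); `e` is eliminated with the second equation of stage 3
(`a⁴ + a² + 1 = (a² - 1)²` in characteristic 3).  `crit`: `P A / A = P (g³ A) / (g³ A) ∈ L`, so `e ∈ L` by the second equation.
-/

namespace CZT

open IntermediateField

universe u v

variable {F : Type u} {R : Type v} [Field F] [Field R] [Algebra F R] [CharP R 3] (K : Ctx F R)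

theorem exists_St4 (X : St3 K) : Nonempty (St4 K) := by
  have h3 : (3 : R) = 0 := CharP.ofNat_eq_zero R 3
  obtain ⟨a, ha, b, hb, e, he, hM⟩ := exists_abe K K.jZ X.hM
  obtain ⟨a1, ha1, b1, hb1, e1, he1, hd⟩ := exists_abe K K.jZ X.hd
  have hj1 : K.j ^ 2 - 1 ≠ 0 := sub_ne_zero.2 K.j1
  have hI := X.eqI
  rw [abe_sq K hM, abe_sq K hd] at hI
  have hII := X.eqII
  rw [abe_p K hM] at hII
  have hPM := abe_P K hM
  have hPd := abe_P K hd
  have hII' : a ^ 3 - b ^ 3 / K.j - (e - a) + X.la * (1 - X.la) * (1 - 2 * X.la) * (a1 ^ 3 - b1 ^ 3 / K.j) -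
      X.la * (1 - X.la) * X.d * (K.P X.A / X.A) / K.j = 0 := by
    linear_combination hII - hPM - X.la * (1 - X.la) * (1 - 2 * X.la) * hPd
  have hd' : (a1 ^ 3 * K.j ^ 2 + b1 ^ 3 * K.j + e1 ^ 3) / (K.j ^ 2 - 1) = X.d := by
    rw [← hd, mul_div_cancel_left₀ _ hj1]
  refine ⟨{
    A := X.A
    la := X.la
    a := a
    b := b
    a1 := a1
    b1 := b1
    e1 := e1
    hA := X.hA
    hla := X.hla
    ha := ha
    hb := hb
    ha1 := ha1
    hb1 := hb1
    he1 := he1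
    A0 := X.A0
    d0 := by
      rw [← hd]
      exact mul_ne_zero hj1 X.d0
    la0 := X.la0
    la1 := X.la1
    eqn := ?_
    crit := ?_ }⟩
  · rw [hd']
    linear_combination hI - a * hII' + a ^ 2 * h3
  · intro L hLZ hV hj hl haL hbL ha1L hb1L he1L hg
    have hdL : X.d ∈ Cf L K.j := abe_mem K ha1L hb1L he1L hd
    have hPA : K.P X.A / X.A ∈ L := by
      obtain ⟨g, -, hg0, hgA⟩ := hg
      have h1 : K.P X.A / X.A = K.P (g ^ 3 * X.A) / (g ^ 3 * X.A) := by
        rw [D_cube_mul, mul_div_mul_left _ _ (pow_ne_zero 3 hg0)]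
      rw [h1]
      exact div_mem (Cf_le hj (P_mem_Cf K hgA)) (Cf_le hj hgA)
    have he' : e = a ^ 3 - b ^ 3 / K.j + a + X.la * (1 - X.la) * (1 - 2 * X.la) * (a1 ^ 3 - b1 ^ 3 / K.j) -
        X.la * (1 - X.la) * X.d * (K.P X.A / X.A) / K.j := by
      linear_combination -hII'
    have h1l : 1 - X.la ∈ L := sub_mem (one_mem _) hl
    have h2l : 1 - 2 * X.la ∈ L := sub_mem (one_mem _) (mul_mem (ofNat_mem L 2) hl)
    have heL : e ∈ L := by
      rw [he']
      refine sub_mem (add_mem (add_mem (sub_mem (pow_mem haL 3) (div_mem (pow_mem hbL 3) hj)) haL) ?_) ?_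
      · exact mul_mem (mul_mem (mul_mem hl h1l) h2l) (sub_mem (pow_mem ha1L 3) (div_mem (pow_mem hb1L 3) hj))
      · exact div_mem (mul_mem (mul_mem (mul_mem hl h1l) (Cf_le hj hdL)) hPA) hj
    exact X.crit L hLZ hV hj hl (abe_mem K haL hbL heL hM) hdL hg

end CZT
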