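import Pool.Agent.CZT.Eg

/-!
# CZT-E5a: `a ≠ 0` and `a² ≠ 1`

If `a` were a constant, the field `Z` would be generated over `V` by seven elements and `b`, which is algebraic over them by the
equation `X.eqn`; this contradicts `count'`.
-/

namespace CZT

open IntermediateField

universe u v

variable {F : Type u} {R : Type v} [Field F] [Field R] [Algebra F R] [CharP R 3] (K : Ctx F R)

theorem a_not_const (X : St4 K) {ε : F} (h : X.a = algebraMap F R ε) : False := by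
  obtain ⟨t1, ht1, t2, ht2, g, hg, g0, hn⟩ := norm2 K X.hA X.A0
  have hj0 := K.j0
  set T : Fin 7 → R := ![K.j, X.la, t1, t2, X.a1, X.b1, X.e1] with hT
  have hTZ : ∀ i, T i ∈ K.Z := by
    intro i
    fin_cases i
    · exact K.jZ
    · exact X.hla
    · exact ht1
    · exact ht2
    · exact X.ha1
    · exact X.hb1
    · exact X.he1
  have haL : ∀ L : IntermediateField F R, X.a ∈ L := by
    intro L
    rw [h]
    exact L.algebraMap_mem ε
  refine count' K (by norm_num : 7 < 8) T X.b ?_ ?_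
  · have mj : K.j ∈ GV K T := GV_T K T 0
    have mla : X.la ∈ GV K T := GV_T K T 1
    have mt1 : t1 ∈ GV K T := GV_T K T 2
    have mt2 : t2 ∈ GV K T := GV_T K T 3
    have ma1 : X.a1 ∈ GV K T := GV_T K T 4
    have mb1 : X.b1 ∈ GV K T := GV_T K T 5
    have me1 : X.e1 ∈ GV K T := GV_T K T 6
    have ma : X.a ∈ GV K T := haL _
    have hgA := hn (GV K T) mt1 mt2
    have hPA : K.P X.A / X.A ∈ GV K T := by
      have h1 : K.P (g ^ 3 * X.A) ∈ GV K T := Cf_le mj (P_mem_Cf K hgA)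
      have h2 : g ^ 3 * X.A ∈ GV K T := Cf_le mj hgA
      have h3 : K.P X.A / X.A = K.P (g ^ 3 * X.A) / (g ^ 3 * X.A) := by
        rw [D_cube_mul]
        have hA0 := X.A0
        field_simp
      rw [h3]
      exact (GV K T).div_mem h1 h2
    have m1 : (1 : R) ∈ GV K T := (GV K T).one_mem
    have m2 : (2 : R) ∈ GV K T := ofNat_mem (GV K T) 2
    have c0 : -(X.a ^ 2 - 1) ^ 2 + X.la * (1 - X.la) * (X.b1 ^ 2 - X.a1 * X.e1 -
        X.a * ((1 - 2 * X.la) * (X.a1 ^ 3 - X.b1 ^ 3 / K.j) -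
        (X.a1 ^ 3 * K.j ^ 2 + X.b1 ^ 3 * K.j + X.e1 ^ 3) / (K.j ^ 2 - 1) * (K.P X.A / X.A) / K.j)) ∈ GV K T := by
      have e1 : X.a ^ 2 - 1 ∈ GV K T := sub_mem (pow_mem ma 2) m1
      have e2 : X.la * (1 - X.la) ∈ GV K T := mul_mem mla (sub_mem m1 mla)
      have e3 : X.b1 ^ 2 - X.a1 * X.e1 ∈ GV K T := sub_mem (pow_mem mb1 2) (mul_mem ma1 me1)
      have e4 : (1 - 2 * X.la) * (X.a1 ^ 3 - X.b1 ^ 3 / K.j) ∈ GV K T :=
        mul_mem (sub_mem m1 (mul_mem m2 mla)) (sub_mem (pow_mem ma1 3) (div_mem (pow_mem mb1 3) mj))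
      have e5 : X.a1 ^ 3 * K.j ^ 2 + X.b1 ^ 3 * K.j + X.e1 ^ 3 ∈ GV K T :=
        add_mem (add_mem (mul_mem (pow_mem ma1 3) (pow_mem mj 2)) (mul_mem (pow_mem mb1 3) mj)) (pow_mem me1 3)
      have e6 : K.j ^ 2 - 1 ∈ GV K T := sub_mem (pow_mem mj 2) m1
      exact add_mem (neg_mem (pow_mem e1 2)) (mul_mem e2 (sub_mem e3 (mul_mem ma (sub_mem e4
        (div_mem (mul_mem (div_mem e5 e6) hPA) mj)))))
    refine alg_of_cubic c0 (c1 := 0) (c2 := 1) (c3 := X.a / K.j) (GV K T).zero_mem m1 (div_mem ma mj)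
      (Or.inr one_ne_zero) ?_
    have h5 := X.eqn
    linear_combination h5
  · refine X.crit (GW K T X.b) (GW_le K T X.b hTZ X.hb) (GW_V K T X.b) (GW_T K T X.b 0) (GW_T K T X.b 1) (haL _)
      (GW_s K T X.b) (GW_T K T X.b 4) (GW_T K T X.b 5) (GW_T K T X.b 6) ⟨g, hg, g0, hn _ ?_ ?_⟩
    · exact GW_T K T X.b 2
    · exact GW_T K T X.b 3

theorem a_ne (X : St4 K) : X.a ≠ 0 ∧ X.a ^ 2 ≠ 1 := by
  constructor
  · intro h
    exact a_not_const K X (ε := 0) (by rw [h, map_zero])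
  · intro h
    rcases sq_eq_sq_iff_eq_or_eq_neg.1 (h.trans (one_pow 2).symm) with h | h
    · exact a_not_const K X (ε := 1) (by rw [h, map_one])
    · exact a_not_const K X (ε := -1) (by rw [h, map_neg, map_one])

end CZT
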