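import Pool.Agent.CZT.Ed

/-!
# CZT-E6c: the quadratic form `b2² - a2 e2`

`i = j - ka³`, `be = al - d2`, `B1 = i + d1³`, `B2 = i - be³`, `j³ s³ i (i - al³)/(B1 B2) = a2³ j² + b2³ j + e2³`.
CLAIM `b2² - a2 e2 = s² j² (i (d1 + d2) - al² d1 (al - d2))/(B1 B2)`.
Plan.  `i (i - al³)/(B1 B2) = Np/(B1 B2)³` with `Np = i (i - al³)(i + d1³)²(i - be³)²`.  Let `T (T - al)(T + d1)²(T - be)² = ∑ c_k T^k` (`c_0 = 0`, `c_6 = 1`), so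
`Np = ∑ c_k³ i^k = X0³ + X1³ i + X2³ i²` with `X0 = c_0 + c_3 i + c_6 i²`, `X1 = c_1 + c_4 i`, `X2 = c_2 + c_5 i`.  With `i = j - ka³`, `i² = j² + ka³ j + ka⁶`:
`Np = (X0 - ka X1 + ka² X2)³ + (X1 + ka X2)³ j + X2³ j²`.  So (uniqueness of coordinates, `ind_j'`) with `t = j s/(B1 B2)`: `a2 = t X2`, `b2 = t (X1 + ka X2)`, `e2 = t (X0 - ka X1 + ka² X2)` and
`b2² - a2 e2 = t² (X1² - X0 X2)` (characteristic 3).  Finally the polynomial identity (characteristic 3) `X1² - X0 X2 = B1 B2 (i (d1 + d2) - al² d1 (al - d2))` in `i, al, d1, d2`.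
-/

namespace CZT

open IntermediateField

universe u v

variable {F : Type u} {R : Type v} [Field F] [Field R] [Algebra F R] [CharP R 3] (K : Ctx F R)

private def E6c_X0 (i al d1 d2 : R) : R :=
  (- al ^ 3 - al ^ 2 * d2 + al * d1 * d2 - al * d2 ^ 2 - d1 ^ 2 * d2 - d1 * d2 ^ 2) * i + i ^ 2

private def E6c_X1 (i al d1 d2 : R) : R :=
  - al ^ 3 * d1 ^ 2 - al ^ 2 * d1 ^ 2 * d2 - al * d1 ^ 2 * d2 ^ 2 + (- al * d2 + d1 ^ 2 + d1 * d2 + d2 ^ 2) * i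

private def E6c_X2 (i al d1 d2 : R) : R :=
  al ^ 3 * d1 + al ^ 2 * d1 * d2 - al * d1 ^ 2 * d2 + al * d1 * d2 ^ 2 + d1 ^ 2 * d2 ^ 2 + (- d1 - d2) * i

private theorem E6c_id1 (i al d1 d2 : R) :
    i * (i - al ^ 3) * (i + d1 ^ 3) ^ 2 * (i - (al - d2) ^ 3) ^ 2 =
      E6c_X0 i al d1 d2 ^ 3 + E6c_X1 i al d1 d2 ^ 3 * i + E6c_X2 i al d1 d2 ^ 3 * i ^ 2 := by
  have h3 : (3 : R) = 0 := CharP.ofNat_eq_zero R 3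
  unfold E6c_X0 E6c_X1 E6c_X2
  linear_combination (3 * i ^ 5 * al ^ 2 * d2 - i ^ 5 * al * d1 * d2 - i ^ 5 * al * d2 ^ 2 + i ^ 5 * d1 ^ 3 + 2 * i ^ 5 * d1 ^ 2 *
      d2 + 2 * i ^ 5 * d1 * d2 ^ 2 + i ^ 5 * d2 ^ 3 - 6 * i ^ 4 * al ^ 5 * d2 + 2 * i ^ 4 * al ^ 4 * d1 * d2 + 4 * i
      ^ 4 * al ^ 4 * d2 ^ 2 - 3 * i ^ 4 * al ^ 3 * d1 ^ 3 - 4 * i ^ 4 * al ^ 3 * d1 ^ 2 * d2 - i ^ 4 * al ^ 3 * d1 *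
      d2 ^ 2 - 9 * i ^ 4 * al ^ 3 * d2 ^ 3 + 3 * i ^ 4 * al ^ 2 * d1 ^ 3 * d2 - 6 * i ^ 4 * al ^ 2 * d1 ^ 2 * d2 ^ 2
      - 2 * i ^ 4 * al ^ 2 * d1 * d2 ^ 3 + 3 * i ^ 4 * al ^ 2 * d2 ^ 4 + 2 * i ^ 4 * al * d1 ^ 4 * d2 + i ^ 4 * al *
      d1 ^ 3 * d2 ^ 2 + 2 * i ^ 4 * al * d1 ^ 2 * d2 ^ 3 - i ^ 4 * al * d1 * d2 ^ 4 - i ^ 4 * al * d2 ^ 5 - i ^ 4 *
      d1 ^ 5 * d2 - 4 * i ^ 4 * d1 ^ 4 * d2 ^ 2 - 5 * i ^ 4 * d1 ^ 3 * d2 ^ 3 - 4 * i ^ 4 * d1 ^ 2 * d2 ^ 4 - i ^ 4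
      * d1 * d2 ^ 5 + 3 * i ^ 3 * al ^ 8 * d2 - i ^ 3 * al ^ 7 * d1 * d2 - 3 * i ^ 3 * al ^ 7 * d2 ^ 2 + 3 * i ^ 3 *
      al ^ 6 * d1 ^ 3 + 2 * i ^ 3 * al ^ 6 * d1 ^ 2 * d2 - i ^ 3 * al ^ 6 * d1 * d2 ^ 2 + 9 * i ^ 3 * al ^ 6 * d2 ^
      3 - 6 * i ^ 3 * al ^ 5 * d1 ^ 3 * d2 + 6 * i ^ 3 * al ^ 5 * d1 ^ 2 * d2 ^ 2 - i ^ 3 * al ^ 5 * d1 * d2 ^ 3 - 3
      * i ^ 3 * al ^ 5 * d2 ^ 4 - 4 * i ^ 3 * al ^ 4 * d1 ^ 4 * d2 + 11 * i ^ 3 * al ^ 4 * d1 ^ 3 * d2 ^ 2 + 4 * i ^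
      3 * al ^ 4 * d1 ^ 2 * d2 ^ 3 + i ^ 3 * al ^ 4 * d1 * d2 ^ 4 + 3 * i ^ 3 * al ^ 4 * d2 ^ 5 + 2 * i ^ 3 * al ^ 3
      * d1 ^ 5 * d2 + 2 * i ^ 3 * al ^ 3 * d1 ^ 4 * d2 ^ 2 - 13 * i ^ 3 * al ^ 3 * d1 ^ 3 * d2 ^ 3 + 4 * i ^ 3 * al
      ^ 3 * d1 ^ 2 * d2 ^ 4 + i ^ 3 * al ^ 3 * d1 * d2 ^ 5 + 3 * i ^ 3 * al ^ 2 * d1 ^ 6 * d2 + 3 * i ^ 3 * al ^ 2 *
      d1 ^ 5 * d2 ^ 2 + 4 * i ^ 3 * al ^ 2 * d1 ^ 4 * d2 ^ 3 + 12 * i ^ 3 * al ^ 2 * d1 ^ 3 * d2 ^ 4 + i ^ 3 * al ^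
      2 * d1 * d2 ^ 6 - i ^ 3 * al * d1 ^ 6 * d2 ^ 2 - i ^ 3 * al * d1 ^ 5 * d2 ^ 3 + 2 * i ^ 3 * al * d1 ^ 4 * d2 ^
      4 + i ^ 3 * al * d1 ^ 3 * d2 ^ 5 + 2 * i ^ 3 * al * d1 ^ 2 * d2 ^ 6 + i ^ 3 * d1 ^ 6 * d2 ^ 3 + 2 * i ^ 3 * d1
      ^ 5 * d2 ^ 4 + 2 * i ^ 3 * d1 ^ 4 * d2 ^ 5 + i ^ 3 * d1 ^ 3 * d2 ^ 6 - i ^ 2 * al ^ 9 * d1 ^ 3 + 3 * i ^ 2 *
      al ^ 8 * d1 ^ 3 * d2 + 2 * i ^ 2 * al ^ 7 * d1 ^ 4 * d2 - 12 * i ^ 2 * al ^ 7 * d1 ^ 3 * d2 ^ 2 - i ^ 2 * al ^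
      6 * d1 ^ 5 * d2 + 2 * i ^ 2 * al ^ 6 * d1 ^ 4 * d2 ^ 2 + 11 * i ^ 2 * al ^ 6 * d1 ^ 3 * d2 ^ 3 - 6 * i ^ 2 *
      al ^ 5 * d1 ^ 6 * d2 - 3 * i ^ 2 * al ^ 5 * d1 ^ 5 * d2 ^ 2 + 2 * i ^ 2 * al ^ 5 * d1 ^ 4 * d2 ^ 3 - 12 * i ^
      2 * al ^ 5 * d1 ^ 3 * d2 ^ 4 + 4 * i ^ 2 * al ^ 4 * d1 ^ 6 * d2 ^ 2 - 2 * i ^ 2 * al ^ 4 * d1 ^ 5 * d2 ^ 3 - 2
      * i ^ 2 * al ^ 4 * d1 ^ 4 * d2 ^ 4 + 3 * i ^ 2 * al ^ 4 * d1 ^ 3 * d2 ^ 5 - 9 * i ^ 2 * al ^ 3 * d1 ^ 6 * d2 ^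
      3 - 2 * i ^ 2 * al ^ 3 * d1 ^ 5 * d2 ^ 4 - 2 * i ^ 2 * al ^ 3 * d1 ^ 4 * d2 ^ 5 - i ^ 2 * al ^ 3 * d1 ^ 3 * d2
      ^ 6 + 3 * i ^ 2 * al ^ 2 * d1 ^ 6 * d2 ^ 4 - 2 * i ^ 2 * al ^ 2 * d1 ^ 4 * d2 ^ 6 - i ^ 2 * al * d1 ^ 6 * d2 ^
      5 - i ^ 2 * al * d1 ^ 5 * d2 ^ 6 + 3 * i * al ^ 8 * d1 ^ 6 * d2 - 3 * i * al ^ 7 * d1 ^ 6 * d2 ^ 2 + 9 * i *
      al ^ 6 * d1 ^ 6 * d2 ^ 3 - 3 * i * al ^ 5 * d1 ^ 6 * d2 ^ 4 + 3 * i * al ^ 4 * d1 ^ 6 * d2 ^ 5) * h3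

private theorem E6c_id2 (i al d1 d2 : R) :
    E6c_X1 i al d1 d2 ^ 2 - E6c_X0 i al d1 d2 * E6c_X2 i al d1 d2 =
      (i + d1 ^ 3) * (i - (al - d2) ^ 3) * (i * (d1 + d2) - al ^ 2 * d1 * (al - d2)) := by
  have h3 : (3 : R) = 0 := CharP.ofNat_eq_zero R 3
  unfold E6c_X0 E6c_X1 E6c_X2
  linear_combination (- 2 * i ^ 2 * al ^ 2 * d1 * d2 - i ^ 2 * al ^ 2 * d2 ^ 2 + 2 * i * al ^ 5 * d1 * d2 - i * al ^ 4 * d1 * d2 ^ 2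
      + 2 * i * al ^ 3 * d1 * d2 ^ 3 - 2 * i * al ^ 2 * d1 ^ 4 * d2 - i * al ^ 2 * d1 ^ 3 * d2 ^ 2 + 2 * al ^ 5 * d1
      ^ 4 * d2 - al ^ 4 * d1 ^ 4 * d2 ^ 2 + 2 * al ^ 3 * d1 ^ 4 * d2 ^ 3) * h3


theorem quad_eq {ka d1 al d2 s a2 b2 e2 : R} (hB1 : K.j - ka ^ 3 + d1 ^ 3 ≠ 0) (hB2 : K.j - ka ^ 3 - (al - d2) ^ 3 ≠ 0)
    (h : K.j ^ 3 * s ^ 3 * ((K.j - ka ^ 3) * (K.j - ka ^ 3 - al ^ 3) / ((K.j - ka ^ 3 + d1 ^ 3) *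
      (K.j - ka ^ 3 - (al - d2) ^ 3))) = a2 ^ 3 * K.j ^ 2 + b2 ^ 3 * K.j + e2 ^ 3) :
    b2 ^ 2 - a2 * e2 = s ^ 2 * K.j ^ 2 * (((K.j - ka ^ 3) * (d1 + d2) - al ^ 2 * d1 * (al - d2)) /
        ((K.j - ka ^ 3 + d1 ^ 3) * (K.j - ka ^ 3 - (al - d2) ^ 3))) := by
  have h3 : (3 : R) = 0 := CharP.ofNat_eq_zero R 3
  have id1 := E6c_id1 (K.j - ka ^ 3) al d1 d2
  have id2 := E6c_id2 (K.j - ka ^ 3) al d1 d2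
  obtain ⟨i, hi⟩ : ∃ i, i = K.j - ka ^ 3 := ⟨_, rfl⟩
  rw [← hi] at hB1 hB2 h id1 id2 ⊢
  generalize E6c_X0 i al d1 d2 = X0 at id1 id2
  generalize E6c_X1 i al d1 d2 = X1 at id1 id2
  generalize E6c_X2 i al d1 d2 = X2 at id1 id2
  generalize hB1' : i + d1 ^ 3 = B1 at hB1 h id1 id2 ⊢
  generalize hB2' : i - (al - d2) ^ 3 = B2 at hB2 h id1 id2 ⊢
  obtain ⟨t, ht⟩ : ∃ t, t = K.j * s / (B1 * B2) := ⟨_, rfl⟩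
  have htB : t * (B1 * B2) = K.j * s := by
    rw [ht]
    field_simp
  have h4 : t ^ 3 * (i * (i - al ^ 3) * B1 ^ 2 * B2 ^ 2) = e2 ^ 3 + b2 ^ 3 * K.j + a2 ^ 3 * K.j ^ 2 := by
    have h5 : t ^ 3 * (i * (i - al ^ 3) * B1 ^ 2 * B2 ^ 2) = K.j ^ 3 * s ^ 3 * (i * (i - al ^ 3) / (B1 * B2)) := by
      rw [ht]
      field_simp
    rw [h5, h]
    ring
  have h6 : (t * (X0 - ka * X1 + ka ^ 2 * X2)) ^ 3 + (t * (X1 + ka * X2)) ^ 3 * K.j + (t * X2) ^ 3 * K.j ^ 2 =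
      e2 ^ 3 + b2 ^ 3 * K.j + a2 ^ 3 * K.j ^ 2 := by
    rw [← h4, id1, hi]
    linear_combination (t ^ 3 * (- X0 ^ 2 * X1 * ka + X0 ^ 2 * X2 * ka ^ 2 + X0 * X1 ^ 2 * ka ^ 2 - 2 * X0 * X1 * X2 * ka ^ 3 + X0 * X2 ^ 2 *
      ka ^ 4 + X1 ^ 2 * X2 * ka ^ 4 + X1 ^ 2 * X2 * ka * K.j - X1 * X2 ^ 2 * ka ^ 5 + X1 * X2 ^ 2 * ka ^ 2 * K.j +
      X2 ^ 3 * ka ^ 3 * K.j)) * h3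
  obtain ⟨he, hb, ha⟩ := ind_j' K h6
  rw [← he, ← hb, ← ha]
  have h7 : (t * (X1 + ka * X2)) ^ 2 - t * X2 * (t * (X0 - ka * X1 + ka ^ 2 * X2)) = t ^ 2 * (X1 ^ 2 - X0 * X2) := by
    linear_combination t ^ 2 * ka * X1 * X2 * h3
  rw [h7, id2, ht]
  field_simp

end CZT
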