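import Pool.Agent.CZT.E6b
import Pool.Agent.CZT.E6c

/-!
# CZT-E6: stage 6

The elements `1/(Dl A)` and `A/Dl` are, up to cubes, Möbius transformations `(j - a_i³)/(j - b_i³)` (`moebius`, `nondeg1`, `nondeg2`); this gives the
coordinates `ka = a_1`, `d1 = a_1 - b_1`, `al = a_2 - a_1`, `d2 = a_2 - b_2`, `s = Dl g1 g2` of stage 6.
-/

namespace CZT

open IntermediateField

universe u v

variable {F : Type u} {R : Type v} [Field F] [Field R] [Algebra F R] [CharP R 3] (K : Ctx F R)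

omit [Algebra F R] in
private theorem E6_sub (x y : R) : (x - y) ^ 3 = x ^ 3 - y ^ 3 := by
  have h3 : (3 : R) = 0 := by
    have h := CharP.cast_eq_zero R 3
    exact_mod_cast h
  linear_combination (x * y ^ 2 - x ^ 2 * y) * h3

theorem P_m {x y : R} (hy : K.j - y ^ 3 ≠ 0) :
    K.P ((K.j - x ^ 3) / (K.j - y ^ 3)) = (K.j ^ 2 - 1) * (x - y) ^ 3 / (K.j - y ^ 3) ^ 2 := by
  have h1 : ∀ z : R, K.P (K.j - z ^ 3) = K.j ^ 2 - 1 := by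
    intro z
    rw [map_sub, D_cube, K.Pj, sub_zero]
  have h2 : (K.j - x ^ 3) / (K.j - y ^ 3) * (K.j - y ^ 3) = K.j - x ^ 3 := div_mul_cancel₀ _ hy
  have h3 := congrArg K.P h2
  rw [Derivation.leibniz, h1, h1, smul_eq_mul, smul_eq_mul] at h3
  have h4 : K.P ((K.j - x ^ 3) / (K.j - y ^ 3)) =
      (K.j ^ 2 - 1 - (K.j - x ^ 3) / (K.j - y ^ 3) * (K.j ^ 2 - 1)) / (K.j - y ^ 3) := by
    rw [eq_div_iff hy]
    linear_combination h3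
  rw [h4, E6_sub]
  field_simp
  ring

private theorem E6_log {f g x y : R} (hf : f = g ^ 3 * ((K.j - x ^ 3) / (K.j - y ^ 3))) (hg : g ≠ 0) :
    K.P f / f = (K.j ^ 2 - 1) * (x - y) ^ 3 / ((K.j - x ^ 3) * (K.j - y ^ 3)) := by
  have hx := j_ne_cube K x
  have hy := j_ne_cube K y
  rw [hf, D_cube_mul, P_m K hy]
  field_simp

omit [Algebra F R] [CharP R 3] in
private theorem E6_id {j a la s i B1 A2 B2 d1 d2 : R} (hj : j ^ 2 - 1 ≠ 0) (hi : i ≠ 0)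
    (hB1 : B1 ≠ 0) (hA2 : A2 ≠ 0) (hB2 : B2 ≠ 0) :
    (a ^ 3 - a) * j ^ 2 / (j ^ 2 - 1) * (s ^ 3 * (i / B1 * (A2 / B2))) *
      ((1 - la) * (-((j ^ 2 - 1) * d1 ^ 3 / (B1 * i))) - la * (-((j ^ 2 - 1) * d2 ^ 3 / (B2 * A2)))) =
    -(s ^ 2 * j ^ 2 * ((a ^ 3 - a) * s * ((1 - la) * (A2 * d1 ^ 3 / (B1 ^ 2 * B2)) -
        la * (i * d2 ^ 3 / (B1 * B2 ^ 2))))) := by
  field_simp
  ring

theorem exists_St6 (X : St5 K) : Nonempty (St6 K) := by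
  have hj2 : K.j ^ 2 - 1 ≠ 0 := sub_ne_zero.2 K.j1
  have hDlC : X.Dl ∈ K.C := by
    have h1 : K.j ^ 3 * X.Dl ∈ K.C := by
      rw [X.hDl]
      have h2 := mk_Cf (j := K.j) X.he2 X.hb2 X.ha2
      have h3 : X.a2 ^ 3 * K.j ^ 2 + X.b2 ^ 3 * K.j + X.e2 ^ 3 =
          X.e2 ^ 3 + X.b2 ^ 3 * K.j + X.a2 ^ 3 * K.j ^ 2 := by ring
      rw [h3]
      exact h2
    have h2 : X.Dl = (K.j ^ 3)⁻¹ * (K.j ^ 3 * X.Dl) := by
      rw [← mul_assoc, inv_mul_cancel₀ (pow_ne_zero 3 K.j0), one_mul]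
    rw [h2]
    exact mul_mem (inv_mem (pow_mem (p_mem_Cf K.Z K.j) 3)) h1
  have hDlZ : X.Dl ∈ K.Z := Cf_le K.jZ hDlC
  have hAZ : X.A ∈ K.Z := Cf_le K.jZ X.hA
  have hDA : X.Dl * X.A ≠ 0 := mul_ne_zero X.Dl0 X.A0
  have hp1 : 1 / (X.Dl * X.A) ∈ K.C := div_mem (one_mem _) (mul_mem hDlC X.hA)
  have hp2 : X.A / X.Dl ∈ K.C := div_mem X.hA hDlC
  obtain ⟨a1, ha1, b1, hb1, g1, hg1, g10, hab1, e1⟩ :=
    (moebius K hp1 (one_div_ne_zero hDA)).resolve_left (nondeg1 K X)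
  obtain ⟨a2, ha2, b2, hb2, g2, hg2, g20, hab2, e2⟩ :=
    (moebius K hp2 (div_ne_zero X.A0 X.Dl0)).resolve_left (nondeg2 K X)
  have hi := j_ne_cube K a1
  have hB1 := j_ne_cube K b1
  have hA2 := j_ne_cube K a2
  have hB2 := j_ne_cube K b2
  -- the denominators in the new coordinates
  have c1 : K.j - a1 ^ 3 + (a1 - b1) ^ 3 = K.j - b1 ^ 3 := by rw [E6_sub]; ring
  have c2 : K.j - a1 ^ 3 - (a2 - a1) ^ 3 = K.j - a2 ^ 3 := by rw [E6_sub]; ring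
  have c3 : K.j - a1 ^ 3 - (a2 - a1 - (a2 - b2)) ^ 3 = K.j - b2 ^ 3 := by
    have : a2 - a1 - (a2 - b2) = b2 - a1 := by ring
    rw [this, E6_sub]
    ring
  -- `Dl` and `A`
  have hDl : X.Dl = (X.Dl * g1 * g2) ^ 3 *
      ((K.j - a1 ^ 3) / (K.j - b1 ^ 3) * ((K.j - a2 ^ 3) / (K.j - b2 ^ 3))) := by
    have h1 : X.Dl = X.Dl ^ 3 * (1 / (X.Dl * X.A) * (X.A / X.Dl)) := by
      have h2 := X.Dl0
      have h3 := X.A0
      field_simp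
    rw [e1, e2] at h1
    linear_combination h1
  have hAm : ((X.A * g1 / g2)⁻¹) ^ 3 * X.A =
      (K.j - a1 ^ 3) / (K.j - b1 ^ 3) / ((K.j - a2 ^ 3) / (K.j - b2 ^ 3)) := by
    have h1 : X.A = X.A ^ 3 * (1 / (X.Dl * X.A) / (X.A / X.Dl)) := by
      have h2 := X.Dl0
      have h3 := X.A0
      field_simp
    rw [e1, e2] at h1
    have h3 := X.A0
    have h4 : X.A = (X.A * g1 / g2) ^ 3 *
        ((K.j - a1 ^ 3) / (K.j - b1 ^ 3) / ((K.j - a2 ^ 3) / (K.j - b2 ^ 3))) := by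
      refine h1.trans ?_
      field_simp
    have h5 : X.A * g1 / g2 ≠ 0 := div_ne_zero (mul_ne_zero h3 g10) g20
    have h6 : ((X.A * g1 / g2)⁻¹) ^ 3 * (X.A * g1 / g2) ^ 3 = 1 := by
      rw [← mul_pow, inv_mul_cancel₀ h5, one_pow]
    generalize (K.j - a1 ^ 3) / (K.j - b1 ^ 3) / ((K.j - a2 ^ 3) / (K.j - b2 ^ 3)) = q at h4 ⊢
    generalize X.A * g1 / g2 = w at h4 h6 ⊢
    rw [h4, ← mul_assoc, h6, one_mul]
  -- the logarithmic derivatives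
  have hl1 : K.P (X.Dl * X.A) / (X.Dl * X.A) =
      -((K.j ^ 2 - 1) * (a1 - b1) ^ 3 / ((K.j - b1 ^ 3) * (K.j - a1 ^ 3))) := by
    have h1 : X.Dl * X.A = (g1⁻¹) ^ 3 * ((K.j - b1 ^ 3) / (K.j - a1 ^ 3)) := by
      have h2 : X.Dl * X.A = (1 / (X.Dl * X.A))⁻¹ := by rw [one_div, inv_inv]
      rw [h2, e1, mul_inv, inv_pow, inv_div]
    rw [E6_log K h1 (inv_ne_zero g10)]
    have h3 : (b1 - a1) ^ 3 = -(a1 - b1) ^ 3 := by ring
    rw [h3]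
    ring
  have hl2 : K.P (X.Dl / X.A) / (X.Dl / X.A) =
      -((K.j ^ 2 - 1) * (a2 - b2) ^ 3 / ((K.j - b2 ^ 3) * (K.j - a2 ^ 3))) := by
    have h1 : X.Dl / X.A = (g2⁻¹) ^ 3 * ((K.j - b2 ^ 3) / (K.j - a2 ^ 3)) := by
      have h2 : X.Dl / X.A = (X.A / X.Dl)⁻¹ := by rw [inv_div]
      rw [h2, e2, mul_inv, inv_pow, inv_div]
    rw [E6_log K h1 (inv_ne_zero g20)]
    have h3 : (b2 - a2) ^ 3 = -(a2 - b2) ^ 3 := by ring
    rw [h3]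
    ring
  -- the quadratic form
  have hq : X.b2 ^ 2 - X.a2 * X.e2 = (X.Dl * g1 * g2) ^ 2 * K.j ^ 2 *
      (((K.j - a1 ^ 3) * ((a1 - b1) + (a2 - b2)) - (a2 - a1) ^ 2 * (a1 - b1) * ((a2 - a1) - (a2 - b2))) /
        ((K.j - a1 ^ 3 + (a1 - b1) ^ 3) * (K.j - a1 ^ 3 - ((a2 - a1) - (a2 - b2)) ^ 3))) := by
    refine quad_eq K (by rw [c1]; exact hB1) (by rw [c3]; exact hB2) ?_
    rw [c1, c2, c3, ← X.hDl]
    have h1 : K.j ^ 3 * X.Dl = K.j ^ 3 * ((X.Dl * g1 * g2) ^ 3 *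
      ((K.j - a1 ^ 3) / (K.j - b1 ^ 3) * ((K.j - a2 ^ 3) / (K.j - b2 ^ 3)))) := by
      rw [← hDl]
    rw [h1, div_mul_div_comm]
    ring
  refine ⟨⟨X.la, X.Dl * g1 * g2, X.a, X.y, a1, a1 - b1, a2 - a1, a2 - b2, X.hla,
    mul_mem (mul_mem hDlZ hg1) hg2, X.ha, X.hy, ha1, sub_mem ha1 hb1, sub_mem ha2 ha1,
    sub_mem ha2 hb2, X.la0, X.la1, mul_ne_zero (mul_ne_zero X.Dl0 g10) g20, X.a0, X.asq,
    sub_ne_zero.2 hab1, sub_ne_zero.2 hab2, hi, by rw [c1]; exact hB1, by rw [c2]; exact hA2,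
    by rw [c3]; exact hB2, ?_, ?_⟩⟩
  · have h1 := X.eqn
    rw [hl1, hl2, hq] at h1
    have h2 := E6_id (a := X.a) (la := X.la) (s := X.Dl * g1 * g2) (d1 := a1 - b1) (d2 := a2 - b2)
      hj2 hi hB1 hA2 hB2
    rw [← hDl] at h2
    rw [h2] at h1
    rw [c1, c3] at h1
    rw [c1, c2, c3]
    linear_combination h1
  · intro L hL hV hj hla hs ha hy hka hd1 hal hd2
    have hb1' : b1 ∈ L := by
      have h1 : b1 = a1 - (a1 - b1) := by ring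
      rw [h1]
      exact sub_mem hka hd1
    have ha2' : a2 ∈ L := by
      have h1 : a2 = (a2 - a1) + a1 := by ring
      rw [h1]
      exact add_mem hal hka
    have hb2' : b2 ∈ L := by
      have h1 : b2 = a2 - (a2 - b2) := by ring
      rw [h1]
      exact sub_mem ha2' hd2
    have hm : ∀ {x : R}, x ∈ L → K.j - x ^ 3 ∈ Cf L K.j := fun hx =>
      sub_mem (p_mem_Cf L K.j) (cube_mem_Cf L K.j hx)
    have hm1 : (K.j - a1 ^ 3) / (K.j - b1 ^ 3) ∈ Cf L K.j := div_mem (hm hka) (hm hb1')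
    have hm2 : (K.j - a2 ^ 3) / (K.j - b2 ^ 3) ∈ Cf L K.j := div_mem (hm ha2') (hm hb2')
    have hDlL : X.Dl ∈ Cf L K.j := by
      rw [hDl]
      exact mul_mem (cube_mem_Cf L K.j hs) (mul_mem hm1 hm2)
    have hco : X.e2 ^ 3 + X.b2 ^ 3 * K.j + X.a2 ^ 3 * K.j ^ 2 ∈ Cf L K.j := by
      have h1 : X.e2 ^ 3 + X.b2 ^ 3 * K.j + X.a2 ^ 3 * K.j ^ 2 = K.j ^ 3 * X.Dl := by
        rw [X.hDl]
        ring
      rw [h1]
      exact mul_mem (cube_mem_Cf L K.j hj) hDlL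
    obtain ⟨k1, k2, k3⟩ := coord_mem K hj hco
    refine X.crit L hL hV hj hla ha hy k3 k2 k1 ⟨(X.A * g1 / g2)⁻¹,
      inv_mem (div_mem (mul_mem hAZ hg1) hg2), inv_ne_zero (div_ne_zero (mul_ne_zero X.A0 g10) g20), ?_⟩
    rw [hAm]
    exact div_mem hm1 hm2

end CZT
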