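import Pool.Agent.CZT.Eg

/-!
# CZT-E6a: Möbius decomposition
-/

namespace CZT

open IntermediateField

universe u v

variable {F : Type u} {R : Type v} [Field F] [Field R] [Algebra F R] [CharP R 3] (K : Ctx F R)

omit [Algebra F R] in
private theorem E6a_sub (x y : R) : (x - y) ^ 3 = x ^ 3 - y ^ 3 := by
  have h3 : (3 : R) = 0 := by
    have h := CharP.cast_eq_zero R 3
    exact_mod_cast h
  linear_combination (x * y ^ 2 - x ^ 2 * y) * h3

theorem moebius {f : R} (hf : f ∈ K.C) (h0 : f ≠ 0) :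
    (∃ t ∈ K.Z, ∃ g ∈ K.Z, g ≠ 0 ∧ ∀ L : IntermediateField F R, t ∈ L → g ^ 3 * f ∈ Cf L K.j) ∨
    (∃ a ∈ K.Z, ∃ b ∈ K.Z, ∃ g ∈ K.Z, g ≠ 0 ∧ a ≠ b ∧ f = g ^ 3 * ((K.j - a ^ 3) / (K.j - b ^ 3))) := by
  have key : ∀ x ∈ K.Z, f = x ^ 3 →
      (∃ t ∈ K.Z, ∃ g ∈ K.Z, g ≠ 0 ∧ ∀ L : IntermediateField F R, t ∈ L → g ^ 3 * f ∈ Cf L K.j) := by
    intro x hx hfx
    have hx0 : x ≠ 0 := by
      intro h
      rw [h] at hfx
      exact h0 (by rw [hfx]; ring)
    refine ⟨0, zero_mem _, x⁻¹, inv_mem hx, inv_ne_zero hx0, fun L _ => ?_⟩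
    have h1 : x⁻¹ ^ 3 * f = 1 := by
      rw [hfx, inv_pow]
      exact inv_mul_cancel₀ (pow_ne_zero 3 hx0)
    rw [h1]
    exact (Cf L K.j).one_mem
  obtain ⟨x, hx, y, hy, z, hz, hfe⟩ := exists_Cf K.jZ hf
  by_cases hz0 : z = 0
  · left
    by_cases hy0 : y = 0
    · refine key x hx ?_
      rw [hfe, hz0, hy0]
      ring
    · refine ⟨x / y, div_mem hx hy, y⁻¹, inv_mem hy, inv_ne_zero hy0, fun L hL => ?_⟩
      have h1 : y⁻¹ ^ 3 * f = (x / y) ^ 3 + K.j := by
        rw [hfe, hz0]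
        field_simp
        ring
      rw [h1]
      exact (Cf L K.j).add_mem (cube_mem_Cf L K.j hL) (p_mem_Cf L K.j)
  · have hbZ : y / z ∈ K.Z := div_mem hy hz
    have hbz : (y / z) * z = y := div_mul_cancel₀ y hz0
    generalize hb : y / z = b at hbZ hbz
    have hjb : K.j - b ^ 3 ≠ 0 := j_ne_cube K b
    have hmain : (K.j - b ^ 3) * f = (z * K.j - b * x) ^ 3 + (x - b * y) ^ 3 * K.j := by
      rw [E6a_sub, E6a_sub, hfe, ← hbz]
      ring
    have hcZ : x - b * y ∈ K.Z := sub_mem hx (mul_mem hbZ hy)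
    have heZ : z * K.j - b * x ∈ K.Z := sub_mem (mul_mem hz K.jZ) (mul_mem hbZ hx)
    generalize x - b * y = c at hmain hcZ
    generalize z * K.j - b * x = e at hmain heZ
    by_cases hc0 : c = 0
    · left
      rw [hc0] at hmain
      have he0 : e ≠ 0 := by
        intro h
        rw [h] at hmain
        have h1 : (K.j - b ^ 3) * f = 0 := by rw [hmain]; ring
        rcases mul_eq_zero.1 h1 with h2 | h2
        · exact hjb h2
        · exact h0 h2
      refine ⟨b, hbZ, e⁻¹, inv_mem heZ, inv_ne_zero he0, fun L hL => ?_⟩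
      have h1 : e⁻¹ ^ 3 * f = (K.j - b ^ 3)⁻¹ := by
        have h2 : f = (K.j - b ^ 3)⁻¹ * e ^ 3 := by
          have h3 : (K.j - b ^ 3) * f = e ^ 3 := by rw [hmain]; ring
          rw [← h3, ← mul_assoc, inv_mul_cancel₀ hjb, one_mul]
        rw [h2, inv_pow, mul_comm, mul_assoc, mul_inv_cancel₀ (pow_ne_zero 3 he0), mul_one]
      rw [h1]
      exact (Cf L K.j).inv_mem ((Cf L K.j).sub_mem (p_mem_Cf L K.j) (cube_mem_Cf L K.j hL))
    · have haZ : -e / c ∈ K.Z := div_mem (neg_mem heZ) hcZ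
      have hac : (-e / c) * c = -e := div_mul_cancel₀ (-e) hc0
      generalize -e / c = a at haZ hac
      have hmain2 : (K.j - b ^ 3) * f = c ^ 3 * (K.j - a ^ 3) := by
        have h1 : e = -(a * c) := by rw [hac]; ring
        rw [hmain, h1]
        ring
      by_cases hab : a = b
      · left
        refine key c hcZ ?_
        rw [hab] at hmain2
        refine mul_left_cancel₀ hjb ?_
        rw [hmain2]
        ring
      · right
        refine ⟨a, haZ, b, hbZ, c, hcZ, hc0, hab, ?_⟩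
        rw [← mul_div_assoc, eq_div_iff hjb, ← hmain2]
        ring

end CZT
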