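import Pool.Agent.CZT.E6a

/-!
# CZT-E6b: nondegeneracy in stage 6

With `p1 = 1 / (Dl A)`, `p2 = A / Dl` one has `Dl = Dl³ p1 p2` and `A = A³ p1 / p2`.  If one of `p1, p2` depends only on one
parameter `t` (up to a cube), then (`norm2` for the other one) `Z` is generated over `V` by `j, la, a, s, t, t1, t2` and `y`, and
`y` is algebraic over the rest by the equation of stage 5, which contradicts `count'`.
-/

namespace CZT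

open IntermediateField

universe u v

variable {F : Type u} {R : Type v} [Field F] [Field R] [Algebra F R] [CharP R 3] (K : Ctx F R)

private theorem E6b_log {L : IntermediateField F R} (hj : K.j ∈ L) {w h : R} (w0 : w ≠ 0) (h0 : h ≠ 0)
    (hu : h ^ 3 * w⁻¹ ∈ Cf L K.j) : K.P w / w ∈ L := by
  have h1 : K.P (h ^ 3 * w⁻¹) = h ^ 3 * K.P w⁻¹ := D_cube_mul K.P h w⁻¹
  rw [Derivation.leibniz_inv, smul_eq_mul] at h1
  have h2 : K.P w / w = -(K.P (h ^ 3 * w⁻¹) / (h ^ 3 * w⁻¹)) := by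
    rw [h1]
    field_simp
  rw [h2]
  exact neg_mem (div_mem (Cf_le hj (P_mem_Cf K hu)) (Cf_le hj hu))

omit [CharP R 3] in
private theorem E6b_Dl (X : St5 K) : X.Dl ∈ K.C := by
  have h1 : K.j ^ 3 * X.Dl ∈ K.C := by
    rw [X.hDl, show X.a2 ^ 3 * K.j ^ 2 + X.b2 ^ 3 * K.j + X.e2 ^ 3 = X.e2 ^ 3 + X.b2 ^ 3 * K.j + X.a2 ^ 3 * K.j ^ 2 by ring]
    exact mk_Cf X.he2 X.hb2 X.ha2
  have h2 : X.Dl = K.j ^ 3 * X.Dl / K.j ^ 3 := by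
    rw [mul_div_cancel_left₀ _ (pow_ne_zero 3 K.j0)]
  rw [h2]
  exact div_mem h1 (cube_mem_Cf _ _ K.jZ)

private theorem E6b_gen (X : St5 K) {t t1 t2 s u v g : R} (ht : t ∈ K.Z) (ht1 : t1 ∈ K.Z) (ht2 : t2 ∈ K.Z)
    (hs : s ∈ K.Z) (hg : g ∈ K.Z) (g0 : g ≠ 0) (hu : ∀ L : IntermediateField F R, t ∈ L → u ∈ Cf L K.j)
    (hv : ∀ L : IntermediateField F R, t1 ∈ L → t2 ∈ L → v ∈ Cf L K.j) (hD : X.Dl = s ^ 3 * (u * v))
    (hA : ∀ L : IntermediateField F R, t ∈ L → t1 ∈ L → t2 ∈ L → g ^ 3 * X.A ∈ Cf L K.j)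
    (hP : ∀ L : IntermediateField F R, K.j ∈ L → t ∈ L → t1 ∈ L → t2 ∈ L →
      K.P (X.Dl * X.A) / (X.Dl * X.A) ∈ L ∧ K.P (X.Dl / X.A) / (X.Dl / X.A) ∈ L) : False := by
  have hT : ∀ i, (![K.j, X.la, X.a, s, t, t1, t2] : Fin 7 → R) i ∈ K.Z := by
    intro i
    fin_cases i
    · exact K.jZ
    · exact X.hla
    · exact X.ha
    · exact hs
    · exact ht
    · exact ht1
    · exact ht2
  have hDL : ∀ L : IntermediateField F R, K.j ∈ L → s ∈ L → t ∈ L → t1 ∈ L → t2 ∈ L →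
      X.Dl ∈ Cf L K.j ∧ X.a2 ∈ L ∧ X.b2 ∈ L ∧ X.e2 ∈ L := by
    intro L hj hs ht ht1 ht2
    have h1 : X.Dl ∈ Cf L K.j := by
      rw [hD]
      exact mul_mem (cube_mem_Cf L _ hs) (mul_mem (hu L ht) (hv L ht1 ht2))
    have h2 : X.e2 ^ 3 + X.b2 ^ 3 * K.j + X.a2 ^ 3 * K.j ^ 2 ∈ Cf L K.j := by
      rw [show X.e2 ^ 3 + X.b2 ^ 3 * K.j + X.a2 ^ 3 * K.j ^ 2 = X.a2 ^ 3 * K.j ^ 2 + X.b2 ^ 3 * K.j + X.e2 ^ 3 by ring,
        ← X.hDl]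
      exact mul_mem (cube_mem_Cf L _ hj) h1
    obtain ⟨h3, h4, h5⟩ := coord_mem K hj h2
    exact ⟨h1, h5, h4, h3⟩
  refine count' K (m := 7) (by norm_num) ![K.j, X.la, X.a, s, t, t1, t2] X.y ?_ ?_
  · have m0 : K.j ∈ GV K ![K.j, X.la, X.a, s, t, t1, t2] := GV_T K ![K.j, X.la, X.a, s, t, t1, t2] 0
    have m1 : X.la ∈ GV K ![K.j, X.la, X.a, s, t, t1, t2] := GV_T K ![K.j, X.la, X.a, s, t, t1, t2] 1
    have m2 : X.a ∈ GV K ![K.j, X.la, X.a, s, t, t1, t2] := GV_T K ![K.j, X.la, X.a, s, t, t1, t2] 2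
    have m3 : s ∈ GV K ![K.j, X.la, X.a, s, t, t1, t2] := GV_T K ![K.j, X.la, X.a, s, t, t1, t2] 3
    have m4 : t ∈ GV K ![K.j, X.la, X.a, s, t, t1, t2] := GV_T K ![K.j, X.la, X.a, s, t, t1, t2] 4
    have m5 : t1 ∈ GV K ![K.j, X.la, X.a, s, t, t1, t2] := GV_T K ![K.j, X.la, X.a, s, t, t1, t2] 5
    have m6 : t2 ∈ GV K ![K.j, X.la, X.a, s, t, t1, t2] := GV_T K ![K.j, X.la, X.a, s, t, t1, t2] 6
    obtain ⟨n1, n2, n3, n4⟩ := hDL _ m0 m3 m4 m5 m6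
    obtain ⟨n5, n6⟩ := hP _ m0 m4 m5 m6
    have n7 := Cf_le m0 n1
    have h1 : (1 : R) ∈ GV K ![K.j, X.la, X.a, s, t, t1, t2] := one_mem _
    have e := X.eqn
    refine alg_of_cubic (c3 := (X.a ^ 3 - X.a) / K.j) (c2 := 1) (c1 := 0)
      (c0 := -1 + X.la * (1 - X.la) * (X.b2 ^ 2 - X.a2 * X.e2 +
    (X.a ^ 3 - X.a) * K.j ^ 2 / (K.j ^ 2 - 1) * X.Dl * ((1 - X.la) * (K.P (X.Dl * X.A) / (X.Dl * X.A)) -
      X.la * (K.P (X.Dl / X.A) / (X.Dl / X.A))))) ?_ (zero_mem _) h1 ?_ (Or.inr one_ne_zero) ?_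
    · refine add_mem (neg_mem h1) (mul_mem (mul_mem m1 (sub_mem h1 m1)) (add_mem (sub_mem (pow_mem n3 2) (mul_mem n2 n4)) ?_))
      exact mul_mem (mul_mem (div_mem (mul_mem (sub_mem (pow_mem m2 3) m2) (pow_mem m0 2)) (sub_mem (pow_mem m0 2) h1)) n7)
        (sub_mem (mul_mem (sub_mem h1 m1) n5) (mul_mem m1 n6))
    · exact div_mem (sub_mem (pow_mem m2 3) m2) m0
    · linear_combination e
  · have m0 : K.j ∈ GW K ![K.j, X.la, X.a, s, t, t1, t2] X.y := GW_T K ![K.j, X.la, X.a, s, t, t1, t2] X.y 0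
    have m1 : X.la ∈ GW K ![K.j, X.la, X.a, s, t, t1, t2] X.y := GW_T K ![K.j, X.la, X.a, s, t, t1, t2] X.y 1
    have m2 : X.a ∈ GW K ![K.j, X.la, X.a, s, t, t1, t2] X.y := GW_T K ![K.j, X.la, X.a, s, t, t1, t2] X.y 2
    have m3 : s ∈ GW K ![K.j, X.la, X.a, s, t, t1, t2] X.y := GW_T K ![K.j, X.la, X.a, s, t, t1, t2] X.y 3
    have m4 : t ∈ GW K ![K.j, X.la, X.a, s, t, t1, t2] X.y := GW_T K ![K.j, X.la, X.a, s, t, t1, t2] X.y 4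
    have m5 : t1 ∈ GW K ![K.j, X.la, X.a, s, t, t1, t2] X.y := GW_T K ![K.j, X.la, X.a, s, t, t1, t2] X.y 5
    have m6 : t2 ∈ GW K ![K.j, X.la, X.a, s, t, t1, t2] X.y := GW_T K ![K.j, X.la, X.a, s, t, t1, t2] X.y 6
    obtain ⟨n1, n2, n3, n4⟩ := hDL _ m0 m3 m4 m5 m6
    exact X.crit _ (GW_le K _ _ hT X.hy) (GW_V K _ _) m0 m1 m2 (GW_s K _ _) n2 n3 n4 ⟨g, hg, g0, hA _ m4 m5 m6⟩

theorem nondeg1 (X : St5 K) : ¬ ∃ t ∈ K.Z, ∃ g ∈ K.Z, g ≠ 0 ∧ ∀ L : IntermediateField F R, t ∈ L →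
    g ^ 3 * (1 / (X.Dl * X.A)) ∈ Cf L K.j := by
  rintro ⟨t, ht, g, hg, g0, h⟩
  have hDC := E6b_Dl K X
  have hDZ : X.Dl ∈ K.Z := Cf_le K.jZ hDC
  have hAZ : X.A ∈ K.Z := Cf_le K.jZ X.hA
  have D0 := X.Dl0
  have A0 := X.A0
  obtain ⟨t1, ht1, t2, ht2, g', hg', g0', h'⟩ := norm2 K (f := X.A / X.Dl) (div_mem X.hA hDC) (div_ne_zero A0 D0)
  refine E6b_gen K X (s := X.Dl / (g * g')) (u := g ^ 3 * (1 / (X.Dl * X.A))) (v := g' ^ 3 * (X.A / X.Dl))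
    (g := g / (X.A * g')) ht ht1 ht2 (div_mem hDZ (mul_mem hg hg')) (div_mem hg (mul_mem hAZ hg'))
    (div_ne_zero g0 (mul_ne_zero A0 g0')) h h' ?_ (fun L hL hL1 hL2 => ?_) (fun L hj hL hL1 hL2 => ⟨?_, ?_⟩)
  · field_simp
  · have e1 : (g / (X.A * g')) ^ 3 * X.A = g ^ 3 * (1 / (X.Dl * X.A)) / (g' ^ 3 * (X.A / X.Dl)) := by
      field_simp
    rw [e1]
    exact div_mem (h L hL) (h' L hL1 hL2)
  · refine E6b_log K hj (h := g) (mul_ne_zero D0 A0) g0 ?_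
    rw [← one_div]
    exact h L hL
  · refine E6b_log K hj (h := g') (div_ne_zero D0 A0) g0' ?_
    rw [inv_div]
    exact h' L hL1 hL2

theorem nondeg2 (X : St5 K) : ¬ ∃ t ∈ K.Z, ∃ g ∈ K.Z, g ≠ 0 ∧ ∀ L : IntermediateField F R, t ∈ L →
    g ^ 3 * (X.A / X.Dl) ∈ Cf L K.j := by
  rintro ⟨t, ht, g, hg, g0, h⟩
  have hDC := E6b_Dl K X
  have hDZ : X.Dl ∈ K.Z := Cf_le K.jZ hDC
  have hAZ : X.A ∈ K.Z := Cf_le K.jZ X.hA
  have D0 := X.Dl0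
  have A0 := X.A0
  obtain ⟨t1, ht1, t2, ht2, g', hg', g0', h'⟩ := norm2 K (f := 1 / (X.Dl * X.A)) (div_mem (one_mem _) (mul_mem hDC X.hA))
    (one_div_ne_zero (mul_ne_zero D0 A0))
  refine E6b_gen K X (s := X.Dl / (g * g')) (u := g ^ 3 * (X.A / X.Dl)) (v := g' ^ 3 * (1 / (X.Dl * X.A)))
    (g := g' / (X.A * g)) ht ht1 ht2 (div_mem hDZ (mul_mem hg hg')) (div_mem hg' (mul_mem hAZ hg))
    (div_ne_zero g0' (mul_ne_zero A0 g0)) h h' ?_ (fun L hL hL1 hL2 => ?_) (fun L hj hL hL1 hL2 => ⟨?_, ?_⟩)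
  · field_simp
  · have e1 : (g' / (X.A * g)) ^ 3 * X.A = g' ^ 3 * (1 / (X.Dl * X.A)) / (g ^ 3 * (X.A / X.Dl)) := by
      field_simp
    rw [e1]
    exact div_mem (h' L hL1 hL2) (h L hL)
  · refine E6b_log K hj (h := g') (mul_ne_zero D0 A0) g0' ?_
    rw [← one_div]
    exact h' L hL1 hL2
  · refine E6b_log K hj (h := g) (div_ne_zero D0 A0) g0 ?_
    rw [inv_div]
    exact h L hL

end CZT
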