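import Pool.Agent.CZT.Eg

/-!
# CZT-E8a: nondegeneracy in the last step

Both statements by counting (`count'`): if one of them fails then `sg` is a rational function of the seven elements
`j, a, ka, d1, al, d2, pi`, and `y` is algebraic over the field generated by `V` and these seven elements.
-/

namespace CZT

open IntermediateField

universe u v

variable {F : Type u} {R : Type v} [Field F] [Field R] [Algebra F R] [CharP R 3] (K : Ctx F R)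

omit [CharP R 3] in
private theorem E8a_T (X : St7 K) (i : Fin 7) : (![K.j, X.a, X.ka, X.d1, X.al, X.d2, X.pi] : Fin 7 → R) i ∈ K.Z := by
  fin_cases i
  · exact K.jZ
  · exact X.ha
  · exact X.hka
  · exact X.hd1
  · exact X.hal
  · exact X.hd2
  · exact X.hpi

omit [CharP R 3] in
private theorem E8a_phi (X : St7 K) : (X.a ^ 3 - X.a) / K.j ≠ 0 := by
  have h : X.a ^ 3 - X.a = X.a * (X.a ^ 2 - 1) := by ring
  rw [h]
  exact div_ne_zero (mul_ne_zero X.a0 (sub_ne_zero.2 X.asq)) K.j0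

/-- the counting argument -/
private theorem E8a_main (X : St7 K) (h1 : X.sg ∈ GV K ![K.j, X.a, X.ka, X.d1, X.al, X.d2, X.pi])
    (h2 : IsAlgebraic (GV K ![K.j, X.a, X.ka, X.d1, X.al, X.d2, X.pi]) X.y) : False := by
  refine count' K (by norm_num) ![K.j, X.a, X.ka, X.d1, X.al, X.d2, X.pi] X.y h2 ?_
  have hT := GW_T K ![K.j, X.a, X.ka, X.d1, X.al, X.d2, X.pi] X.y
  have hle : GV K ![K.j, X.a, X.ka, X.d1, X.al, X.d2, X.pi] ≤ GW K ![K.j, X.a, X.ka, X.d1, X.al, X.d2, X.pi] X.y :=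
    adjoin.mono _ _ _ Set.subset_union_left
  exact X.crit _ (GW_le K _ _ (E8a_T K X) X.hy) (GW_V K _ _) (hT 0) (hT 1) (GW_s K _ _) (hT 2) (hT 3) (hT 4) (hT 5)
    (hle h1) (hT 6)

theorem S_ne (X : St7 K) : 1 - (X.a ^ 3 - X.a) / K.j * X.sg * X.d1 ^ 2 ≠ 0 := by
  intro h
  have hphi := E8a_phi K X
  have hT := GV_T K ![K.j, X.a, X.ka, X.d1, X.al, X.d2, X.pi]
  have hj : K.j ∈ GV K ![K.j, X.a, X.ka, X.d1, X.al, X.d2, X.pi] := hT 0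
  have ha : X.a ∈ GV K ![K.j, X.a, X.ka, X.d1, X.al, X.d2, X.pi] := hT 1
  have hka : X.ka ∈ GV K ![K.j, X.a, X.ka, X.d1, X.al, X.d2, X.pi] := hT 2
  have hd1 : X.d1 ∈ GV K ![K.j, X.a, X.ka, X.d1, X.al, X.d2, X.pi] := hT 3
  have hal : X.al ∈ GV K ![K.j, X.a, X.ka, X.d1, X.al, X.d2, X.pi] := hT 4
  have hd2 : X.d2 ∈ GV K ![K.j, X.a, X.ka, X.d1, X.al, X.d2, X.pi] := hT 5
  have hpi : X.pi ∈ GV K ![K.j, X.a, X.ka, X.d1, X.al, X.d2, X.pi] := hT 6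
  have hphi' : (X.a ^ 3 - X.a) / K.j ∈ GV K ![K.j, X.a, X.ka, X.d1, X.al, X.d2, X.pi] :=
    div_mem (sub_mem (pow_mem ha 3) ha) hj
  have hsg : X.sg ∈ GV K ![K.j, X.a, X.ka, X.d1, X.al, X.d2, X.pi] := by
    have e : X.sg = ((X.a ^ 3 - X.a) / K.j * X.d1 ^ 2)⁻¹ := by
      refine eq_inv_of_mul_eq_one_left ?_
      linear_combination -h
    rw [e]
    exact inv_mem (mul_mem hphi' (pow_mem hd1 2))
  refine E8a_main K X hsg ?_
  refine alg_of_cubic (c3 := (X.a ^ 3 - X.a) / K.j) (c2 := 1) (c1 := 0)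
    (c0 := -1 - X.sg * X.pi * ((K.j - X.ka ^ 3) * (X.d1 + X.d2) - X.al ^ 2 * X.d1 * (X.al - X.d2) -
    (X.a ^ 3 - X.a) / K.j * (X.sg * (K.j - X.ka ^ 3 - X.al ^ 3) * X.d1 ^ 3 +
      X.pi * (K.j - X.ka ^ 3) * X.d2 ^ 3))) ?_ (zero_mem _) (one_mem _) hphi' (Or.inl hphi) ?_
  · have hi : K.j - X.ka ^ 3 ∈ GV K ![K.j, X.a, X.ka, X.d1, X.al, X.d2, X.pi] := sub_mem hj (pow_mem hka 3)
    refine sub_mem (neg_mem (one_mem _)) (mul_mem (mul_mem hsg hpi) (sub_mem (sub_mem (mul_mem hi (add_mem hd1 hd2))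
      (mul_mem (mul_mem (pow_mem hal 2) hd1) (sub_mem hal hd2))) (mul_mem hphi' (add_mem ?_ ?_))))
    · exact mul_mem (mul_mem hsg (sub_mem hi (pow_mem hal 3))) (pow_mem hd1 3)
    · exact mul_mem (mul_mem hpi hi) (pow_mem hd2 3)
  · linear_combination X.eqn

theorem C_ne (X : St7 K) : (X.a ^ 3 - X.a) / K.j * X.y ^ 3 + X.y ^ 2 - 1 ≠ 0 := by
  intro h
  have hphi := E8a_phi K X
  have hT := GV_T K ![K.j, X.a, X.ka, X.d1, X.al, X.d2, X.pi]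
  have hj : K.j ∈ GV K ![K.j, X.a, X.ka, X.d1, X.al, X.d2, X.pi] := hT 0
  have ha : X.a ∈ GV K ![K.j, X.a, X.ka, X.d1, X.al, X.d2, X.pi] := hT 1
  have hka : X.ka ∈ GV K ![K.j, X.a, X.ka, X.d1, X.al, X.d2, X.pi] := hT 2
  have hd1 : X.d1 ∈ GV K ![K.j, X.a, X.ka, X.d1, X.al, X.d2, X.pi] := hT 3
  have hal : X.al ∈ GV K ![K.j, X.a, X.ka, X.d1, X.al, X.d2, X.pi] := hT 4
  have hd2 : X.d2 ∈ GV K ![K.j, X.a, X.ka, X.d1, X.al, X.d2, X.pi] := hT 5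
  have hpi : X.pi ∈ GV K ![K.j, X.a, X.ka, X.d1, X.al, X.d2, X.pi] := hT 6
  have hphi' : (X.a ^ 3 - X.a) / K.j ∈ GV K ![K.j, X.a, X.ka, X.d1, X.al, X.d2, X.pi] :=
    div_mem (sub_mem (pow_mem ha 3) ha) hj
  have hi : K.j - X.ka ^ 3 ∈ GV K ![K.j, X.a, X.ka, X.d1, X.al, X.d2, X.pi] := sub_mem hj (pow_mem hka 3)
  have h0 : (K.j - X.ka ^ 3) * (X.d1 + X.d2) - X.al ^ 2 * X.d1 * (X.al - X.d2) -
    (X.a ^ 3 - X.a) / K.j * (X.sg * (K.j - X.ka ^ 3 - X.al ^ 3) * X.d1 ^ 3 +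
      X.pi * (K.j - X.ka ^ 3) * X.d2 ^ 3) = 0 := by
    have h1 := X.eqn
    rw [h] at h1
    exact (mul_eq_zero.1 h1.symm).resolve_left (mul_ne_zero X.sg0 X.pi0)
  have hne : (X.a ^ 3 - X.a) / K.j * (K.j - X.ka ^ 3 - X.al ^ 3) * X.d1 ^ 3 ≠ 0 :=
    mul_ne_zero (mul_ne_zero hphi X.A2) (pow_ne_zero 3 X.d10)
  have hsg : X.sg ∈ GV K ![K.j, X.a, X.ka, X.d1, X.al, X.d2, X.pi] := by
    have e : X.sg = ((K.j - X.ka ^ 3) * (X.d1 + X.d2) - X.al ^ 2 * X.d1 * (X.al - X.d2) -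
        (X.a ^ 3 - X.a) / K.j * (X.pi * (K.j - X.ka ^ 3) * X.d2 ^ 3)) /
        ((X.a ^ 3 - X.a) / K.j * (K.j - X.ka ^ 3 - X.al ^ 3) * X.d1 ^ 3) := by
      rw [eq_div_iff hne]
      linear_combination -h0
    rw [e]
    refine div_mem (sub_mem (sub_mem (mul_mem hi (add_mem hd1 hd2))
      (mul_mem (mul_mem (pow_mem hal 2) hd1) (sub_mem hal hd2)))
      (mul_mem hphi' (mul_mem (mul_mem hpi hi) (pow_mem hd2 3)))) ?_
    exact mul_mem (mul_mem hphi' (sub_mem hi (pow_mem hal 3))) (pow_mem hd1 3)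
  refine E8a_main K X hsg ?_
  refine alg_of_cubic (c3 := (X.a ^ 3 - X.a) / K.j) (c2 := 1) (c1 := 0) (c0 := -1)
    (neg_mem (one_mem _)) (zero_mem _) (one_mem _) hphi' (Or.inl hphi) ?_
  linear_combination h

end CZT
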