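import Pool.Agent.CZT.CDefs

/-!
# CZT-Ea: elements of `Cf` and `Bf`
-/

set_option autoImplicit false

namespace CZT

open IntermediateField

universe u v

variable {F : Type u} {R : Type v} [Field F] [Field R] [Algebra F R]

theorem exists_Cf [CharP R 3] {L : IntermediateField F R} {j : R} (hj : j ∈ L) {f : R} (hf : f ∈ Cf L j) :
    ∃ l0 ∈ L, ∃ l1 ∈ L, ∃ l2 ∈ L, f = l0 ^ 3 + l1 ^ 3 * j + l2 ^ 3 * j ^ 2 := by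
  obtain ⟨l, hl, h⟩ := (mem_Cf hj).1 hf
  refine ⟨l 0, hl 0, l 1, hl 1, l 2, hl 2, ?_⟩
  rw [h, Fin.sum_univ_three]
  simp

/-- the converse of `exists_Cf` -/
theorem mk_Cf {L : IntermediateField F R} {j l0 l1 l2 : R} (h0 : l0 ∈ L) (h1 : l1 ∈ L) (h2 : l2 ∈ L) :
    l0 ^ 3 + l1 ^ 3 * j + l2 ^ 3 * j ^ 2 ∈ Cf L j :=
  (Cf L j).add_mem ((Cf L j).add_mem (cube_mem_Cf L j h0) ((Cf L j).mul_mem (cube_mem_Cf L j h1) (p_mem_Cf L j)))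
    ((Cf L j).mul_mem (cube_mem_Cf L j h2) ((Cf L j).pow_mem (p_mem_Cf L j) 2))

theorem exists_Bf [CharP R 3] {L : IntermediateField F R} {j n : R} (hj : j ∈ L) (hn : n ∈ L) {f : R}
    (hf : f ∈ Bf L j n) : ∃ h0 ∈ Cf L j, ∃ h1 ∈ Cf L j, ∃ h2 ∈ Cf L j, f = h0 + h1 * n + h2 * n ^ 2 := by
  obtain ⟨l, hl, h⟩ := (mem_Bf hj hn).1 hf
  refine ⟨_, mk_Cf (hl 0 0) (hl 1 0) (hl 2 0), _, mk_Cf (hl 0 1) (hl 1 1) (hl 2 1), _,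
    mk_Cf (hl 0 2) (hl 1 2) (hl 2 2), ?_⟩
  rw [h]
  simp only [Fin.sum_univ_three]
  simp
  ring

/-- the converse of `exists_Bf` -/
theorem mk_Bf {L : IntermediateField F R} {j n h0 h1 h2 : R} (hh0 : h0 ∈ Cf L j) (hh1 : h1 ∈ Cf L j)
    (hh2 : h2 ∈ Cf L j) : h0 + h1 * n + h2 * n ^ 2 ∈ Bf L j n :=
  (Bf L j n).add_mem ((Bf L j n).add_mem (Cf_le_Bf L j n hh0) ((Bf L j n).mul_mem (Cf_le_Bf L j n hh1) (q_mem_Bf L j n)))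
    ((Bf L j n).mul_mem (Cf_le_Bf L j n hh2) ((Bf L j n).pow_mem (q_mem_Bf L j n) 2))

end CZT
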