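import Pool.Agent.CZT.Ea

/-!
# CZT-Ec: the derivations on `Cf` and `Bf`

Plan.  `P (g ^ 3) = 3 g² P g = 0`.  For `P` with `P j = j² - 1`: the set `{f ∈ Cf L j | P f ∈ Cf L j}` is a subfield which contains the
generators (`Subfield.closure_induction`; `P f⁻¹ = - P f / f²`, `Derivation.leibniz_inv`).  Same for `Bf`.
`P_cube_CC`: write `f = l0³ + l1³ j + l2³ j²` (`exists_Cf`): `P j = j² - 1`, `P² j = j - j³`, `P³ j = P j`; `P j² = j - j³`, `P³ j² = P j²`.
`Q_eq`: both sides are derivations... or again from `exists_Cf`.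
-/

namespace CZT

open IntermediateField

universe u v

variable {F : Type u} {R : Type v} [Field F] [Field R] [Algebra F R]

theorem D_cube [CharP R 3] (D : Derivation F R R) (g : R) : D (g ^ 3) = 0 := by
  rw [Derivation.leibniz_pow, nsmul_eq_mul, CharP.cast_eq_zero R 3, zero_mul]

theorem D_cube_mul [CharP R 3] (D : Derivation F R R) (g f : R) : D (g ^ 3 * f) = g ^ 3 * D f := by
  rw [Derivation.leibniz, D_cube, smul_zero, add_zero, smul_eq_mul]

private theorem Ec_clos (D : Derivation F R R) (T : Set R) (h : ∀ t ∈ T, D t ∈ Subfield.closure T) {f : R}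
    (hf : f ∈ Subfield.closure T) : D f ∈ Subfield.closure T := by
  induction hf using Subfield.closure_induction with
  | mem x hx => exact h x hx
  | one => rw [Derivation.map_one_eq_zero]; exact zero_mem _
  | add x y _ _ hx hy => rw [map_add]; exact add_mem hx hy
  | neg x _ hx => rw [map_neg]; exact neg_mem hx
  | inv x hx0 hx =>
    rw [Derivation.leibniz_inv, smul_eq_mul]
    exact mul_mem (neg_mem (pow_mem (inv_mem hx0) 2)) hx
  | mul x y hx0 hy0 hx hy =>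
    rw [Derivation.leibniz, smul_eq_mul, smul_eq_mul]
    exact add_mem (mul_mem hx0 hy) (mul_mem hy0 hx)

variable [CharP R 3] (K : Ctx F R)

theorem P_mem_Cf {L : IntermediateField F R} {f : R} (hf : f ∈ Cf L K.j) : K.P f ∈ Cf L K.j := by
  refine Ec_clos K.P _ ?_ hf
  rintro t (⟨l, _, rfl⟩ | ht)
  · rw [D_cube]
    exact zero_mem _
  · rw [Set.mem_singleton_iff] at ht
    rw [ht, K.Pj]
    exact sub_mem (pow_mem (p_mem_Cf L K.j) 2) (one_mem _)

theorem P_mem_Bf {L : IntermediateField F R} {f : R} (hf : f ∈ Bf L K.j K.n) : K.P f ∈ Bf L K.j K.n := by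
  refine Ec_clos K.P _ ?_ hf
  rintro t (⟨l, _, rfl⟩ | rfl | ht)
  · rw [D_cube]
    exact zero_mem _
  · rw [K.Pj]
    exact sub_mem (pow_mem (p_mem_Bf L K.j K.n) 2) (one_mem _)
  · rw [Set.mem_singleton_iff] at ht
    rw [ht, K.Pn]
    exact zero_mem _

theorem Q_mem_Bf {L : IntermediateField F R} {f : R} (hf : f ∈ Bf L K.j K.n) (hj : K.j ∈ L) :
    K.Q f ∈ Bf L K.j K.n := by
  refine Ec_clos K.Q _ ?_ hf
  rintro t (⟨l, _, rfl⟩ | rfl | ht)
  · rw [D_cube]
    exact zero_mem _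
  · rw [K.Qj]
    exact mul_mem (div_mem (add_mem (q_mem_Bf L K.j K.n) (one_mem _)) (pow_mem (p_mem_Bf L K.j K.n) 3))
      (sub_mem (pow_mem (p_mem_Bf L K.j K.n) 2) (one_mem _))
  · rw [Set.mem_singleton_iff] at ht
    rw [ht, K.Qn]
    exact sub_mem (pow_mem (q_mem_Bf L K.j K.n) 2) (one_mem _)

private theorem Ec_two : (2 : R) = -1 := by
  have h : ((3 : ℕ) : R) = 0 := CharP.cast_eq_zero R 3
  push_cast at h
  linear_combination h

private theorem Ec_D (D : Derivation F R R) (j l0 l1 l2 : R) :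
    D (l0 ^ 3 + l1 ^ 3 * j + l2 ^ 3 * j ^ 2) = (l1 ^ 3 - l2 ^ 3 * j) * D j := by
  rw [map_add, map_add, D_cube, D_cube_mul, D_cube_mul, Derivation.leibniz_pow, nsmul_eq_mul, smul_eq_mul]
  have h2 : ((2 : ℕ) : R) = -1 := by
    push_cast
    exact Ec_two
  rw [h2]
  ring

/-- `P³ = P` on `Cf` -/
theorem P_three {L : IntermediateField F R} (hj : K.j ∈ L) {f : R} (hf : f ∈ Cf L K.j) :
    K.P (K.P (K.P f)) = K.P f := by
  obtain ⟨l0, _, l1, _, l2, _, rfl⟩ := exists_Cf hj hf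
  have h3 : (3 : R) = 0 := by
    have h := CharP.cast_eq_zero R 3
    push_cast at h
    exact h
  have h1 : K.P (l0 ^ 3 + l1 ^ 3 * K.j + l2 ^ 3 * K.j ^ 2) =
      (l1 ^ 3 * (K.j ^ 2 - 1)) + l2 ^ 3 * (K.j - K.j ^ 3) := by
    rw [Ec_D, K.Pj]
    ring
  have hp : K.P (K.j ^ 2 - 1) = K.j - K.j ^ 3 := by
    rw [map_sub, Derivation.map_one_eq_zero, sub_zero, Derivation.leibniz_pow, nsmul_eq_mul, smul_eq_mul, K.Pj]
    push_cast
    linear_combination (K.j ^ 3 - K.j) * h3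
  have hq : K.P (K.j - K.j ^ 3) = K.j ^ 2 - 1 := by
    rw [map_sub, D_cube, sub_zero, K.Pj]
  rw [h1, map_add, D_cube_mul, D_cube_mul, hp, hq, map_add, D_cube_mul, D_cube_mul, hp, hq]

/-- on `Cf` one has `Q = ((n + 1) / j³) P` -/
theorem Q_eq {L : IntermediateField F R} (hj : K.j ∈ L) {f : R} (hf : f ∈ Cf L K.j) :
    K.Q f = (K.n + 1) / K.j ^ 3 * K.P f := by
  obtain ⟨l0, _, l1, _, l2, _, rfl⟩ := exists_Cf hj hf
  rw [Ec_D, Ec_D, K.Qj, K.Pj]
  ring

end CZT
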