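import Pool.Agent.CZT.Ec

/-!
# CZT-Ed: linear independence

Plan.  Everything follows from `K.ind` (and `exists_Cf` with `L = ⊤`, or with `L = Z`).
-/

namespace CZT

open IntermediateField

universe u v

variable {F : Type u} {R : Type v} [Field F] [Field R] [Algebra F R] [CharP R 3] (K : Ctx F R)

/-- `1, j, j²` are independent over the cubes -/
theorem ind_j {x y z : R} (h : x ^ 3 + y ^ 3 * K.j + z ^ 3 * K.j ^ 2 = 0) : x = 0 ∧ y = 0 ∧ z = 0 := by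
  have h1 := K.ind ![![x, 0, 0], ![y, 0, 0], ![z, 0, 0]] (by
    simp [Fin.sum_univ_three]
    linear_combination h)
  have e0 := h1 0 0
  have e1 := h1 1 0
  have e2 := h1 2 0
  simp at e0 e1 e2
  exact ⟨e0, e1, e2⟩

theorem ind_j' {x y z x' y' z' : R} (h : x ^ 3 + y ^ 3 * K.j + z ^ 3 * K.j ^ 2 = x' ^ 3 + y' ^ 3 * K.j + z' ^ 3 * K.j ^ 2) :
    x = x' ∧ y = y' ∧ z = z' := by
  have h3 : (3 : R) = 0 := by exact_mod_cast CharP.cast_eq_zero R 3
  obtain ⟨e0, e1, e2⟩ := ind_j K (x := x - x') (y := y - y') (z := z - z') (by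
    linear_combination h + (-x ^ 2 * x' + x * x' ^ 2) * h3 + (-y ^ 2 * y' + y * y' ^ 2) * K.j * h3 +
      (-z ^ 2 * z' + z * z' ^ 2) * K.j ^ 2 * h3)
  exact ⟨sub_eq_zero.1 e0, sub_eq_zero.1 e1, sub_eq_zero.1 e2⟩

/-- the coordinates of an element of `Cf L j` are in `L` -/
theorem coord_mem {L : IntermediateField F R} (hj : K.j ∈ L) {x y z : R}
    (h : x ^ 3 + y ^ 3 * K.j + z ^ 3 * K.j ^ 2 ∈ Cf L K.j) : x ∈ L ∧ y ∈ L ∧ z ∈ L := by
  obtain ⟨l0, h0, l1, h1, l2, h2, he⟩ := exists_Cf hj h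
  obtain ⟨e0, e1, e2⟩ := ind_j' K he
  rw [e0, e1, e2]
  exact ⟨h0, h1, h2⟩

/-- `j` is not a cube -/
theorem j_ne_cube (a : R) : K.j - a ^ 3 ≠ 0 := by
  intro h
  obtain ⟨-, e1, -⟩ := ind_j K (x := -a) (y := 1) (z := 0) (by linear_combination h)
  exact one_ne_zero e1

/-- `1, n, n²` are independent over `C_Z` -/
theorem ind_n {x y z : R} (hx : x ∈ K.C) (hy : y ∈ K.C) (hz : z ∈ K.C) (h : x + y * K.n + z * K.n ^ 2 = 0) :
    x = 0 ∧ y = 0 ∧ z = 0 := by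
  obtain ⟨x0, -, x1, -, x2, -, ex⟩ := exists_Cf K.jZ hx
  obtain ⟨y0, -, y1, -, y2, -, ey⟩ := exists_Cf K.jZ hy
  obtain ⟨z0, -, z1, -, z2, -, ez⟩ := exists_Cf K.jZ hz
  have h1 := K.ind ![![x0, y0, z0], ![x1, y1, z1], ![x2, y2, z2]] (by
    rw [ex, ey, ez] at h
    simp [Fin.sum_univ_three]
    linear_combination h)
  have e00 := h1 0 0
  have e01 := h1 0 1
  have e02 := h1 0 2
  have e10 := h1 1 0
  have e11 := h1 1 1
  have e12 := h1 1 2
  have e20 := h1 2 0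
  have e21 := h1 2 1
  have e22 := h1 2 2
  simp at e00 e01 e02 e10 e11 e12 e20 e21 e22
  rw [ex, ey, ez, e00, e01, e02, e10, e11, e12, e20, e21, e22]
  simp

/-- `n` is not in `C_Z` -/
theorem n_not_mem {f : R} (hf : f ∈ K.C) : K.n - f ≠ 0 := by
  intro h
  obtain ⟨-, e1, -⟩ := ind_n K (x := -f) (y := 1) (z := 0) (K.C.neg_mem hf) K.C.one_mem K.C.zero_mem
    (by linear_combination h)
  exact one_ne_zero e1

end CZT
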