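import Pool.Agent.CZT.Ed

/-!
# CZT-Ee: the map `p`

`p f` is the cube root of `f - P (P f)`; for `f = x³ + y³ j + z³ j²` it is `x + j y + z`.  It is additive, `p (g³ f) = g p f`, and the values
on `P f`, `f P f`, `f² P f`, `P f / f` are computed.
-/

namespace CZT

open IntermediateField

universe u v

variable {F : Type u} {R : Type v} [Field F] [Field R] [Algebra F R] [CharP R 3] (K : Ctx F R)

private theorem Ee_inj {F : Type v} [Field F] [CharP F 3] {x y : F} (h : x ^ 3 = y ^ 3) : x = y := by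
  have h3 : (3 : F) = 0 := CharP.ofNat_eq_zero F 3
  have h1 : (x - y) ^ 3 = 0 := by linear_combination h - x * y * (x - y) * h3
  exact sub_eq_zero.1 (pow_eq_zero_iff three_ne_zero |>.1 h1)

private theorem Ee_core (x y z : R) : (x ^ 3 + y ^ 3 * K.j + z ^ 3 * K.j ^ 2) -
    K.P (K.P (x ^ 3 + y ^ 3 * K.j + z ^ 3 * K.j ^ 2)) = (x + K.j * y + z) ^ 3 := by
  have h3 : (3 : R) = 0 := CharP.ofNat_eq_zero R 3
  have e2 : K.P (K.j ^ 2) = K.j - K.j ^ 3 := by
    rw [K.P.leibniz_pow, K.Pj]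
    simp only [smul_eq_mul, nsmul_eq_mul]
    push_cast
    linear_combination (K.j ^ 3 - K.j) * h3
  have e1 : K.P (K.j ^ 2 - 1) = K.j - K.j ^ 3 := by
    rw [map_sub, e2, K.P.map_one_eq_zero, sub_zero]
  have e4 : K.P (K.j - K.j ^ 3) = K.j ^ 2 - 1 := by
    rw [map_sub, D_cube, K.Pj, sub_zero]
  simp only [map_add, D_cube, D_cube_mul, K.Pj, e2, e1, e4, zero_add]
  linear_combination (-(x * (K.j * y) * (x + K.j * y)) - (x + K.j * y) * z * (x + K.j * y + z)) * h3

theorem cr_cube (g : R) : cr (g ^ 3) = g := by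
  have h : ∃ y : R, y ^ 3 = g ^ 3 := ⟨g, rfl⟩
  have h1 : cr (g ^ 3) = h.choose := by
    unfold cr
    rw [dif_pos h]
  rw [h1]
  exact Ee_inj h.choose_spec

theorem cube_inj {x y : R} (h : x ^ 3 = y ^ 3) : x = y := by
  exact Ee_inj h

theorem p_eq (x y z : R) : K.p (x ^ 3 + y ^ 3 * K.j + z ^ 3 * K.j ^ 2) = x + K.j * y + z := by
  have h := Ee_core K x y z
  show cr _ = _
  rw [h, cr_cube]

theorem p_spec {f : R} (hf : f ∈ K.C) : (K.p f) ^ 3 = f - K.P (K.P f) := by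
  obtain ⟨x, -, y, -, z, -, rfl⟩ := exists_Cf K.jZ hf
  rw [p_eq, Ee_core]

theorem p_mem {L : IntermediateField F R} (hL : L ≤ K.Z) (hj : K.j ∈ L) {f : R} (hf : f ∈ Cf L K.j) : K.p f ∈ L := by
  obtain ⟨x, hx, y, hy, z, hz, rfl⟩ := exists_Cf hj hf
  rw [p_eq]
  exact add_mem (add_mem hx (mul_mem hj hy)) hz

theorem p_add {f g : R} (hf : f ∈ K.C) (hg : g ∈ K.C) : K.p (f + g) = K.p f + K.p g := by
  have h3 : (3 : R) = 0 := CharP.ofNat_eq_zero R 3
  apply Ee_inj
  have h1 := p_spec K hf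
  have h2 := p_spec K hg
  have h4 := p_spec K (add_mem hf hg)
  rw [map_add, map_add] at h4
  linear_combination h4 - h1 - h2 - K.p f * K.p g * (K.p f + K.p g) * h3

theorem p_sub {f g : R} (hf : f ∈ K.C) (hg : g ∈ K.C) : K.p (f - g) = K.p f - K.p g := by
  have h3 : (3 : R) = 0 := CharP.ofNat_eq_zero R 3
  apply Ee_inj
  have h1 := p_spec K hf
  have h2 := p_spec K hg
  have h4 := p_spec K (sub_mem hf hg)
  rw [map_sub, map_sub] at h4
  linear_combination h4 - h1 + h2 + K.p f * K.p g * (K.p f - K.p g) * h3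

theorem p_cube_mul {f : R} (g : R) (hf : f ∈ K.C) : K.p (g ^ 3 * f) = g * K.p f := by
  have h : g ^ 3 * f - K.P (K.P (g ^ 3 * f)) = (g * K.p f) ^ 3 := by
    rw [D_cube_mul, D_cube_mul, mul_pow, p_spec K hf]
    ring
  show cr _ = _
  rw [h, cr_cube]

theorem p_one : K.p 1 = 1 := by
  have h : (1 : R) - K.P (K.P 1) = 1 ^ 3 := by
    rw [K.P.map_one_eq_zero, map_zero, sub_zero, one_pow]
  show cr _ = _
  rw [h, cr_cube]

/-- `p (f³) = f` -/
theorem p_cube (f : R) : K.p (f ^ 3) = f := by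
  have h : f ^ 3 - K.P (K.P (f ^ 3)) = f ^ 3 := by
    rw [D_cube, map_zero, sub_zero]
  show cr _ = _
  rw [h, cr_cube]

theorem p_P {f : R} (hf : f ∈ K.C) : K.p (K.P f) = 0 := by
  have h : K.P f - K.P (K.P (K.P f)) = 0 ^ 3 := by
    rw [P_three K K.jZ hf, sub_self, zero_pow three_ne_zero]
  show cr _ = _
  rw [h, cr_cube]

theorem p_mul_P {f : R} (hf : f ∈ K.C) : K.p (f * K.P f) = 0 := by
  have h3 : (3 : R) = 0 := CharP.ofNat_eq_zero R 3
  have h : f * K.P f = K.P (-(f ^ 2)) := by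
    rw [map_neg, K.P.leibniz_pow]
    simp only [smul_eq_mul, nsmul_eq_mul]
    push_cast
    linear_combination (f * K.P f) * h3
  rw [h]
  exact p_P K (neg_mem (pow_mem hf 2))

theorem p_sq_P {f : R} (hf : f ∈ K.C) : K.p (f ^ 2 * K.P f) = K.P f := by
  have h3 : (3 : R) = 0 := CharP.ofNat_eq_zero R 3
  have hP := P_three K K.jZ hf
  have h : f ^ 2 * K.P f - K.P (K.P (f ^ 2 * K.P f)) = K.P f ^ 3 := by
    have e1 : K.P (f ^ 2 * K.P f) = f ^ 2 * K.P (K.P f) + K.P f * (2 * f * K.P f) := by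
      rw [K.P.leibniz, K.P.leibniz_pow]
      simp only [smul_eq_mul, nsmul_eq_mul]
      push_cast
      ring
    have e2 : K.P (f ^ 2) = 2 * f * K.P f := by
      rw [K.P.leibniz_pow]
      simp only [smul_eq_mul, nsmul_eq_mul]
      push_cast
      ring
    have e3 : K.P (K.P f * (2 * f * K.P f)) = 4 * f * K.P f * K.P (K.P f) + 2 * K.P f ^ 3 := by
      have e4 : K.P f * (2 * f * K.P f) = (f + f) * (K.P f * K.P f) := by ring
      rw [e4, K.P.leibniz, K.P.leibniz, map_add]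
      simp only [smul_eq_mul]
      ring
    rw [e1, map_add, K.P.leibniz, e2, e3, hP]
    simp only [smul_eq_mul]
    linear_combination (-(2 * f * K.P f * K.P (K.P f)) - K.P f ^ 3) * h3
  show cr _ = _
  rw [h, cr_cube]

theorem p_log {f : R} (hf : f ∈ K.C) (h0 : f ≠ 0) : K.p (K.P f / f) = K.P f / f := by
  have h3 : (3 : R) = 0 := CharP.ofNat_eq_zero R 3
  have hP := P_three K K.jZ hf
  obtain ⟨w, hw⟩ : ∃ w, w = K.P f / f := ⟨_, rfl⟩
  have h1 : w * f = K.P f := by rw [hw, div_mul_cancel₀ _ h0]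
  have h2 : w * K.P f + f * K.P w = K.P (K.P f) := by
    rw [← h1, K.P.leibniz, smul_eq_mul, smul_eq_mul, h1]
  have h4 : w * K.P (K.P f) + K.P f * K.P w + (f * K.P (K.P w) + K.P w * K.P f) = K.P f := by
    have h5 := congrArg K.P h2
    rw [map_add, K.P.leibniz, K.P.leibniz, hP] at h5
    simp only [smul_eq_mul] at h5
    exact h5
  have h6 : w - K.P (K.P w) = w ^ 3 := by
    apply mul_left_cancel₀ h0
    linear_combination -h4 + (1 - w ^ 2 - 2 * K.P w) * h1 - w * h2 + w * K.P w * f * h3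
  rw [← hw]
  show cr _ = _
  rw [h6, cr_cube]

end CZT
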