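import Pool.Agent.CZT.Ee

/-!
# CZT-Eg: normalisation and counting

Plan.  `norm2`: `f = x³ + y³ j + z³ j²` (`exists_Cf`), one of `x, y, z` is not zero; `g` = its inverse, `t1, t2` = the other two quotients (`mk_Cf`).
`count` and `count'` follow from `K.dim` with the finset `T' = Finset.univ.image T` (`T'.card ≤ m < 8`, `(T' : Set R) = Set.range T`): the elements of `Z = GV K T` are in (hence algebraic
over) `GV K T`; for `count'`: `GW K T s = adjoin F (V ∪ range T ∪ {s})` is algebraic over `GV K T = adjoin F (V ∪ range T)` as `s` is algebraic over it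
(`IntermediateField.adjoin_adjoin_left`, `isAlgebraic_adjoin`, or: the set of elements of `R` algebraic over `GV K T` is a subfield, `algebraicClosure (GV K T) R`, restrictScalars, containing all generators).
-/

namespace CZT

open IntermediateField

universe u v

variable {F : Type u} {R : Type v} [Field F] [Field R] [Algebra F R] [CharP R 3] (K : Ctx F R)

/-- two parameters for a nonzero element of `C_Z` up to cubes -/
theorem norm2 {f : R} (hf : f ∈ K.C) (h0 : f ≠ 0) : ∃ t1 ∈ K.Z, ∃ t2 ∈ K.Z, ∃ g ∈ K.Z, g ≠ 0 ∧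
    ∀ L : IntermediateField F R, t1 ∈ L → t2 ∈ L → g ^ 3 * f ∈ Cf L K.j := by
  obtain ⟨x, hx, y, hy, z, hz, rfl⟩ := exists_Cf K.jZ hf
  by_cases hx0 : x = 0
  · by_cases hy0 : y = 0
    · have hz0 : z ≠ 0 := by
        rintro rfl
        apply h0
        rw [hx0, hy0]
        ring
      refine ⟨0, K.Z.zero_mem, 0, K.Z.zero_mem, z⁻¹, K.Z.inv_mem hz, inv_ne_zero hz0, fun L h1 h2 => ?_⟩
      have e : z⁻¹ ^ 3 * (x ^ 3 + y ^ 3 * K.j + z ^ 3 * K.j ^ 2) = 0 ^ 3 + 0 ^ 3 * K.j + 1 ^ 3 * K.j ^ 2 := by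
        rw [hx0, hy0]
        field_simp
        ring
      rw [e]
      exact mk_Cf L.zero_mem L.zero_mem L.one_mem
    · refine ⟨z / y, K.Z.div_mem hz hy, 0, K.Z.zero_mem, y⁻¹, K.Z.inv_mem hy, inv_ne_zero hy0, fun L h1 h2 => ?_⟩
      have e : y⁻¹ ^ 3 * (x ^ 3 + y ^ 3 * K.j + z ^ 3 * K.j ^ 2) =
          0 ^ 3 + 1 ^ 3 * K.j + (z / y) ^ 3 * K.j ^ 2 := by
        rw [hx0]
        field_simp
        ring
      rw [e]
      exact mk_Cf L.zero_mem L.one_mem h1
  · refine ⟨y / x, K.Z.div_mem hy hx, z / x, K.Z.div_mem hz hx, x⁻¹, K.Z.inv_mem hx, inv_ne_zero hx0,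
      fun L h1 h2 => ?_⟩
    have e : x⁻¹ ^ 3 * (x ^ 3 + y ^ 3 * K.j + z ^ 3 * K.j ^ 2) =
        1 ^ 3 + (y / x) ^ 3 * K.j + (z / x) ^ 3 * K.j ^ 2 := by
      field_simp
    rw [e]
    exact mk_Cf L.one_mem h1 h2

/-- the field generated by `V` and finitely many elements -/
abbrev GV {m : ℕ} (T : Fin m → R) : IntermediateField F R := adjoin F (K.V ∪ Set.range T)

theorem GV_V {m : ℕ} (T : Fin m → R) : K.V ⊆ GV K T := fun _ hx => subset_adjoin _ _ (Or.inl hx)

theorem GV_T {m : ℕ} (T : Fin m → R) (i : Fin m) : T i ∈ GV K T := subset_adjoin _ _ (Or.inr ⟨i, rfl⟩)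

theorem GV_le {m : ℕ} (T : Fin m → R) (h : ∀ i, T i ∈ K.Z) : GV K T ≤ K.Z := by
  rw [adjoin_le_iff]
  rintro x (hx | ⟨i, rfl⟩)
  · exact K.VZ hx
  · exact h i

/-- the field generated by `V`, finitely many elements and `s` -/
abbrev GW {m : ℕ} (T : Fin m → R) (s : R) : IntermediateField F R := adjoin F (K.V ∪ Set.range T ∪ {s})

theorem GW_V {m : ℕ} (T : Fin m → R) (s : R) : K.V ⊆ GW K T s := fun _ hx => subset_adjoin _ _ (Or.inl (Or.inl hx))

theorem GW_T {m : ℕ} (T : Fin m → R) (s : R) (i : Fin m) : T i ∈ GW K T s :=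
  subset_adjoin _ _ (Or.inl (Or.inr ⟨i, rfl⟩))

theorem GW_s {m : ℕ} (T : Fin m → R) (s : R) : s ∈ GW K T s := subset_adjoin _ _ (Or.inr rfl)

theorem GW_le {m : ℕ} (T : Fin m → R) (s : R) (h : ∀ i, T i ∈ K.Z) (hs : s ∈ K.Z) : GW K T s ≤ K.Z := by
  rw [adjoin_le_iff]
  rintro x ((hx | ⟨i, rfl⟩) | hx)
  · exact K.VZ hx
  · exact h i
  · rw [Set.mem_singleton_iff.1 hx]; exact hs

omit [CharP R 3] in
private theorem Eg_count {m : ℕ} (hm : m < 8) (T : Fin m → R) (h : ∀ r ∈ K.Z, IsAlgebraic (GV K T) r) : False := by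
  classical
  have h1 : ((Finset.univ.image T : Finset R) : Set R) = Set.range T := by
    rw [Finset.coe_image, Finset.coe_univ, Set.image_univ]
  have h2 := K.dim (Finset.univ.image T) (by
    intro r hr
    rw [h1]
    exact h r hr)
  have h3 : (Finset.univ.image T).card ≤ m := by
    refine Finset.card_image_le.trans ?_
    rw [Finset.card_univ, Fintype.card_fin]
  omega

/-- counting with an additional algebraic element -/
theorem count' {m : ℕ} (hm : m < 8) (T : Fin m → R) (s : R) (hs : IsAlgebraic (GV K T) s) (h : GW K T s = K.Z) :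
    False := by
  refine Eg_count K hm T fun r hr => ?_
  have h1 : GW K T s ≤ (algebraicClosure (GV K T) R).restrictScalars F := by
    rw [adjoin_le_iff]
    rintro x (hx | hx)
    · have h2 : x ∈ GV K T := subset_adjoin _ _ hx
      show x ∈ algebraicClosure (GV K T) R
      rw [mem_algebraicClosure_iff]
      exact isAlgebraic_algebraMap (⟨x, h2⟩ : GV K T)
    · show x ∈ algebraicClosure (GV K T) R
      rw [mem_algebraicClosure_iff, Set.mem_singleton_iff.1 hx]
      exact hs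
  rw [← h] at hr
  exact mem_algebraicClosure_iff.1 (h1 hr)

/-- counting: fewer than 8 elements do not generate `Z` over `V` -/
theorem count {m : ℕ} (hm : m < 8) (T : Fin m → R) (h : GV K T = K.Z) : False := by
  refine Eg_count K hm T fun r hr => ?_
  rw [← h] at hr
  exact isAlgebraic_algebraMap (⟨r, hr⟩ : GV K T)

/-- a root of a cubic `c3 s³ + c2 s² + c1 s + c0 = 0` with coefficients in `L` and `(c3, c2) ≠ 0` is algebraic over `L` -/
theorem alg_of_cubic {L : IntermediateField F R} {c0 c1 c2 c3 s : R} (h0 : c0 ∈ L) (h1 : c1 ∈ L) (h2 : c2 ∈ L)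
    (h3 : c3 ∈ L) (hne : c3 ≠ 0 ∨ c2 ≠ 0) (h : c3 * s ^ 3 + c2 * s ^ 2 + c1 * s + c0 = 0) : IsAlgebraic L s := by
  open Polynomial in
  refine ⟨C (⟨c3, h3⟩ : L) * X ^ 3 + C (⟨c2, h2⟩ : L) * X ^ 2 + C (⟨c1, h1⟩ : L) * X + C (⟨c0, h0⟩ : L), ?_, ?_⟩
  · intro hp
    rcases hne with hc | hc
    · have e := congrArg (fun p : Polynomial L => p.coeff 3) hp
      simp [Polynomial.coeff_X, Polynomial.coeff_C] at e
      exact hc (congrArg Subtype.val e)
    · have e := congrArg (fun p : Polynomial L => p.coeff 2) hp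
      simp [Polynomial.coeff_X, Polynomial.coeff_C] at e
      exact hc (congrArg Subtype.val e)
  · simp only [map_add, map_mul, Polynomial.aeval_C, map_pow, Polynomial.aeval_X]
    exact h

end CZT
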