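import Pool.Agent.CZT.Bf
import Pool.Agent.CPZ.TRb

/-!
# CZT/F0: the stages 2, 3, 4 of PART 5 (sections 5.4 - 5.8).  Definitions only.

Base field `k` (later `F(V)`), `Z` an intermediate field of `R/k`, characteristic 3; `Cf L j = L³(j)`.  `Dim Z`: every finite set `T`
such that `Z` is algebraic over `k(T)` has at least 8 elements.
-/

set_option autoImplicit false

namespace CZT

open IntermediateField

universe u v

/-- every finite set over which `Z` is algebraic has at least 8 elements -/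
def Dim {k : Type u} {R : Type v} [Field k] [Field R] [Algebra k R] (Z : IntermediateField k R) : Prop :=
  ∀ T : Finset R, (∀ r ∈ Z, IsAlgebraic (adjoin k (T : Set R)) r) → 8 ≤ T.card

/-- Stage 2: the situation after 5.3. -/
structure S2 (k : Type u) (R : Type v) [Field k] [Field R] [Algebra k R] where
  Z : IntermediateField k R
  P : Derivation ℤ R R
  j : R
  la : R
  M : R
  d : R
  A : R
  jZ : j ∈ Z
  laZ : la ∈ Z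
  MZ : M ∈ Cf Z j
  dZ : d ∈ Cf Z j
  AZ : A ∈ Cf Z j
  j0 : j ≠ 0
  j1 : j ^ 2 ≠ 1
  la0 : la ≠ 0
  la1 : la ≠ 1
  d0 : d ≠ 0
  A0 : A ≠ 0
  Pj : P j = j ^ 2 - 1
  /-- `1, j, j²` are independent over the cubes -/
  ind : ∀ f0 f1 f2 : R, f0 ^ 3 + f1 ^ 3 * j + f2 ^ 3 * j ^ 2 = 0 → f0 = 0 ∧ f1 = 0 ∧ f2 = 0
  /-- (I') -/
  rI : M ^ 2 - P (P (M ^ 2)) + (la * (1 - la)) ^ 3 * (d ^ 2 - P (P (d ^ 2))) = 1
  /-- (II') -/
  rII : M - P (P M) =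
    (M - P M / j + la * (1 - la) * (1 - 2 * la) * (d - P d / j) - la * (1 - la) * d * (P A / A) / j) ^ 3
  crit : ∀ L : IntermediateField k R, L ≤ Z → j ∈ L → la ∈ L → M ∈ Cf L j → d ∈ Cf L j →
    (∃ g ∈ Z, g ≠ 0 ∧ g ^ 3 * A ∈ Cf L j) → L = Z
  dim : Dim Z

/-- Stage 3: the situation after 5.5; `D` is the derivation `P / (j² - 1)`. -/
structure S3 (k : Type u) (R : Type v) [Field k] [Field R] [Algebra k R] where
  Z : IntermediateField k R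
  D : Derivation ℤ R R
  j : R
  la : R
  a : R
  y : R
  De : R
  A : R
  a2 : R
  b2 : R
  e2 : R
  jZ : j ∈ Z
  laZ : la ∈ Z
  aZ : a ∈ Z
  yZ : y ∈ Z
  DeZ : De ∈ Cf Z j
  AZ : A ∈ Cf Z j
  a2Z : a2 ∈ Z
  b2Z : b2 ∈ Z
  e2Z : e2 ∈ Z
  j0 : j ≠ 0
  la0 : la ≠ 0
  la1 : la ≠ 1
  a0 : a ^ 3 - a ≠ 0
  De0 : De ≠ 0
  A0 : A ≠ 0
  Dj : D j = 1
  ind : ∀ f0 f1 f2 : R, f0 ^ 3 + f1 ^ 3 * j + f2 ^ 3 * j ^ 2 = 0 → f0 = 0 ∧ f1 = 0 ∧ f2 = 0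
  hDe : j ^ 3 * De = a2 ^ 3 * j ^ 2 + b2 ^ 3 * j + e2 ^ 3
  /-- (S) -/
  rel : y ^ 2 - 1 + (a ^ 3 - a) / j * y ^ 3 + la * (1 - la) * (b2 ^ 2 - a2 * e2 +
    (a ^ 3 - a) * j ^ 2 * ((1 - 2 * la) * D De + De * (D A / A))) = 0
  crit : ∀ L : IntermediateField k R, L ≤ Z → j ∈ L → la ∈ L → a ∈ L → y ∈ L → De ∈ Cf L j →
    (∃ g ∈ Z, g ≠ 0 ∧ g ^ 3 * A ∈ Cf L j) → L = Z
  dim : Dim Z

/-- Stage 4: the situation after 5.6: nine generators, one relation. -/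
structure S4 (k : Type u) (R : Type v) [Field k] [Field R] [Algebra k R] where
  Z : IntermediateField k R
  j : R
  la : R
  a : R
  y : R
  a1 : R
  b1 : R
  a2 : R
  b2 : R
  s : R
  j0 : j ≠ 0
  la0 : la ≠ 0
  la1 : la ≠ 1
  a0 : a ^ 3 - a ≠ 0
  s0 : s ≠ 0
  h1 : a1 ≠ b1
  h2 : a2 ≠ b2
  /-- the numbers `j - f³` are not zero -/
  nc : ∀ f : R, j - f ^ 3 ≠ 0
  /-- (S') -/
  rel : y ^ 2 - 1 + (a ^ 3 - a) / j * y ^ 3 = (s * (1 - la)) * (-(s * la)) *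
    (j ^ 2 * ((j - a1 ^ 3) * ((a1 - b1) + (a2 - b2)) - (a2 - a1) ^ 2 * (a1 - b1) * (b2 - a1)) /
        ((j - b1 ^ 3) * (j - b2 ^ 3)) -
      (a ^ 3 - a) * j ^ 2 * (s * (1 - la) * ((j - a2 ^ 3) * (a1 - b1) ^ 3 / ((j - b1 ^ 3) ^ 2 * (j - b2 ^ 3))) +
        -(s * la) * ((j - a1 ^ 3) * (a2 - b2) ^ 3 / ((j - b1 ^ 3) * (j - b2 ^ 3) ^ 2))))
  gen : adjoin k {j, la, a, y, a1, b1, a2, b2, s} = Z
  dim : Dim Z

end CZT
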