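import Pool.Agent.CZT.F0

/-!
# CZT/F1: derivations on the fields of cubes, characteristic 3

`P_cube`: `P (x³) = 3 x² P x = 0` (`Derivation.leibniz_pow`).  `P_div_logd`: `P (g³ A) = g³ P A`.
`pf1`: from `(j²-1) M = a³j²+b³j+e³`, apply `P`: `(2 j (j²-1)) M + (j²-1) P M = (2 a³ j + b³)(j²-1)`; cancel `j²-1`; `2 = -1`, `3 = 0`.
`pf2`: `P` of `pf1`: `P (P M) = -a³ (j²-1) + (j²-1) M + j P M`; substitute `pf1` and `j² M = M + a³j²+b³j+e³`.
`pf3`: `P (P (M²)) = 2 (P M)² + 2 M P (P M)`; with `pf1`, `pf2`: `M² - P (P (M²)) = b⁶ - a³ e³` (uses `(j²-1) M = ..` once more), and this is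
`(b² - a e)³` in characteristic 3 (`sub_pow_char`).
`qd`: for `D j = 1`, `f = α³j²+β³j+γ³`: `D f = 2 α³ j + β³`, `D (D f) = 2 α³`, so `(D f)² + f D (D f) = β⁶ - α³γ³` (characteristic 3).
For the use of characteristic 3 in identities: `have h3 : (3 : R) = 0 := CharP.cast_eq_zero R 3` and `linear_combination (..) * h3`.
-/

set_option autoImplicit false

namespace CZT

universe v

variable {R : Type v} [Field R] [CharP R 3]

private theorem F1_three : (3 : R) = 0 := by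
  have h := CharP.cast_eq_zero R 3
  exact_mod_cast h

omit [CharP R 3] in
private theorem F1_mul (P : Derivation ℤ R R) (f g : R) : P (f * g) = f * P g + g * P f := by
  rw [Derivation.leibniz]; simp [smul_eq_mul]

omit [CharP R 3] in
private theorem F1_sq (P : Derivation ℤ R R) (f : R) : P (f ^ 2) = 2 * f * P f := by
  rw [pow_two, F1_mul]; ring

theorem P_cube (P : Derivation ℤ R R) (x : R) : P (x ^ 3) = 0 := by
  have h3 : (3 : R) = 0 := F1_three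
  have e : x ^ 3 = x * x ^ 2 := by ring
  rw [e, F1_mul, F1_sq]
  linear_combination (x ^ 2 * P x) * h3

/-- cubes are constants -/
theorem P_cube_mul (P : Derivation ℤ R R) (g f : R) : P (g ^ 3 * f) = g ^ 3 * P f := by
  rw [F1_mul, P_cube]; ring

theorem logd (P : Derivation ℤ R R) {g f : R} (hg : g ≠ 0) : P (g ^ 3 * f) / (g ^ 3 * f) = P f / f := by
  rw [P_cube_mul]
  exact mul_div_mul_left _ _ (pow_ne_zero 3 hg)

/-- cube roots are unique -/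
theorem cube_inj {a b : R} (h : a ^ 3 = b ^ 3) : a = b := by
  have h3 : (3 : R) = 0 := F1_three
  have h1 : (a - b) ^ 3 = 0 := by
    linear_combination h + (a * b ^ 2 - a ^ 2 * b) * h3
  exact sub_eq_zero.mp (pow_eq_zero_iff (by norm_num) |>.mp h1)

theorem pf1 (P : Derivation ℤ R R) {j M a b e : R} (Pj : P j = j ^ 2 - 1) (j1 : j ^ 2 ≠ 1)
    (hM : (j ^ 2 - 1) * M = a ^ 3 * j ^ 2 + b ^ 3 * j + e ^ 3) : P M = -(a ^ 3) * j + b ^ 3 + j * M := by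
  have h3 : (3 : R) = 0 := F1_three
  have hj : j ^ 2 - 1 ≠ 0 := sub_ne_zero.mpr j1
  have h := congrArg P hM
  have h2 : P (j ^ 2 - 1) = 2 * j * (j ^ 2 - 1) := by
    rw [map_sub, F1_sq, Pj, Derivation.map_one_eq_zero]; ring
  rw [F1_mul, h2, map_add, map_add, P_cube, P_cube_mul, P_cube_mul, F1_sq, Pj] at h
  apply mul_left_cancel₀ hj
  linear_combination h + (a ^ 3 * j * (j ^ 2 - 1) - j * M * (j ^ 2 - 1)) * h3

theorem pf2 (P : Derivation ℤ R R) {j M a b e : R} (Pj : P j = j ^ 2 - 1) (j1 : j ^ 2 ≠ 1)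
    (hM : (j ^ 2 - 1) * M = a ^ 3 * j ^ 2 + b ^ 3 * j + e ^ 3) : M - P (P M) = (e - a) ^ 3 := by
  have h3 : (3 : R) = 0 := F1_three
  have h1 := pf1 P Pj j1 hM
  have h2 : P (P M) = -(a ^ 3) * (j ^ 2 - 1) + (j * P M + M * (j ^ 2 - 1)) := by
    have h4 : P (-(a ^ 3) * j + b ^ 3 + j * M) = -(a ^ 3) * (j ^ 2 - 1) + (j * P M + M * (j ^ 2 - 1)) := by
      have e1 : -(a ^ 3) * j = -(a ^ 3 * j) := by ring
      rw [map_add, map_add, e1, map_neg, P_cube, P_cube_mul, F1_mul, Pj]; ring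
    rw [← h1] at h4; exact h4
  rw [h2, h1]
  linear_combination (-2) * hM + (-(b ^ 3 * j) - e ^ 3 + e ^ 2 * a - e * a ^ 2) * h3

theorem pf3 (P : Derivation ℤ R R) {j M a b e : R} (Pj : P j = j ^ 2 - 1) (j1 : j ^ 2 ≠ 1)
    (hM : (j ^ 2 - 1) * M = a ^ 3 * j ^ 2 + b ^ 3 * j + e ^ 3) : M ^ 2 - P (P (M ^ 2)) = (b ^ 2 - a * e) ^ 3 := by
  have h3 : (3 : R) = 0 := F1_three
  have h1 := pf1 P Pj j1 hM
  have h2 := pf2 P Pj j1 hM
  have h4 : P (P (M ^ 2)) = 2 * (P M) ^ 2 + 2 * M * P (P M) := by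
    have h5 : P (M ^ 2) = 2 * (M * P M) := by rw [F1_sq]; ring
    have h6 : P (2 * (M * P M)) = 2 * P (M * P M) := by
      rw [two_mul, map_add, two_mul]
    rw [h5, h6, F1_mul]; ring
  have h7 : P (P M) = M - (e - a) ^ 3 := by linear_combination -h2
  rw [h4, h7, h1]
  linear_combination (M - a ^ 3) * hM + (-(j ^ 2 * M ^ 2) + 2 * a ^ 3 * j ^ 2 * M - b ^ 3 * j * M + M * e ^ 3 - M * a ^ 3
    - 2 * M * e ^ 2 * a + 2 * M * e * a ^ 2 - a ^ 6 * j ^ 2 - b ^ 6 + a ^ 3 * b ^ 3 * j + a * b ^ 4 * e - a ^ 2 * b ^ 2 * e ^ 2) * h3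

theorem qd (D : Derivation ℤ R R) {j f α β γ : R} (Dj : D j = 1) (hf : f = α ^ 3 * j ^ 2 + β ^ 3 * j + γ ^ 3) :
    (β ^ 2 - α * γ) ^ 3 = D f ^ 2 + f * D (D f) := by
  have h3 : (3 : R) = 0 := F1_three
  have h1 : D f = α ^ 3 * (2 * j) + β ^ 3 := by
    rw [hf, map_add, map_add, P_cube, P_cube_mul, P_cube_mul, F1_sq, Dj]; ring
  have h2 : D (D f) = 2 * α ^ 3 := by
    rw [h1, map_add, P_cube, P_cube_mul]
    have e1 : D (2 * j) = 2 := by
      rw [two_mul, map_add, Dj]; norm_num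
    rw [e1]; ring
  rw [h2, h1, hf]
  linear_combination (-(α * β ^ 4 * γ) + α ^ 2 * β ^ 2 * γ ^ 2 - α ^ 3 * γ ^ 3 - 2 * α ^ 6 * j ^ 2 - 2 * α ^ 3 * β ^ 3 * j) * h3

end CZT
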