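import Pool.Agent.CZT.F1

/-!
# CZT/F2: coordinates of elements of `L³(j)`

The coordinates `a, b, e` of `f = a³j²+b³j+e³ ∈ L³(j)`: existence, uniqueness, the action of a derivation, division by the coordinate
of highest index.
-/

set_option autoImplicit false

namespace CZT

open IntermediateField

universe u v

variable {k : Type u} {R : Type v} [Field k] [Field R] [Algebra k R] [CharP R 3]

/-- `1, j, j²` are independent over the cubes -/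
def Ind3 {R : Type v} [Field R] (j : R) : Prop :=
  ∀ f0 f1 f2 : R, f0 ^ 3 + f1 ^ 3 * j + f2 ^ 3 * j ^ 2 = 0 → f0 = 0 ∧ f1 = 0 ∧ f2 = 0

theorem coords {L : IntermediateField k R} {j f : R} (hj : j ∈ L) (hf : f ∈ Cf L j) :
    ∃ a b e : R, a ∈ L ∧ b ∈ L ∧ e ∈ L ∧ f = a ^ 3 * j ^ 2 + b ^ 3 * j + e ^ 3 := by
  obtain ⟨l, hl, h⟩ := (mem_Cf hj).1 hf
  refine ⟨l 2, l 1, l 0, hl 2, hl 1, hl 0, ?_⟩
  rw [h, Fin.sum_univ_three]
  simp only [Fin.val_zero, Fin.val_one, Fin.val_two, pow_zero, pow_one]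
  ring

theorem mem_of_coords (L : IntermediateField k R) (j : R) {a b e : R} (ha : a ∈ L) (hb : b ∈ L) (he : e ∈ L) :
    a ^ 3 * j ^ 2 + b ^ 3 * j + e ^ 3 ∈ Cf L j :=
  add_mem (add_mem (mul_mem (cube_mem_Cf L j ha) (pow_mem (p_mem_Cf L j) 2))
    (mul_mem (cube_mem_Cf L j hb) (p_mem_Cf L j))) (cube_mem_Cf L j he)

theorem coord_mem {L : IntermediateField k R} {j a b e : R} (ind : Ind3 j) (hj : j ∈ L)
    (hf : a ^ 3 * j ^ 2 + b ^ 3 * j + e ^ 3 ∈ Cf L j) : a ∈ L ∧ b ∈ L ∧ e ∈ L := by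
  have h3 : (3 : R) = 0 := CharP.cast_eq_zero R 3
  obtain ⟨a', b', e', ha, hb, he, h⟩ := coords hj hf
  have h1 : (e - e') ^ 3 + (b - b') ^ 3 * j + (a - a') ^ 3 * j ^ 2 = 0 := by
    linear_combination h + ((e * e' ^ 2 - e ^ 2 * e') + (b * b' ^ 2 - b ^ 2 * b') * j +
      (a * a' ^ 2 - a ^ 2 * a') * j ^ 2) * h3
  obtain ⟨h4, h5, h6⟩ := ind _ _ _ h1
  rw [sub_eq_zero.1 h4, sub_eq_zero.1 h5, sub_eq_zero.1 h6]
  exact ⟨ha, hb, he⟩

theorem der_Cf {L : IntermediateField k R} (D : Derivation ℤ R R) {j f : R} (hj : j ∈ L) (hD : D j ∈ Cf L j)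
    (hf : f ∈ Cf L j) : D f ∈ Cf L j := by
  obtain ⟨a, b, e, ha, hb, he, rfl⟩ := coords hj hf
  have h1 : D (j ^ 2) = 2 * j * D j := by
    rw [sq, Derivation.leibniz, smul_eq_mul]
    ring
  have h2 : D (a ^ 3 * j ^ 2 + b ^ 3 * j + e ^ 3) = a ^ 3 * (2 * j * D j) + b ^ 3 * D j := by
    rw [map_add, map_add, P_cube_mul, P_cube_mul, P_cube, h1, add_zero]
  have h22 : (2 : R) ∈ Cf L j := by
    rw [← one_add_one_eq_two]
    exact add_mem (one_mem _) (one_mem _)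
  rw [h2]
  exact add_mem (mul_mem (cube_mem_Cf L j ha) (mul_mem (mul_mem h22 (p_mem_Cf L j)) hD))
    (mul_mem (cube_mem_Cf L j hb) hD)

theorem ratio {Z : IntermediateField k R} {j A : R} (hj : j ∈ Z) (hA : A ∈ Cf Z j) (A0 : A ≠ 0) :
    ∃ g c1 c2 : R, g ∈ Z ∧ c1 ∈ Z ∧ c2 ∈ Z ∧ g ≠ 0 ∧ g ^ 3 * A ∈ Cf (adjoin k {j, c1, c2}) j := by
  obtain ⟨a, b, e, ha, hb, he, rfl⟩ := coords hj hA
  have m1 : ∀ c1 c2 : R, c1 ∈ adjoin k {j, c1, c2} := fun c1 c2 =>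
    subset_adjoin k _ (Or.inr (Or.inl rfl))
  have m2 : ∀ c1 c2 : R, c2 ∈ adjoin k {j, c1, c2} := fun c1 c2 =>
    subset_adjoin k _ (Or.inr (Or.inr rfl))
  by_cases ha0 : a = 0
  · by_cases hb0 : b = 0
    · have he0 : e ≠ 0 := by
        rintro rfl
        apply A0
        rw [ha0, hb0]
        ring
      refine ⟨e⁻¹, 0, 0, inv_mem he, zero_mem _, zero_mem _, inv_ne_zero he0, ?_⟩
      have h : e⁻¹ ^ 3 * (a ^ 3 * j ^ 2 + b ^ 3 * j + e ^ 3) = 1 := by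
        rw [ha0, hb0]
        field_simp
        ring
      rw [h]
      exact one_mem _
    · refine ⟨b⁻¹, e * b⁻¹, 0, inv_mem hb, mul_mem he (inv_mem hb), zero_mem _, inv_ne_zero hb0, ?_⟩
      have h : b⁻¹ ^ 3 * (a ^ 3 * j ^ 2 + b ^ 3 * j + e ^ 3) = j + (e * b⁻¹) ^ 3 := by
        rw [ha0]
        field_simp
        ring
      rw [h]
      exact add_mem (p_mem_Cf _ _) (cube_mem_Cf _ _ (m1 _ _))
  · refine ⟨a⁻¹, b * a⁻¹, e * a⁻¹, inv_mem ha, mul_mem hb (inv_mem ha), mul_mem he (inv_mem ha),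
      inv_ne_zero ha0, ?_⟩
    have h : a⁻¹ ^ 3 * (a ^ 3 * j ^ 2 + b ^ 3 * j + e ^ 3) =
        j ^ 2 + (b * a⁻¹) ^ 3 * j + (e * a⁻¹) ^ 3 := by
      field_simp
    rw [h]
    exact add_mem (add_mem (pow_mem (p_mem_Cf _ _) 2)
      (mul_mem (cube_mem_Cf _ _ (m1 _ _)) (p_mem_Cf _ _))) (cube_mem_Cf _ _ (m2 _ _))

theorem nocube {j : R} (ind : Ind3 j) (f : R) : j - f ^ 3 ≠ 0 := by
  intro h
  have h1 : (-f) ^ 3 + 1 ^ 3 * j + 0 ^ 3 * j ^ 2 = 0 := by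
    linear_combination h
  exact one_ne_zero (ind _ _ _ h1).2.1

end CZT
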