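import Pool.Agent.CZT.F0

/-!
# CZT/F3: counting generators

`alg_poly3`: a non-zero polynomial of degree `≤ 3` with coefficients in `K` vanishes at `y`.
`dim7`: `T = {x1, …, x7}` as a `Finset` (classical `DecidableEq`, `Finset.card_le_seven`-type bound: `Finset.card_insert_le` iterated, or
`Finset.image` of `Fin 7`), `card ≤ 7`.  Every `r ∈ Z` lies in `adjoin k {x1, …, x7, y} = (adjoin k {x1..x7})(y)`, which is algebraic over
`adjoin k {x1..x7}` (`IntermediateField.adjoin_adjoin_left`, `IntermediateField.isAlgebraic_adjoin_simple` / `isAlgebraic_adjoin`), so `Dim Z`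
gives `8 ≤ 7`.  `dim7'` is the case where `y` lies in `adjoin k {x1..x7}`.
-/

set_option autoImplicit false

namespace CZT

open IntermediateField

universe u v

variable {k : Type u} {R : Type v} [Field k] [Field R] [Algebra k R]

theorem alg_poly3 (K : IntermediateField k R) {y c0 c1 c2 c3 : R} (h0 : c0 ∈ K) (h1 : c1 ∈ K) (h2 : c2 ∈ K) (h3 : c3 ∈ K)
    (hn : c3 ≠ 0 ∨ c2 ≠ 0 ∨ c1 ≠ 0) (h : c3 * y ^ 3 + c2 * y ^ 2 + c1 * y + c0 = 0) : IsAlgebraic K y := by
  refine ⟨Polynomial.C (⟨c3, h3⟩ : K) * Polynomial.X ^ 3 + Polynomial.C (⟨c2, h2⟩ : K) * Polynomial.X ^ 2 +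
    Polynomial.C (⟨c1, h1⟩ : K) * Polynomial.X + Polynomial.C (⟨c0, h0⟩ : K), ?_, ?_⟩
  · intro hp
    have e3 := congrArg (fun q => Polynomial.coeff q 3) hp
    have e2 := congrArg (fun q => Polynomial.coeff q 2) hp
    have e1 := congrArg (fun q => Polynomial.coeff q 1) hp
    simp [Polynomial.coeff_X, Polynomial.coeff_C] at e1 e2 e3
    rcases hn with hn | hn | hn
    · exact hn (congrArg Subtype.val e3)
    · exact hn (congrArg Subtype.val e2)
    · exact hn (congrArg Subtype.val e1)
  · simp only [map_add, map_mul, map_pow, Polynomial.aeval_X, Polynomial.aeval_C]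
    exact h

theorem dim7 {Z : IntermediateField k R} (h : Dim Z) (x1 x2 x3 x4 x5 x6 x7 y : R)
    (hy : IsAlgebraic (adjoin k {x1, x2, x3, x4, x5, x6, x7}) y)
    (hZ : Z ≤ adjoin k {x1, x2, x3, x4, x5, x6, x7, y}) : False := by
  classical
  have hT : (({x1, x2, x3, x4, x5, x6, x7} : Finset R) : Set R) = {x1, x2, x3, x4, x5, x6, x7} := by
    simp
  have hc : ({x1, x2, x3, x4, x5, x6, x7} : Finset R).card ≤ 7 := by
    refine (Finset.card_insert_le _ _).trans (Nat.succ_le_succ ?_)
    refine (Finset.card_insert_le _ _).trans (Nat.succ_le_succ ?_)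
    refine (Finset.card_insert_le _ _).trans (Nat.succ_le_succ ?_)
    refine (Finset.card_insert_le _ _).trans (Nat.succ_le_succ ?_)
    refine (Finset.card_insert_le _ _).trans (Nat.succ_le_succ ?_)
    refine (Finset.card_insert_le _ _).trans (Nat.succ_le_succ ?_)
    exact (Finset.card_singleton _).le
  have h8 := h {x1, x2, x3, x4, x5, x6, x7} (by
    rw [hT]
    intro r hr
    have h1 : ({x1, x2, x3, x4, x5, x6, x7, y} : Set R) = {x1, x2, x3, x4, x5, x6, x7} ∪ {y} := by
      simp only [Set.insert_union, Set.singleton_union]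
    have h2 := hZ hr
    rw [h1, ← adjoin_adjoin_left] at h2
    have h3 : r ∈ adjoin (adjoin k {x1, x2, x3, x4, x5, x6, x7}) {y} := h2
    have h4 : Algebra.IsAlgebraic (adjoin k {x1, x2, x3, x4, x5, x6, x7})
        (adjoin (adjoin k {x1, x2, x3, x4, x5, x6, x7}) {y}) :=
      isAlgebraic_adjoin_simple hy.isIntegral
    have h5 := h4.isAlgebraic ⟨r, h3⟩
    exact h5.algebraMap)
  omega

end CZT
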