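import Pool.Agent.CZT.F2

/-!
# CZT/F4: stage 2 in coordinates (5.4)

`(j²-1) M`, `(j²-1) d` are in `Cf Z j`; `coords`.  `rI` with `pf3` (twice): `(b²-ae)³ + (la(1-la))³ (b1²-a1e1)³ = 1`, a cube on both sides:
`cube_inj` (`add_pow_char`).  `rII` with `pf2` for `M` and `pf1` for `M`, `d`: `M - P M / j = a³ - b³/j`, `d - P d / j = a1³ - b1³/j`; `cube_inj`.
-/

set_option autoImplicit false

namespace CZT

open IntermediateField

universe u v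

variable {k : Type u} {R : Type v} [Field k] [Field R] [Algebra k R] [CharP R 3]

/-- coordinates for a stage 2 -/
structure Co (S : S2 k R) (a b e a1 b1 e1 : R) : Prop where
  aZ : a ∈ S.Z
  bZ : b ∈ S.Z
  eZ : e ∈ S.Z
  a1Z : a1 ∈ S.Z
  b1Z : b1 ∈ S.Z
  e1Z : e1 ∈ S.Z
  hM : (S.j ^ 2 - 1) * S.M = a ^ 3 * S.j ^ 2 + b ^ 3 * S.j + e ^ 3
  hd : (S.j ^ 2 - 1) * S.d = a1 ^ 3 * S.j ^ 2 + b1 ^ 3 * S.j + e1 ^ 3
  q1 : b ^ 2 - a * e + S.la * (1 - S.la) * (b1 ^ 2 - a1 * e1) = 1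
  q2 : e = a + a ^ 3 - b ^ 3 / S.j + S.la * (1 - S.la) * ((1 - 2 * S.la) * (S.d - S.P S.d / S.j) -
    S.d * (S.P S.A / S.A) / S.j)
  q3 : S.d - S.P S.d / S.j = a1 ^ 3 - b1 ^ 3 / S.j

omit [CharP R 3] in
private theorem F4_jj (S : S2 k R) {L : IntermediateField k R} : S.j ^ 2 - 1 ∈ Cf L S.j :=
  sub_mem (pow_mem (p_mem_Cf L S.j) 2) (one_mem _)

omit [CharP R 3] in
private theorem F4_j1 (S : S2 k R) : S.j ^ 2 - 1 ≠ 0 := sub_ne_zero.2 S.j1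

private theorem F4_quot (S : S2 k R) {f x y z : R} (h : (S.j ^ 2 - 1) * f = x ^ 3 * S.j ^ 2 + y ^ 3 * S.j + z ^ 3) :
    f - S.P f / S.j = x ^ 3 - y ^ 3 / S.j := by
  have j0 := S.j0
  rw [pf1 S.P S.Pj S.j1 h]
  field_simp
  ring

theorem s2_co (S : S2 k R) : ∃ a b e a1 b1 e1 : R, Co S a b e a1 b1 e1 := by
  have h3 : (3 : R) = 0 := CharP.cast_eq_zero R 3
  obtain ⟨a, b, e, ha, hb, he, hM⟩ := coords S.jZ (mul_mem (F4_jj S) S.MZ)
  obtain ⟨a1, b1, e1, ha1, hb1, he1, hd⟩ := coords S.jZ (mul_mem (F4_jj S) S.dZ)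
  refine ⟨a, b, e, a1, b1, e1, ha, hb, he, ha1, hb1, he1, hM, hd, ?_, ?_, F4_quot S hd⟩
  · apply cube_inj
    have h1 := S.rI
    rw [pf3 S.P S.Pj S.j1 hM, pf3 S.P S.Pj S.j1 hd] at h1
    generalize b ^ 2 - a * e = p at h1 ⊢
    generalize S.la * (1 - S.la) = q at h1 ⊢
    generalize b1 ^ 2 - a1 * e1 = r at h1 ⊢
    linear_combination h1 + (p ^ 2 * q * r + p * q ^ 2 * r ^ 2) * h3
  · have h1 := S.rII
    rw [pf2 S.P S.Pj S.j1 hM] at h1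
    have h2 := cube_inj h1
    rw [F4_quot S hM] at h2
    linear_combination h2

/-- if `L` contains `j, la, a, b` and `d, g³A` are in `L³(j)`, then `L = Z` -/
theorem co_crit (S : S2 k R) {a b e a1 b1 e1 : R} (h : Co S a b e a1 b1 e1) (L : IntermediateField k R) (hL : L ≤ S.Z)
    (hj : S.j ∈ L) (hla : S.la ∈ L) (ha : a ∈ L) (hb : b ∈ L) (hd : S.d ∈ Cf L S.j)
    (hA : ∃ g ∈ S.Z, g ≠ 0 ∧ g ^ 3 * S.A ∈ Cf L S.j) : L = S.Z := by
  have hdL : S.d ∈ L := Cf_le hj hd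
  have hPd : S.P S.d ∈ L := by
    refine Cf_le hj (der_Cf S.P hj ?_ hd)
    rw [S.Pj]
    exact F4_jj S
  have hPA : S.P S.A / S.A ∈ L := by
    obtain ⟨g, _, g0, hg⟩ := hA
    rw [← logd S.P g0]
    refine div_mem (Cf_le hj (der_Cf S.P hj ?_ hg)) (Cf_le hj hg)
    rw [S.Pj]
    exact F4_jj S
  have h2L : (2 : R) ∈ L := by
    rw [← one_add_one_eq_two]
    exact add_mem (one_mem _) (one_mem _)
  have h1l : 1 - S.la ∈ L := sub_mem (one_mem _) hla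
  have he : e ∈ L := by
    rw [h.q2]
    refine add_mem (sub_mem (add_mem ha (pow_mem ha 3)) (div_mem (pow_mem hb 3) hj)) ?_
    refine mul_mem (mul_mem hla h1l) (sub_mem ?_ ?_)
    · exact mul_mem (sub_mem (one_mem _) (mul_mem h2L hla)) (sub_mem hdL (div_mem hPd hj))
    · exact div_mem (mul_mem hdL hPA) hj
  have hM : S.M ∈ Cf L S.j := by
    have h1 : S.M = (a ^ 3 * S.j ^ 2 + b ^ 3 * S.j + e ^ 3) / (S.j ^ 2 - 1) := by
      rw [eq_div_iff (F4_j1 S), ← h.hM]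
      ring
    rw [h1]
    exact div_mem (mem_of_coords L S.j ha hb he) (F4_jj S)
  exact S.crit L hL hj hla hM hd hA

end CZT
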