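import Pool.Agent.CZT.F4
import Pool.Agent.CZT.F3

/-!
# CZT/F5: `a³ - a ≠ 0` (end of 5.4)

Suppose `a³ = a`, so `a = 0`, `1` or `-1` (`a (a-1) (a+1) = 0`).  `g, c1, c2` from `ratio` for `A`.  Let `L = adjoin k {j, la, a1, b1, e1, c1, c2, b}`,
`L7 = adjoin k {j, la, a1, b1, e1, c1, c2}`.  `d ∈ Cf L7 j`, so `co_crit` gives `L = Z`.  `b` is algebraic over `L7`: put
`X = (1-2la)(d - P d/j) - d (P A/A)/j ∈ L7` (`der_Cf`, `logd`, `Cf_le`); eliminating `e` from `q1`, `q2`: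
`b² + a b³/j - 1 - a (a + a³) + la (1-la) ((b1²-a1e1) - a X) = 0`, coefficient of `b²` is `1`: `alg_poly3`.  `dim7` gives a contradiction.
-/

set_option autoImplicit false

namespace CZT

open IntermediateField

universe u v

variable {k : Type u} {R : Type v} [Field k] [Field R] [Algebra k R] [CharP R 3]

theorem co_a (S : S2 k R) {a b e a1 b1 e1 : R} (h : Co S a b e a1 b1 e1) : a ^ 3 - a ≠ 0 := by
  intro ha3
  -- `a` is in every intermediate field
  have haL : ∀ L : IntermediateField k R, a ∈ L := by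
    intro L
    have h1 : a * ((a - 1) * (a + 1)) = 0 := by linear_combination ha3
    rcases mul_eq_zero.1 h1 with h2 | h2
    · rw [h2]
      exact zero_mem L
    · rcases mul_eq_zero.1 h2 with h3 | h3
      · rw [sub_eq_zero.1 h3]
        exact one_mem L
      · rw [eq_neg_of_add_eq_zero_left h3]
        exact neg_mem (one_mem L)
  obtain ⟨g, c1, c2, hg, hc1, hc2, g0, hgA⟩ := ratio S.jZ S.AZ S.A0
  have hj7 : S.j ∈ adjoin k ({S.j, S.la, a1, b1, e1, c1, c2} : Set R) := subset_adjoin k _ (by simp)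
  have hla7 : S.la ∈ adjoin k ({S.j, S.la, a1, b1, e1, c1, c2} : Set R) := subset_adjoin k _ (by simp)
  have ha17 : a1 ∈ adjoin k ({S.j, S.la, a1, b1, e1, c1, c2} : Set R) := subset_adjoin k _ (by simp)
  have hb17 : b1 ∈ adjoin k ({S.j, S.la, a1, b1, e1, c1, c2} : Set R) := subset_adjoin k _ (by simp)
  have he17 : e1 ∈ adjoin k ({S.j, S.la, a1, b1, e1, c1, c2} : Set R) := subset_adjoin k _ (by simp)
  have hle : adjoin k ({S.j, c1, c2} : Set R) ≤ adjoin k ({S.j, S.la, a1, b1, e1, c1, c2} : Set R) := by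
    refine adjoin.mono k _ _ ?_
    rintro x (rfl | rfl | rfl) <;> simp
  have hgA7 := Cf_mono hle S.j hgA
  have hle8 : adjoin k ({S.j, S.la, a1, b1, e1, c1, c2} : Set R) ≤
      adjoin k ({S.j, S.la, a1, b1, e1, c1, c2, b} : Set R) := by
    refine adjoin.mono k _ _ ?_
    rintro x (rfl | rfl | rfl | rfl | rfl | rfl | rfl) <;> simp
  have h88 : adjoin k ({S.j, S.la, a1, b1, e1, c1, c2, b} : Set R) ≤ S.Z := by
    rw [adjoin_le_iff]
    rintro x (rfl | rfl | rfl | rfl | rfl | rfl | rfl | rfl)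
    · exact S.jZ
    · exact S.laZ
    · exact h.a1Z
    · exact h.b1Z
    · exact h.e1Z
    · exact hc1
    · exact hc2
    · exact h.bZ
  have hjm : S.j ^ 2 - 1 ≠ 0 := sub_ne_zero.2 S.j1
  have hjj : S.j ^ 2 - 1 ∈ Cf (adjoin k ({S.j, S.la, a1, b1, e1, c1, c2} : Set R)) S.j :=
    sub_mem (pow_mem (p_mem_Cf _ _) 2) (one_mem _)
  have hd7 : S.d ∈ Cf (adjoin k ({S.j, S.la, a1, b1, e1, c1, c2} : Set R)) S.j := by
    have h1 : S.d = (a1 ^ 3 * S.j ^ 2 + b1 ^ 3 * S.j + e1 ^ 3) / (S.j ^ 2 - 1) := by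
      rw [eq_div_iff hjm, ← h.hd]
      ring
    rw [h1]
    exact div_mem (mem_of_coords _ S.j ha17 hb17 he17) hjj
  have hPd7 : S.P S.d ∈ Cf (adjoin k ({S.j, S.la, a1, b1, e1, c1, c2} : Set R)) S.j :=
    der_Cf S.P hj7 (by rw [S.Pj]; exact hjj) hd7
  have hPA7 : S.P S.A / S.A ∈ Cf (adjoin k ({S.j, S.la, a1, b1, e1, c1, c2} : Set R)) S.j := by
    rw [← logd S.P g0 (f := S.A)]
    exact div_mem (der_Cf S.P hj7 (by rw [S.Pj]; exact hjj) hgA7) hgA7
  have hd' := Cf_le hj7 hd7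
  have hPd' := Cf_le hj7 hPd7
  have hPA' := Cf_le hj7 hPA7
  have h2' : (2 : R) ∈ adjoin k ({S.j, S.la, a1, b1, e1, c1, c2} : Set R) := by
    have := IntermediateField.natCast_mem (adjoin k ({S.j, S.la, a1, b1, e1, c1, c2} : Set R)) 2
    exact_mod_cast this
  have h1' : (1 : R) ∈ adjoin k ({S.j, S.la, a1, b1, e1, c1, c2} : Set R) := one_mem _
  have ha' := haL (adjoin k ({S.j, S.la, a1, b1, e1, c1, c2} : Set R))
  have hX : (1 - 2 * S.la) * (S.d - S.P S.d / S.j) - S.d * (S.P S.A / S.A) / S.j ∈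
      adjoin k ({S.j, S.la, a1, b1, e1, c1, c2} : Set R) :=
    sub_mem (mul_mem (sub_mem h1' (mul_mem h2' hla7)) (sub_mem hd' (div_mem hPd' hj7)))
      (div_mem (mul_mem hd' hPA') hj7)
  have halg : IsAlgebraic (adjoin k ({S.j, S.la, a1, b1, e1, c1, c2} : Set R)) b := by
    refine alg_poly3 _ (y := b)
      (c0 := -(a * (a + a ^ 3)) - 1 + S.la * (1 - S.la) * ((b1 ^ 2 - a1 * e1) -
        a * ((1 - 2 * S.la) * (S.d - S.P S.d / S.j) - S.d * (S.P S.A / S.A) / S.j)))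
      (c1 := 0) (c2 := 1) (c3 := a / S.j) ?_ (zero_mem _) h1' (div_mem ha' hj7)
      (Or.inr (Or.inl one_ne_zero)) ?_
    · exact add_mem (sub_mem (neg_mem (mul_mem ha' (add_mem ha' (pow_mem ha' 3)))) h1')
        (mul_mem (mul_mem hla7 (sub_mem h1' hla7))
          (sub_mem (sub_mem (pow_mem hb17 2) (mul_mem ha17 he17)) (mul_mem ha' hX)))
    · have q1 := h.q1
      have q2 := h.q2
      linear_combination q1 + a * q2
  have hcrit : adjoin k ({S.j, S.la, a1, b1, e1, c1, c2, b} : Set R) = S.Z := by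
    refine co_crit S h _ h88 (hle8 hj7) (hle8 hla7) (haL _) (subset_adjoin k _ (by simp))
      (Cf_mono hle8 S.j hd7) ⟨g, hg, g0, Cf_mono hle8 S.j hgA7⟩
  exact dim7 S.dim S.j S.la a1 b1 e1 c1 c2 b halg (le_of_eq hcrit.symm)

end CZT
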