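import Pool.Agent.CZT.F5

/-!
# CZT/F6: from stage 2 to stage 3 (5.5)

`D = (j²-1)⁻¹ • P`, `m = a² - 1`, `y = b/m`, `De = d (j²-1)/(m³ j³)`, `a2 = a1/m`, `b2 = b1/m`, `e2 = e1/m`. The relation is the
one of `Co` (with `e` eliminated) divided by `m²`.
-/

set_option autoImplicit false

namespace CZT

open IntermediateField

universe u v

variable {k : Type u} {R : Type v} [Field k] [Field R] [Algebra k R] [CharP R 3]

omit [CharP R 3] in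
private theorem F6_j2 {L : IntermediateField k R} (j : R) : j ^ 2 - 1 ∈ Cf L j :=
  sub_mem (pow_mem (p_mem_Cf L j) 2) (one_mem _)

theorem s2_s3 (S : S2 k R) : ∃ S' : S3 k R, S'.Z = S.Z := by
  have h3 : (3 : R) = 0 := CharP.cast_eq_zero R 3
  obtain ⟨a, b, e, a1, b1, e1, h⟩ := s2_co S
  have ha3 := co_a S h
  have ha0 : a ≠ 0 := by
    rintro rfl
    exact ha3 (by ring)
  have hm : a ^ 2 - 1 ≠ 0 := by
    intro hm
    exact ha3 (by linear_combination a * hm)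
  have hj := S.j0
  have hj1 : S.j ^ 2 - 1 ≠ 0 := sub_ne_zero.2 S.j1
  have hmZ : a ^ 2 - 1 ∈ S.Z := sub_mem (pow_mem h.aZ 2) (one_mem _)
  -- the derivative of `De`
  have hPj2 : S.P (S.j ^ 2 - 1) = 2 * S.j * (S.j ^ 2 - 1) := by
    rw [map_sub, sq, Derivation.leibniz, Derivation.map_one_eq_zero, S.Pj, smul_eq_mul, sub_zero]
    ring
  have hDeP : ((a ^ 2 - 1) * S.j) ^ 3 * S.P (S.d * (S.j ^ 2 - 1) / ((a ^ 2 - 1) ^ 3 * S.j ^ 3)) =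
      (S.j ^ 2 - 1) * (S.P S.d + 2 * S.j * S.d) := by
    rw [← P_cube_mul]
    have e1 : ((a ^ 2 - 1) * S.j) ^ 3 * (S.d * (S.j ^ 2 - 1) / ((a ^ 2 - 1) ^ 3 * S.j ^ 3)) =
        S.d * (S.j ^ 2 - 1) := by
      field_simp
    rw [e1, Derivation.leibniz, hPj2, smul_eq_mul, smul_eq_mul]
    ring
  have hDD : ((S.j ^ 2 - 1)⁻¹ • S.P) (S.d * (S.j ^ 2 - 1) / ((a ^ 2 - 1) ^ 3 * S.j ^ 3)) =
      (S.P S.d + 2 * S.j * S.d) / ((a ^ 2 - 1) ^ 3 * S.j ^ 3) := by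
    rw [Derivation.smul_apply, smul_eq_mul]
    have e2 : S.P (S.d * (S.j ^ 2 - 1) / ((a ^ 2 - 1) ^ 3 * S.j ^ 3)) =
        (S.j ^ 2 - 1) * (S.P S.d + 2 * S.j * S.d) / ((a ^ 2 - 1) * S.j) ^ 3 := by
      rw [eq_div_iff (pow_ne_zero 3 (mul_ne_zero hm hj)), mul_comm, hDeP]
    rw [e2]
    field_simp
  refine ⟨⟨S.Z, (S.j ^ 2 - 1)⁻¹ • S.P, S.j, S.la, a, b / (a ^ 2 - 1),
    S.d * (S.j ^ 2 - 1) / ((a ^ 2 - 1) ^ 3 * S.j ^ 3), S.A, a1 / (a ^ 2 - 1), b1 / (a ^ 2 - 1), e1 / (a ^ 2 - 1),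
    S.jZ, S.laZ, h.aZ, div_mem h.bZ hmZ,
    div_mem (mul_mem S.dZ (F6_j2 _)) (mul_mem (cube_mem_Cf S.Z S.j hmZ) (pow_mem (p_mem_Cf S.Z S.j) 3)), S.AZ,
    div_mem h.a1Z hmZ, div_mem h.b1Z hmZ, div_mem h.e1Z hmZ, hj, S.la0, S.la1, ha3,
    div_ne_zero (mul_ne_zero S.d0 hj1) (mul_ne_zero (pow_ne_zero 3 hm) (pow_ne_zero 3 hj)), S.A0,
    ?_, S.ind, ?_, ?_, ?_, S.dim⟩, rfl⟩
  · rw [Derivation.smul_apply, smul_eq_mul, S.Pj]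
    exact inv_mul_cancel₀ hj1
  · have e3 : S.j ^ 3 * (S.d * (S.j ^ 2 - 1) / ((a ^ 2 - 1) ^ 3 * S.j ^ 3)) =
        ((S.j ^ 2 - 1) * S.d) / (a ^ 2 - 1) ^ 3 := by
      field_simp
    rw [e3, h.hd]
    field_simp
  · rw [hDD, Derivation.smul_apply, smul_eq_mul]
    have hA := S.A0
    have key : b ^ 2 - (a ^ 2 - 1) ^ 2 + a * b ^ 3 / S.j + S.la * (1 - S.la) * (b1 ^ 2 - a1 * e1 -
        a * ((1 - 2 * S.la) * (S.d - S.P S.d / S.j) - S.d * (S.P S.A / S.A) / S.j)) = 0 := by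
      have q1 := h.q1
      rw [h.q2] at q1
      linear_combination q1 + a ^ 2 * h3
    have key2 : (b / (a ^ 2 - 1)) ^ 2 - 1 + (a ^ 3 - a) / S.j * (b / (a ^ 2 - 1)) ^ 3 +
        S.la * (1 - S.la) * ((b1 / (a ^ 2 - 1)) ^ 2 - a1 / (a ^ 2 - 1) * (e1 / (a ^ 2 - 1)) +
          (a ^ 3 - a) * S.j ^ 2 * ((1 - 2 * S.la) * ((S.P S.d - S.j * S.d) / ((a ^ 2 - 1) ^ 3 * S.j ^ 3)) +
            S.d * (S.j ^ 2 - 1) / ((a ^ 2 - 1) ^ 3 * S.j ^ 3) * ((S.j ^ 2 - 1)⁻¹ * S.P S.A / S.A))) =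
        (b ^ 2 - (a ^ 2 - 1) ^ 2 + a * b ^ 3 / S.j + S.la * (1 - S.la) * (b1 ^ 2 - a1 * e1 -
        a * ((1 - 2 * S.la) * (S.d - S.P S.d / S.j) - S.d * (S.P S.A / S.A) / S.j))) / (a ^ 2 - 1) ^ 2 := by
      field_simp
      ring
    rw [key, zero_div] at key2
    have e4 : S.P S.d + 2 * S.j * S.d = S.P S.d - S.j * S.d := by
      linear_combination S.j * S.d * h3
    rw [e4]
    exact key2
  · intro L hL hjL hla haL hy hDe hA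
    have hmL : a ^ 2 - 1 ∈ L := sub_mem (pow_mem haL 2) (one_mem _)
    refine co_crit S h L hL hjL hla haL ?_ ?_ hA
    · have e5 : b = b / (a ^ 2 - 1) * (a ^ 2 - 1) := by
        field_simp
      rw [e5]
      exact mul_mem hy hmL
    · have e6 : S.d = S.d * (S.j ^ 2 - 1) / ((a ^ 2 - 1) ^ 3 * S.j ^ 3) * ((a ^ 2 - 1) ^ 3 * S.j ^ 3) /
          (S.j ^ 2 - 1) := by
        field_simp
      rw [e6]
      exact div_mem (mul_mem hDe (mul_mem (cube_mem_Cf L S.j hmL) (pow_mem (p_mem_Cf L S.j) 3))) (F6_j2 _)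

end CZT
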