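import Pool.Agent.CZT.F2

/-!
# CZT/F7: elements of `L³(j)` as fractional linear functions (5.6)

`f = f2³ j² + f1³ j + f0³` (`coords`).
* `f2 = 0`, `f1 = 0`: `g = 1/f0`, `g³ f = 1`.
* `f2 = 0`, `f1 ≠ 0`: `g = 1/f1`, `g³ f = j + c³`, `c = f0/f1`.
* `f2 ≠ 0`, `b = f1/f2`: `(j - b³) f = (f0 - b f1)³ j + (f2 j - b f0)³` (characteristic 3).  If `f0 = b f1`: `g = 1/(f2 j - b f0)` (not zero as `f ≠ 0`,
  `nocube`), `g³ f = 1/(j - b³)`.  Otherwise `h = f0 - b f1`, `a = -(f2 j - b f0)/h`, `g = 1/h`: `g³ f = (j - a³)/(j - b³)`; if `a = b` this is `1`.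
-/

set_option autoImplicit false

namespace CZT

open IntermediateField

universe u v

variable {k : Type u} {R : Type v} [Field k] [Field R] [Algebra k R] [CharP R 3]

omit [CharP R 3] in
private theorem F7_one (L : IntermediateField k R) (j : R) :
    ∃ c ∈ L, (1 : R) ∈ Cf (adjoin k {j, c}) j :=
  ⟨0, L.zero_mem, (Cf (adjoin k {j, 0}) j).one_mem⟩

theorem moeb {L : IntermediateField k R} {j f : R} (ind : Ind3 j) (hj : j ∈ L) (hf : f ∈ Cf L j) (f0 : f ≠ 0) :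
    ∃ g ∈ L, g ≠ 0 ∧ ((∃ c ∈ L, g ^ 3 * f ∈ Cf (adjoin k {j, c}) j) ∨
      ∃ a ∈ L, ∃ b ∈ L, a ≠ b ∧ g ^ 3 * f = (j - a ^ 3) / (j - b ^ 3)) := by
  have h3 : (3 : R) = 0 := CharP.cast_eq_zero R 3
  obtain ⟨a2, b1, e0, ha, hb, he, rfl⟩ := coords hj hf
  by_cases ha0 : a2 = 0
  · subst ha0
    by_cases hb0 : b1 = 0
    · subst hb0
      have he0 : e0 ≠ 0 := by
        intro h
        apply f0
        rw [h]
        ring
      refine ⟨1 / e0, L.div_mem L.one_mem he, one_div_ne_zero he0, Or.inl ?_⟩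
      obtain ⟨c, hc, h1⟩ := F7_one L j
      refine ⟨c, hc, ?_⟩
      have h2 : (1 / e0) ^ 3 * ((0 : R) ^ 3 * j ^ 2 + 0 ^ 3 * j + e0 ^ 3) = 1 := by
        field_simp
        ring
      rw [h2]
      exact h1
    · refine ⟨1 / b1, L.div_mem L.one_mem hb, one_div_ne_zero hb0, Or.inl
        ⟨e0 / b1, L.div_mem he hb, ?_⟩⟩
      have h2 : (1 / b1) ^ 3 * ((0 : R) ^ 3 * j ^ 2 + b1 ^ 3 * j + e0 ^ 3) = j + (e0 / b1) ^ 3 := by
        field_simp
        ring
      rw [h2]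
      exact (Cf (adjoin k {j, e0 / b1}) j).add_mem (p_mem_Cf _ _)
        (cube_mem_Cf _ _ (subset_adjoin k _ (by simp)))
  · set b : R := b1 / a2 with hbd
    have hb1 : b1 = b * a2 := by
      rw [hbd]
      field_simp
    have hbL : b ∈ L := L.div_mem hb ha
    have hn := nocube ind b
    have hid : (j - b ^ 3) * (a2 ^ 3 * j ^ 2 + b1 ^ 3 * j + e0 ^ 3) =
        (e0 - b * b1) ^ 3 * j + (a2 * j - b * e0) ^ 3 := by
      rw [hb1]
      linear_combination (j * (e0 ^ 2 * (b * (b * a2)) - e0 * (b * (b * a2)) ^ 2) +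
        (a2 * j) ^ 2 * (b * e0) - (a2 * j) * (b * e0) ^ 2) * h3
    by_cases hh : e0 - b * b1 = 0
    · rw [hh] at hid
      have hr : a2 * j - b * e0 ≠ 0 := by
        intro h
        rw [h] at hid
        have : (j - b ^ 3) * (a2 ^ 3 * j ^ 2 + b1 ^ 3 * j + e0 ^ 3) = 0 := by
          rw [hid]
          ring
        rcases mul_eq_zero.1 this with h1 | h1
        · exact hn h1
        · exact f0 h1
      refine ⟨1 / (a2 * j - b * e0), L.div_mem L.one_mem
        (L.sub_mem (L.mul_mem ha hj) (L.mul_mem hbL he)), one_div_ne_zero hr, Or.inl ⟨b, hbL, ?_⟩⟩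
      have h2 : (1 / (a2 * j - b * e0)) ^ 3 * (a2 ^ 3 * j ^ 2 + b1 ^ 3 * j + e0 ^ 3) =
          1 / (j - b ^ 3) := by
        rw [eq_div_iff hn, mul_assoc, mul_comm _ (j - b ^ 3), hid]
        field_simp
        ring
      rw [h2]
      exact (Cf (adjoin k {j, b}) j).div_mem (Cf (adjoin k {j, b}) j).one_mem
        ((Cf (adjoin k {j, b}) j).sub_mem (p_mem_Cf _ _)
          (cube_mem_Cf _ _ (subset_adjoin k _ (by simp))))
    · have haL : -(a2 * j - b * e0) / (e0 - b * b1) ∈ L :=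
        L.div_mem (L.neg_mem (L.sub_mem (L.mul_mem ha hj) (L.mul_mem hbL he)))
          (L.sub_mem he (L.mul_mem hbL hb))
      have h2 : (1 / (e0 - b * b1)) ^ 3 * (a2 ^ 3 * j ^ 2 + b1 ^ 3 * j + e0 ^ 3) =
          (j - (-(a2 * j - b * e0) / (e0 - b * b1)) ^ 3) / (j - b ^ 3) := by
        rw [eq_div_iff hn, mul_assoc, mul_comm _ (j - b ^ 3), hid]
        field_simp
        ring
      refine ⟨1 / (e0 - b * b1), L.div_mem L.one_mem (L.sub_mem he (L.mul_mem hbL hb)),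
        one_div_ne_zero hh, ?_⟩
      by_cases hab : -(a2 * j - b * e0) / (e0 - b * b1) = b
      · left
        obtain ⟨c, hc, h1⟩ := F7_one L j
        refine ⟨c, hc, ?_⟩
        rw [h2, hab, div_self hn]
        exact h1
      · right
        exact ⟨_, haL, b, hbL, hab, h2⟩

end CZT
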