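import Pool.Agent.CZT.F2
import Pool.Agent.CZT.F3

/-!
# CZT/F8: the degenerate cases of 5.6

With `L7 = adjoin k {j, la, a, s, c1, c2, c3}` the elements `De = s³ p1 p2` and `(1/g)³ A = p1 p2²` lie in `Cf L7 j`, so
`Z = adjoin k {j, la, a, s, c1, c2, c3, y}` by `crit`. The relation `rel` is a cubic equation for `y` with
coefficients in `L7`, so eight generators with `y` algebraic over the others: a contradiction to `Dim Z`.
-/

set_option autoImplicit false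

namespace CZT

open IntermediateField

universe u v

variable {k : Type u} {R : Type v} [Field k] [Field R] [Algebra k R] [CharP R 3]

theorem s3_deg (S : S3 k R) {s g p1 p2 c1 c2 c3 : R} (sZ : s ∈ S.Z) (gZ : g ∈ S.Z) (h1Z : c1 ∈ S.Z) (h2Z : c2 ∈ S.Z)
    (h3Z : c3 ∈ S.Z) (s0 : s ≠ 0) (g0 : g ≠ 0) (hDe : S.De = s ^ 3 * (p1 * p2)) (hA : S.A = g ^ 3 * (p1 * p2 ^ 2))
    (hp1 : p1 ∈ Cf (adjoin k {S.j, c1, c2, c3}) S.j) (hp2 : p2 ∈ Cf (adjoin k {S.j, c1, c2, c3}) S.j) : False := by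
  have hsub : ∀ x ∈ ({S.j, S.la, S.a, s, c1, c2, c3} : Set R),
      x ∈ adjoin k ({S.j, S.la, S.a, s, c1, c2, c3} : Set R) := fun x hx => subset_adjoin k _ hx
  have hj : S.j ∈ adjoin k ({S.j, S.la, S.a, s, c1, c2, c3} : Set R) := hsub _ (by simp)
  have hla : S.la ∈ adjoin k ({S.j, S.la, S.a, s, c1, c2, c3} : Set R) := hsub _ (by simp)
  have ha : S.a ∈ adjoin k ({S.j, S.la, S.a, s, c1, c2, c3} : Set R) := hsub _ (by simp)
  have hs : s ∈ adjoin k ({S.j, S.la, S.a, s, c1, c2, c3} : Set R) := hsub _ (by simp)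
  have hle0 : adjoin k ({S.j, c1, c2, c3} : Set R) ≤ adjoin k ({S.j, S.la, S.a, s, c1, c2, c3} : Set R) := by
    apply adjoin.mono
    intro x hx
    simp only [Set.mem_insert_iff, Set.mem_singleton_iff] at hx ⊢
    tauto
  have hle1 : adjoin k ({S.j, S.la, S.a, s, c1, c2, c3} : Set R) ≤
      adjoin k ({S.j, S.la, S.a, s, c1, c2, c3, S.y} : Set R) := by
    apply adjoin.mono
    intro x hx
    simp only [Set.mem_insert_iff, Set.mem_singleton_iff] at hx ⊢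
    tauto
  have q1 := Cf_mono hle0 S.j hp1
  have q2 := Cf_mono hle0 S.j hp2
  have hDe' : S.De ∈ Cf (adjoin k ({S.j, S.la, S.a, s, c1, c2, c3} : Set R)) S.j := by
    rw [hDe]
    exact mul_mem (cube_mem_Cf _ _ hs) (mul_mem q1 q2)
  have gi0 : g⁻¹ ≠ 0 := inv_ne_zero g0
  have hgA : g⁻¹ ^ 3 * S.A = p1 * p2 ^ 2 := by
    rw [hA, ← mul_assoc, ← mul_pow, inv_mul_cancel₀ g0, one_pow, one_mul]
  have hA' : g⁻¹ ^ 3 * S.A ∈ Cf (adjoin k ({S.j, S.la, S.a, s, c1, c2, c3} : Set R)) S.j := by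
    rw [hgA]
    exact mul_mem q1 (pow_mem q2 2)
  have hZ : adjoin k ({S.j, S.la, S.a, s, c1, c2, c3, S.y} : Set R) = S.Z := by
    apply S.crit
    · rw [adjoin_le_iff]
      intro x hx
      simp only [Set.mem_insert_iff, Set.mem_singleton_iff] at hx
      rcases hx with rfl | rfl | rfl | rfl | rfl | rfl | rfl | rfl
      · exact S.jZ
      · exact S.laZ
      · exact S.aZ
      · exact sZ
      · exact h1Z
      · exact h2Z
      · exact h3Z
      · exact S.yZ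
    · exact hle1 hj
    · exact hle1 hla
    · exact hle1 ha
    · exact subset_adjoin k _ (by simp)
    · exact Cf_mono hle1 S.j hDe'
    · exact ⟨g⁻¹, inv_mem gZ, gi0, Cf_mono hle1 S.j hA'⟩
  have hDj : S.D S.j ∈ Cf (adjoin k ({S.j, S.la, S.a, s, c1, c2, c3} : Set R)) S.j := by
    rw [S.Dj]
    exact one_mem _
  have hcoord : S.a2 ^ 3 * S.j ^ 2 + S.b2 ^ 3 * S.j + S.e2 ^ 3 ∈
      Cf (adjoin k ({S.j, S.la, S.a, s, c1, c2, c3} : Set R)) S.j := by
    rw [← S.hDe]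
    exact mul_mem (cube_mem_Cf _ _ hj) hDe'
  obtain ⟨h1, h2, h3⟩ := coord_mem S.ind hj hcoord
  have hDDe : S.D S.De ∈ adjoin k ({S.j, S.la, S.a, s, c1, c2, c3} : Set R) :=
    Cf_le hj (der_Cf S.D hj hDj hDe')
  have hDA : S.D S.A / S.A ∈ adjoin k ({S.j, S.la, S.a, s, c1, c2, c3} : Set R) := by
    rw [← logd S.D gi0]
    exact div_mem (Cf_le hj (der_Cf S.D hj hDj hA')) (Cf_le hj hA')
  have hDe'' : S.De ∈ adjoin k ({S.j, S.la, S.a, s, c1, c2, c3} : Set R) := Cf_le hj hDe'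
  have hone : (1 : R) ∈ adjoin k ({S.j, S.la, S.a, s, c1, c2, c3} : Set R) := one_mem _
  have htwo : (2 : R) ∈ adjoin k ({S.j, S.la, S.a, s, c1, c2, c3} : Set R) := by
    rw [← one_add_one_eq_two]
    exact add_mem hone hone
  have hr : S.a ^ 3 - S.a ∈ adjoin k ({S.j, S.la, S.a, s, c1, c2, c3} : Set R) :=
    sub_mem (pow_mem ha 3) ha
  have hc0 : S.la * (1 - S.la) * (S.b2 ^ 2 - S.a2 * S.e2 +
      (S.a ^ 3 - S.a) * S.j ^ 2 * ((1 - 2 * S.la) * S.D S.De + S.De * (S.D S.A / S.A))) - 1 ∈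
      adjoin k ({S.j, S.la, S.a, s, c1, c2, c3} : Set R) :=
    sub_mem (mul_mem (mul_mem hla (sub_mem hone hla)) (add_mem (sub_mem (pow_mem h2 2) (mul_mem h1 h3))
      (mul_mem (mul_mem hr (pow_mem hj 2)) (add_mem (mul_mem (sub_mem hone (mul_mem htwo hla)) hDDe)
        (mul_mem hDe'' hDA))))) hone
  have hc3 : (S.a ^ 3 - S.a) / S.j ∈ adjoin k ({S.j, S.la, S.a, s, c1, c2, c3} : Set R) := div_mem hr hj
  have halg : IsAlgebraic (adjoin k ({S.j, S.la, S.a, s, c1, c2, c3} : Set R)) S.y := by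
    refine alg_poly3 _ hc0 (zero_mem _) hone hc3 (Or.inl (div_ne_zero S.a0 S.j0)) ?_
    have h := S.rel
    linear_combination h
  exact dim7 S.dim S.j S.la S.a s c1 c2 c3 S.y halg hZ.ge

end CZT
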