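import Pool.Agent.CZT.F7
import Pool.Agent.CZT.F8

/-!
# CZT/F9: the form of `De` and `A` (5.6)

Apply `moeb` to `f1 = 1/(De A)` and `f2 = A/De` (elements of `Cf Z j`): `g1³ f1 = p1`, `g2³ f2 = p2`.  `f1 f2 = De⁻²`, so
`De = De³ f1 f2 = (De/(g1 g2))³ p1 p2`, `A = f2 De = (De/(g1 g2²))³ p1 p2²`; `De ∈ Z` (`Cf_le`).  If one of them is degenerate (first alternative):
`s3_deg` with its parameter `c` and the parameters `a, b` (or `c, j`) of the other one (`(j - a³)/(j - b³)` lies in `Cf (adjoin k {j, c, a, b}) j`).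
-/

set_option autoImplicit false

namespace CZT

open IntermediateField

universe u v

variable {k : Type u} {R : Type v} [Field k] [Field R] [Algebra k R] [CharP R 3]

omit [CharP R 3] in
private theorem F9_moeb_mem (K : IntermediateField k R) {j a b : R} (ha : a ∈ K) (hb : b ∈ K) :
    (j - a ^ 3) / (j - b ^ 3) ∈ Cf K j :=
  div_mem (sub_mem (p_mem_Cf K j) (cube_mem_Cf K j ha)) (sub_mem (p_mem_Cf K j) (cube_mem_Cf K j hb))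

theorem s3_form (S : S3 k R) : ∃ s g a1 b1 a2 b2 : R, s ∈ S.Z ∧ g ∈ S.Z ∧ a1 ∈ S.Z ∧ b1 ∈ S.Z ∧ a2 ∈ S.Z ∧ b2 ∈ S.Z ∧
    s ≠ 0 ∧ g ≠ 0 ∧ a1 ≠ b1 ∧ a2 ≠ b2 ∧
    S.De = s ^ 3 * ((S.j - a1 ^ 3) / (S.j - b1 ^ 3) * ((S.j - a2 ^ 3) / (S.j - b2 ^ 3))) ∧
    S.A = g ^ 3 * ((S.j - a1 ^ 3) / (S.j - b1 ^ 3) * ((S.j - a2 ^ 3) / (S.j - b2 ^ 3)) ^ 2) := by
  have De0 := S.De0
  have A0 := S.A0
  have DeZ : S.De ∈ S.Z := Cf_le S.jZ S.DeZ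
  have hf1 : 1 / (S.De * S.A) ∈ Cf S.Z S.j := div_mem (one_mem _) (mul_mem S.DeZ S.AZ)
  have hf2 : S.A / S.De ∈ Cf S.Z S.j := div_mem S.AZ S.DeZ
  have f10 : 1 / (S.De * S.A) ≠ 0 := one_div_ne_zero (mul_ne_zero De0 A0)
  have f20 : S.A / S.De ≠ 0 := div_ne_zero A0 De0
  obtain ⟨g1, g1Z, g10, H1⟩ := moeb S.ind S.jZ hf1 f10
  obtain ⟨g2, g2Z, g20, H2⟩ := moeb S.ind S.jZ hf2 f20
  set s : R := S.De / (g1 * g2) with hs
  set g : R := S.De / (g1 * g2 ^ 2) with hg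
  have sZ : s ∈ S.Z := div_mem DeZ (mul_mem g1Z g2Z)
  have gZ : g ∈ S.Z := div_mem DeZ (mul_mem g1Z (pow_mem g2Z 2))
  have s0 : s ≠ 0 := div_ne_zero De0 (mul_ne_zero g10 g20)
  have g0 : g ≠ 0 := div_ne_zero De0 (mul_ne_zero g10 (pow_ne_zero 2 g20))
  have hDe : S.De = s ^ 3 * (g1 ^ 3 * (1 / (S.De * S.A)) * (g2 ^ 3 * (S.A / S.De))) := by
    rw [hs]
    field_simp
  have hA : S.A = g ^ 3 * (g1 ^ 3 * (1 / (S.De * S.A)) * (g2 ^ 3 * (S.A / S.De)) ^ 2) := by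
    rw [hg]
    field_simp
  have hsub : ∀ {c : R} (c1 c2 c3 : R), (c = c1 ∨ c = c2 ∨ c = c3) →
      adjoin k {S.j, c} ≤ adjoin k {S.j, c1, c2, c3} := by
    intro c c1 c2 c3 h
    refine adjoin.mono _ _ _ ?_
    rintro x (hx | hx)
    · exact Or.inl hx
    · rw [Set.mem_singleton_iff] at hx
      subst hx
      rcases h with h | h | h
      · exact Or.inr (Or.inl h)
      · exact Or.inr (Or.inr (Or.inl h))
      · exact Or.inr (Or.inr (Or.inr h))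
  rcases H1 with ⟨c, cZ, hc⟩ | ⟨a1, a1Z, b1, b1Z, hab1, hp1⟩
  · exfalso
    rcases H2 with ⟨c', cZ', hc'⟩ | ⟨a2, a2Z, b2, b2Z, hab2, hp2⟩
    · exact s3_deg S sZ gZ cZ cZ' cZ s0 g0 hDe hA
        (Cf_mono (hsub c c' c (Or.inl rfl)) _ hc) (Cf_mono (hsub c c' c (Or.inr (Or.inl rfl))) _ hc')
    · refine s3_deg S sZ gZ cZ a2Z b2Z s0 g0 hDe hA
        (Cf_mono (hsub c a2 b2 (Or.inl rfl)) _ hc) ?_
      rw [hp2]
      exact F9_moeb_mem _ (subset_adjoin k _ (by simp)) (subset_adjoin k _ (by simp))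
  · rcases H2 with ⟨c', cZ', hc'⟩ | ⟨a2, a2Z, b2, b2Z, hab2, hp2⟩
    · exfalso
      refine s3_deg S sZ gZ cZ' a1Z b1Z s0 g0 hDe hA ?_
        (Cf_mono (hsub c' a1 b1 (Or.inl rfl)) _ hc')
      rw [hp1]
      exact F9_moeb_mem _ (subset_adjoin k _ (by simp)) (subset_adjoin k _ (by simp))
    · refine ⟨s, g, a1, b1, a2, b2, sZ, gZ, a1Z, b1Z, a2Z, b2Z, s0, g0, hab1, hab2, ?_, ?_⟩
      · rw [← hp1, ← hp2]
        exact hDe
      · rw [← hp1, ← hp2]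
        exact hA

end CZT
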