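import Pool.Agent.CZT.F1

/-!
# CZT/FA: derivatives of the fractional linear functions (5.6, 5.7)

`D p = 0` for a cube `p` (`P_cube`), `D j = 1`.
`dfrac`: `D ((j-p)/(j-r)) = ((j-r) - (j-p))/(j-r)² = (p-r)/(j-r)²` for `p = a³`, `r = b³`; `(p - r) = (a-b)³`.
`qform`: `f = (j-p)(j-q)/((j-r)(j-t))` with `p = a1³, q = a2³, r = b1³, t = b2³`.  In characteristic 3
`(D f)² + f D (D f) = ((j-p)³ ((p-r)+(q-t)) - (q-p)² (p-r) (t-p)) / ((j-r)³ (j-t)³)`: compute `D f`, `D (D f)` by `dfrac` and the product rule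
(or write `f = N/E³` with `E = (j-r)(j-t)` and `N = (j-p)(j-q)E²`, `D f = D N/E³`, `D (D f) = D (D N)/E³` and
`(D N)² + N D (D N) = E³ ((j-p)³ ((p-r)+(q-t)) - (q-p)² (p-r) (t-p))`, a polynomial identity modulo 3).  Then with `j³ De = s³ j³ f` (cubes are constants) the
cube of the right side of `qform` is `(D (j³ De))² + j³ De D (D (j³ De))`, which is `(b2²-a2e2)³` by `qd`; `cube_inj`.
-/

set_option autoImplicit false

namespace CZT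

universe v

variable {R : Type v} [Field R] [CharP R 3]

private theorem FA_three : (3 : R) = 0 := by
  have h := CharP.cast_eq_zero R 3
  exact_mod_cast h

private theorem FA_sub (x y : R) : (x - y) ^ 3 = x ^ 3 - y ^ 3 := by
  linear_combination (-(x ^ 2 * y) + x * y ^ 2) * (FA_three : (3 : R) = 0)

private theorem FA_add (x y : R) : (x + y) ^ 3 = x ^ 3 + y ^ 3 := by
  linear_combination (x ^ 2 * y + x * y ^ 2) * (FA_three : (3 : R) = 0)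

private theorem FA_D (D : Derivation ℤ R R) {j a : R} (Dj : D j = 1) : D (j - a ^ 3) = 1 := by
  rw [map_sub, Dj, P_cube, sub_zero]

theorem dfrac (D : Derivation ℤ R R) {j a b : R} (Dj : D j = 1) (h : j - b ^ 3 ≠ 0) :
    D ((j - a ^ 3) / (j - b ^ 3)) = (a - b) ^ 3 / (j - b ^ 3) ^ 2 := by
  rw [Derivation.leibniz_div, FA_D D Dj, FA_D D Dj, FA_sub]
  simp only [smul_eq_mul, mul_one]
  field_simp
  ring

private theorem FA_poly (a b c d : R) :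
    ((a + b) * (c * d) ^ 2 + a * b * (2 * (c * d) * (c + d))) ^ 2 + a * b * (c * d) ^ 2 *
      (2 * (c * d) ^ 2 + 4 * (a + b) * (c * d) * (c + d) + 2 * (a * b) * (c + d) ^ 2 + 4 * (a * b) * (c * d)) =
    (c * d) ^ 3 * (a ^ 3 * ((c - a) + (d - b)) - (a - b) ^ 2 * (c - a) * (a - d)) := by
  linear_combination ((c * d) ^ 3 * (2 * a * b * (c * d) + (2 * a ^ 2 * b + 3 * a * b ^ 2) * (c + d) + a ^ 2 * b ^ 2 + a ^ 3 * b) +
    2 * a ^ 2 * b ^ 2 * (c + d) ^ 2 * (c * d) ^ 2) * (FA_three : (3 : R) = 0)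

private theorem FA_DN (D : Derivation ℤ R R) {a b c d : R} (Da : D a = 1) (Db : D b = 1) (Dc : D c = 1) (Dd : D d = 1) :
    D (a * b * (c * d) ^ 2) = (a + b) * (c * d) ^ 2 + a * b * (2 * (c * d) * (c + d)) := by
  simp only [Derivation.leibniz, Derivation.leibniz_pow, smul_eq_mul, Da, Db, Dc, Dd, nsmul_eq_mul, Nat.cast_ofNat]
  ring

private theorem FA_DDN (D : Derivation ℤ R R) {a b c d : R} (Da : D a = 1) (Db : D b = 1) (Dc : D c = 1) (Dd : D d = 1) :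
    D ((a + b) * (c * d) ^ 2 + a * b * (2 * (c * d) * (c + d))) =
      2 * (c * d) ^ 2 + 4 * (a + b) * (c * d) * (c + d) + 2 * (a * b) * (c + d) ^ 2 + 4 * (a * b) * (c * d) := by
  have h2 : D 2 = 0 := by
    have : D ((2 : ℕ) : R) = 0 := D.map_natCast 2
    exact_mod_cast this
  simp only [map_add, Derivation.leibniz, Derivation.leibniz_pow, smul_eq_mul, Da, Db, Dc, Dd, h2, nsmul_eq_mul, Nat.cast_ofNat]
  ring

theorem qform (D : Derivation ℤ R R) {j De s a1 b1 a2 b2 α β γ : R} (Dj : D j = 1) (h1 : j - b1 ^ 3 ≠ 0) (h2 : j - b2 ^ 3 ≠ 0)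
    (hDe : De = s ^ 3 * ((j - a1 ^ 3) / (j - b1 ^ 3) * ((j - a2 ^ 3) / (j - b2 ^ 3))))
    (hc : j ^ 3 * De = α ^ 3 * j ^ 2 + β ^ 3 * j + γ ^ 3) :
    β ^ 2 - α * γ = s ^ 2 * (j ^ 2 * ((j - a1 ^ 3) * ((a1 - b1) + (a2 - b2)) - (a2 - a1) ^ 2 * (a1 - b1) * (b2 - a1)) /
        ((j - b1 ^ 3) * (j - b2 ^ 3))) := by
  apply cube_inj
  rw [qd D Dj hc]
  have ea : a1 ^ 3 = j - (j - a1 ^ 3) := by ring
  have eb : a2 ^ 3 = j - (j - a2 ^ 3) := by ring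
  have ec : b1 ^ 3 = j - (j - b1 ^ 3) := by ring
  have ed : b2 ^ 3 = j - (j - b2 ^ 3) := by ring
  have hR : (s ^ 2 * (j ^ 2 * ((j - a1 ^ 3) * ((a1 - b1) + (a2 - b2)) - (a2 - a1) ^ 2 * (a1 - b1) * (b2 - a1)) /
        ((j - b1 ^ 3) * (j - b2 ^ 3)))) ^ 3 =
      s ^ 6 * j ^ 6 * ((j - a1 ^ 3) ^ 3 * ((a1 ^ 3 - b1 ^ 3) + (a2 ^ 3 - b2 ^ 3)) -
        (a2 ^ 3 - a1 ^ 3) ^ 2 * (a1 ^ 3 - b1 ^ 3) * (b2 ^ 3 - a1 ^ 3)) / ((j - b1 ^ 3) * (j - b2 ^ 3)) ^ 3 := by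
    have e1 : ((j - a1 ^ 3) * ((a1 - b1) + (a2 - b2)) - (a2 - a1) ^ 2 * (a1 - b1) * (b2 - a1)) ^ 3 =
        (j - a1 ^ 3) ^ 3 * ((a1 ^ 3 - b1 ^ 3) + (a2 ^ 3 - b2 ^ 3)) -
        (a2 ^ 3 - a1 ^ 3) ^ 2 * (a1 ^ 3 - b1 ^ 3) * (b2 ^ 3 - a1 ^ 3) := by
      have e2 : ((a2 - a1) ^ 2) ^ 3 = (a2 ^ 3 - a1 ^ 3) ^ 2 := by
        rw [← FA_sub a2 a1]; ring
      rw [FA_sub, mul_pow, FA_add, FA_sub a1 b1, FA_sub a2 b2, mul_pow, mul_pow, e2, FA_sub a1 b1, FA_sub b2 a1]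
    rw [mul_pow, div_pow, mul_pow, e1]
    ring
  rw [hR]
  have Da := FA_D D Dj (a := a1)
  have Db := FA_D D Dj (a := a2)
  have Dc := FA_D D Dj (a := b1)
  have Dd := FA_D D Dj (a := b2)
  have hab : a1 ^ 3 - b1 ^ 3 = (j - b1 ^ 3) - (j - a1 ^ 3) := by ring
  have hbd : a2 ^ 3 - b2 ^ 3 = (j - b2 ^ 3) - (j - a2 ^ 3) := by ring
  have hba : a2 ^ 3 - a1 ^ 3 = (j - a1 ^ 3) - (j - a2 ^ 3) := by ring
  have hda : b2 ^ 3 - a1 ^ 3 = (j - a1 ^ 3) - (j - b2 ^ 3) := by ring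
  rw [hab, hbd, hba, hda]
  rw [hDe]
  generalize j - a1 ^ 3 = a at *
  generalize j - a2 ^ 3 = b at *
  generalize j - b1 ^ 3 = c at *
  generalize j - b2 ^ 3 = d at *
  have hf : j ^ 3 * (s ^ 3 * (a / c * (b / d))) = (j * s / (c * d)) ^ 3 * (a * b * (c * d) ^ 2) := by
    field_simp
  rw [hf, P_cube_mul, P_cube_mul, FA_DN D Da Db Dc Dd, FA_DDN D Da Db Dc Dd]
  have hp := FA_poly a b c d
  have e3 : ((j * s / (c * d)) ^ 3 * ((a + b) * (c * d) ^ 2 + a * b * (2 * (c * d) * (c + d)))) ^ 2 +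
      (j * s / (c * d)) ^ 3 * (a * b * (c * d) ^ 2) * ((j * s / (c * d)) ^ 3 *
        (2 * (c * d) ^ 2 + 4 * (a + b) * (c * d) * (c + d) + 2 * (a * b) * (c + d) ^ 2 + 4 * (a * b) * (c * d))) =
      (j * s / (c * d)) ^ 6 * (((a + b) * (c * d) ^ 2 + a * b * (2 * (c * d) * (c + d))) ^ 2 + a * b * (c * d) ^ 2 *
      (2 * (c * d) ^ 2 + 4 * (a + b) * (c * d) * (c + d) + 2 * (a * b) * (c + d) ^ 2 + 4 * (a * b) * (c * d))) := by
    ring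
  rw [e3, hp]
  field_simp

end CZT
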