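import Pool.Agent.CZT.F9
import Pool.Agent.CZT.FA

/-!
# CZT/FB: from stage 3 to stage 4 (5.6)

`s, g, a1, b1, a2, b2` from `s3_form`, `p1 = (j-a1³)/(j-b1³)`, `p2 = (j-a2³)/(j-b2³)`.  `gen`: `L = adjoin k {j, la, a, y, a1, b1, a2, b2, s} ≤ Z`,
`De ∈ Cf L j`, `(1/g)³ A ∈ Cf L j`: `crit`.  `rel`: `qform` for `b2²-a2e2` (coordinates of `S.De`, `S.hDe`), `D De = s³ (p1' p2 + p1 p2')`,
`D A/A = p1'/p1 + 2 p2'/p2` (`logd`), so `(1-2la) D De + De (D A/A) = s³ (-(1-la) p1' p2 + la p1 p2')` (characteristic 3), `dfrac` for `p1'`, `p2'`.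
`nc`: `nocube`.
-/

set_option autoImplicit false

namespace CZT

open IntermediateField

universe u v

variable {k : Type u} {R : Type v} [Field k] [Field R] [Algebra k R] [CharP R 3]

/-- the derivative part of the relation -/
private theorem FB_der (D : Derivation ℤ R R) {s g la De A p1 p2 q1 q2 : R} (g0 : g ≠ 0) (p10 : p1 ≠ 0)
    (p20 : p2 ≠ 0) (h1 : D p1 = q1) (h2 : D p2 = q2) (hDe : De = s ^ 3 * (p1 * p2))
    (hA : A = g ^ 3 * (p1 * p2 ^ 2)) :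
    (1 - 2 * la) * D De + De * (D A / A) = -(s ^ 3 * ((1 - la) * (q1 * p2) - la * (p1 * q2))) := by
  have h3 : (3 : R) = 0 := CharP.cast_eq_zero R 3
  have e1 : D De = s ^ 3 * (p1 * q2 + p2 * q1) := by
    rw [hDe, P_cube_mul, Derivation.leibniz, h1, h2, smul_eq_mul, smul_eq_mul]
  have e2 : D (p1 * p2 ^ 2) = p1 * (2 * p2 * q2) + p2 ^ 2 * q1 := by
    rw [Derivation.leibniz, sq, Derivation.leibniz, h1, h2, smul_eq_mul, smul_eq_mul, smul_eq_mul]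
    ring
  have e3 : D A / A = D (p1 * p2 ^ 2) / (p1 * p2 ^ 2) := by
    rw [hA, logd D g0]
  have e4 : De * (D A / A) = s ^ 3 * (2 * (p1 * q2) + p2 * q1) := by
    rw [e3, e2, hDe]
    field_simp
  rw [e4, e1]
  linear_combination (s ^ 3 * (q1 * p2 + p1 * q2) - s ^ 3 * la * (q1 * p2) - s ^ 3 * la * (p1 * q2)) * h3

theorem s3_s4 (S : S3 k R) : ∃ S' : S4 k R, S'.Z = S.Z := by
  obtain ⟨s, g, a1, b1, a2, b2, sZ, gZ, a1Z, b1Z, a2Z, b2Z, s0, g0, h12, h34, hDe, hA⟩ := s3_form S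
  have nc : ∀ f : R, S.j - f ^ 3 ≠ 0 := fun f => nocube S.ind f
  have p10 : (S.j - a1 ^ 3) / (S.j - b1 ^ 3) ≠ 0 := div_ne_zero (nc a1) (nc b1)
  have p20 : (S.j - a2 ^ 3) / (S.j - b2 ^ 3) ≠ 0 := div_ne_zero (nc a2) (nc b2)
  have hq := qform S.D S.Dj (nc b1) (nc b2) hDe S.hDe
  have hd := FB_der S.D (la := S.la) g0 p10 p20 (dfrac S.D S.Dj (nc b1)) (dfrac S.D S.Dj (nc b2)) hDe hA
  have hle : adjoin k ({S.j, S.la, S.a, S.y, a1, b1, a2, b2, s} : Set R) ≤ S.Z := by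
    rw [adjoin_le_iff]
    intro x hx
    simp only [Set.mem_insert_iff, Set.mem_singleton_iff] at hx
    rcases hx with rfl | rfl | rfl | rfl | rfl | rfl | rfl | rfl | rfl
    · exact S.jZ
    · exact S.laZ
    · exact S.aZ
    · exact S.yZ
    · exact a1Z
    · exact b1Z
    · exact a2Z
    · exact b2Z
    · exact sZ
  have hj : S.j ∈ adjoin k ({S.j, S.la, S.a, S.y, a1, b1, a2, b2, s} : Set R) := subset_adjoin k _ (by simp)
  have hla : S.la ∈ adjoin k ({S.j, S.la, S.a, S.y, a1, b1, a2, b2, s} : Set R) := subset_adjoin k _ (by simp)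
  have ha : S.a ∈ adjoin k ({S.j, S.la, S.a, S.y, a1, b1, a2, b2, s} : Set R) := subset_adjoin k _ (by simp)
  have hy : S.y ∈ adjoin k ({S.j, S.la, S.a, S.y, a1, b1, a2, b2, s} : Set R) := subset_adjoin k _ (by simp)
  have ha1 : a1 ∈ adjoin k ({S.j, S.la, S.a, S.y, a1, b1, a2, b2, s} : Set R) := subset_adjoin k _ (by simp)
  have hb1 : b1 ∈ adjoin k ({S.j, S.la, S.a, S.y, a1, b1, a2, b2, s} : Set R) := subset_adjoin k _ (by simp)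
  have ha2 : a2 ∈ adjoin k ({S.j, S.la, S.a, S.y, a1, b1, a2, b2, s} : Set R) := subset_adjoin k _ (by simp)
  have hb2 : b2 ∈ adjoin k ({S.j, S.la, S.a, S.y, a1, b1, a2, b2, s} : Set R) := subset_adjoin k _ (by simp)
  have hs : s ∈ adjoin k ({S.j, S.la, S.a, S.y, a1, b1, a2, b2, s} : Set R) := subset_adjoin k _ (by simp)
  have hp1 : (S.j - a1 ^ 3) / (S.j - b1 ^ 3) ∈
      Cf (adjoin k ({S.j, S.la, S.a, S.y, a1, b1, a2, b2, s} : Set R)) S.j :=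
    div_mem (sub_mem (p_mem_Cf _ _) (cube_mem_Cf _ _ ha1)) (sub_mem (p_mem_Cf _ _) (cube_mem_Cf _ _ hb1))
  have hp2 : (S.j - a2 ^ 3) / (S.j - b2 ^ 3) ∈
      Cf (adjoin k ({S.j, S.la, S.a, S.y, a1, b1, a2, b2, s} : Set R)) S.j :=
    div_mem (sub_mem (p_mem_Cf _ _) (cube_mem_Cf _ _ ha2)) (sub_mem (p_mem_Cf _ _) (cube_mem_Cf _ _ hb2))
  have hDeL : S.De ∈ Cf (adjoin k ({S.j, S.la, S.a, S.y, a1, b1, a2, b2, s} : Set R)) S.j := by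
    rw [hDe]
    exact mul_mem (cube_mem_Cf _ _ hs) (mul_mem hp1 hp2)
  have hgA : g⁻¹ ^ 3 * S.A = (S.j - a1 ^ 3) / (S.j - b1 ^ 3) * ((S.j - a2 ^ 3) / (S.j - b2 ^ 3)) ^ 2 := by
    conv_lhs => rw [hA]
    rw [← mul_assoc, ← mul_pow, inv_mul_cancel₀ g0, one_pow, one_mul]
  have hAL : g⁻¹ ^ 3 * S.A ∈ Cf (adjoin k ({S.j, S.la, S.a, S.y, a1, b1, a2, b2, s} : Set R)) S.j := by
    rw [hgA]
    exact mul_mem hp1 (pow_mem hp2 2)
  have hgen : adjoin k ({S.j, S.la, S.a, S.y, a1, b1, a2, b2, s} : Set R) = S.Z :=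
    S.crit _ hle hj hla ha hy hDeL ⟨g⁻¹, inv_mem gZ, inv_ne_zero g0, hAL⟩
  have hrel : S.y ^ 2 - 1 + (S.a ^ 3 - S.a) / S.j * S.y ^ 3 = (s * (1 - S.la)) * (-(s * S.la)) *
      (S.j ^ 2 * ((S.j - a1 ^ 3) * ((a1 - b1) + (a2 - b2)) - (a2 - a1) ^ 2 * (a1 - b1) * (b2 - a1)) /
          ((S.j - b1 ^ 3) * (S.j - b2 ^ 3)) -
        (S.a ^ 3 - S.a) * S.j ^ 2 * (s * (1 - S.la) * ((S.j - a2 ^ 3) * (a1 - b1) ^ 3 /
            ((S.j - b1 ^ 3) ^ 2 * (S.j - b2 ^ 3))) +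
          -(s * S.la) * ((S.j - a1 ^ 3) * (a2 - b2) ^ 3 / ((S.j - b1 ^ 3) * (S.j - b2 ^ 3) ^ 2)))) := by
    have hr := S.rel
    rw [hd, hq] at hr
    have e1 : (a1 - b1) ^ 3 / (S.j - b1 ^ 3) ^ 2 * ((S.j - a2 ^ 3) / (S.j - b2 ^ 3)) =
        (S.j - a2 ^ 3) * (a1 - b1) ^ 3 / ((S.j - b1 ^ 3) ^ 2 * (S.j - b2 ^ 3)) := by
      rw [div_mul_div_comm, mul_comm ((a1 - b1) ^ 3)]
    have e2 : (S.j - a1 ^ 3) / (S.j - b1 ^ 3) * ((a2 - b2) ^ 3 / (S.j - b2 ^ 3) ^ 2) =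
        (S.j - a1 ^ 3) * (a2 - b2) ^ 3 / ((S.j - b1 ^ 3) * (S.j - b2 ^ 3) ^ 2) := by
      rw [div_mul_div_comm]
    rw [e1, e2] at hr
    linear_combination hr
  exact ⟨{ Z := S.Z, j := S.j, la := S.la, a := S.a, y := S.y, a1 := a1, b1 := b1, a2 := a2, b2 := b2,
           s := s, j0 := S.j0, la0 := S.la0, la1 := S.la1, a0 := S.a0, s0 := s0, h1 := h12, h2 := h34,
           nc := nc, rel := hrel, gen := hgen, dim := S.dim }, rfl⟩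

end CZT
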