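import Pool.Agent.CZT.F0
import Pool.Agent.CZT.F3

/-!
# CZT/FC: the last variables (5.7)

`Vr S d1 al d2 sg pi ph`: `d1 = a1-b1`, `al = a2-a1`, `d2 = a2-b2`, `sg = j s (1-la)/(j-b1³)`, `pi = - j s la/(j-b2³)`, `ph = (a³-a)/j`.
`eqE`: divide `rel`: `(s(1-la))(-(s la)) = sg pi (j-b1³)(j-b2³)/j²`; `b2 - a1 = al - d2`.
`vr_gen`: the nine generators of stage 4 lie in `adjoin k {j, a1, a, d1, al, d2, sg, pi, y}`: `b1 = a1-d1`, `a2 = a1+al`, `b2 = a2-d2`,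
`s(1-la) = sg (j-b1³)/j`, `s la = - pi (j-b2³)/j`, `s` = their sum, `la = (s la)/s`.
-/

set_option autoImplicit false

namespace CZT

open IntermediateField

universe u v

variable {k : Type u} {R : Type v} [Field k] [Field R] [Algebra k R]

/-- the new variables -/
structure Vr (S : S4 k R) (d1 al d2 sg pi ph : R) : Prop where
  hd1 : d1 = S.a1 - S.b1
  hal : al = S.a2 - S.a1
  hd2 : d2 = S.a2 - S.b2
  hsg : sg = S.j * (S.s * (1 - S.la)) / (S.j - S.b1 ^ 3)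
  hpi : pi = S.j * (-(S.s * S.la)) / (S.j - S.b2 ^ 3)
  hph : ph = (S.a ^ 3 - S.a) / S.j

theorem vr_ne (S : S4 k R) {d1 al d2 sg pi ph : R} (h : Vr S d1 al d2 sg pi ph) :
    d1 ≠ 0 ∧ d2 ≠ 0 ∧ sg ≠ 0 ∧ pi ≠ 0 ∧ ph ≠ 0 := by
  refine ⟨?_, ?_, ?_, ?_, ?_⟩
  · rw [h.hd1]
    exact sub_ne_zero.2 S.h1
  · rw [h.hd2]
    exact sub_ne_zero.2 S.h2
  · rw [h.hsg]
    exact div_ne_zero (mul_ne_zero S.j0 (mul_ne_zero S.s0 (sub_ne_zero.2 (Ne.symm S.la1)))) (S.nc _)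
  · rw [h.hpi]
    exact div_ne_zero (mul_ne_zero S.j0 (neg_ne_zero.2 (mul_ne_zero S.s0 S.la0))) (S.nc _)
  · rw [h.hph]
    exact div_ne_zero S.a0 S.j0

/-- the formula behind `eqE` -/
private theorem FC_alg {F : Type v} [Field F] (j X Y B1 B2 A1 A2 c d1 d2 al : F) (hj : j ≠ 0) (h1 : B1 ≠ 0) (h2 : B2 ≠ 0) :
    X * Y * (j ^ 2 * (A1 * (d1 + d2) - al ^ 2 * d1 * (al - d2)) / (B1 * B2) -
      c * j ^ 2 * (X * (A2 * d1 ^ 3 / (B1 ^ 2 * B2)) + Y * (A1 * d2 ^ 3 / (B1 * B2 ^ 2)))) =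
    (j * X / B1) * (j * Y / B2) * (A1 * (d1 + d2) - al ^ 2 * d1 * (al - d2) -
      c / j * ((j * X / B1) * A2 * d1 ^ 3 + (j * Y / B2) * A1 * d2 ^ 3)) := by
  field_simp

/-- (E) -/
theorem eqE (S : S4 k R) {d1 al d2 sg pi ph : R} (h : Vr S d1 al d2 sg pi ph) :
    ph * S.y ^ 3 + S.y ^ 2 - 1 = sg * pi * ((S.j - S.a1 ^ 3) * (d1 + d2) - al ^ 2 * d1 * (al - d2) -
      ph * (sg * (S.j - S.a2 ^ 3) * d1 ^ 3 + pi * (S.j - S.a1 ^ 3) * d2 ^ 3)) := by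
  have h0 : ph * S.y ^ 3 + S.y ^ 2 - 1 = S.y ^ 2 - 1 + (S.a ^ 3 - S.a) / S.j * S.y ^ 3 := by
    rw [h.hph]
    ring
  have h1 : S.b2 - S.a1 = al - d2 := by
    rw [h.hal, h.hd2]
    ring
  rw [h0, S.rel, h1, ← h.hd1, ← h.hd2, ← h.hal,
    FC_alg S.j (S.s * (1 - S.la)) (-(S.s * S.la)) (S.j - S.b1 ^ 3) (S.j - S.b2 ^ 3) (S.j - S.a1 ^ 3) (S.j - S.a2 ^ 3)
      (S.a ^ 3 - S.a) d1 d2 al S.j0 (S.nc _) (S.nc _), ← h.hsg, ← h.hpi, ← h.hph]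

theorem vr_gen (S : S4 k R) {d1 al d2 sg pi ph : R} (h : Vr S d1 al d2 sg pi ph) {L : IntermediateField k R} (hj : S.j ∈ L)
    (h1 : S.a1 ∈ L) (ha : S.a ∈ L) (hy : S.y ∈ L) (hd1 : d1 ∈ L) (hal : al ∈ L) (hd2 : d2 ∈ L) (hsg : sg ∈ L)
    (hpi : pi ∈ L) : S.Z ≤ L := by
  have hb1 : S.b1 ∈ L := by
    have e : S.b1 = S.a1 - d1 := by
      rw [h.hd1]
      ring
    rw [e]
    exact sub_mem h1 hd1
  have ha2 : S.a2 ∈ L := by
    have e : S.a2 = S.a1 + al := by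
      rw [h.hal]
      ring
    rw [e]
    exact add_mem h1 hal
  have hb2 : S.b2 ∈ L := by
    have e : S.b2 = S.a2 - d2 := by
      rw [h.hd2]
      ring
    rw [e]
    exact sub_mem ha2 hd2
  have hX : S.s * (1 - S.la) ∈ L := by
    have e : S.s * (1 - S.la) = sg * (S.j - S.b1 ^ 3) / S.j := by
      rw [h.hsg, div_mul_cancel₀ _ (S.nc _), mul_div_cancel_left₀ _ S.j0]
    rw [e]
    exact div_mem (mul_mem hsg (sub_mem hj (pow_mem hb1 3))) hj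
  have hY : S.s * S.la ∈ L := by
    have e : S.s * S.la = -(pi * (S.j - S.b2 ^ 3) / S.j) := by
      rw [h.hpi, div_mul_cancel₀ _ (S.nc _), mul_div_cancel_left₀ _ S.j0, neg_neg]
    rw [e]
    exact neg_mem (div_mem (mul_mem hpi (sub_mem hj (pow_mem hb2 3))) hj)
  have hs : S.s ∈ L := by
    have e : S.s = S.s * (1 - S.la) + S.s * S.la := by ring
    rw [e]
    exact add_mem hX hY
  have hla : S.la ∈ L := by
    have e : S.la = S.s * S.la / S.s := by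
      rw [mul_div_cancel_left₀ _ S.s0]
    rw [e]
    exact div_mem hY hs
  rw [← S.gen, adjoin_le_iff]
  intro x hx
  simp only [Set.mem_insert_iff, Set.mem_singleton_iff] at hx
  rcases hx with rfl | rfl | rfl | rfl | rfl | rfl | rfl | rfl | rfl
  · exact hj
  · exact hla
  · exact ha
  · exact hy
  · exact h1
  · exact hb1
  · exact ha2
  · exact hb2
  · exact hs

end CZT
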