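import Pool.Agent.CZT.FC

/-!
# CZT/FD: the non-vanishing statements of 5.8

`al = a2 - a1`, `j - a2³ = j - (a1+al)³ ≠ 0` (`S.nc`).
`nvS`: if `1 = ph sg d1²` then `sg = 1/(ph d1²) ∈ adjoin k {j, a1, a, d1, al, d2, pi} =: L7` (`ph = (a³-a)/j`), so `Z ≤ adjoin k {j, a1, a, d1, al, d2, pi, y}`
(`vr_gen`) and `y` is algebraic over `L7` by `eqE` (`alg_poly3`, coefficient of `y²` is `1`): `dim7`.
`nvC`: if `ph y³+y²-1 = 0` then by `eqE` (as `sg pi ≠ 0`) `sg = ((j-a1³)(d1+d2) - al² d1 (al-d2) - ph pi (j-a1³) d2³)/(ph (j-a2³) d1³) ∈ L7`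
(`a2 = a1 + al`) and `y` is algebraic over `L7` by the equation itself: `dim7`.
-/

set_option autoImplicit false

namespace CZT

open IntermediateField

universe u v

variable {k : Type u} {R : Type v} [Field k] [Field R] [Algebra k R] [CharP R 3]

omit [CharP R 3] in
private theorem FD_ph (S : S4 k R) {d1 al d2 sg pi ph : R} (h : Vr S d1 al d2 sg pi ph) :
    ph ∈ adjoin k ({S.j, S.a1, S.a, d1, al, d2, pi} : Set R) := by
  rw [h.hph]
  have ha : S.a ∈ adjoin k ({S.j, S.a1, S.a, d1, al, d2, pi} : Set R) := subset_adjoin k _ (by simp)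
  have hj : S.j ∈ adjoin k ({S.j, S.a1, S.a, d1, al, d2, pi} : Set R) := subset_adjoin k _ (by simp)
  exact div_mem (sub_mem (pow_mem ha 3) ha) hj

private theorem FD_dim (S : S4 k R) {d1 al d2 sg pi ph : R} (h : Vr S d1 al d2 sg pi ph)
    (hsg : sg ∈ adjoin k ({S.j, S.a1, S.a, d1, al, d2, pi} : Set R)) : False := by
  have hph := FD_ph S h
  set L := adjoin k ({S.j, S.a1, S.a, d1, al, d2, pi} : Set R) with hL
  have hj : S.j ∈ L := subset_adjoin k _ (by simp)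
  have ha1 : S.a1 ∈ L := subset_adjoin k _ (by simp)
  have hd1 : d1 ∈ L := subset_adjoin k _ (by simp)
  have hal : al ∈ L := subset_adjoin k _ (by simp)
  have hd2 : d2 ∈ L := subset_adjoin k _ (by simp)
  have hpi : pi ∈ L := subset_adjoin k _ (by simp)
  have ha2 : S.a2 ∈ L := by
    have e : S.a2 = S.a1 + al := by
      rw [h.hal]
      ring
    rw [e]
    exact add_mem ha1 hal
  have hc0 : -1 - sg * pi * ((S.j - S.a1 ^ 3) * (d1 + d2) - al ^ 2 * d1 * (al - d2) -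
      ph * (sg * (S.j - S.a2 ^ 3) * d1 ^ 3 + pi * (S.j - S.a1 ^ 3) * d2 ^ 3)) ∈ L := by
    refine sub_mem (neg_mem (one_mem _)) (mul_mem (mul_mem hsg hpi) (sub_mem (sub_mem ?_ ?_) (mul_mem hph (add_mem ?_ ?_))))
    · exact mul_mem (sub_mem hj (pow_mem ha1 3)) (add_mem hd1 hd2)
    · exact mul_mem (mul_mem (pow_mem hal 2) hd1) (sub_mem hal hd2)
    · exact mul_mem (mul_mem hsg (sub_mem hj (pow_mem ha2 3))) (pow_mem hd1 3)
    · exact mul_mem (mul_mem hpi (sub_mem hj (pow_mem ha1 3))) (pow_mem hd2 3)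
  have halg : IsAlgebraic L S.y := by
    refine alg_poly3 L hc0 (zero_mem _) (one_mem _) hph (Or.inr (Or.inl one_ne_zero)) ?_
    have he := eqE S h
    linear_combination he
  have hle : L ≤ adjoin k ({S.j, S.a1, S.a, d1, al, d2, pi, S.y} : Set R) := by
    rw [hL]
    refine adjoin.mono _ _ _ ?_
    intro x hx
    simp only [Set.mem_insert_iff, Set.mem_singleton_iff] at hx ⊢
    tauto
  refine dim7 S.dim S.j S.a1 S.a d1 al d2 pi S.y halg ?_
  exact vr_gen S h (hle hj) (hle ha1) (subset_adjoin k _ (by simp)) (subset_adjoin k _ (by simp)) (hle hd1) (hle hal)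
    (hle hd2) (hle hsg) (hle hpi)

theorem nvS (S : S4 k R) {d1 al d2 sg pi ph : R} (h : Vr S d1 al d2 sg pi ph) : 1 - ph * sg * d1 ^ 2 ≠ 0 := by
  intro h0
  obtain ⟨d10, -, -, -, ph0⟩ := vr_ne S h
  have e : sg = 1 / (ph * d1 ^ 2) := by
    rw [eq_div_iff (mul_ne_zero ph0 (pow_ne_zero 2 d10))]
    linear_combination -h0
  refine FD_dim S h ?_
  rw [e]
  exact div_mem (one_mem _) (mul_mem (FD_ph S h) (pow_mem (subset_adjoin k _ (by simp)) 2))

theorem nvC (S : S4 k R) {d1 al d2 sg pi ph : R} (h : Vr S d1 al d2 sg pi ph) : ph * S.y ^ 3 + S.y ^ 2 - 1 ≠ 0 := by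
  intro h0
  obtain ⟨d10, -, sg0, pi0, ph0⟩ := vr_ne S h
  have he := eqE S h
  rw [h0] at he
  have hX := (mul_eq_zero.1 he.symm).resolve_left (mul_ne_zero sg0 pi0)
  have hne : ph * (S.j - S.a2 ^ 3) * d1 ^ 3 ≠ 0 := mul_ne_zero (mul_ne_zero ph0 (S.nc _)) (pow_ne_zero 3 d10)
  have e : sg = ((S.j - S.a1 ^ 3) * (d1 + d2) - al ^ 2 * d1 * (al - d2) - ph * (pi * (S.j - S.a1 ^ 3) * d2 ^ 3)) /
      (ph * (S.j - S.a2 ^ 3) * d1 ^ 3) := by
    rw [eq_div_iff hne]
    linear_combination -hX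
  have hph := FD_ph S h
  refine FD_dim S h ?_
  have hj : S.j ∈ adjoin k ({S.j, S.a1, S.a, d1, al, d2, pi} : Set R) := subset_adjoin k _ (by simp)
  have ha1 : S.a1 ∈ adjoin k ({S.j, S.a1, S.a, d1, al, d2, pi} : Set R) := subset_adjoin k _ (by simp)
  have hd1 : d1 ∈ adjoin k ({S.j, S.a1, S.a, d1, al, d2, pi} : Set R) := subset_adjoin k _ (by simp)
  have hal : al ∈ adjoin k ({S.j, S.a1, S.a, d1, al, d2, pi} : Set R) := subset_adjoin k _ (by simp)
  have hd2 : d2 ∈ adjoin k ({S.j, S.a1, S.a, d1, al, d2, pi} : Set R) := subset_adjoin k _ (by simp)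
  have hpi : pi ∈ adjoin k ({S.j, S.a1, S.a, d1, al, d2, pi} : Set R) := subset_adjoin k _ (by simp)
  have ha2 : S.a2 ∈ adjoin k ({S.j, S.a1, S.a, d1, al, d2, pi} : Set R) := by
    have e2 : S.a2 = S.a1 + al := by
      rw [h.hal]
      ring
    rw [e2]
    exact add_mem ha1 hal
  rw [e]
  refine div_mem (sub_mem (sub_mem ?_ ?_) (mul_mem hph ?_)) ?_
  · exact mul_mem (sub_mem hj (pow_mem ha1 3)) (add_mem hd1 hd2)
  · exact mul_mem (mul_mem (pow_mem hal 2) hd1) (sub_mem hal hd2)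
  · exact mul_mem (mul_mem hpi (sub_mem hj (pow_mem ha1 3))) (pow_mem hd2 3)
  · exact mul_mem (mul_mem hph (sub_mem hj (pow_mem ha2 3))) (pow_mem hd1 3)

end CZT
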