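import Pool.Agent.CZT.FD

/-!
# CZT/FE: the last change of variables (5.8)

With `U = 1 - ph sg d1²`, `W = 1 - ph pi d2²`, `X = d2/(U d1)` the relation (E) becomes linear in `U/(1-U)` (`e58`), so
`j, a1, a, y, d1, al, X, W` generate `Z`.
-/

set_option autoImplicit false

namespace CZT

open IntermediateField

universe u v

variable {k : Type u} {R : Type v} [Field k] [Field R] [Algebra k R] [CharP R 3]

theorem e58 {i al d1 d2 sg pi ph C : R} (h1 : d1 ≠ 0) (h2 : d2 ≠ 0) (hs : sg ≠ 0) (hp : pi ≠ 0) (hph : ph ≠ 0)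
    (hU : 1 - ph * sg * d1 ^ 2 ≠ 0)
    (hE : C = sg * pi * (i * (d1 + d2) - al ^ 2 * d1 * (al - d2) - ph * (sg * (i - al ^ 3) * d1 ^ 3 + pi * i * d2 ^ 3))) :
    (i - al ^ 3) * (1 + d2 / ((1 - ph * sg * d1 ^ 2) * d1) * (1 - ph * pi * d2 ^ 2)) =
      d2 / ((1 - ph * sg * d1 ^ 2) * d1) *
        (C * ph ^ 2 * d1 ^ 3 * (d2 / ((1 - ph * sg * d1 ^ 2) * d1)) / (ph * pi * d2 ^ 2) *
          ((1 - ph * sg * d1 ^ 2) / (ph * sg * d1 ^ 2)) - al ^ 2 * d1 - al ^ 3 * (1 - ph * pi * d2 ^ 2)) := by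
  rw [hE]
  field_simp
  ring

private theorem FE_gen (S : S4 k R) :
    S.j ∈ S.Z ∧ S.la ∈ S.Z ∧ S.a ∈ S.Z ∧ S.y ∈ S.Z ∧ S.a1 ∈ S.Z ∧ S.b1 ∈ S.Z ∧ S.a2 ∈ S.Z ∧ S.b2 ∈ S.Z ∧
      S.s ∈ S.Z := by
  have h : ∀ r ∈ ({S.j, S.la, S.a, S.y, S.a1, S.b1, S.a2, S.b2, S.s} : Set R), r ∈ S.Z := by
    intro r hr
    rw [← S.gen]
    exact subset_adjoin k _ hr
  refine ⟨h _ ?_, h _ ?_, h _ ?_, h _ ?_, h _ ?_, h _ ?_, h _ ?_, h _ ?_, h _ ?_⟩ <;> simp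

theorem s4_main (S : S4 k R) : ∃ T : Fin 8 → R, adjoin k (Set.range T) = S.Z := by
  obtain ⟨d1, hd1⟩ : ∃ d1, d1 = S.a1 - S.b1 := ⟨_, rfl⟩
  obtain ⟨al, hal⟩ : ∃ al, al = S.a2 - S.a1 := ⟨_, rfl⟩
  obtain ⟨d2, hd2⟩ : ∃ d2, d2 = S.a2 - S.b2 := ⟨_, rfl⟩
  obtain ⟨sg, hsg⟩ : ∃ sg, sg = S.j * (S.s * (1 - S.la)) / (S.j - S.b1 ^ 3) := ⟨_, rfl⟩
  obtain ⟨pi, hpi⟩ : ∃ pi, pi = S.j * (-(S.s * S.la)) / (S.j - S.b2 ^ 3) := ⟨_, rfl⟩
  obtain ⟨ph, hph⟩ : ∃ ph, ph = (S.a ^ 3 - S.a) / S.j := ⟨_, rfl⟩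
  have hV : Vr S d1 al d2 sg pi ph := ⟨hd1, hal, hd2, hsg, hpi, hph⟩
  obtain ⟨n1, n2, n3, n4, n5⟩ := vr_ne S hV
  have nU := nvS S hV
  have nC := nvC S hV
  have hE := eqE S hV
  have h3 : (3 : R) = 0 := by
    have := CharP.cast_eq_zero R 3
    exact_mod_cast this
  have hal3 : S.j - S.a2 ^ 3 = (S.j - S.a1 ^ 3) - al ^ 3 := by
    rw [hal]
    linear_combination (-(S.a2 ^ 2 * S.a1) + S.a2 * S.a1 ^ 2) * h3
  rw [hal3] at hE
  obtain ⟨U, hU⟩ : ∃ U, U = 1 - ph * sg * d1 ^ 2 := ⟨_, rfl⟩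
  obtain ⟨W, hW⟩ : ∃ W, W = 1 - ph * pi * d2 ^ 2 := ⟨_, rfl⟩
  obtain ⟨X, hX⟩ : ∃ X, X = d2 / (U * d1) := ⟨_, rfl⟩
  have key := e58 n1 n2 n3 n4 n5 nU hE
  rw [← hU, ← hW, ← hX] at key
  rw [← hU] at nU
  have hU1 : ph * sg * d1 ^ 2 = 1 - U := by rw [hU]; ring
  have hW1 : ph * pi * d2 ^ 2 = 1 - W := by rw [hW]; ring
  have hU1n : 1 - U ≠ 0 := by
    rw [← hU1]
    exact mul_ne_zero (mul_ne_zero n5 n3) (pow_ne_zero _ n1)
  have hW1n : 1 - W ≠ 0 := by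
    rw [← hW1]
    exact mul_ne_zero (mul_ne_zero n5 n4) (pow_ne_zero _ n2)
  have hXn : X ≠ 0 := by
    rw [hX]
    exact div_ne_zero n2 (mul_ne_zero nU n1)
  rw [hU1, hW1] at key
  obtain ⟨zj, zla, za, zy, za1, zb1, za2, zb2, zs⟩ := FE_gen S
  have zd1 : d1 ∈ S.Z := by rw [hd1]; exact sub_mem za1 zb1
  have zal : al ∈ S.Z := by rw [hal]; exact sub_mem za2 za1
  have zd2 : d2 ∈ S.Z := by rw [hd2]; exact sub_mem za2 zb2
  have zsg : sg ∈ S.Z := by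
    rw [hsg]
    exact div_mem (mul_mem zj (mul_mem zs (sub_mem (one_mem _) zla))) (sub_mem zj (pow_mem zb1 3))
  have zpi : pi ∈ S.Z := by
    rw [hpi]
    exact div_mem (mul_mem zj (neg_mem (mul_mem zs zla))) (sub_mem zj (pow_mem zb2 3))
  have zph : ph ∈ S.Z := by
    rw [hph]
    exact div_mem (sub_mem (pow_mem za 3) za) zj
  have zU : U ∈ S.Z := by
    rw [hU]
    exact sub_mem (one_mem _) (mul_mem (mul_mem zph zsg) (pow_mem zd1 2))
  have zW : W ∈ S.Z := by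
    rw [hW]
    exact sub_mem (one_mem _) (mul_mem (mul_mem zph zpi) (pow_mem zd2 2))
  have zX : X ∈ S.Z := by
    rw [hX]
    exact div_mem zd2 (mul_mem zU zd1)
  refine ⟨![S.j, S.a1, S.a, S.y, d1, al, X, W], le_antisymm ?_ ?_⟩
  · rw [adjoin_le_iff]
    rintro r ⟨n, rfl⟩
    fin_cases n
    · exact zj
    · exact za1
    · exact za
    · exact zy
    · exact zd1
    · exact zal
    · exact zX
    · exact zW
  · obtain ⟨L, hL⟩ : ∃ L, L = adjoin k (Set.range ![S.j, S.a1, S.a, S.y, d1, al, X, W]) := ⟨_, rfl⟩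
    have hm : ∀ n : Fin 8, (![S.j, S.a1, S.a, S.y, d1, al, X, W] : Fin 8 → R) n ∈ L := by
      intro n
      rw [hL]
      exact subset_adjoin k _ ⟨n, rfl⟩
    rw [← hL]
    have lj : S.j ∈ L := hm 0
    have la1 : S.a1 ∈ L := hm 1
    have la : S.a ∈ L := hm 2
    have ly : S.y ∈ L := hm 3
    have ld1 : d1 ∈ L := hm 4
    have lal : al ∈ L := hm 5
    have lX : X ∈ L := hm 6
    have lW : W ∈ L := hm 7
    have lph : ph ∈ L := by
      rw [hph]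
      exact div_mem (sub_mem (pow_mem la 3) la) lj
    have lC : ph * S.y ^ 3 + S.y ^ 2 - 1 ∈ L :=
      sub_mem (add_mem (mul_mem lph (pow_mem ly 3)) (pow_mem ly 2)) (one_mem _)
    have li : S.j - S.a1 ^ 3 ∈ L := sub_mem lj (pow_mem la1 3)
    have ht : U / (1 - U) = (((S.j - S.a1 ^ 3) - al ^ 3) * (1 + X * W) / X + al ^ 2 * d1 + al ^ 3 * W) * (1 - W) /
        ((ph * S.y ^ 3 + S.y ^ 2 - 1) * ph ^ 2 * d1 ^ 3 * X) := by
      rw [key]
      generalize ph * S.y ^ 3 + S.y ^ 2 - 1 = c at nC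
      field_simp
      ring
    have lt : U / (1 - U) ∈ L := by
      rw [ht]
      refine div_mem (mul_mem (add_mem (add_mem (div_mem (mul_mem (sub_mem li (pow_mem lal 3))
        (add_mem (one_mem _) (mul_mem lX lW))) lX) (mul_mem (pow_mem lal 2) ld1)) (mul_mem (pow_mem lal 3) lW))
        (sub_mem (one_mem _) lW)) ?_
      exact mul_mem (mul_mem (mul_mem lC (pow_mem lph 2)) (pow_mem ld1 3)) lX
    have lU : U ∈ L := by
      have h4 : U = (U / (1 - U)) / (1 + U / (1 - U)) := by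
        have h5 : 1 + U / (1 - U) = 1 / (1 - U) := by
          field_simp
          ring
        rw [h5]
        field_simp
      rw [h4]
      exact div_mem lt (add_mem (one_mem _) lt)
    have ld2 : d2 ∈ L := by
      have h4 : d2 = X * (U * d1) := by
        rw [hX]
        field_simp
      rw [h4]
      exact mul_mem lX (mul_mem lU ld1)
    have lsg : sg ∈ L := by
      have h4 : sg = (1 - U) / (ph * d1 ^ 2) := by
        rw [← hU1]
        field_simp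
      rw [h4]
      exact div_mem (sub_mem (one_mem _) lU) (mul_mem lph (pow_mem ld1 2))
    have lpi : pi ∈ L := by
      have h4 : pi = (1 - W) / (ph * d2 ^ 2) := by
        rw [← hW1]
        field_simp
      rw [h4]
      exact div_mem (sub_mem (one_mem _) lW) (mul_mem lph (pow_mem ld2 2))
    exact vr_gen S hV lj la1 la ly ld1 lal ld2 lsg lpi

end CZT
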