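import Pool.Agent.CZT.F6
import Pool.Agent.CZT.FB
import Pool.Agent.CZT.FE

/-!
# CZT/FM: PART 5 from stage 2 on (assembly)
-/

set_option autoImplicit false

namespace CZT

open IntermediateField

universe u v

variable {k : Type u} {R : Type v} [Field k] [Field R] [Algebra k R] [CharP R 3]

theorem s2_main (S : S2 k R) : ∃ T : Fin 8 → R, adjoin k (Set.range T) = S.Z := by
  obtain ⟨S3, h3⟩ := s2_s3 S
  obtain ⟨S4, h4⟩ := s3_s4 S3
  obtain ⟨T, hT⟩ := s4_main S4
  exact ⟨T, by rw [hT, h4, h3]⟩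

end CZT
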